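import Pool.Agent.BadG.AutThm

set_option autoImplicit false

/-! BG24. The set-up `Act`: the stabilizers `R B` of the Borel subgroups, the kernel `C`, Frattini. -/

namespace Pool.Agent.BadG

open Function

variable {X : Type} [RU X] {Γ S : Type} [RS X Γ] [RS X S] [Group Γ] [Group S] [Bad S] [DG Γ]
  (𝒜 : Act Γ S)

theorem mem_R {B : Subgroup S} {g : Γ} : g ∈ 𝒜.R B ↔ ∀ x, 𝒜.act g x ∈ B ↔ x ∈ B := Iff.rfl

theorem mem_C {g : Γ} : g ∈ 𝒜.C ↔ ∀ x, 𝒜.act g x = x := by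
  rw [Act.C, MonoidHom.mem_ker]
  constructor
  · intro h x
    rw [h, MulAut.one_apply]
  · intro h
    ext x
    rw [h x, MulAut.one_apply]

theorem act_defMap (g : Γ) : DefMap (𝒜.act g) := by
  exact 𝒜.d_act.comp (f := fun x : S => (g, x)) (DefMap.prodMk (DefMap.const g) DefMap.id)

/-- `(g, x) ↦ act g x` inside other definable maps. -/
theorem DefMap.act {E : Type} [RS X E] {f : E → Γ} {h : E → S} (hf : DefMap f) (hh : DefMap h) :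
    DefMap (fun e => 𝒜.act (f e) (h e)) := by
  exact 𝒜.d_act.comp (f := fun e : E => (f e, h e)) (DefMap.prodMk hf hh)

theorem Df_R {B : Subgroup S} (hB : Df (B : Set S)) : Df (𝒜.R B : Set Γ) := by
  exact Df.all (P := fun (g : Γ) (x : S) => 𝒜.act g x ∈ B ↔ x ∈ B)
    (Df.iff (Df.mem hB 𝒜.d_act) (Df.mem hB DefMap.snd))

theorem Df_C : Df (𝒜.C : Set Γ) := by
  have h1 : (𝒜.C : Set Γ) = {g | ∀ x, 𝒜.act g x = x} := by
    ext g
    exact mem_C 𝒜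
  rw [h1]
  exact Df.all (P := fun (g : Γ) (x : S) => 𝒜.act g x = x) (Df.eq 𝒜.d_act DefMap.snd)

/-- `act (ι s)` is conjugation by `s`; `eq_one_of_central`. -/
theorem ι_injective : Injective 𝒜.ι := by
  rw [injective_iff_map_eq_one]
  intro s hs
  refine eq_one_of_central fun y => ?_
  have h1 := 𝒜.act_ι s y
  rw [hs, map_one, MulAut.one_apply] at h1
  exact (mul_inv_eq_iff_eq_mul.1 h1.symm)

theorem C_le_R (B : Subgroup S) : 𝒜.C ≤ 𝒜.R B := by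
  intro g hg x
  rw [(mem_C 𝒜).1 hg x]

/-- `Borel.self_norm`. -/
theorem ι_mem_R {B : Subgroup S} (hB : Borel B) {s : S} : 𝒜.ι s ∈ 𝒜.R B ↔ s ∈ B := by
  constructor
  · intro h
    refine hB.self_norm fun x => ?_
    rw [← 𝒜.act_ι]
    exact h x
  · intro h x
    rw [𝒜.act_ι, Subgroup.mul_mem_cancel_right B (B.inv_mem h), Subgroup.mul_mem_cancel_left B h]

/-- `act (g k g⁻¹)` normalizes `act g (B)` iff `act k` normalizes `B`. -/
theorem mem_R_map {B : Subgroup S} {g k : Γ} :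
    k ∈ 𝒜.R (B.map (𝒜.act g).toMonoidHom) ↔ g⁻¹ * k * g ∈ 𝒜.R B := by
  have key : ∀ x : S, x ∈ B.map (𝒜.act g).toMonoidHom ↔ 𝒜.act g⁻¹ x ∈ B := by
    intro x
    constructor
    · rintro ⟨y, hy, rfl⟩
      have h1 : 𝒜.act g⁻¹ ((𝒜.act g) y) = y := by
        rw [← MulAut.mul_apply, ← map_mul, inv_mul_cancel, map_one, MulAut.one_apply]
      have h2 : 𝒜.act g⁻¹ ((𝒜.act g).toMonoidHom y) = y := h1
      rw [h2]
      exact hy
    · intro h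
      refine ⟨𝒜.act g⁻¹ x, h, ?_⟩
      have h1 : 𝒜.act g (𝒜.act g⁻¹ x) = x := by
        rw [← MulAut.mul_apply, ← map_mul, mul_inv_cancel, map_one, MulAut.one_apply]
      exact h1
  rw [mem_R, mem_R]
  constructor
  · intro h y
    have h1 := h (𝒜.act g y)
    rw [key, key, ← MulAut.mul_apply, ← MulAut.mul_apply, ← MulAut.mul_apply, ← map_mul,
      ← map_mul, ← map_mul, inv_mul_cancel, map_one, MulAut.one_apply] at h1
    exact h1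
  · intro h x
    have h1 := h (𝒜.act g⁻¹ x)
    rw [← MulAut.mul_apply, ← map_mul, mul_assoc, mul_inv_cancel, mul_one, map_mul,
      MulAut.mul_apply] at h1
    rw [key, key]
    exact h1

/-- Theorem (A) for `act g`. -/
theorem exists_R (g : Γ) : ∃ B : Subgroup S, Borel B ∧ g ∈ 𝒜.R B := by
  obtain ⟨B, hB, h⟩ := aut_exists (act_defMap 𝒜 g)
  exact ⟨B, hB, h⟩

theorem mem_C_of_mem {B₁ B₂ : Subgroup S} (h1 : Borel B₁) (h2 : Borel B₂) (hne : B₁ ≠ B₂) {g : Γ}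
    (m1 : g ∈ 𝒜.R B₁) (m2 : g ∈ 𝒜.R B₂) : g ∈ 𝒜.C := by
  by_contra hg
  exact hne (aut_unique (act_defMap 𝒜 g) (fun h => hg (MonoidHom.mem_ker.2 h)) h1 h2 m1 m2)

/-- `act g` of order two: `no_inv`. -/
theorem mem_C_of_sq {g : Γ} (h : g * g ∈ 𝒜.C) : g ∈ 𝒜.C := by
  have h1 : 𝒜.act g * 𝒜.act g = 1 := by
    rw [← map_mul]
    exact MonoidHom.mem_ker.1 h
  exact MonoidHom.mem_ker.2 (no_inv (act_defMap 𝒜 g) h1)

/-- **Frattini.** `act g (B)` is a Borel subgroup, conjugate to `B`. -/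
theorem frattini {B : Subgroup S} (hB : Borel B) (g : Γ) : ∃ s : S, ∃ r ∈ 𝒜.R B, g = 𝒜.ι s * r := by
  obtain ⟨s, hs⟩ := hB.conjugate (hB.map_aut (act_defMap 𝒜 g))
  refine ⟨s, 𝒜.ι s⁻¹ * g, ?_, ?_⟩
  · intro x
    rw [map_mul, MulAut.mul_apply, 𝒜.act_ι, inv_inv]
    have h1 : 𝒜.act g x ∈ B.map (𝒜.act g).toMonoidHom ↔ x ∈ B := by
      constructor
      · rintro ⟨y, hy, h⟩
        have h2 : y = x := (𝒜.act g).injective h
        rw [← h2]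
        exact hy
      · intro h
        exact ⟨x, h, rfl⟩
    rw [← h1, hs]
    constructor
    · intro h
      refine ⟨_, h, ?_⟩
      change s * (s⁻¹ * 𝒜.act g x * s) * s⁻¹ = 𝒜.act g x
      group
    · rintro ⟨y, hy, h⟩
      have h2 : s * y * s⁻¹ = 𝒜.act g x := h
      rw [← h2]
      have h3 : s⁻¹ * (s * y * s⁻¹) * s = y := by group
      rw [h3]
      exact hy
  · rw [← mul_assoc, ← map_mul, mul_inv_cancel, map_one, one_mul]

/-- `S × R B → Γ`, `(s, r) ↦ ι(s) r` is onto with fibres of rank `rk B` (`rk_map_eq`); or `rk_mul_sub` for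
`𝒜.ι.range` and `𝒜.R B` with `rk (𝒜.ι.range ⊓ 𝒜.R B) = rk B` and `rk 𝒜.ι.range = rk S` (`rk_image_inj`). -/
theorem rk_frattini {B : Subgroup S} (hB : Borel B) : rk (Set.univ : Set Γ) + rk (B : Set S) =
    rk (Set.univ : Set S) + rk (𝒜.R B : Set Γ) := by
  have hr : ((𝒜.ι.range : Subgroup Γ) : Set Γ) = 𝒜.ι '' ((⊤ : Subgroup S) : Set S) := by
    rw [MonoidHom.coe_range, Subgroup.coe_top, Set.image_univ]
  have hDr : Df ((𝒜.ι.range : Subgroup Γ) : Set Γ) := by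
    rw [hr]
    exact Df.im 𝒜.d_ι Df.top
  have h1 := rk_mul_sub hDr (Df_R 𝒜 hB.1.1)
  have h2 : {y : Γ | ∃ a ∈ (𝒜.ι.range : Subgroup Γ), ∃ b ∈ 𝒜.R B, y = a * b} = Set.univ := by
    refine Set.eq_univ_of_forall fun g => ?_
    obtain ⟨s, r, hr, h⟩ := frattini 𝒜 hB g
    exact ⟨𝒜.ι s, ⟨s, rfl⟩, r, hr, h⟩
  have h3 : ((𝒜.ι.range ⊓ 𝒜.R B : Subgroup Γ) : Set Γ) = 𝒜.ι '' (B : Set S) := by
    ext g
    constructor
    · rintro ⟨⟨s, rfl⟩, h⟩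
      exact ⟨s, (ι_mem_R 𝒜 hB).1 h, rfl⟩
    · rintro ⟨s, hs, rfl⟩
      exact ⟨⟨s, rfl⟩, (ι_mem_R 𝒜 hB).2 hs⟩
  have h4 : rk (𝒜.ι '' (B : Set S)) = rk (B : Set S) :=
    rk_image_inj hB.1.1 𝒜.d_ι ((ι_injective 𝒜).injOn)
  have h5 : rk ((𝒜.ι.range : Subgroup Γ) : Set Γ) = rk (Set.univ : Set S) := by
    rw [hr, rk_image_inj Df.top 𝒜.d_ι ((ι_injective 𝒜).injOn), Subgroup.coe_top]
  rw [h2, h3, h4, h5] at h1
  exact h1

/-- `ι(S) ∩ C = 1`: `rk_mul_sub`. -/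
theorem rk_S_add_C : rk {g : Γ | ∃ s : S, ∃ c ∈ 𝒜.C, g = 𝒜.ι s * c} =
    rk (Set.univ : Set S) + rk (𝒜.C : Set Γ) := by
  have hr : ((𝒜.ι.range : Subgroup Γ) : Set Γ) = 𝒜.ι '' ((⊤ : Subgroup S) : Set S) := by
    rw [MonoidHom.coe_range, Subgroup.coe_top, Set.image_univ]
  have hDr : Df ((𝒜.ι.range : Subgroup Γ) : Set Γ) := by
    rw [hr]
    exact Df.im 𝒜.d_ι Df.top
  have h1 := rk_mul_sub hDr (Df_C 𝒜)
  have h2 : {y : Γ | ∃ a ∈ (𝒜.ι.range : Subgroup Γ), ∃ b ∈ 𝒜.C, y = a * b} =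
      {g : Γ | ∃ s : S, ∃ c ∈ 𝒜.C, g = 𝒜.ι s * c} := by
    ext g
    constructor
    · rintro ⟨_, ⟨s, rfl⟩, b, hb, h⟩
      exact ⟨s, b, hb, h⟩
    · rintro ⟨s, b, hb, h⟩
      exact ⟨_, ⟨s, rfl⟩, b, hb, h⟩
  have h3 : ((𝒜.ι.range ⊓ 𝒜.C : Subgroup Γ) : Set Γ) ⊆ {1} := by
    rintro g ⟨⟨s, rfl⟩, h⟩
    have h4 : s = 1 := by
      refine eq_one_of_central fun y => ?_
      have h5 := 𝒜.act_ι s y
      rw [(mem_C 𝒜).1 h y] at h5
      exact mul_inv_eq_iff_eq_mul.1 h5.symm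
    rw [h4, map_one]
    exact Set.mem_singleton 1
  have h4 : rk ((𝒜.ι.range ⊓ 𝒜.C : Subgroup Γ) : Set Γ) = 0 :=
    rk_of_finite ((Set.finite_singleton 1).subset h3)
  have h5 : rk ((𝒜.ι.range : Subgroup Γ) : Set Γ) = rk (Set.univ : Set S) := by
    rw [hr, rk_image_inj Df.top 𝒜.d_ι ((ι_injective 𝒜).injOn), Subgroup.coe_top]
  rw [h2, h4, h5, add_zero] at h1
  exact h1

end Pool.Agent.BadG
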