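import Pool.Agent.BadG.Twist

set_option autoImplicit false

/-! BG22. Case two: every `x ↦ z φ(x) z⁻¹` which normalizes a Borel subgroup has a fixed point `≠ 1`
in it. -/

namespace Pool.Agent.BadG

open Function

variable {X : Type} [RU X] {S : Type} [RS X S] [Group S] [Bad S]

/-- Let `ψ ≠ 1` be a definable automorphism with fixed points `f₁ ≠ 1` in `B₁` and `f₂ ≠ 1` in `B₂`. Then
`B₁ = B₂`: the subgroup of the fixed points of `ψ` is definable and proper, hence nilpotent; let `w ≠ 1` be in its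
centre (`exists_central`). `w` commutes with `f₁`, `f₂`: `w ∈ B₁`, `w ∈ B₂` (`Borel.mem_of_comm`);
`Borel.eq_of_mem`. -/
theorem eq_of_fixed {ψ : MulAut S} (hψ : DefMap ψ) (hne : ψ ≠ 1) {B₁ B₂ : Subgroup S}
    (h1 : Borel B₁) (h2 : Borel B₂) {f₁ f₂ : S} (n1 : f₁ ≠ 1) (n2 : f₂ ≠ 1) (m1 : f₁ ∈ B₁)
    (m2 : f₂ ∈ B₂) (e1 : ψ f₁ = f₁) (e2 : ψ f₂ = f₂) : B₁ = B₂ := by
  let H : Subgroup S := ψ.toMonoidHom.eqLocus (MonoidHom.id S)
  have hmem : ∀ x, x ∈ H ↔ ψ x = x := fun x => Iff.rfl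
  have hH : Df (H : Set S) := by
    have h : Df {x : S | ψ x = x} := Df.eq hψ DefMap.id
    exact h
  have htop : H ≠ ⊤ := by
    intro h
    apply hne
    refine MulEquiv.ext fun x => ?_
    have hx : x ∈ H := by rw [h]; exact Subgroup.mem_top x
    exact (hmem x).1 hx
  have hnil : Group.IsNilpotent H := Bad.nil H hH htop
  have hbot : H ≠ ⊥ := by
    intro h
    have hx : f₁ ∈ H := (hmem f₁).2 e1
    rw [h, Subgroup.mem_bot] at hx
    exact n1 hx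
  obtain ⟨w, -, hw1, hw⟩ := exists_central hnil hbot
  have w1 : w ∈ B₁ := h1.mem_of_comm n1 m1 (hw f₁ ((hmem f₁).2 e1)).symm
  have w2 : w ∈ B₂ := h2.mem_of_comm n2 m2 (hw f₂ ((hmem f₂).2 e2)).symm
  exact h1.eq_of_mem h2 hw1 w1 w2

/-- `MulAut.conj z * φ = 1` would make `φ` inner; `eq_of_fixed`. -/
theorem case_two_unique {φ : MulAut S} (hφ : DefMap φ) (hni : ∀ s : S, φ ≠ MulAut.conj s)
    (h : ∀ B : Subgroup S, Borel B → ∀ z ∈ Tw φ B, ∃ x ∈ B, x ≠ 1 ∧ (MulAut.conj z * φ) x = x)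
    {B₁ B₂ : Subgroup S} (h1 : Borel B₁) (h2 : Borel B₂) {z : S} (z1 : z ∈ Tw φ B₁)
    (z2 : z ∈ Tw φ B₂) : B₁ = B₂ := by
  obtain ⟨f₁, m1, n1, e1⟩ := h B₁ h1 z z1
  obtain ⟨f₂, m2, n2, e2⟩ := h B₂ h2 z z2
  refine eq_of_fixed ((DefMap.aut_conj z).aut_mul hφ) ?_ h1 h2 n1 n2 m1 m2 e1 e2
  intro h0
  apply hni z⁻¹
  rw [map_inv]
  exact eq_inv_of_mul_eq_one_right h0

/-- Fix a Borel subgroup `B` and let `P = {(s, y) | s⁻¹ y φ(s) ∈ Tw φ B}`. For fixed `s` the fibre is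
`s (Tw φ B) φ(s)⁻¹`, of rank `rk B` (`rk_Tw`): `rk P ≥ rk S + rk B` (`add_le_rk`). All `y` are in `YY φ` (`mem_YY`). For
fixed `y` and `s₀`, `s` in the fibre: `y ∈ Tw φ (s₀ B s₀⁻¹)` and `y ∈ Tw φ (s B s⁻¹)` (`mem_Tw_conj`), so `s₀ B s₀⁻¹ = s B s⁻¹` by
`case_two_unique` and `s₀⁻¹ s ∈ B` (`Borel.self_norm`): the fibre is contained in `s₀ B`, of rank `rk B`.
`rk P ≤ rk (YY φ) + rk B` (`rk_le_add'`). -/
theorem case_two_rk {φ : MulAut S} (hφ : DefMap φ) (hni : ∀ s : S, φ ≠ MulAut.conj s)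
    (h : ∀ B : Subgroup S, Borel B → ∀ z ∈ Tw φ B, ∃ x ∈ B, x ≠ 1 ∧ (MulAut.conj z * φ) x = x) :
    rk (Set.univ : Set S) ≤ rk (YY φ) := by
  obtain ⟨B, hB⟩ := exists_borel (S := S)
  have hTw : Df (Tw φ B) := Df_Tw hφ hB.1.1
  have hφ' : DefMap (fun x : S => φ x) := hφ
  let P : Set (S × S) := {p : S × S | p.1⁻¹ * p.2 * φ p.1 ∈ Tw φ B}
  have hP : Df P := Df.mem hTw (by fun_prop)
  have huniv : Df (Set.univ : Set S) := by
    have h0 := Df.top (E := S)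
    rwa [Subgroup.coe_top] at h0
  have hfib : ∀ s : S, fib P s = (fun x => x * (φ s)⁻¹) '' ((fun x => s * x) '' Tw φ B) := by
    intro s
    ext y
    constructor
    · intro hy
      have hy' : s⁻¹ * y * φ s ∈ Tw φ B := hy
      refine ⟨s * (s⁻¹ * y * φ s), ⟨_, hy', rfl⟩, ?_⟩
      change s * (s⁻¹ * y * φ s) * (φ s)⁻¹ = y
      group
    · rintro ⟨-, ⟨t, ht, rfl⟩, rfl⟩
      change s⁻¹ * (s * t * (φ s)⁻¹) * φ s ∈ Tw φ B
      have h1 : s⁻¹ * (s * t * (φ s)⁻¹) * φ s = t := by group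
      rw [h1]
      exact ht
  have hlow : rk (Set.univ : Set S) + rk (B : Set S) ≤ rk P := by
    refine add_le_rk hP huniv ⟨1, Set.mem_univ _⟩ _ fun s _ => ?_
    rw [hfib s]
    refine ⟨((rk_Tw hφ hB).1.image _).image _, ?_⟩
    have hd : Df ((fun x => s * x) '' Tw φ B) := Df.im (by fun_prop) hTw
    rw [rk_mul_right _ hd, rk_mul_left _ hTw, (rk_Tw hφ hB).2]
  have hup : rk P ≤ rk (YY φ) + rk (B : Set S) := by
    refine rk_le_add' hP (Df_YY hφ) (fun p hp => (mem_YY hB).2 ⟨p.1, hp⟩) _ fun y _ => ?_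
    have hPy : Df {s : S | (s, y) ∈ P} := by
      have h0 : Df {s : S | s⁻¹ * y * φ s ∈ Tw φ B} := Df.mem hTw (by fun_prop)
      exact h0
    rcases Set.eq_empty_or_nonempty {s : S | (s, y) ∈ P} with h0 | ⟨s₀, hs₀⟩
    · rw [h0, rk_empty]
      exact Nat.zero_le _
    · have hBd : Df (B : Set S) := hB.1.1
      have him : Df ((fun x => s₀ * x) '' (B : Set S)) := Df.im (by fun_prop) hBd
      have hsub : {s : S | (s, y) ∈ P} ⊆ (fun x => s₀ * x) '' (B : Set S) := by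
        intro s hs
        have e1 : y ∈ Tw φ (B.map (MulAut.conj s).toMonoidHom) := mem_Tw_conj.2 hs
        have e2 : y ∈ Tw φ (B.map (MulAut.conj s₀).toMonoidHom) := mem_Tw_conj.2 hs₀
        have e3 := case_two_unique hφ hni h (hB.conj s) (hB.conj s₀) e1 e2
        have hmm : ∀ t x : S, t * x * t⁻¹ ∈ B.map (MulAut.conj t).toMonoidHom ↔ x ∈ B := by
          intro t x
          constructor
          · rintro ⟨z, hz, hzx⟩
            have h4 : t * z * t⁻¹ = t * x * t⁻¹ := hzx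
            rwa [mul_left_injective _ h4 |> fun h5 => mul_left_cancel h5] at hz
          · intro hx
            exact ⟨x, hx, rfl⟩
        have hg : s₀⁻¹ * s ∈ B := by
          refine hB.self_norm fun x => ?_
          rw [← hmm s x, e3, ← hmm s₀]
          have h5 : s₀ * (s₀⁻¹ * s * x * (s₀⁻¹ * s)⁻¹) * s₀⁻¹ = s * x * s⁻¹ := by group
          rw [h5]
        refine ⟨s₀⁻¹ * s, hg, ?_⟩
        change s₀ * (s₀⁻¹ * s) = s
        group
      exact (rk_mono hPy him hsub).trans (rk_mul_left s₀ hBd).le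
  omega

end Pool.Agent.BadG
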