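import Pool.Agent.BadG.TwistOne
import Pool.Agent.BadG.TwistTwo

set_option autoImplicit false

/-! BG23. Theorem (A): a definable automorphism `≠ 1` of a bad group normalizes exactly one Borel
subgroup; there are no definable automorphisms of order two. -/

namespace Pool.Agent.BadG

open Function

variable {X : Type} [RU X] {S : Type} [RS X S] [Group S] [Bad S]

private theorem at_one (φ : MulAut S) : MulAut.conj (1 : S) * φ = φ := by
  rw [map_one, one_mul]

private theorem at_tw {φ : MulAut S} {B : Subgroup S} (h : Fixes φ B) : (1 : S) ∈ Tw φ B := by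
  change Fixes (MulAut.conj (1 : S) * φ) B
  rw [at_one]
  exact h

private theorem at_fixes {φ : MulAut S} {B : Subgroup S} (h : (1 : S) ∈ Tw φ B) : Fixes φ B := by
  have h1 : Fixes (MulAut.conj (1 : S) * φ) B := h
  rw [at_one] at h1
  exact h1

/-- **Existence.** If `φ` is conjugation by `s` take `bo s` (`Fixes` since `s ∈ bo s`). If `φ` has a fixed point `f ≠ 1`
take `bo f` (`fixes_of_mem`). Let `φ` be not inner without fixed points `≠ 1`. The image of `s ↦ s⁻¹ φ(s)` has rank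
`rk S` (injective, `rk_image_inj`), and `rk (YY φ) ≥ rk S` by `case_one_rk` or `case_two_rk`. By `Conn.meet`
(`conn_top`) there is `s` with `s⁻¹ φ(s) ∈ YY φ`. So `s⁻¹ 1 φ(s) ∈ Tw φ B` for a Borel subgroup `B` and
`1 ∈ Tw φ (s B s⁻¹)` (`mem_Tw_conj`). -/
theorem aut_exists {φ : MulAut S} (hφ : DefMap φ) : ∃ B : Subgroup S, Borel B ∧ Fixes φ B := by
  by_cases hin : ∃ s : S, φ = MulAut.conj s
  · obtain ⟨s, rfl⟩ := hin
    refine ⟨bo s, bo_borel s, fun x => ?_⟩
    rw [MulAut.conj_apply, Subgroup.mul_mem_cancel_right _ (inv_mem (mem_bo s)),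
      Subgroup.mul_mem_cancel_left _ (mem_bo s)]
  have hni : ∀ s : S, φ ≠ MulAut.conj s := fun s hs => hin ⟨s, hs⟩
  by_cases hf : ∃ f : S, f ≠ 1 ∧ φ f = f
  · obtain ⟨f, hf1, hf2⟩ := hf
    exact ⟨bo f, bo_borel f, fixes_of_mem (bo_borel f) hφ hf1 (mem_bo f)
      (by rw [hf2]; exact mem_bo f)⟩
  have hfix : ∀ x, φ x = x → x = 1 := fun x hx => by
    by_contra h
    exact hf ⟨x, h, hx⟩
  have hrk : rk (Set.univ : Set S) ≤ rk (YY φ) := by
    by_cases h : ∀ B : Subgroup S, Borel B → ∀ z ∈ Tw φ B,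
        ∃ x ∈ B, x ≠ 1 ∧ (MulAut.conj z * φ) x = x
    · exact case_two_rk hφ hni h
    · push Not at h
      obtain ⟨B, hB, z, hz, h2⟩ := h
      refine case_one_rk hφ hB hz fun x hx hx2 => ?_
      by_contra h3
      exact h2 x hx h3 hx2
  have hinj : Injective fun s : S => s⁻¹ * φ s := by
    intro s t hst
    have h1 : s⁻¹ * φ s = t⁻¹ * φ t := hst
    have h2 : φ (t * s⁻¹) = t * s⁻¹ := by
      rw [map_mul, map_inv]
      have h3 : φ t = t * (s⁻¹ * φ s) := by
        rw [h1, mul_inv_cancel_left]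
      rw [h3]
      group
    have h4 := hfix _ h2
    exact (mul_inv_eq_one.1 h4).symm
  have hd : DefMap fun s : S => s⁻¹ * φ s := by fun_prop
  have huniv : Df (Set.univ : Set S) := by
    have := Df.top (E := S)
    rwa [Subgroup.coe_top] at this
  have hA : Df ((fun s : S => s⁻¹ * φ s) '' Set.univ) := Df.im hd huniv
  have hrA : rk ((fun s : S => s⁻¹ * φ s) '' Set.univ) = rk (Set.univ : Set S) :=
    rk_image_inj huniv hd hinj.injOn
  obtain ⟨x, hx1, hx2, -⟩ := Conn.meet (conn_top (S := S))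
    (by rw [Subgroup.coe_top]; exact rk_top_pos) hA (Df_YY hφ)
    (by rw [Subgroup.coe_top]; exact Set.subset_univ _)
    (by rw [Subgroup.coe_top]; exact Set.subset_univ _)
    (by rw [Subgroup.coe_top, hrA]) (by rw [Subgroup.coe_top]; exact hrk)
  obtain ⟨s, -, rfl⟩ := hx1
  obtain ⟨B, hB, hB2⟩ := hx2
  have h5 : (1 : S) ∈ Tw φ (B.map (MulAut.conj s).toMonoidHom) := by
    rw [mem_Tw_conj, mul_one]
    exact hB2
  exact ⟨_, hB.conj s, at_fixes h5⟩

/-- **Uniqueness.** If `φ` is conjugation by `s ≠ 1`: `s ∈ B₁`, `s ∈ B₂` by `Borel.self_norm`, and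
`Borel.eq_of_mem`. Let `φ` be not inner. If the hypothesis `h` of case two holds: `case_two_unique` with `z = 1`.
Otherwise there are `B`, `z ∈ Tw φ B` as in case one; `1 ∈ YY φ`, so `φ` has no fixed point `≠ 1`
(`case_one_fix`): `unique_of_no_fix`. -/
theorem aut_unique {φ : MulAut S} (hφ : DefMap φ) (hne : φ ≠ 1) {B₁ B₂ : Subgroup S}
    (h1 : Borel B₁) (h2 : Borel B₂) (f1 : Fixes φ B₁) (f2 : Fixes φ B₂) : B₁ = B₂ := by
  by_cases hin : ∃ s : S, φ = MulAut.conj s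
  · obtain ⟨s, rfl⟩ := hin
    have hs : s ≠ 1 := by
      rintro rfl
      exact hne (map_one _)
    exact h1.eq_of_mem h2 hs (h1.self_norm fun x => f1 x) (h2.self_norm fun x => f2 x)
  have hni : ∀ s : S, φ ≠ MulAut.conj s := fun s hs => hin ⟨s, hs⟩
  by_cases h : ∀ B : Subgroup S, Borel B → ∀ z ∈ Tw φ B,
      ∃ x ∈ B, x ≠ 1 ∧ (MulAut.conj z * φ) x = x
  · exact case_two_unique hφ hni h h1 h2 (at_tw f1) (at_tw f2)
  · push Not at h
    obtain ⟨B, hB, z, hz, h3⟩ := h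
    have hfix : ∀ x ∈ B, (MulAut.conj z * φ) x = x → x = 1 := fun x hx hx2 => by
      by_contra h4
      exact h3 x hx h4 hx2
    have h5 : (1 : S) ∈ YY φ := ⟨B₁, h1, at_tw f1⟩
    refine unique_of_no_fix hφ (fun x hx => ?_) h1 h2 f1 f2
    refine case_one_fix hφ hB hz hfix h5 ?_
    rw [at_one]
    exact hx

/-- **No involutive automorphisms.** Suppose `φ ≠ 1`, `φ² = 1`; let `B` be the Borel subgroup which is normalized
by `φ` (`aut_exists`). For `g ∈ S` let `w = g⁻¹ φ(g)`: `φ(w) = w⁻¹`. If `w ≠ 1` then `φ` normalizes `bo w` (`fixes_of_mem`),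
so `bo w = B` by `aut_unique`. So `g⁻¹ φ(g) ∈ B` for all `g`. For `g, h`:
`(g h)⁻¹ φ(g h) = h⁻¹ (g⁻¹ φ(g)) h (h⁻¹ φ(h))`, so `h⁻¹ (g⁻¹ φ(g)) h ∈ B` for all `h`. If `g⁻¹ φ(g) ≠ 1` then
`B = h B h⁻¹` for all `h` (`Borel.eq_of_mem`), against `Borel.exists_conj_ne`. So `φ(g) = g` for all `g`. -/
theorem no_inv {φ : MulAut S} (hφ : DefMap φ) (h : φ * φ = 1) : φ = 1 := by
  by_contra hne
  have h2 : ∀ x, φ (φ x) = x := fun x => by
    rw [← MulAut.mul_apply, h, MulAut.one_apply]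
  obtain ⟨B, hB, hf⟩ := aut_exists hφ
  have hmem : ∀ g : S, g⁻¹ * φ g ∈ B := by
    intro g
    by_cases hw : g⁻¹ * φ g = 1
    · rw [hw]
      exact one_mem B
    · have h3 : φ (g⁻¹ * φ g) = (g⁻¹ * φ g)⁻¹ := by
        rw [map_mul, map_inv, h2, mul_inv_rev, inv_inv]
      have h4 : Fixes φ (bo (g⁻¹ * φ g)) := fixes_of_mem (bo_borel _) hφ hw (mem_bo _) (by
        rw [h3]
        exact inv_mem (mem_bo _))
      have h5 := aut_unique hφ hne (bo_borel _) hB h4 hf
      rw [← h5]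
      exact mem_bo _
  obtain ⟨g, hg⟩ : ∃ g, φ g ≠ g := by
    by_contra hcon
    push Not at hcon
    exact hne (MulEquiv.ext fun x => hcon x)
  have hw : g⁻¹ * φ g ≠ 1 := fun h3 => hg (inv_mul_eq_one.1 h3).symm
  obtain ⟨a, ha⟩ := hB.exists_conj_ne
  apply ha
  refine (hB.conj a).eq_of_mem hB hw ?_ (hmem g)
  refine ⟨a⁻¹ * (g⁻¹ * φ g) * a, ?_, ?_⟩
  · have h6 : a⁻¹ * (g⁻¹ * φ g) * a = ((g * a)⁻¹ * φ (g * a)) * (a⁻¹ * φ a)⁻¹ := by
      rw [map_mul]
      group
    change a⁻¹ * (g⁻¹ * φ g) * a ∈ B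
    rw [h6]
    exact mul_mem (hmem _) (inv_mem (hmem a))
  · change MulAut.conj a (a⁻¹ * (g⁻¹ * φ g) * a) = g⁻¹ * φ g
    rw [MulAut.conj_apply]
    group

include X in
/-- `no_inv` for `MulAut.conj x`, `eq_one_of_central`. -/
theorem no_inv_elt {x : S} (h : x * x = 1) : x = 1 := by
  have h1 : (MulAut.conj x : MulAut S) = 1 := no_inv (DefMap.aut_conj x) (by
    rw [← map_mul, h, map_one])
  refine eq_one_of_central fun y => ?_
  have h2 : MulAut.conj x y = y := by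
    rw [h1, MulAut.one_apply]
  rw [MulAut.conj_apply] at h2
  exact mul_inv_eq_iff_eq_mul.1 h2

end Pool.Agent.BadG
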