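import Pool.Agent.BadG.Index

set_option autoImplicit false

/-! BG12. Ranks of orbits and of products of subgroups. -/

namespace Pool.Agent.BadG

open Function

variable {X : Type} [RU X] {E F : Type} [RS X E] [RS X F] [Group E] [DG E]

/-- **Orbits.** If the fibres of `f` on `H` are the left cosets of `K ≤ H` then
`rk H = rk (f '' H) + rk K` (`rk_map_eq`, `rk_mul_left`). -/
theorem rk_orbit {H K : Subgroup E} (hH : Df (H : Set E)) (hK : Df (K : Set E)) (hle : K ≤ H)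
    {f : E → F} (hf : DefMap f) (h : ∀ g ∈ H, ∀ g' ∈ H, f g = f g' ↔ g⁻¹ * g' ∈ K) :
    rk (H : Set E) = rk (f '' (H : Set E)) + rk (K : Set E) := by
  refine rk_map_eq hH hf ⟨1, H.one_mem⟩ _ fun a ha => ?_
  have h1 : {x | x ∈ (H : Set E) ∧ f x = f a} = (fun x => a * x) '' (K : Set E) := by
    ext x
    constructor
    · rintro ⟨hx, hfx⟩
      exact ⟨a⁻¹ * x, (h a ha x hx).1 hfx.symm, mul_inv_cancel_left a x⟩
    · rintro ⟨k, hk, rfl⟩
      have h2 : a * k ∈ H := H.mul_mem ha (hle hk)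
      refine ⟨h2, ((h a ha (a * k) h2).2 ?_).symm⟩
      rw [inv_mul_cancel_left]
      exact hk
  rw [h1, rk_mul_left a hK]

/-- The same with right cosets. -/
theorem rk_orbit' {H K : Subgroup E} (hH : Df (H : Set E)) (hK : Df (K : Set E)) (hle : K ≤ H)
    {f : E → F} (hf : DefMap f) (h : ∀ g ∈ H, ∀ g' ∈ H, f g = f g' ↔ g' * g⁻¹ ∈ K) :
    rk (H : Set E) = rk (f '' (H : Set E)) + rk (K : Set E) := by
  refine rk_map_eq hH hf ⟨1, H.one_mem⟩ _ fun a ha => ?_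
  have h1 : {x | x ∈ (H : Set E) ∧ f x = f a} = (fun x => x * a) '' (K : Set E) := by
    ext x
    constructor
    · rintro ⟨hx, hfx⟩
      exact ⟨x * a⁻¹, (h a ha x hx).1 hfx.symm, inv_mul_cancel_right x a⟩
    · rintro ⟨k, hk, rfl⟩
      have h2 : k * a ∈ H := H.mul_mem (hle hk) ha
      refine ⟨h2, ((h a ha (k * a) h2).2 ?_).symm⟩
      rw [mul_inv_cancel_right]
      exact hk
  rw [h1, rk_mul_right a hK]

/-- **Products.** The fibres of `(a, b) ↦ a x b` on `A × B` are the sets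
`{(a t, x⁻¹ t⁻¹ x b) | t ∈ A ⊓ x B x⁻¹}`. -/
theorem rk_double {A B : Subgroup E} (hA : Df (A : Set E)) (hB : Df (B : Set E)) (x : E) :
    rk {y | ∃ a ∈ A, ∃ b ∈ B, y = a * x * b} + rk {t | t ∈ A ∧ x⁻¹ * t * x ∈ B} =
      rk (A : Set E) + rk (B : Set E) := by
  have hT : Df {t | t ∈ A ∧ x⁻¹ * t * x ∈ B} :=
    Df.and (Df.mem hA (by fun_prop)) (Df.mem hB (by fun_prop))
  have hf : DefMap (fun p : E × E => p.1 * x * p.2) := by fun_prop
  have him : {y | ∃ a ∈ A, ∃ b ∈ B, y = a * x * b} =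
      (fun p : E × E => p.1 * x * p.2) '' ((A : Set E) ×ˢ (B : Set E)) := by
    ext y
    constructor
    · rintro ⟨a, ha, b, hb, rfl⟩
      exact ⟨(a, b), ⟨ha, hb⟩, rfl⟩
    · rintro ⟨⟨a, b⟩, ⟨ha, hb⟩, rfl⟩
      exact ⟨a, ha, b, hb, rfl⟩
  rw [him, ← rk_prod hA hB ⟨1, A.one_mem⟩ ⟨1, B.one_mem⟩]
  refine (rk_map_eq (Df.prod hA hB) hf ⟨(1, 1), ⟨A.one_mem, B.one_mem⟩⟩ _ ?_).symm
  rintro ⟨a, b⟩ ⟨ha, hb⟩
  have h1 : {q : E × E | q ∈ (A : Set E) ×ˢ (B : Set E) ∧ q.1 * x * q.2 = a * x * b} =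
      (fun t => (a * t, x⁻¹ * t⁻¹ * x * b)) '' {t | t ∈ A ∧ x⁻¹ * t * x ∈ B} := by
    ext ⟨c, d⟩
    constructor
    · rintro ⟨⟨hc, hd⟩, he⟩
      have he' : c * x * d = a * x * b := he
      have h2 : x⁻¹ * (a⁻¹ * c) * x = b * d⁻¹ := by
        have h3 : c * x = a * x * b * d⁻¹ := eq_mul_inv_of_mul_eq he'
        rw [mul_assoc, mul_assoc, h3]
        group
      refine ⟨a⁻¹ * c, ⟨A.mul_mem (A.inv_mem ha) hc, ?_⟩, ?_⟩
      · rw [h2]
        exact B.mul_mem hb (B.inv_mem hd)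
      · have h4 : x⁻¹ * (a⁻¹ * c)⁻¹ * x * b = d := by
          have h5 : x⁻¹ * (a⁻¹ * c)⁻¹ * x = (x⁻¹ * (a⁻¹ * c) * x)⁻¹ := by group
          rw [h5, h2]
          group
        exact Prod.ext (mul_inv_cancel_left a c) h4
    · rintro ⟨t, ⟨ht, ht'⟩, he⟩
      have hc : c = a * t := (congrArg Prod.fst he).symm
      have hd : d = x⁻¹ * t⁻¹ * x * b := (congrArg Prod.snd he).symm
      refine ⟨⟨?_, ?_⟩, ?_⟩
      · show c ∈ A
        rw [hc]
        exact A.mul_mem ha ht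
      · show d ∈ B
        have h2 : x⁻¹ * t⁻¹ * x = (x⁻¹ * t * x)⁻¹ := by group
        rw [hd, h2]
        exact B.mul_mem (B.inv_mem ht') hb
      · show c * x * d = a * x * b
        rw [hc, hd]
        group
  change rk {q : E × E | q ∈ (A : Set E) ×ˢ (B : Set E) ∧ q.1 * x * q.2 = a * x * b} = _
  rw [h1]
  refine rk_image_inj hT (by fun_prop) fun t _ t' _ he => ?_
  exact mul_left_cancel (congrArg Prod.fst he)

/-- The case `x = 1`. -/
theorem rk_mul_sub {A B : Subgroup E} (hA : Df (A : Set E)) (hB : Df (B : Set E)) :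
    rk {y | ∃ a ∈ A, ∃ b ∈ B, y = a * b} + rk ((A ⊓ B : Subgroup E) : Set E) =
      rk (A : Set E) + rk (B : Set E) := by
  have h := rk_double hA hB 1
  simp only [mul_one, inv_one, one_mul] at h
  exact h

end Pool.Agent.BadG
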