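import Pool.Agent.BadG.AutThm
import Pool.Agent.BadG.Orbit

set_option autoImplicit false

/-! BG38. A faithful irreducible connected group of automorphisms of a bad group has rank at least three;
either it contains all inner automorphisms or it meets them trivially. -/

namespace Pool.Agent.BadG

open Function

variable {X : Type} [RU X] {S : Type} [RS X S] [Group S] [Bad S]

omit [RS X S] [Bad S] in
private theorem fixes_of_map {α : MulAut S} {B : Subgroup S} (h : B = B.map α.toMonoidHom) :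
    Fixes α B := by
  intro x
  have h1 : α x ∈ B.map α.toMonoidHom ↔ α⁻¹ (α x) ∈ B := Subgroup.mem_map_equiv
  rw [← h, ← MulAut.mul_apply, inv_mul_cancel, MulAut.one_apply] at h1
  exact h1

omit [RS X S] [Bad S] in
private theorem fixes_map {α β : MulAut S} {B : Subgroup S} (h : Fixes (α⁻¹ * β * α) B) :
    Fixes β (B.map α.toMonoidHom) := by
  intro x
  have h1 : ∀ z : S, z ∈ B.map α.toMonoidHom ↔ α⁻¹ z ∈ B := fun z => Subgroup.mem_map_equiv
  rw [h1, h1]
  have h2 : α⁻¹ (β x) = (α⁻¹ * β * α) (α⁻¹ x) := by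
    rw [← MulAut.mul_apply, ← MulAut.mul_apply, mul_assoc, mul_inv_cancel, mul_one]
  rw [h2]
  exact h _

variable {M : Type} [RS X M] [Group M]

omit [RS X S] [Bad S] [RS X M] in
private theorem exists_st (φ : M →* MulAut S) (B : Subgroup S) :
    ∃ T : Subgroup M, ∀ m, m ∈ T ↔ Fixes (φ m) B := by
  refine ⟨{
    carrier := {m | Fixes (φ m) B}
    mul_mem' := ?_
    one_mem' := ?_
    inv_mem' := ?_ }, fun m => Iff.rfl⟩
  · intro a b ha hb x
    rw [map_mul, MulAut.mul_apply, ha, hb]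
  · intro x
    rw [map_one, MulAut.one_apply]
  · intro a ha x
    have h := ha (φ a⁻¹ x)
    rw [← MulAut.mul_apply, ← map_mul, mul_inv_cancel, map_one, MulAut.one_apply] at h
    exact h.symm

/-- **A faithful irreducible connected group `M` has rank at least three.** Let `1 ≠ m₁ ∈ M`, let `B` be the Borel subgroup
normalized by `φ m₁`, `T` the stabilizer of `B` in `M`, `T ≠ ⊤` by irreducibility. If `1 ≠ t ∈ T` and `t = g t' g⁻¹` with
`t' ∈ T` then `t` normalizes `B` and `φ g (B)`, so `g ∈ T`; in particular `g² ∈ T` gives `g ∈ T`.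
If `T` is infinite and `rk M ≤ 2` let `m ∉ T`; the double cosets `T m T` and `T m⁻¹ T` have rank `2 rk T`, so they meet,
`m⁻¹ = r m r'`, `(r m)² ∈ T`, contradiction. If `T` is finite then the centralizer of `m₁` is contained in `T`, so the classes
of `m₁` and `m₁⁻¹` are generic in `M`, `m₁⁻¹ = g m₁ g⁻¹`, `g² ∈ T`, so `g ∈ T`, a finite group without involutions, so
`g` is a power of `g²` and centralizes `m₁`; `m₁² = 1`, contradiction. -/
theorem three_le_rk [DG M] (φ : M →* MulAut S)
    (hφ : DefMap (fun p : M × S => φ p.1 p.2)) (hM : Conn (⊤ : Subgroup M)) (hinj : Injective φ)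
    (hirr : ∀ H : Subgroup S, Conn H → (∀ m x, φ m x ∈ H ↔ x ∈ H) → H = ⊥ ∨ H = ⊤) :
    3 ≤ rk (Set.univ : Set M) := by
  have hφm : ∀ m, DefMap (φ m) := fun m =>
    hφ.comp (f := fun x : S => ((m, x) : M × S)) (by fun_prop)
  have hφ1 : ∀ z : M, z ≠ 1 → φ z ≠ 1 := fun z hz h => hz (hinj (by rw [h, map_one]))
  have hno : ∀ B : Subgroup S, Borel B → ¬ ∀ m, Fixes (φ m) B := by
    intro B hB h
    rcases hirr B hB.1 fun m x => h m x with h | h
    · exact hB.ne_bot h
    · exact hB.2.1 h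
  have hinvol : ∀ t : M, t * t = 1 → t = 1 := by
    intro t ht
    by_contra h
    exact hφ1 t h (no_inv (hφm t) (by rw [← map_mul, ht, map_one]))
  -- an element different from one
  obtain ⟨m₁, hm₁⟩ : ∃ m : M, m ≠ 1 := by
    by_contra hc
    push Not at hc
    obtain ⟨B, hB⟩ := exists_borel (S := S)
    refine hno B hB fun m x => ?_
    rw [hc m, map_one, MulAut.one_apply]
  obtain ⟨B, hB, hfix⟩ := aut_exists (hφm m₁)
  obtain ⟨T, hT⟩ := exists_st φ B
  have hm₁T : m₁ ∈ T := (hT m₁).2 hfix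
  obtain ⟨m, hm⟩ : ∃ m, m ∉ T := by
    by_contra hc
    push Not at hc
    exact hno B hB fun m => (hT m).1 (hc m)
  have hDT : Df (T : Set M) := by
    have h1 : (T : Set M) = {m | ∀ x, φ m x ∈ B ↔ x ∈ B} := by
      ext m
      exact hT m
    rw [h1]
    exact Df.all (P := fun (m : M) (x : S) => φ m x ∈ B ↔ x ∈ B)
      (Df.iff (Df.mem hB.1.1 hφ) (Df.mem hB.1.1 DefMap.snd))
  -- malnormality
  have hmal : ∀ g t : M, t ≠ 1 → t ∈ T → g⁻¹ * t * g ∈ T → g ∈ T := by
    intro g t ht1 ht htg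
    rw [hT]
    refine fixes_of_map (aut_unique (hφm t) (hφ1 t ht1) hB (hB.map_aut (hφm g)) ((hT t).1 ht) ?_)
    refine fixes_map ?_
    rw [← map_inv, ← map_mul, ← map_mul]
    exact (hT _).1 htg
  have hsq : ∀ g : M, g * g ∈ T → g ∈ T := by
    intro g hg
    by_cases h1 : g * g = 1
    · rw [hinvol g h1]
      exact T.one_mem
    · refine hmal g (g * g) h1 hg ?_
      have e : g⁻¹ * (g * g) * g = g * g := by group
      rw [e]
      exact hg
  have hI := hM.irr
  rw [Subgroup.coe_top] at hI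
  rcases Nat.eq_zero_or_pos (rk (T : Set M)) with h0 | hpos
  · -- `T` finite
    exfalso
    have hfin : (T : Set M).Finite := by
      by_contra hinf
      have := (rk_pos_iff hDT).2 hinf
      omega
    have hcen : ∀ c : M, c * m₁ = m₁ * c → c ∈ T := by
      intro c hc
      refine hmal c m₁ hm₁ hm₁T ?_
      have e : c⁻¹ * m₁ * c = m₁ := by
        rw [mul_assoc, ← hc]
        group
      rw [e]
      exact hm₁T
    have hclass : ∀ w : M, (∀ c : M, c * w = w * c → c ∈ T) →
        rk {y : M | ∃ g, y = g * w * g⁻¹} = rk (Set.univ : Set M) := by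
      intro w hw
      have hK : Df (Subgroup.centralizer ({w} : Set M) : Set M) :=
        Df.centralizer (Df.singleton w)
      have hK0 : rk (Subgroup.centralizer ({w} : Set M) : Set M) = 0 := by
        have h1 : rk (Subgroup.centralizer ({w} : Set M) : Set M) ≤ rk (T : Set M) := by
          refine rk_mono hK hDT ?_
          intro c hc
          refine hw c ?_
          have h2 := Subgroup.mem_centralizer_iff.1 hc w rfl
          exact h2.symm
        omega
      have h1 := rk_orbit (E := M) (H := ⊤) (K := Subgroup.centralizer ({w} : Set M)) Df.top hK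
        le_top (f := fun g => g * w * g⁻¹) (by fun_prop) (by
          intro g _ g' _
          rw [Subgroup.mem_centralizer_iff]
          constructor
          · intro h y hy
            rw [Set.mem_singleton_iff.1 hy]
            have h : g * w * g⁻¹ = g' * w * g'⁻¹ := h
            calc w * (g⁻¹ * g') = g⁻¹ * (g * w * g⁻¹) * g' := by group
              _ = g⁻¹ * (g' * w * g'⁻¹) * g' := by rw [h]
              _ = g⁻¹ * g' * w := by group
          · intro h
            have h := h w rfl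
            change g * w * g⁻¹ = g' * w * g'⁻¹
            calc g * w * g⁻¹ = g * (w * (g⁻¹ * g')) * g'⁻¹ := by group
              _ = g * (g⁻¹ * g' * w) * g'⁻¹ := by rw [h]
              _ = g' * w * g'⁻¹ := by group)
      rw [hK0, add_zero, Subgroup.coe_top] at h1
      rw [h1]
      congr 1
      ext y
      constructor
      · rintro ⟨g, hg⟩
        exact ⟨g, Set.mem_univ _, hg.symm⟩
      · rintro ⟨g, -, hg⟩
        exact ⟨g, hg.symm⟩
    have hDc : ∀ w : M, Df {y : M | ∃ g, y = g * w * g⁻¹} := fun w =>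
      Df.ex (P := fun (y : M) (g : M) => y = g * w * g⁻¹) (Df.eq (by fun_prop) (by fun_prop))
    have r1 := hclass m₁ hcen
    have r2 := hclass m₁⁻¹ (by
      intro c hc
      refine hcen c ?_
      have h1 : m₁ * (c * m₁⁻¹) * m₁ = m₁ * (m₁⁻¹ * c) * m₁ := by rw [hc]
      calc c * m₁ = m₁ * (m₁⁻¹ * c) * m₁ := by group
        _ = m₁ * (c * m₁⁻¹) * m₁ := h1.symm
        _ = m₁ * c := by group)
    obtain ⟨y, ⟨g₁, h1⟩, ⟨g₂, h2⟩⟩ := hI.2.2 _ _ (hDc m₁) (hDc m₁⁻¹) (Set.subset_univ _)
      (Set.subset_univ _) ⟨m₁, 1, by group⟩ ⟨m₁⁻¹, 1, by group⟩ r1 r2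
    obtain ⟨g, hg⟩ : ∃ g : M, g * m₁ * g⁻¹ = m₁⁻¹ := by
      refine ⟨g₂⁻¹ * g₁, ?_⟩
      calc g₂⁻¹ * g₁ * m₁ * (g₂⁻¹ * g₁)⁻¹ = g₂⁻¹ * (g₁ * m₁ * g₁⁻¹) * g₂ := by group
        _ = g₂⁻¹ * (g₂ * m₁⁻¹ * g₂⁻¹) * g₂ := by rw [← h1, h2]
        _ = m₁⁻¹ := by group
    have hgm : g * m₁ = m₁⁻¹ * g := by
      rw [← hg]
      group
    have hg2 : (g * g) * m₁ = m₁ * (g * g) := by
      have h3 : g * m₁⁻¹ = m₁ * g := by
        calc g * m₁⁻¹ = m₁ * (m₁⁻¹ * g) * m₁⁻¹ := by group
          _ = m₁ * (g * m₁) * m₁⁻¹ := by rw [hgm]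
          _ = m₁ * g := by group
      calc (g * g) * m₁ = g * (g * m₁) := by group
        _ = (g * m₁⁻¹) * g := by rw [hgm]; group
        _ = m₁ * (g * g) := by rw [h3]; group
    have hgT : g ∈ T := hsq g (hcen _ hg2)
    have hfT : Finite T := hfin
    -- `g` is a power of its square
    have hodd : Odd (orderOf (⟨g, hgT⟩ : T)) := by
      rw [← Nat.not_even_iff_odd]
      rintro ⟨k, hk⟩
      have hpos : 0 < orderOf (⟨g, hgT⟩ : T) := orderOf_pos _
      have h3 : (⟨g, hgT⟩ : T) ^ k * (⟨g, hgT⟩ : T) ^ k = 1 := by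
        rw [← pow_add, ← hk]
        exact pow_orderOf_eq_one _
      have h4 : (⟨g, hgT⟩ : T) ^ k = 1 := by
        apply Subtype.ext
        exact hinvol _ (congrArg Subtype.val h3)
      have h5 := Nat.le_of_dvd (by omega) (orderOf_dvd_of_pow_eq_one h4)
      omega
    obtain ⟨k, hk⟩ := hodd
    have h6 : (g * g) ^ (k + 1) = g := by
      have h7 : (⟨g, hgT⟩ : T) ^ (2 * k + 1) = 1 := by
        rw [← hk]
        exact pow_orderOf_eq_one _
      have h8 : g ^ (2 * k + 1) = 1 := congrArg Subtype.val h7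
      have h9 : (g * g) ^ (k + 1) = g ^ (2 * k + 1) * g := by
        rw [← pow_two, ← pow_mul, ← pow_succ]
        congr 1
      rw [h9, h8, one_mul]
    have h7 : g * m₁ = m₁ * g := by
      have h8 : Commute ((g * g) ^ (k + 1)) m₁ := Commute.pow_left hg2 _
      rw [h6] at h8
      exact h8
    have h8 : m₁ * m₁ = 1 := by
      have h9 : m₁⁻¹ * g = m₁ * g := by rw [← hgm, h7]
      have h10 : m₁⁻¹ = m₁ := mul_right_cancel h9
      nth_rewrite 1 [← h10]
      exact inv_mul_cancel m₁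
    exact hm₁ (hinvol m₁ h8)
  · -- `T` infinite
    by_contra hlt
    push Not at hlt
    have hdbl : ∀ x : M, x ∉ T → rk {y | ∃ a ∈ T, ∃ b ∈ T, y = a * x * b} = 2 * rk (T : Set M) := by
      intro x hx
      have h := rk_double hDT hDT x
      have hset : {t : M | t ∈ T ∧ x⁻¹ * t * x ∈ T} = {1} := by
        ext t
        constructor
        · rintro ⟨h1, h2⟩
          by_contra ht
          exact hx (hmal x t ht h1 h2)
        · intro ht
          rw [Set.mem_singleton_iff.1 ht]
          refine ⟨T.one_mem, ?_⟩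
          have e : x⁻¹ * 1 * x = 1 := by group
          rw [e]
          exact T.one_mem
      rw [hset, rk_of_finite (Set.finite_singleton 1)] at h
      omega
    have hDd : ∀ x : M, Df {y | ∃ a ∈ T, ∃ b ∈ T, y = a * x * b} := fun x =>
      Df.exin (P := fun y a => ∃ b ∈ T, y = a * x * b) hDT
        (Df.exin (P := fun (p : M × M) b => p.1 = p.2 * x * b) hDT
          (Df.eq (by fun_prop) (by fun_prop)))
    have hm' : m⁻¹ ∉ T := fun h => hm (inv_mem_iff.1 h)
    have r1 := hdbl m hm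
    have r2 := hdbl m⁻¹ hm'
    have hle : ∀ x : M, rk {y | ∃ a ∈ T, ∃ b ∈ T, y = a * x * b} ≤ rk (Set.univ : Set M) :=
      fun x => rk_mono (hDd x) Df.univ (Set.subset_univ _)
    have hle1 := hle m
    have hn : ∀ x : M, {y : M | ∃ a ∈ T, ∃ b ∈ T, y = a * x * b}.Nonempty := fun x =>
      ⟨x, 1, one_mem _, 1, one_mem _, by rw [one_mul, mul_one]⟩
    obtain ⟨y, ⟨a, ha, b, hb, e1⟩, ⟨a', ha', b', hb', e2⟩⟩ := hI.2.2 _ _ (hDd m) (hDd m⁻¹)
      (Set.subset_univ _) (Set.subset_univ _) (hn _) (hn _) (by omega) (by omega)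
    have h1 : m⁻¹ = (a'⁻¹ * a) * m * (b * b'⁻¹) := by
      calc m⁻¹ = a'⁻¹ * (a' * m⁻¹ * b') * b'⁻¹ := by group
        _ = a'⁻¹ * (a * m * b) * b'⁻¹ := by rw [← e2, e1]
        _ = (a'⁻¹ * a) * m * (b * b'⁻¹) := by group
    have hr : a'⁻¹ * a ∈ T := mul_mem (inv_mem ha') ha
    have hr' : b * b'⁻¹ ∈ T := mul_mem hb (inv_mem hb')
    generalize a'⁻¹ * a = r at h1 hr
    generalize b * b'⁻¹ = r' at h1 hr'
    have h2 : (r * m) * (r * m) = r * r'⁻¹ := by
      have h3 : m * (r * m) = r'⁻¹ := by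
        rw [eq_inv_iff_mul_eq_one]
        calc m * (r * m) * r' = m * (r * m * r') := by group
          _ = m * m⁻¹ := by rw [← h1]
          _ = 1 := mul_inv_cancel m
      rw [mul_assoc, h3]
    have h3 : r * m ∈ T := hsq _ (by rw [h2]; exact mul_mem hr (inv_mem hr'))
    exact hm ((Subgroup.mul_mem_cancel_left T hr).1 h3)

/-- **Either `M` contains the inner automorphisms or it meets them trivially.** `N = {s | conj s ∈ φ(M)}` is a definable
`M`-invariant subgroup, so `cc N = ⊥` or `⊤`. If `cc N = ⊥` then `N` is finite and centralized by the connected group `M`; if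
`1 ≠ s ∈ N` then `M` normalizes the Borel subgroup `bo s`, contradiction. -/
theorem inner_cases [DG M] (φ : M →* MulAut S)
    (hφ : DefMap (fun p : M × S => φ p.1 p.2)) (hM : Conn (⊤ : Subgroup M)) (hinj : Injective φ)
    (hirr : ∀ H : Subgroup S, Conn H → (∀ m x, φ m x ∈ H ↔ x ∈ H) → H = ⊥ ∨ H = ⊤) :
    (MulAut.conj : S →* MulAut S).range ≤ φ.range ∨
      {m : M | ∃ s : S, φ m = MulAut.conj s} = {1} := by
  have hφm : ∀ m, DefMap (φ m) := fun m =>
    hφ.comp (f := fun x : S => ((m, x) : M × S)) (by fun_prop)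
  obtain ⟨N, hN⟩ : ∃ N : Subgroup S, ∀ s, s ∈ N ↔ ∃ m, φ m = MulAut.conj s :=
    ⟨φ.range.comap (MulAut.conj : S →* MulAut S), fun s => Iff.rfl⟩
  have hDN : Df (N : Set S) := by
    have h1 : (N : Set S) = {s | ∃ m, ∀ x, φ m x = s * x * s⁻¹} := by
      ext s
      change s ∈ N ↔ _
      rw [hN]
      constructor
      · rintro ⟨m, hm⟩
        exact ⟨m, fun x => by rw [hm, MulAut.conj_apply]⟩
      · rintro ⟨m, hm⟩
        exact ⟨m, MulEquiv.ext fun x => by rw [hm, MulAut.conj_apply]⟩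
    rw [h1]
    have h2 : DefMap (fun q : (S × M) × S => φ q.1.2 q.2) :=
      DefMap.comp (g := fun p : M × S => φ p.1 p.2) (f := fun q : (S × M) × S => (q.1.2, q.2))
        hφ (by fun_prop)
    exact Df.ex (P := fun (s : S) (m : M) => ∀ x, φ m x = s * x * s⁻¹)
      (Df.all (P := fun (p : S × M) (x : S) => φ p.2 x = p.1 * x * p.1⁻¹)
        (Df.eq h2 (by fun_prop)))
  have hinv1 : ∀ m s, s ∈ N → φ m s ∈ N := by
    intro m s hs
    obtain ⟨m', hm'⟩ := (hN s).1 hs
    rw [hN]
    refine ⟨m * m' * m⁻¹, ?_⟩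
    rw [map_mul, map_mul, hm']
    ext x
    rw [MulAut.mul_apply, MulAut.mul_apply, MulAut.conj_apply, MulAut.conj_apply, map_mul, map_mul,
      ← MulAut.mul_apply, ← map_mul, mul_inv_cancel, map_one, MulAut.one_apply, map_inv]
  have hinv : ∀ m s, φ m s ∈ N ↔ s ∈ N := by
    intro m s
    refine ⟨fun h => ?_, hinv1 m s⟩
    have h1 := hinv1 m⁻¹ _ h
    rwa [← MulAut.mul_apply, ← map_mul, inv_mul_cancel, map_one, MulAut.one_apply] at h1
  have hccinv : ∀ m s, φ m s ∈ cc N ↔ s ∈ cc N := by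
    intro m s
    exact cc_invariant hDN (hφm m) (hinv m) s
  rcases hirr (cc N) (cc_conn hDN) hccinv with h | h
  · right
    have hfin : (N : Set S).Finite := by
      by_contra hinf
      exact cc_ne_bot hDN hinf h
    have hN1 : ∀ s ∈ N, s = 1 := by
      intro s hs
      by_contra hs1
      have h1 : ∀ m ∈ (⊤ : Subgroup M), φ m s = s := by
        refine Conn.fix_of_finite hM φ hφ s (hfin.subset ?_)
        rintro y ⟨g, -, rfl⟩
        exact hinv1 g s hs
      have h2 : ∀ m x, φ m x ∈ bo s ↔ x ∈ bo s := by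
        intro m
        refine fixes_of_mem (bo_borel s) (hφm m) hs1 (mem_bo s) ?_
        rw [h1 m (Subgroup.mem_top m)]
        exact mem_bo s
      rcases hirr (bo s) (bo_borel s).1 h2 with h3 | h3
      · exact (bo_borel s).ne_bot h3
      · exact (bo_borel s).2.1 h3
    ext m
    constructor
    · rintro ⟨s, hs⟩
      have h1 := hN1 s ((hN s).2 ⟨m, hs⟩)
      rw [h1, map_one] at hs
      exact hinj (by rw [hs, map_one])
    · intro hm
      rw [Set.mem_singleton_iff.1 hm]
      exact ⟨1, by rw [map_one, map_one]⟩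
  · left
    rintro _ ⟨s, rfl⟩
    have h1 : s ∈ N := cc_le hDN (by rw [h]; exact Subgroup.mem_top s)
    obtain ⟨m, hm⟩ := (hN s).1 h1
    exact ⟨m, hm⟩

end Pool.Agent.BadG
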