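import Pool.Agent.BadG.Nil

set_option autoImplicit false

/-! BG14. Normalizers grow in nilpotent groups; connected nilpotent groups of rank one are abelian. -/

namespace Pool.Agent.BadG

open Function

variable {X : Type} [RU X] {E : Type} [RS X E] [Group E] [DG E]

/-- The product of a subgroup with a subgroup which it normalizes. -/
private def prodSub (H Z : Subgroup E) (h : ∀ a ∈ H, ∀ z ∈ Z, a * z * a⁻¹ ∈ Z) :
    Subgroup E where
  carrier := {y | ∃ a ∈ H, ∃ z ∈ Z, y = a * z}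
  mul_mem' := by
    rintro _ _ ⟨a, ha, z, hz, rfl⟩ ⟨b, hb, w, hw, rfl⟩
    refine ⟨a * b, H.mul_mem ha hb, b⁻¹ * z * b * w, ?_, by group⟩
    have h1 := h b⁻¹ (H.inv_mem hb) z hz
    rw [inv_inv] at h1
    exact Z.mul_mem h1 hw
  one_mem' := ⟨1, H.one_mem, 1, Z.one_mem, by simp⟩
  inv_mem' := by
    rintro _ ⟨a, ha, z, hz, rfl⟩
    exact ⟨a⁻¹, H.inv_mem ha, a * z⁻¹ * a⁻¹, h a ha _ (Z.inv_mem hz), by group⟩

omit [RS X E] [DG E] in
private theorem coe_prodSub (H Z : Subgroup E) (h : ∀ a ∈ H, ∀ z ∈ Z, a * z * a⁻¹ ∈ Z) :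
    (prodSub H Z h : Set E) = {y | ∃ a ∈ H, ∃ z ∈ Z, y = a * z} := rfl

omit [RS X E] [DG E] in
private theorem le_prodSub (H Z : Subgroup E) (h : ∀ a ∈ H, ∀ z ∈ Z, a * z * a⁻¹ ∈ Z) :
    H ≤ prodSub H Z h := fun a ha => ⟨a, ha, 1, Z.one_mem, by simp⟩

omit [RS X E] [DG E] in
private theorem le_prodSub' (H Z : Subgroup E) (h : ∀ a ∈ H, ∀ z ∈ Z, a * z * a⁻¹ ∈ Z) :
    Z ≤ prodSub H Z h := fun z hz => ⟨1, H.one_mem, z, hz, by simp⟩

private theorem Df_prodSub {H Z : Subgroup E} (h : ∀ a ∈ H, ∀ z ∈ Z, a * z * a⁻¹ ∈ Z)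
    (hH : Df (H : Set E)) (hZ : Df (Z : Set E)) : Df (prodSub H Z h : Set E) := by
  rw [coe_prodSub]
  exact Df.exin (P := fun y a => ∃ z ∈ Z, y = a * z) hH
    (Df.exin (P := fun (p : E × E) z => p.1 = p.2 * z) hZ (Df.eq (by fun_prop) (by fun_prop)))

/-- **Normalizer growth.** Let `H ≤ N`, `N` nilpotent, `H` connected with `rk H < rk N`. There is a
definable `K` with `H ≤ K ≤ N`, which normalizes `H`, and `rk H < rk K`.

Proof. Let `i` be minimal such that `H ⊓ uc N i` has infinite index in `uc N i` (exists: for `uc N c = N` the group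
`H` has infinite index in `N`, as `rk H < rk N`); `i = j + 1` since `uc N 0 = ⊥`. Let `Z = uc N j`, `Z' = uc N (j + 1)`,
so `H ⊓ Z` has finite index in `Z` and `H ⊓ Z'` has infinite index in `Z'`. `Z` and `Z'` are normalized by `N`
(`mem_uc_succ`). The set `H Z = {h z}` is a definable subgroup (or `H ⊔ Z`), and `rk (H Z) = rk H` by `rk_mul_sub` and
`rk (H ⊓ Z) = rk Z` (`rk_eq_of_relIndex`), so `H` has finite index in `H Z` (`relIndex_ne_zero_of_rk`). So `cc (H Z) = H`: `cc (H Z) ≤ H` by `cc_le_of`, and `H ≤ cc (H Z)` by `Conn.le_cc`.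
`z' ∈ Z'` normalizes `H Z`: `z' h z'⁻¹ = (z' h z'⁻¹ h⁻¹) h ∈ Z H`. So it normalizes `cc (H Z) = H` (`cc_invariant` for
`MulAut.conj z'`). Let `K = H Z'` (a definable subgroup of `N` which normalizes `H`): `rk K + rk (H ⊓ Z') = rk H + rk Z'`
(`rk_mul_sub`), and `rk (H ⊓ Z') < rk Z'` by `rk_lt_of_relIndex`. -/
theorem grow {N H : Subgroup E} (hN : Df (N : Set E)) (hnil : Group.IsNilpotent N) (hH : Conn H)
    (hle : H ≤ N) (hr : rk (H : Set E) < rk (N : Set E)) :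
    ∃ K : Subgroup E, Df (K : Set E) ∧ H ≤ K ∧ K ≤ N ∧ (∀ k ∈ K, ∀ x, k * x * k⁻¹ ∈ H ↔ x ∈ H) ∧
      rk (H : Set E) < rk (K : Set E) := by
  classical
  obtain ⟨c, hc⟩ := uc_eq_of_nil hnil
  have hconj : ∀ n ∈ N, ∀ x, MulAut.conj n x ∈ N ↔ x ∈ N := by
    intro n hn x
    rw [MulAut.conj_apply]
    constructor
    · intro h1
      have h2 := N.mul_mem (N.mul_mem (N.inv_mem hn) h1) hn
      have h3 : n⁻¹ * (n * x * n⁻¹) * n = x := by group
      rwa [h3] at h2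
    · intro h1
      exact N.mul_mem (N.mul_mem hn h1) (N.inv_mem hn)
  have hucn : ∀ i, ∀ n ∈ N, ∀ z ∈ uc N i, n * z * n⁻¹ ∈ uc N i := by
    intro i n hn z hz
    have h1 := (uc_invariant (hconj n hn) i z).mpr hz
    rwa [MulAut.conj_apply] at h1
  have hex : ∃ i, (H ⊓ uc N i).relIndex (uc N i) = 0 := by
    refine ⟨c, ?_⟩
    by_contra h1
    rw [hc, inf_eq_left.mpr hle] at h1
    have h2 := rk_eq_of_relIndex hH.1 hN hle h1
    omega
  have hmin : (H ⊓ uc N (Nat.find hex)).relIndex (uc N (Nat.find hex)) = 0 := Nat.find_spec hex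
  have hne0 : Nat.find hex ≠ 0 := by
    intro h1
    rw [h1, uc_zero, Subgroup.relIndex_bot_right] at hmin
    exact one_ne_zero hmin
  obtain ⟨j, hj⟩ := Nat.exists_eq_succ_of_ne_zero hne0
  have hj0 : (H ⊓ uc N j).relIndex (uc N j) ≠ 0 := by
    intro h1
    have h2 := Nat.find_min' hex h1
    omega
  rw [hj, Nat.succ_eq_add_one] at hmin
  have hZd := uc_Df hN j
  have hZd' := uc_Df hN (j + 1)
  have hZn : ∀ a ∈ H, ∀ z ∈ uc N j, a * z * a⁻¹ ∈ uc N j := fun a ha => hucn j a (hle ha)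
  have hZn' : ∀ a ∈ H, ∀ z ∈ uc N (j + 1), a * z * a⁻¹ ∈ uc N (j + 1) :=
    fun a ha => hucn (j + 1) a (hle ha)
  have hHZ := Df_prodSub hZn hH.1 hZd
  have hrk1 : rk (prodSub H (uc N j) hZn : Set E) + rk ((H ⊓ uc N j : Subgroup E) : Set E) =
      rk (H : Set E) + rk (uc N j : Set E) := by
    rw [coe_prodSub]
    exact rk_mul_sub hH.1 hZd
  have hrk2 := rk_eq_of_relIndex (Df.inf hH.1 hZd) hZd inf_le_right hj0
  have hidx : H.relIndex (prodSub H (uc N j) hZn) ≠ 0 :=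
    relIndex_ne_zero_of_rk hH.1 hHZ (le_prodSub _ _ _) (by omega)
  have hcc : cc (prodSub H (uc N j) hZn) = H :=
    le_antisymm (cc_le_of (le_prodSub _ _ _) hH.1 hidx) (hH.le_cc hHZ (le_prodSub _ _ _))
  have hstep : ∀ z' ∈ uc N (j + 1), ∀ x ∈ prodSub H (uc N j) hZn,
      z' * x * z'⁻¹ ∈ prodSub H (uc N j) hZn := by
    rintro z' hz' x ⟨a, ha, z, hz, rfl⟩
    have h1 : z' * a * z'⁻¹ * a⁻¹ ∈ uc N j := (mem_uc_succ.mp hz').2 a (hle ha)
    have h2 : z' * z * z'⁻¹ ∈ uc N j := hucn j z' (uc_le N _ hz') z hz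
    have h3 : z' * (a * z) * z'⁻¹ = (z' * a * z'⁻¹ * a⁻¹) * a * (z' * z * z'⁻¹) := by group
    rw [h3]
    exact Subgroup.mul_mem _ (Subgroup.mul_mem _ (le_prodSub' _ _ _ h1) (le_prodSub _ _ _ ha))
      (le_prodSub' _ _ _ h2)
  have hinv : ∀ z' ∈ uc N (j + 1), ∀ x, z' * x * z'⁻¹ ∈ H ↔ x ∈ H := by
    intro z' hz' x
    have h1 := cc_invariant hHZ (DefMap.aut_conj z') (fun y => by
      rw [MulAut.conj_apply]
      constructor
      · intro h2
        have h3 := hstep z'⁻¹ (Subgroup.inv_mem _ hz') _ h2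
        have h4 : z'⁻¹ * (z' * y * z'⁻¹) * z'⁻¹⁻¹ = y := by group
        rwa [h4] at h3
      · exact hstep z' hz' y) x
    rw [hcc, MulAut.conj_apply] at h1
    exact h1
  refine ⟨prodSub H (uc N (j + 1)) hZn', Df_prodSub hZn' hH.1 hZd', le_prodSub _ _ _, ?_, ?_, ?_⟩
  · rintro _ ⟨a, ha, z, hz, rfl⟩
    exact N.mul_mem (hle ha) (uc_le N _ hz)
  · rintro _ ⟨a, ha, z, hz, rfl⟩ x
    rw [← hinv z hz x]
    have h1 : a * z * x * (a * z)⁻¹ = a * (z * x * z⁻¹) * a⁻¹ := by group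
    rw [h1]
    constructor
    · intro h2
      have h3 := H.mul_mem (H.mul_mem (H.inv_mem ha) h2) ha
      have h4 : a⁻¹ * (a * (z * x * z⁻¹) * a⁻¹) * a = z * x * z⁻¹ := by group
      rwa [h4] at h3
    · intro h2
      exact H.mul_mem (H.mul_mem ha h2) (H.inv_mem ha)
  · have h1 : rk (prodSub H (uc N (j + 1)) hZn' : Set E) +
        rk ((H ⊓ uc N (j + 1) : Subgroup E) : Set E) =
        rk (H : Set E) + rk (uc N (j + 1) : Set E) := by
      rw [coe_prodSub]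
      exact rk_mul_sub hH.1 hZd'
    have h2 := rk_lt_of_relIndex (Df.inf hH.1 hZd') hZd' inf_le_right hmin
    omega

/-- **Rank one.** The centre of `H` is infinite (`inf_centre` with `A = H`), so it has rank one and
`H` is equal to its centre (`Conn.eq_of_rk`). -/
theorem abelian_of_rk_one {H : Subgroup E} (hH : Conn H) (hnil : Group.IsNilpotent H)
    (hr : rk (H : Set E) = 1) : ∀ x ∈ H, ∀ y ∈ H, x * y = y * x := by
  have hinf : (H : Set E).Infinite := (rk_pos_iff hH.1).mp (by omega)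
  have h1 := inf_centre hH.1 hH.1 hnil le_rfl (fun h hh a ha =>
    H.mul_mem (H.mul_mem hh ha) (H.inv_mem hh)) hinf
  have hC : Df ((H ⊓ Subgroup.centralizer (H : Set E) : Subgroup E) : Set E) :=
    Df.inf hH.1 (Df.centralizer hH.1)
  have h2 : {z | z ∈ H ∧ ∀ h ∈ H, z * h = h * z} ⊆
      ((H ⊓ Subgroup.centralizer (H : Set E) : Subgroup E) : Set E) := by
    rintro z ⟨hz1, hz2⟩
    exact ⟨hz1, Subgroup.mem_centralizer_iff.mpr fun h hh => (hz2 h hh).symm⟩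
  have h3 := (rk_pos_iff hC).mpr (h1.mono h2)
  have h4 := hH.eq_of_rk hC inf_le_left (by omega)
  intro x hx y hy
  rw [← h4] at hx
  exact (Subgroup.mem_centralizer_iff.mp hx.2 y hy).symm

end Pool.Agent.BadG
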