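import Pool.Agent.BadG.Exist
import Pool.Agent.BadG.Grow

set_option autoImplicit false

/-! BG17. Borel subgroups: existence, distinct Borel subgroups meet trivially. -/

namespace Pool.Agent.BadG

open Function

variable {X : Type} [RU X] {S : Type} [RS X S] [Group S] [Bad S]

/-- A predicate with a bounded function has a point where the function is maximal. -/
private theorem exists_max_of {α : Type} (Q : α → Prop) (f : α → ℕ) (N : ℕ)
    (hN : ∀ a, Q a → f a ≤ N) (h : ∃ a, Q a) : ∃ a, Q a ∧ ∀ b, Q b → f b ≤ f a := by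
  classical
  obtain ⟨a, ha⟩ := h
  have h1 := Nat.findGreatest_spec (P := fun n => ∃ a, Q a ∧ f a = n) (hN a ha) ⟨a, ha, rfl⟩
  obtain ⟨b, hb, hfb⟩ := h1
  refine ⟨b, hb, fun c hc => ?_⟩
  rw [hfb]
  exact Nat.le_findGreatest (hN c hc) ⟨c, hc, rfl⟩

private theorem rk_le_univ {A : Set S} (hA : Df A) : rk A ≤ rk (Set.univ : Set S) := by
  have h : Df (Set.univ : Set S) := by
    have := Df.top (E := S)
    rwa [Subgroup.coe_top] at this
  exact rk_mono hA h (Set.subset_univ _)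

/-- Take a connected proper definable subgroup `B ≥ H` of maximal rank (`rk B ≤ rk S`); it is a
maximal one by `Conn.rk_lt`. -/
theorem exists_borel_ge {H : Subgroup S} (hH : Conn H) (h : H ≠ ⊤) : ∃ B, Borel B ∧ H ≤ B := by
  obtain ⟨B, ⟨h1, h2, h3⟩, h4⟩ := exists_max_of
    (fun B : Subgroup S => Conn B ∧ B ≠ ⊤ ∧ H ≤ B) (fun B => rk (B : Set S))
    (rk (Set.univ : Set S)) (fun B hB => rk_le_univ hB.1.1) ⟨H, hH, h, le_rfl⟩
  refine ⟨B, ⟨h1, h2, fun K hK hKt hle => ?_⟩, h3⟩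
  by_contra hne
  have h5 : B < K := lt_of_le_of_ne hle (Ne.symm hne)
  have h6 := Conn.rk_lt hK h1.1 h5
  have h7 := h4 K ⟨hK, hKt, h3.trans hle⟩
  exact absurd h6 (not_lt.2 h7)

/-- For a proper definable subgroup: `cc H` is contained in a Borel subgroup. -/
theorem exists_borel_cc {H : Subgroup S} (hH : Df (H : Set S)) (h : H ≠ ⊤) :
    ∃ B, Borel B ∧ cc H ≤ B := by
  refine exists_borel_ge (cc_conn hH) fun h1 => h ?_
  rw [eq_top_iff, ← h1]
  exact cc_le hH

theorem exists_borel : ∃ B : Subgroup S, Borel B := by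
  have h : (⊥ : Subgroup S) ≠ ⊤ := by
    have : Infinite S := Bad.inf (X := X) (S := S)
    exact bot_ne_top
  obtain ⟨B, hB, -⟩ := exists_borel_ge (conn_bot (E := S)) h
  exact ⟨B, hB⟩

/-- By `exists_infinite_proper` the trivial group is not maximal. -/
theorem Borel.ne_bot {B : Subgroup S} (hB : Borel B) : B ≠ ⊥ := by
  rintro rfl
  obtain ⟨H, h1, h2, h3⟩ := exists_infinite_proper (S := S)
  have h4 := hB.2.2 (cc H) (cc_conn h1) (fun h => h2 (by
    rw [eq_top_iff, ← h]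
    exact cc_le h1)) bot_le
  exact cc_ne_bot h1 h3 h4

theorem Borel.rk_pos {B : Subgroup S} (hB : Borel B) : 0 < rk (B : Set S) :=
  Conn.rk_pos hB.1 hB.ne_bot

theorem Borel.nil {B : Subgroup S} (hB : Borel B) : Group.IsNilpotent B :=
  Bad.nil B hB.1.1 hB.2.1

private theorem map_ne_top {B : Subgroup S} (h : B ≠ ⊤) (α : MulAut S) :
    B.map α.toMonoidHom ≠ ⊤ := by
  intro h1
  apply h
  rw [eq_top_iff]
  intro x _
  have h2 : α x ∈ B.map α.toMonoidHom := by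
    rw [h1]
    exact Subgroup.mem_top _
  obtain ⟨y, hy, hyx⟩ := Subgroup.mem_map.1 h2
  have h3 : y = x := α.injective hyx
  rw [← h3]
  exact hy

theorem Borel.map_aut {B : Subgroup S} (hB : Borel B) {α : MulAut S} (hα : DefMap α) :
    Borel (B.map α.toMonoidHom) := by
  have hα' : DefMap α.toMonoidHom := hα
  refine ⟨hB.1.map hα', map_ne_top hB.2.1 α, fun K hK hKt hle => ?_⟩
  have hβ : DefMap (α⁻¹ : MulAut S) := DefMap.aut_inv hα
  have hβ' : DefMap ((α⁻¹ : MulAut S).toMonoidHom) := hβ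
  have h1 : B ≤ K.map (α⁻¹ : MulAut S).toMonoidHom := by
    intro x hx
    refine Subgroup.mem_map.2 ⟨α x, hle (Subgroup.mem_map.2 ⟨x, hx, rfl⟩), ?_⟩
    exact MulAut.inv_apply_self S α x
  have h2 := hB.2.2 _ (hK.map hβ') (map_ne_top hKt _) h1
  refine le_antisymm (fun x hx => ?_) hle
  refine Subgroup.mem_map.2 ⟨(α⁻¹ : MulAut S) x, ?_, ?_⟩
  · rw [← h2]
    exact Subgroup.mem_map.2 ⟨x, hx, rfl⟩
  · exact MulAut.apply_inv_self S α x

theorem Borel.conj {B : Subgroup S} (hB : Borel B) (g : S) :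
    Borel (B.map (MulAut.conj g).toMonoidHom) :=
  hB.map_aut (DefMap.aut_conj g)

/-- **Infinite intersections.** Suppose there are Borel subgroups `B₁ ≠ B₂` with infinite intersection and
choose them with `rk (B₁ ⊓ B₂)` maximal. Let `H = cc (B₁ ⊓ B₂)`, infinite connected, `H ≠ ⊥`. `H < B_i`, so
`rk H < rk B_i` (`Conn.rk_lt`). Let `N = normalizer H`: definable, `N ≠ ⊤` (otherwise `H` is normal in `S`:
`normal_cases`), let `B₃` be a Borel subgroup with `cc N ≤ B₃`. By `grow` in the nilpotent group `B_i` there is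
`K_i ≤ B_i`, `K_i ≤ N`, `H ≤ K_i`, `rk H < rk K_i`. `cc K_i ≤ cc N ≤ B₃` (`Conn.le_cc`), so
`rk (B_i ⊓ B₃) ≥ rk (cc K_i) = rk K_i > rk H = rk (B₁ ⊓ B₂)` (`rk_cc`). By the maximality `B_i = B₃` for `i = 1, 2`
(the intersection `B_i ⊓ B₃` is infinite as its rank is positive). Contradiction. -/
theorem Borel.eq_of_infinite {B₁ B₂ : Subgroup S} (h1 : Borel B₁) (h2 : Borel B₂)
    (h : ((B₁ ⊓ B₂ : Subgroup S) : Set S).Infinite) : B₁ = B₂ := by
  by_contra hne0
  obtain ⟨⟨A₁, A₂⟩, ⟨hA₁, hA₂, hne, hinf⟩, hmax⟩ := exists_max_of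
    (fun p : Subgroup S × Subgroup S => Borel p.1 ∧ Borel p.2 ∧ p.1 ≠ p.2 ∧
      ((p.1 ⊓ p.2 : Subgroup S) : Set S).Infinite)
    (fun p => rk ((p.1 ⊓ p.2 : Subgroup S) : Set S)) (rk (Set.univ : Set S))
    (fun p hp => rk_le_univ (Df.inf hp.1.1.1 hp.2.1.1.1)) ⟨(B₁, B₂), h1, h2, hne0, h⟩
  dsimp only at hA₁ hA₂ hne hinf hmax
  have hI : Df ((A₁ ⊓ A₂ : Subgroup S) : Set S) := Df.inf hA₁.1.1 hA₂.1.1
  set H : Subgroup S := cc (A₁ ⊓ A₂) with hHdef
  have hHc : Conn H := cc_conn hI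
  have hHb : H ≠ ⊥ := cc_ne_bot hI hinf
  have hHle : H ≤ A₁ ⊓ A₂ := cc_le hI
  have hHrk : rk (H : Set S) = rk ((A₁ ⊓ A₂ : Subgroup S) : Set S) := rk_cc hI
  have hN : Df (Subgroup.normalizer (H : Set S) : Set S) := Df.normalizer hHc.1
  have hNt : Subgroup.normalizer (H : Set S) ≠ ⊤ := by
    intro ht
    have h3 : ∀ g : S, ∀ x ∈ H, g * x * g⁻¹ ∈ H := by
      intro g x hx
      have h4 : g ∈ Subgroup.normalizer (H : Set S) := by
        rw [ht]
        exact Subgroup.mem_top _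
      exact (Subgroup.mem_normalizer_iff.1 h4 x).1 hx
    rcases normal_cases h3 with h4 | h4
    · exact hHb h4
    · apply hA₁.2.1
      rw [eq_top_iff, ← h4]
      exact hHle.trans inf_le_left
  obtain ⟨A₃, hA₃, hNle⟩ := exists_borel_cc hN hNt
  have key : ∀ A : Subgroup S, Borel A → H < A → A = A₃ := by
    intro A hA hlt
    obtain ⟨K, k1, k2, k3, k4, k5⟩ := grow hA.1.1 hA.nil hHc hlt.le
      (Conn.rk_lt hA.1 hHc.1 hlt)
    have h3 : K ≤ Subgroup.normalizer (H : Set S) := by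
      intro k hk
      refine Subgroup.mem_normalizer_iff.2 fun x => ?_
      exact (k4 k hk x).symm
    have h4 : cc K ≤ cc (Subgroup.normalizer (H : Set S)) :=
      Conn.le_cc (cc_conn k1) hN ((cc_le k1).trans h3)
    have h5 : cc K ≤ A ⊓ A₃ := le_inf ((cc_le k1).trans k3) (h4.trans hNle)
    have h6 : Df ((A ⊓ A₃ : Subgroup S) : Set S) := Df.inf hA.1.1 hA₃.1.1
    have h7 : rk (cc K : Set S) ≤ rk ((A ⊓ A₃ : Subgroup S) : Set S) :=
      rk_mono (Df.cc k1) h6 h5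
    rw [rk_cc k1] at h7
    by_contra hcon
    have h8 := hmax (A, A₃) ⟨hA, hA₃, hcon, (rk_pos_iff h6).1 (by omega)⟩
    dsimp only at h8
    omega
  have hlt1 : H < A₁ := by
    refine lt_of_le_of_ne (hHle.trans inf_le_left) fun he => hne ?_
    have h3 : A₁ ≤ A₂ := by
      rw [← he]
      exact hHle.trans inf_le_right
    exact (hA₁.2.2 A₂ hA₂.1 hA₂.2.1 h3).symm
  have hlt2 : H < A₂ := by
    refine lt_of_le_of_ne (hHle.trans inf_le_right) fun he => hne ?_
    have h3 : A₂ ≤ A₁ := by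
      rw [← he]
      exact hHle.trans inf_le_left
    exact hA₂.2.2 A₁ hA₁.1 hA₁.2.1 h3
  exact hne ((key A₁ hA₁ hlt1).trans (key A₂ hA₂ hlt2).symm)

/-- **Distinct Borel subgroups meet trivially.** Let `x ≠ 1` be in `B₁` and `B₂` and let `B₃` be a Borel subgroup
with `cc C(x) ≤ B₃` (`exists_borel_cc`, `cz_ne_top`). The set `{z ∈ B₁ | z commutes with B₁}` is infinite (`inf_centre`
with `A = H = B₁`) and contained in `C(x) ⊓ B₁`. So `D = cc (C(x) ⊓ B₁)` is infinite (`rk_cc`, `rk_pos_iff`), and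
`D ≤ cc C(x) ≤ B₃`, `D ≤ B₁`: `B₁ = B₃` by `Borel.eq_of_infinite`. In the same way `B₂ = B₃`. -/
theorem Borel.eq_of_mem {B₁ B₂ : Subgroup S} (h1 : Borel B₁) (h2 : Borel B₂) {x : S}
    (hx : x ≠ 1) (m1 : x ∈ B₁) (m2 : x ∈ B₂) : B₁ = B₂ := by
  have hC : Df (Subgroup.centralizer ({x} : Set S) : Set S) :=
    Df.centralizer (Irr.singleton x).1
  obtain ⟨B₃, h3, hle⟩ := exists_borel_cc hC (cz_ne_top hx)
  have key : ∀ B : Subgroup S, Borel B → x ∈ B → B = B₃ := by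
    intro B hB hm
    have k1 : {z | z ∈ B ∧ ∀ h ∈ B, z * h = h * z}.Infinite :=
      inf_centre hB.1.1 hB.1.1 hB.nil le_rfl
        (fun h hh a ha => B.mul_mem (B.mul_mem hh ha) (B.inv_mem hh))
        ((rk_pos_iff hB.1.1).1 hB.rk_pos)
    have hI : Df ((Subgroup.centralizer ({x} : Set S) ⊓ B : Subgroup S) : Set S) :=
      Df.inf hC hB.1.1
    have k2 : ((Subgroup.centralizer ({x} : Set S) ⊓ B : Subgroup S) : Set S).Infinite := by
      refine k1.mono ?_
      rintro z ⟨hz, hz'⟩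
      exact ⟨mem_cz.2 (hz' x hm).symm, hz⟩
    have k3 : cc (Subgroup.centralizer ({x} : Set S) ⊓ B) ≤ B ⊓ B₃ :=
      le_inf ((cc_le hI).trans inf_le_right)
        ((Conn.le_cc (cc_conn hI) hC ((cc_le hI).trans inf_le_left)).trans hle)
    have k4 : ((B ⊓ B₃ : Subgroup S) : Set S).Infinite := by
      refine Set.Infinite.mono (s := (cc (Subgroup.centralizer ({x} : Set S) ⊓ B) : Set S)) k3 ?_
      rw [← rk_pos_iff (Df.cc hI), rk_cc hI, rk_pos_iff hI]
      exact k2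
    exact Borel.eq_of_infinite hB h3 k4
  exact (key B₁ h1 m1).trans (key B₂ h2 m2).symm

end Pool.Agent.BadG
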