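import Pool.Agent.BadG.Coord

set_option autoImplicit false

/-! BG02. Definable maps (for `fun_prop`) and definability of sets given by formulas. -/

namespace Pool.Agent.BadG

open Function

variable {X : Type} [RU X] {E F H : Type} [RS X E] [RS X F] [RS X H]

/-- The graph is the preimage of the diagonal under the coordinate map `p ↦ (π p.1, p.2)`. -/
theorem DefMap.of_coord {π : E → F} (hπ : Coord π) : DefMap π :=
  Df.coord_pre (Coord.prodMk (hπ.comp Coord.fst) Coord.snd) Df.diag

@[fun_prop]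
theorem DefMap.id : DefMap (fun x : E => x) :=
  DefMap.of_coord Coord.id

@[fun_prop]
theorem DefMap.const (c : F) : DefMap (fun _ : E => c) := by
  have h : {p : E × F | c = p.2} = Prod.snd ⁻¹' {c} := by
    ext p
    exact eq_comm
  unfold DefMap
  rw [h]
  exact Df.coord_pre Coord.snd (Df.singleton c)

/-- The graph is the `fst`-image of `{q : (E × H) × F | f q.1.1 = q.2 ∧ g q.2 = q.1.2}`, and the two
conditions are preimages of graphs under coordinate maps. -/
@[fun_prop]
theorem DefMap.comp {g : F → H} {f : E → F} (hg : DefMap g) (hf : DefMap f) :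
    DefMap (fun x => g (f x)) := by
  have h1 : Df {q : (E × H) × F | f q.1.1 = q.2} :=
    Df.coord_pre (π := fun q : (E × H) × F => (q.1.1, q.2))
      (Coord.prodMk (Coord.fst.comp Coord.fst) Coord.snd) hf
  have h2 : Df {q : (E × H) × F | g q.2 = q.1.2} :=
    Df.coord_pre (π := fun q : (E × H) × F => (q.2, q.1.2))
      (Coord.prodMk Coord.snd (Coord.snd.comp Coord.fst)) hg
  have h3 : {p : E × H | g (f p.1) = p.2} =
      Prod.fst '' ({q : (E × H) × F | f q.1.1 = q.2} ∩ {q : (E × H) × F | g q.2 = q.1.2}) := by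
    ext p
    constructor
    · intro hp
      exact ⟨(p, f p.1), ⟨rfl, hp⟩, rfl⟩
    · rintro ⟨⟨p', y⟩, ⟨h4, h5⟩, rfl⟩
      have h4' : f p'.1 = y := h4
      have h5' : g y = p'.2 := h5
      subst h4'
      exact h5'
  unfold DefMap
  rw [h3]
  exact Df.coord_im Coord.fst (h1.inter h2)

@[fun_prop]
theorem DefMap.fst : DefMap (Prod.fst : E × F → E) :=
  DefMap.of_coord Coord.fst

@[fun_prop]
theorem DefMap.snd : DefMap (Prod.snd : E × F → F) :=
  DefMap.of_coord Coord.snd

@[fun_prop]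
theorem DefMap.prodMk {f : E → F} {g : E → H} (hf : DefMap f) (hg : DefMap g) :
    DefMap (fun x => (f x, g x)) := by
  have h1 : Df {p : E × (F × H) | f p.1 = p.2.1} :=
    Df.coord_pre (π := fun p : E × (F × H) => (p.1, p.2.1))
      (Coord.prodMk Coord.fst (Coord.fst.comp Coord.snd)) hf
  have h2 : Df {p : E × (F × H) | g p.1 = p.2.2} :=
    Df.coord_pre (π := fun p : E × (F × H) => (p.1, p.2.2))
      (Coord.prodMk Coord.fst (Coord.snd.comp Coord.snd)) hg
  have h3 : {p : E × (F × H) | (f p.1, g p.1) = p.2} =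
      {p : E × (F × H) | f p.1 = p.2.1} ∩ {p : E × (F × H) | g p.1 = p.2.2} := by
    ext p
    exact Prod.ext_iff
  unfold DefMap
  rw [h3]
  exact h1.inter h2

/-- `f ⁻¹' A` is the `fst`-image of `graph ∩ snd ⁻¹' A`. -/
theorem Df.pre {f : E → F} (hf : DefMap f) {A : Set F} (hA : Df A) : Df (f ⁻¹' A) := by
  have h : f ⁻¹' A = Prod.fst '' ({p : E × F | f p.1 = p.2} ∩ Prod.snd ⁻¹' A) := by
    ext x
    constructor
    · intro hx
      exact ⟨(x, f x), ⟨rfl, hx⟩, rfl⟩
    · rintro ⟨⟨x', y⟩, ⟨h1, h2⟩, rfl⟩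
      have h1' : f x' = y := h1
      have h2' : y ∈ A := h2
      subst h1'
      exact h2'
  rw [h]
  exact Df.coord_im Coord.fst (Df.inter hf (Df.coord_pre Coord.snd hA))

/-- `f '' A` is the `snd`-image of `graph ∩ fst ⁻¹' A`. -/
theorem Df.im {f : E → F} (hf : DefMap f) {A : Set E} (hA : Df A) : Df (f '' A) := by
  have h : f '' A = Prod.snd '' ({p : E × F | f p.1 = p.2} ∩ Prod.fst ⁻¹' A) := by
    ext y
    constructor
    · rintro ⟨x, hx, rfl⟩
      exact ⟨(x, f x), ⟨rfl, hx⟩, rfl⟩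
    · rintro ⟨⟨x, y'⟩, ⟨h1, h2⟩, rfl⟩
      exact ⟨x, h2, h1⟩
  rw [h]
  exact Df.coord_im Coord.snd (Df.inter hf (Df.coord_pre Coord.fst hA))

/-- The inverse of a definable bijection: the graph is swapped. -/
theorem DefMap.symm {f : E → F} {g : F → E} (hf : DefMap f) (h1 : ∀ x, g (f x) = x)
    (h2 : ∀ y, f (g y) = y) : DefMap g := by
  have h : {p : F × E | g p.1 = p.2} =
      (fun p : F × E => (p.2, p.1)) ⁻¹' {p : E × F | f p.1 = p.2} := by
    ext p
    constructor
    · intro hp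
      have hp' : g p.1 = p.2 := hp
      change f p.2 = p.1
      rw [← hp', h2]
    · intro hp
      have hp' : f p.2 = p.1 := hp
      change g p.1 = p.2
      rw [← hp', h1]
  unfold DefMap
  rw [h]
  exact Df.coord_pre (Coord.prodMk Coord.snd Coord.fst) hf

theorem Df.and {P Q : E → Prop} (hP : Df {x | P x}) (hQ : Df {x | Q x}) :
    Df {x | P x ∧ Q x} :=
  hP.inter hQ

theorem Df.or {P Q : E → Prop} (hP : Df {x | P x}) (hQ : Df {x | Q x}) :
    Df {x | P x ∨ Q x} :=
  hP.union hQ

theorem Df.not {P : E → Prop} (hP : Df {x | P x}) : Df {x | ¬ P x} :=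
  hP.compl

theorem Df.imp {P Q : E → Prop} (hP : Df {x | P x}) (hQ : Df {x | Q x}) :
    Df {x | P x → Q x} := by
  have h : {x | P x → Q x} = {x | ¬ P x ∨ Q x} := by
    ext x
    exact imp_iff_not_or
  rw [h]
  exact hP.not.or hQ

theorem Df.iff {P Q : E → Prop} (hP : Df {x | P x}) (hQ : Df {x | Q x}) :
    Df {x | P x ↔ Q x} := by
  have h : {x | P x ↔ Q x} = {x | (P x → Q x) ∧ (Q x → P x)} := by
    ext x
    exact iff_iff_implies_and_implies
  rw [h]
  exact (hP.imp hQ).and (hQ.imp hP)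

theorem Df.const (p : Prop) : Df {_x : E | p} := by
  by_cases hp : p
  · have h : {_x : E | p} = Set.univ := Set.eq_univ_of_forall fun _ => hp
    rw [h]
    exact Df.univ
  · have h : {_x : E | p} = ∅ := Set.eq_empty_of_forall_notMem fun _ h => hp h
    rw [h]
    exact Df.empty

theorem Df.ex {P : E → F → Prop} (h : Df {p : E × F | P p.1 p.2}) : Df {x | ∃ y, P x y} := by
  have h1 : {x | ∃ y, P x y} = Prod.fst '' {p : E × F | P p.1 p.2} := by
    ext x
    constructor
    · rintro ⟨y, hy⟩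
      exact ⟨(x, y), hy, rfl⟩
    · rintro ⟨⟨x', y⟩, hy, rfl⟩
      exact ⟨y, hy⟩
  rw [h1]
  exact Df.coord_im Coord.fst h

theorem Df.all {P : E → F → Prop} (h : Df {p : E × F | P p.1 p.2}) : Df {x | ∀ y, P x y} := by
  have h1 : {x | ∀ y, P x y} = {x | ¬ ∃ y, ¬ P x y} := by
    ext x
    exact not_exists_not.symm
  rw [h1]
  exact (Df.ex (P := fun x y => ¬ P x y) h.not).not

theorem Df.eq {f g : E → F} (hf : DefMap f) (hg : DefMap g) : Df {x | f x = g x} :=
  Df.pre (hf.prodMk hg) Df.diag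

theorem Df.mem {f : E → F} {A : Set F} (hA : Df A) (hf : DefMap f) : Df {x | f x ∈ A} :=
  Df.pre hf hA

theorem Df.exin {P : E → F → Prop} {A : Set F} (hA : Df A) (h : Df {p : E × F | P p.1 p.2}) :
    Df {x | ∃ y ∈ A, P x y} :=
  Df.ex (P := fun x y => y ∈ A ∧ P x y) ((Df.mem hA DefMap.snd).and h)

theorem Df.allin {P : E → F → Prop} {A : Set F} (hA : Df A) (h : Df {p : E × F | P p.1 p.2}) :
    Df {x | ∀ y ∈ A, P x y} :=
  Df.all (P := fun x y => y ∈ A → P x y) ((Df.mem hA DefMap.snd).imp h)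

section Group

variable [Group E] [DG E]

@[fun_prop]
theorem DefMap.mul {f g : F → E} (hf : DefMap f) (hg : DefMap g) :
    DefMap (fun x => f x * g x) :=
  DefMap.comp (g := fun p : E × E => p.1 * p.2) DG.mul (hf.prodMk hg)

/-- `{(x, y) | x⁻¹ = y} = {(x, y) | x * y = 1}`. -/
@[fun_prop]
theorem DefMap.inv {f : F → E} (hf : DefMap f) : DefMap (fun x => (f x)⁻¹) := by
  have h1 : DefMap (fun x : E => x⁻¹) := by
    have h2 : {p : E × E | p.1⁻¹ = p.2} = {p : E × E | p.1 * p.2 = 1} := by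
      ext p
      exact inv_eq_iff_mul_eq_one
    unfold DefMap
    rw [h2]
    exact Df.eq (DefMap.mul DefMap.fst DefMap.snd) (DefMap.const 1)
  exact DefMap.comp h1 hf

/-- The direct product of two definable groups. -/
instance prodDG {G : Type} [RS X G] [Group G] [DG G] : DG (E × G) where
  mul := by
    have h1 : DefMap (fun p : (E × G) × (E × G) => (p.1.1 * p.2.1, p.1.2 * p.2.2)) :=
      DefMap.prodMk
        (DefMap.mul (DefMap.comp DefMap.fst DefMap.fst) (DefMap.comp DefMap.fst DefMap.snd))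
        (DefMap.mul (DefMap.comp DefMap.snd DefMap.fst) (DefMap.comp DefMap.snd DefMap.snd))
    exact h1

/-- Test: the definability proofs in the later files look like this. -/
example (a : E) : Df {x : E | ∃ s, s⁻¹ * x * s = a * x} :=
  Df.ex (Df.eq (by fun_prop) (by fun_prop))

end Group

end Pool.Agent.BadG
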