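import Pool.Agent.BadG.Index

set_option autoImplicit false

/-! BG10. The connected component. -/

namespace Pool.Agent.BadG

open Function

variable {X : Type} [RU X] {E F : Type} [RS X E] [RS X F] [Group E] [DG E] [Group F] [DG F]

/-- The family `{K ≤ H definable of finite index}` contains `H`, is closed under `⊓`
(`Subgroup.relIndex_inf_ne_zero`) and has a minimal element by `exists_minimal_subgroup`; this is the
smallest element, hence equal to `cc H`. -/
theorem cc_mem {H : Subgroup E} (hH : Df (H : Set E)) :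
    cc H ≤ H ∧ Df (cc H : Set E) ∧ (cc H).relIndex H ≠ 0 := by
  obtain ⟨K₀, hK₀, hmin⟩ := exists_minimal_subgroup
    (fun K : Subgroup E => K ≤ H ∧ Df (K : Set E) ∧ K.relIndex H ≠ 0) (fun K h => h.2.1)
    ⟨H, le_rfl, hH, by rw [Subgroup.relIndex_self]; exact one_ne_zero⟩
  have h : cc H = K₀ := by
    refine le_antisymm (sInf_le hK₀) (le_sInf fun K hK => ?_)
    have h1 := hmin (K ⊓ K₀) ⟨inf_le_right.trans hK₀.1, Df.inf hK.2.1 hK₀.2.1,
      Subgroup.relIndex_inf_ne_zero hK.2.2 hK₀.2.2⟩ inf_le_right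
    rw [← h1]
    exact inf_le_left
  rw [h]
  exact hK₀

theorem cc_le {H : Subgroup E} (hH : Df (H : Set E)) : cc H ≤ H := (cc_mem hH).1

theorem Df.cc {H : Subgroup E} (hH : Df (H : Set E)) : Df (cc H : Set E) := (cc_mem hH).2.1

theorem cc_le_of {H K : Subgroup E} (h1 : K ≤ H) (h2 : Df (K : Set E)) (h3 : K.relIndex H ≠ 0) :
    cc H ≤ K := sInf_le ⟨h1, h2, h3⟩

theorem cc_conn {H : Subgroup E} (hH : Df (H : Set E)) : Conn (cc H) := by
  refine ⟨Df.cc hH, fun K h1 h2 h3 => le_antisymm h1 ?_⟩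
  exact cc_le_of (h1.trans (cc_le hH)) h2 (Subgroup.relIndex_ne_zero_trans h3 (cc_mem hH).2.2)

theorem rk_cc {H : Subgroup E} (hH : Df (H : Set E)) : rk (cc H : Set E) = rk (H : Set E) :=
  rk_eq_of_relIndex (Df.cc hH) hH (cc_le hH) (cc_mem hH).2.2

/-- `K ⊓ cc H` has finite index in `K`. -/
theorem Conn.le_cc {H K : Subgroup E} (hK : Conn K) (hH : Df (H : Set E)) (h : K ≤ H) :
    K ≤ cc H := by
  have h1 := hK.2 (cc H ⊓ K) inf_le_right (Df.inf (Df.cc hH) hK.1) (by
    rw [Subgroup.inf_relIndex_right]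
    exact fun h0 => (cc_mem hH).2.2 (Subgroup.relIndex_eq_zero_of_le_right h h0))
  rw [← h1]
  exact inf_le_left

/-- A definable subgroup of a connected group of the same rank is the whole group
(`relIndex_ne_zero_of_rk`). -/
theorem Conn.eq_of_rk {H K : Subgroup E} (hK : Conn K) (hH : Df (H : Set E)) (h : H ≤ K)
    (hr : rk (K : Set E) ≤ rk (H : Set E)) : H = K :=
  hK.2 H h hH (relIndex_ne_zero_of_rk hH hK.1 h hr)

/-- For connected `H < K`: `rk H < rk K`. -/
theorem Conn.rk_lt {H K : Subgroup E} (hK : Conn K) (hH : Df (H : Set E)) (h : H < K) :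
    rk (H : Set E) < rk (K : Set E) := by
  by_contra h1
  exact h.ne (hK.eq_of_rk hH h.le (not_lt.1 h1))

/-- If `K ≤ f(H)` has finite index then `H ⊓ f⁻¹(K)` has finite index in `H`. -/
theorem Conn.map {H : Subgroup E} (hH : Conn H) {f : E →* F} (hf : DefMap f) :
    Conn (H.map f) := by
  refine ⟨Df.map_hom hH.1 hf, fun K h1 h2 h3 => le_antisymm h1 ?_⟩
  have h4 := hH.2 (K.comap f ⊓ H) inf_le_right (Df.inf (Df.comap_hom h2 hf) hH.1) (by
    rw [Subgroup.inf_relIndex_right, Subgroup.relIndex_comap]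
    exact h3)
  rw [Subgroup.map_le_iff_le_comap, ← h4]
  exact inf_le_left

/-- For an automorphism `α` with definable graph. -/
theorem cc_map {H : Subgroup E} (hH : Df (H : Set E)) {α : MulAut E} (hα : DefMap α) :
    (cc H).map α.toMonoidHom = cc (H.map α.toMonoidHom) := by
  have hf : DefMap α.toMonoidHom := hα
  refine le_antisymm ((Conn.map (cc_conn hH) hf).le_cc (Df.map_hom hH hf)
    (Subgroup.map_mono (cc_le hH))) ?_
  refine cc_le_of (Subgroup.map_mono (cc_le hH)) (Df.map_hom (Df.cc hH) hf) ?_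
  rw [← Subgroup.relIndex_comap, Subgroup.comap_map_eq_self_of_injective α.injective]
  exact (cc_mem hH).2.2

/-- If `α` leaves `H` invariant then it leaves `cc H` invariant (`cc_map`). -/
theorem cc_invariant {H : Subgroup E} (hH : Df (H : Set E)) {α : MulAut E} (hα : DefMap α)
    (h : ∀ x, α x ∈ H ↔ x ∈ H) (x : E) : α x ∈ cc H ↔ x ∈ cc H := by
  have h1 : H.map α.toMonoidHom = H := by
    ext y
    rw [Subgroup.mem_map]
    constructor
    · rintro ⟨z, hz, rfl⟩
      exact (h z).2 hz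
    · intro hy
      refine ⟨α.symm y, (h _).1 ?_, ?_⟩
      · rwa [MulEquiv.apply_symm_apply]
      · exact α.apply_symm_apply y
  have h2 := cc_map hH hα
  rw [h1] at h2
  constructor
  · intro hx
    rw [← h2, Subgroup.mem_map] at hx
    obtain ⟨z, hz, hzx⟩ := hx
    rwa [← α.injective hzx]
  · intro hx
    rw [← h2]
    exact Subgroup.mem_map_of_mem _ hx

theorem conn_bot : Conn (⊥ : Subgroup E) :=
  ⟨Df.bot, fun _ h _ _ => le_bot_iff.1 h⟩

/-- A connected group which is not `1` is infinite. -/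
theorem Conn.infinite {H : Subgroup E} (hH : Conn H) (h : H ≠ ⊥) : (H : Set E).Infinite := by
  intro hf
  have : Finite H := hf.to_subtype
  refine h (hH.2 ⊥ bot_le Df.bot ?_).symm
  rw [Subgroup.relIndex_bot_left]
  exact Nat.card_pos.ne'

theorem Conn.rk_pos {H : Subgroup E} (hH : Conn H) (h : H ≠ ⊥) : 0 < rk (H : Set E) :=
  (rk_pos_iff hH.1).2 (hH.infinite h)

theorem cc_ne_bot {H : Subgroup E} (hH : Df (H : Set E)) (h : (H : Set E).Infinite) :
    cc H ≠ ⊥ := by
  intro h0
  have h1 := (cc_mem hH).2.2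
  rw [h0, Subgroup.relIndex_bot_left] at h1
  have : Finite H := Nat.finite_of_card_ne_zero h1
  exact h (Set.toFinite _)

end Pool.Agent.BadG
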