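import Pool.Agent.BadG.RConn

set_option autoImplicit false

/-! BG28. If the Borel subgroups have rank one then `R B` centralizes `B`. -/

namespace Pool.Agent.BadG

open Function

variable {X : Type} [RU X]

/-- The subgroup of the `g² d` with `g ∈ Q ⊓ E`, `d ∈ D`. -/
private def sqS {G : Type} [Group G] {E D : Subgroup G} (hle : D ≤ E)
    (hcomm : ∀ a ∈ E, ∀ b ∈ E, a * b = b * a) (Q : Subgroup G) : Subgroup G where
  carrier := {x | ∃ g ∈ ((Q ⊓ E : Subgroup G) : Set G), ∃ d ∈ (D : Set G), x = g * g * d}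
  mul_mem' := by
    rintro _ _ ⟨g, hg, d, hd, rfl⟩ ⟨k, hk, e, he, rfl⟩
    refine ⟨g * k, (Q ⊓ E).mul_mem hg hk, d * e, D.mul_mem hd he, ?_⟩
    have c1 : d * (k * k) = k * k * d :=
      hcomm d (hle hd) (k * k) (E.mul_mem hk.2 hk.2)
    have c2 : g * k = k * g := hcomm g hg.2 k hk.2
    calc g * g * d * (k * k * e) = g * g * (d * (k * k)) * e := by simp only [mul_assoc]
      _ = g * g * (k * k * d) * e := by rw [c1]
      _ = g * (g * k) * k * d * e := by simp only [mul_assoc]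
      _ = g * (k * g) * k * d * e := by rw [c2]
      _ = g * k * (g * k) * (d * e) := by simp only [mul_assoc]
  one_mem' := ⟨1, (Q ⊓ E).one_mem, 1, D.one_mem, by simp⟩
  inv_mem' := by
    rintro _ ⟨g, hg, d, hd, rfl⟩
    refine ⟨g⁻¹, (Q ⊓ E).inv_mem hg, d⁻¹, D.inv_mem hd, ?_⟩
    have c1 : d⁻¹ * (g⁻¹ * g⁻¹) = g⁻¹ * g⁻¹ * d⁻¹ :=
      hcomm _ (E.inv_mem (hle hd)) _ (E.mul_mem (E.inv_mem hg.2) (E.inv_mem hg.2))
    rw [← c1]
    group

/-- **Square roots.** `E` is an abelian definable subgroup, `D ≤ E` a definable subgroup, and `g ∈ E`, `g² ∈ D` implies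
`g ∈ D`. Then every `r ∈ E` is `g² d` with `g ∈ E`, `d ∈ D`.
Proof. Let `P 0 = E`, `P (j + 1) = {g² d | g ∈ P j, d ∈ D}`; these are definable subgroups (`E` is abelian),
`D ≤ P (j + 1) ≤ P j`. By `exists_minimal_subgroup` for `{P j | j}` there is `j` with `P (j + 1) = P j`. If
`P (j + 1) = P j` and `j = i + 1` then `P (i + 1) = P i`: let `g ∈ P i`; `g² ∈ P (i + 1) = P (j + 1)`, so `g² = h² d` with
`h ∈ P j = P (i + 1)`, `d ∈ D`; `(g h⁻¹)² = d ∈ D`, so `g h⁻¹ ∈ D` and `g ∈ P (i + 1)`. By descent `P 1 = P 0 = E`. -/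
theorem exists_sqrt {G : Type} [RS X G] [Group G] [DG G] {E D : Subgroup G}
    (hE : Df (E : Set G)) (hD : Df (D : Set G)) (hle : D ≤ E)
    (hcomm : ∀ a ∈ E, ∀ b ∈ E, a * b = b * a) (h : ∀ g ∈ E, g * g ∈ D → g ∈ D) {r : G}
    (hr : r ∈ E) : ∃ g ∈ E, ∃ d ∈ D, r = g * g * d := by
  set F : Subgroup G → Subgroup G := sqS hle hcomm with hF
  have hmem : ∀ (Q : Subgroup G) (x : G), x ∈ F Q ↔
      ∃ g ∈ ((Q ⊓ E : Subgroup G) : Set G), ∃ d ∈ (D : Set G), x = g * g * d := fun _ _ => Iff.rfl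
  have hDF : ∀ Q, D ≤ F Q := fun Q d hd =>
    (hmem Q d).2 ⟨1, (Q ⊓ E).one_mem, d, hd, by simp⟩
  have hFE : ∀ Q, F Q ≤ E := by
    rintro Q x hx
    obtain ⟨g, hg, d, hd, rfl⟩ := (hmem Q x).1 hx
    exact E.mul_mem (E.mul_mem hg.2 hg.2) (hle hd)
  have hmono : ∀ Q Q', Q ≤ Q' → F Q ≤ F Q' := by
    rintro Q Q' hQ x hx
    obtain ⟨g, hg, d, hd, rfl⟩ := (hmem Q x).1 hx
    exact (hmem Q' _).2 ⟨g, ⟨hQ hg.1, hg.2⟩, d, hd, rfl⟩
  have hDf : ∀ Q : Subgroup G, Df (Q : Set G) → Df (F Q : Set G) := by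
    intro Q hQ
    have h1 : Df {x : G | ∃ g ∈ ((Q ⊓ E : Subgroup G) : Set G), ∃ d ∈ (D : Set G),
        x = g * g * d} :=
      Df.exin (Df.inf hQ hE) (Df.exin hD (Df.eq (by fun_prop) (by fun_prop)))
    exact h1
  set P : ℕ → Subgroup G := fun j => F^[j] E with hP
  have hP0 : P 0 = E := rfl
  have hPs : ∀ j, P (j + 1) = F (P j) := fun j => iterate_succ_apply' F j E
  have hPdf : ∀ j, Df (P j : Set G) := by
    intro j
    induction j with
    | zero => exact hE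
    | succ j ih =>
      rw [hPs]
      exact hDf _ ih
  have hPE : ∀ j, P j ≤ E := by
    intro j
    rcases j with _ | j
    · exact le_rfl
    · rw [hPs]
      exact hFE _
  have hanti : ∀ j, P (j + 1) ≤ P j := by
    intro j
    induction j with
    | zero =>
      rw [hPs]
      exact hFE _
    | succ j ih =>
      rw [hPs (j + 1), hPs j]
      refine hmono _ _ ?_
      rw [← hPs]
      exact ih
  obtain ⟨H, ⟨j, rfl⟩, hmin⟩ := exists_minimal_subgroup (fun H : Subgroup G => ∃ j, H = P j)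
    (fun H ⟨j, hj⟩ => hj ▸ hPdf j) ⟨_, 0, rfl⟩
  have hj : P (j + 1) = P j := hmin _ ⟨j + 1, rfl⟩ (hanti j)
  have hdesc : ∀ i, P (i + 1) = P i → P 1 = P 0 := by
    intro i
    induction i with
    | zero => exact fun h => h
    | succ i ih =>
      intro hi
      refine ih (le_antisymm (hanti i) fun g hg => ?_)
      have hgE : g ∈ E := hPE i hg
      have h1 : g * g ∈ P (i + 1) := by
        rw [hPs]
        exact (hmem _ _).2 ⟨g, ⟨hg, hgE⟩, 1, D.one_mem, by simp⟩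
      rw [← hi, hPs (i + 1)] at h1
      obtain ⟨k, hk, d, hd, h2⟩ := (hmem _ _).1 h1
      have hkE : k ∈ E := hk.2
      have hc : g * k⁻¹ = k⁻¹ * g := hcomm g hgE k⁻¹ (E.inv_mem hkE)
      have hc2 : k * k * d = d * (k * k) :=
        hcomm (k * k) (E.mul_mem hkE hkE) d (hle hd)
      have h3 : g * k⁻¹ * (g * k⁻¹) = d := by
        calc g * k⁻¹ * (g * k⁻¹) = g * (k⁻¹ * g) * k⁻¹ := by simp only [mul_assoc]
          _ = g * (g * k⁻¹) * k⁻¹ := by rw [hc]
          _ = g * g * k⁻¹ * k⁻¹ := by simp only [mul_assoc]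
          _ = d * (k * k) * k⁻¹ * k⁻¹ := by rw [h2, hc2]
          _ = d := by group
      have h4 : g * k⁻¹ ∈ D := h _ (E.mul_mem hgE (E.inv_mem hkE)) (by rw [h3]; exact hd)
      have h5 : g = g * k⁻¹ * k := by group
      rw [h5]
      refine (P (i + 1)).mul_mem ?_ hk.1
      rw [hPs]
      exact hDF _ h4
  have h1 : r ∈ P 1 := by
    rw [hdesc j hj]
    exact hr
  rw [hPs 0] at h1
  obtain ⟨g, hg, d, hd, h2⟩ := (hmem _ _).1 h1
  exact ⟨g, hg.2, d, hd, h2⟩

variable {Γ S : Type} [RS X Γ] [RS X S] [Group Γ] [Group S] [Bad S] [DG Γ]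
  (𝒜 : Act Γ S)

/-- If `act r` inverts `x` then `act r` fixes `x`. Proof. `A = {g | g commutes with all elements which commute with r}`
(the centralizer of the centralizer of `r`) is an abelian definable subgroup which contains `r`
(an element of `A` commutes with `r`, so every element of `A` commutes with it). Let
`E = {g ∈ A | act g x = x or act g x = x⁻¹}`, a definable subgroup with `r ∈ E`, and `D = E ⊓ C`. If `g ∈ E` and `g² ∈ D` then
`g ∈ C` (`mem_C_of_sq`). By `exists_sqrt` `r = g² d`, so `act r x = act g (act g x) = x`. -/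
theorem fix_of_inverts {r : Γ} {x : S} (h : 𝒜.act r x = x⁻¹) : 𝒜.act r x = x := by
  have hr : Df ({r} : Set Γ) := Df.eq (f := fun y : Γ => y) (g := fun _ => r)
    (by fun_prop) (by fun_prop)
  set A : Subgroup Γ := Subgroup.centralizer (Subgroup.centralizer {r} : Set Γ) with hA
  have hAdf : Df (A : Set Γ) := Df.centralizer (Df.centralizer hr)
  have hrr : r ∈ Subgroup.centralizer ({r} : Set Γ) := by
    rw [Subgroup.mem_centralizer_iff]
    rintro k rfl
    rfl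
  have hAr : ∀ a ∈ A, a ∈ Subgroup.centralizer ({r} : Set Γ) := by
    intro a ha
    rw [Subgroup.mem_centralizer_iff]
    rintro k rfl
    exact (Subgroup.mem_centralizer_iff.1 ha) _ hrr
  have hcomm : ∀ a ∈ A, ∀ b ∈ A, a * b = b * a := fun a ha b hb =>
    (Subgroup.mem_centralizer_iff.1 hb) a (hAr a ha)
  have hrA : r ∈ A := by
    rw [hA, Subgroup.mem_centralizer_iff]
    intro k hk
    exact ((Subgroup.mem_centralizer_iff.1 hk) r rfl).symm
  let E : Subgroup Γ :=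
    { carrier := {g | g ∈ A ∧ (𝒜.act g x = x ∨ 𝒜.act g x = x⁻¹)}
      mul_mem' := by
        rintro a b ⟨ha, h1⟩ ⟨hb, h2⟩
        refine ⟨A.mul_mem ha hb, ?_⟩
        rw [map_mul, MulAut.mul_apply]
        rcases h2 with h2 | h2
        · rw [h2]
          exact h1
        · rw [h2, map_inv]
          rcases h1 with h1 | h1
          · rw [h1]
            exact Or.inr rfl
          · rw [h1, inv_inv]
            exact Or.inl rfl
      one_mem' := ⟨A.one_mem, Or.inl (by rw [map_one, MulAut.one_apply])⟩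
      inv_mem' := by
        rintro a ⟨ha, h1⟩
        refine ⟨A.inv_mem ha, ?_⟩
        have h2 : 𝒜.act a⁻¹ (𝒜.act a x) = x := by
          rw [← MulAut.mul_apply, ← map_mul, inv_mul_cancel, map_one, MulAut.one_apply]
        rcases h1 with h1 | h1
        · rw [h1] at h2
          exact Or.inl h2
        · rw [h1, map_inv] at h2
          refine Or.inr ?_
          rw [← h2, inv_inv]
          rw [h2] }
  have hEmem : ∀ g, g ∈ E ↔ g ∈ A ∧ (𝒜.act g x = x ∨ 𝒜.act g x = x⁻¹) := fun _ => Iff.rfl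
  have hact : DefMap (fun g : Γ => 𝒜.act g x) :=
    DefMap.act 𝒜 (f := fun g : Γ => g) (h := fun _ => x) (by fun_prop) (by fun_prop)
  have hEdf : Df (E : Set Γ) := by
    have h1 : Df {g : Γ | g ∈ A ∧ (𝒜.act g x = x ∨ 𝒜.act g x = x⁻¹)} :=
      Df.and (Df.mem (f := fun g : Γ => g) hAdf (by fun_prop))
        (Df.or (Df.eq hact (by fun_prop)) (Df.eq hact (by fun_prop)))
    exact h1
  have hDdf : Df ((E ⊓ 𝒜.C : Subgroup Γ) : Set Γ) := Df.inf hEdf (Df_C 𝒜)
  obtain ⟨g, hg, d, hd, hrg⟩ := exists_sqrt hEdf hDdf inf_le_left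
    (fun a ha b hb => hcomm a ((hEmem a).1 ha).1 b ((hEmem b).1 hb).1)
    (fun g hg hgg => ⟨hg, mem_C_of_sq 𝒜 hgg.2⟩) (r := r) ((hEmem r).2 ⟨hrA, Or.inr h⟩)
  have hdx : 𝒜.act d x = x := (mem_C 𝒜).1 hd.2 x
  rw [hrg, map_mul, map_mul, MulAut.mul_apply, MulAut.mul_apply, hdx]
  rcases ((hEmem g).1 hg).2 with h1 | h1
  · rw [h1, h1]
  · rw [h1, map_inv, h1, inv_inv]

/-- **`R B` centralizes `B`.** The orbit of `x ∈ B` under `R B` is contained in `B`. Suppose that it is not `{x}`;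
then it is infinite (`Conn.fix_of_finite` for `R_conn`), so it has rank one, and the same holds for the orbit of `x⁻¹`
(the set of the inverses). `B` is irreducible (`Conn.irr`), so the two orbits meet, and `act r x = x⁻¹` for some
`r ∈ R B`. By `fix_of_inverts` `x = x⁻¹`, so `x = 1` (`no_inv_elt`): the orbit is `{1}`. Contradiction. -/
theorem R_fix (hΓ : Conn (⊤ : Subgroup Γ)) {B : Subgroup S} (hB : Borel B)
    (hb : rk (B : Set S) = 1) {g : Γ} (hg : g ∈ 𝒜.R B) {x : S} (hx : x ∈ B) :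
    𝒜.act g x = x := by
  by_cases hfin : {y | ∃ g ∈ 𝒜.R B, y = 𝒜.act g x}.Finite
  · exact Conn.fix_of_finite (R_conn 𝒜 hΓ hB) 𝒜.act 𝒜.d_act x hfin g hg
  have hR : Df (𝒜.R B : Set Γ) := Df_R 𝒜 hB.1.1
  have hOdf : Df {y | ∃ g ∈ (𝒜.R B : Set Γ), y = 𝒜.act g x} :=
    Df.exin hR (Df.eq (f := fun p : S × Γ => p.1) (g := fun p : S × Γ => 𝒜.act p.2 x)
      (by fun_prop) (DefMap.act 𝒜 (f := fun p : S × Γ => p.2) (h := fun _ => x)
        (by fun_prop) (by fun_prop)))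
  set O : Set S := {y | ∃ g ∈ (𝒜.R B : Set Γ), y = 𝒜.act g x} with hO
  have hinf : O.Infinite := hfin
  have hOB : O ⊆ (B : Set S) := by
    rintro y ⟨k, hk, rfl⟩
    exact (((mem_R 𝒜).1 hk) x).2 hx
  have hrk : rk O = rk (B : Set S) := by
    refine le_antisymm (rk_mono hOdf hB.1.1 hOB) ?_
    rw [hb]
    exact (rk_pos_iff hOdf).2 hinf
  have hO'df : Df ((fun y : S => y⁻¹) '' O) := Df.im (by fun_prop) hOdf
  have hO'B : (fun y : S => y⁻¹) '' O ⊆ (B : Set S) := by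
    rintro _ ⟨y, hy, rfl⟩
    exact B.inv_mem (hOB hy)
  obtain ⟨y, ⟨k, hk, hyk⟩, ⟨z, ⟨l, hl, hzl⟩, hyz⟩⟩ := (Conn.irr hB.1).2.2 O _ hOdf hO'df hOB hO'B
    hinf.nonempty (hinf.nonempty.image _) hrk ((rk_inv hOdf).trans hrk)
  have h1 : 𝒜.act k x = 𝒜.act l x⁻¹ := by
    rw [← hyk, map_inv, ← hzl]
    exact hyz.symm
  have h2 : 𝒜.act (l⁻¹ * k) x = x⁻¹ := by
    rw [map_mul, MulAut.mul_apply, h1, ← MulAut.mul_apply, ← map_mul, inv_mul_cancel, map_one,
      MulAut.one_apply]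
  have h3 := fix_of_inverts 𝒜 h2
  have h4 : x = 1 := by
    refine no_inv_elt ?_
    have h5 : x = x⁻¹ := h3.symm.trans h2
    nth_rewrite 1 [h5]
    exact inv_mul_cancel x
  rw [h4, map_one]

/-- For `x ≠ 1` (all Borel subgroups have rank one): the stabilizer of `x` is `R (bo x)`. `→`: `fixes_of_mem`;
`←`: `R_fix`. -/
theorem act_eq_iff (hΓ : Conn (⊤ : Subgroup Γ))
    (hb : ∀ B : Subgroup S, Borel B → rk (B : Set S) = 1) {g : Γ} {x : S} (hx : x ≠ 1) :
    𝒜.act g x = x ↔ g ∈ 𝒜.R (bo x) := by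
  constructor
  · intro h
    refine fixes_of_mem (bo_borel x) (act_defMap 𝒜 g) hx (mem_bo x) ?_
    rw [h]
    exact mem_bo x
  · intro h
    exact R_fix 𝒜 hΓ (bo_borel x) (hb _ (bo_borel x)) h (mem_bo x)

/-- The `Γ`-classes are the `S`-classes: `frattini` for `bo x`, `R_fix`. -/
theorem act_conj (hΓ : Conn (⊤ : Subgroup Γ))
    (hb : ∀ B : Subgroup S, Borel B → rk (B : Set S) = 1) (g : Γ) (x : S) :
    ∃ s : S, 𝒜.act g x = s⁻¹ * x * s := by
  obtain ⟨s, r, hr, hg⟩ := frattini 𝒜 (bo_borel x) g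
  refine ⟨s⁻¹, ?_⟩
  rw [hg, map_mul, MulAut.mul_apply, R_fix 𝒜 hΓ (bo_borel x) (hb _ (bo_borel x)) hr (mem_bo x),
    𝒜.act_ι, inv_inv]

end Pool.Agent.BadG
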