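import Pool.Agent.BadG.Irr

set_option autoImplicit false

/-! BG07. Finite Morley degree. -/

namespace Pool.Agent.BadG

open Function

variable {X : Type} [RU X] {E F H : Type} [RS X E] [RS X F] [RS X H]

/-- Full sets for the rank `r`. -/
private def Fl (r : ℕ) (B : Set E) : Prop := Df B ∧ B.Nonempty ∧ r ≤ rk B

private def Split (r : ℕ) (A : Set E) (N : ℕ) : Prop :=
  ∃ B : Fin N → Set E, Pairwise (onFun Disjoint B) ∧ ∀ i, Fl r (B i) ∧ B i ⊆ A

private theorem Split.mono {r : ℕ} {A A' : Set E} {M N : ℕ} (h : Split r A N) (hA : A ⊆ A')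
    (hM : M ≤ N) : Split r A' M := by
  obtain ⟨B, hB, hB'⟩ := h
  refine ⟨fun i => B (Fin.castLE hM i), ?_, fun i => ⟨(hB' _).1, (hB' _).2.trans hA⟩⟩
  intro i j hij
  exact hB (fun h => hij (Fin.castLE_injective hM h))

private theorem fl_or {r : ℕ} {B D : Set E} (hB : Fl r B) (hD : Df D) :
    Fl r (B ∩ D) ∨ Fl r (B \ D) := by
  obtain ⟨h1, h2, h3⟩ := hB
  have hu : B ∩ D ∪ B \ D = B := Set.inter_union_sdiff B D
  have hr : rk (B ∩ D ∪ B \ D) = max (rk (B ∩ D)) (rk (B \ D)) :=
    rk_union (h1.inter hD) (h1.diff hD)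
  rw [hu] at hr
  rcases Nat.eq_zero_or_pos r with h0 | h0
  · subst h0
    obtain ⟨x, hx⟩ := h2
    by_cases hxD : x ∈ D
    · exact Or.inl ⟨h1.inter hD, ⟨x, hx, hxD⟩, Nat.zero_le _⟩
    · exact Or.inr ⟨h1.diff hD, ⟨x, hx, hxD⟩, Nat.zero_le _⟩
  · have h4 : r ≤ rk (B ∩ D) ∨ r ≤ rk (B \ D) := by
      rw [hr] at h3
      exact le_max_iff.mp h3
    rcases h4 with h4 | h4
    · exact Or.inl ⟨h1.inter hD, nonempty_of_rk_pos (lt_of_lt_of_le h0 h4), h4⟩
    · exact Or.inr ⟨h1.diff hD, nonempty_of_rk_pos (lt_of_lt_of_le h0 h4), h4⟩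

private theorem split_of_finset {r : ℕ} {K N : ℕ} {A : Set E} {B : Fin K → Set E}
    (hB : Pairwise (onFun Disjoint B)) (s : Finset (Fin K)) (C : Fin K → Set E)
    (hC : ∀ i, C i ⊆ B i) (hs : ∀ i ∈ s, Fl r (C i) ∧ C i ⊆ A) (hN : N ≤ s.card) :
    Split r A N := by
  refine ⟨fun i => C (s.orderEmbOfCardLe hN i), ?_, fun i => hs _ (s.orderEmbOfCardLe_mem hN i)⟩
  intro i j hij
  have hne : s.orderEmbOfCardLe hN i ≠ s.orderEmbOfCardLe hN j :=
    fun h => hij ((s.orderEmbOfCardLe hN).injective h)
  exact (hB hne).mono (hC _) (hC _)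

private theorem split_or {r : ℕ} {A D : Set E} (hD : Df D) {N : ℕ} (h : Split r A (2 * N)) :
    Split r (A ∩ D) N ∨ Split r (A \ D) N := by
  classical
  obtain ⟨B, hB, hB'⟩ := h
  let s : Finset (Fin (2 * N)) := Finset.univ.filter (fun i => Fl r (B i ∩ D))
  let t : Finset (Fin (2 * N)) := Finset.univ.filter (fun i => Fl r (B i \ D))
  have hst : s ∪ t = Finset.univ := by
    ext i
    simp only [s, t, Finset.mem_union, Finset.mem_filter, Finset.mem_univ, true_and, iff_true]
    exact fl_or (hB' i).1 hD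
  have hcard : 2 * N ≤ s.card + t.card := by
    have h1 := Finset.card_union_le s t
    rw [hst, Finset.card_univ, Fintype.card_fin] at h1
    exact h1
  have h2 : N ≤ s.card ∨ N ≤ t.card := by omega
  rcases h2 with h2 | h2
  · left
    refine split_of_finset hB s (fun i => B i ∩ D) (fun i => Set.inter_subset_left) ?_ h2
    intro i hi
    exact ⟨(Finset.mem_filter.mp hi).2, Set.inter_subset_inter_left _ (hB' i).2⟩
  · right
    refine split_of_finset hB t (fun i => B i \ D) (fun i => Set.sdiff_subset) ?_ h2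
    intro i hi
    exact ⟨(Finset.mem_filter.mp hi).2, Set.sdiff_subset_sdiff_left (hB' i).2⟩

private theorem split_all_or {r : ℕ} {A D : Set E} (hD : Df D) (h : ∀ N, Split r A N) :
    (∀ N, Split r (A ∩ D) N) ∨ (∀ N, Split r (A \ D) N) := by
  by_cases h1 : ∀ N, Split r (A ∩ D) N
  · exact Or.inl h1
  · right
    push Not at h1
    obtain ⟨N0, hN0⟩ := h1
    intro N
    rcases split_or hD (h (2 * max N N0)) with h2 | h2
    · exact absurd (h2.mono subset_rfl (le_max_right _ _)) hN0
    · exact h2.mono subset_rfl (le_max_left _ _)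

private theorem split_step {r : ℕ} {A : Set E} (hA : Df A) (h : ∀ N, Split r A N) :
    ∃ C A' : Set E, Fl r C ∧ C ⊆ A ∧ A' ⊆ A ∧ Disjoint C A' ∧ Df A' ∧ ∀ N, Split r A' N := by
  obtain ⟨B, hB, hB'⟩ := h 2
  have hd : Disjoint (B 0) (B 1) := hB (by decide)
  have h0 := (hB' 0).1
  rcases split_all_or h0.1 h with h1 | h1
  · refine ⟨B 1, A ∩ B 0, (hB' 1).1, (hB' 1).2, Set.inter_subset_left, ?_, hA.inter h0.1, h1⟩
    exact hd.symm.mono_right Set.inter_subset_right
  · refine ⟨B 0, A \ B 0, h0, (hB' 0).2, Set.sdiff_subset, ?_, hA.diff h0.1, h1⟩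
    exact Set.disjoint_sdiff_right

private theorem exists_not_split {A : Set E} (hA : Df A) (hne : A.Nonempty) :
    ∃ N : ℕ, ¬ Split (rk A) A N := by
  by_contra hcon
  push Not at hcon
  let T : Type := {A' : Set E // Df A' ∧ A' ⊆ A ∧ ∀ N, Split (rk A) A' N}
  have hstep : ∀ t : T, ∃ p : Set E × T, Fl (rk A) p.1 ∧ p.1 ⊆ t.1 ∧ p.2.1 ⊆ t.1 ∧
      Disjoint p.1 p.2.1 := by
    intro t
    obtain ⟨C, A', h1, h2, h3, h4, h5, h6⟩ := split_step t.2.1 t.2.2.2
    exact ⟨(C, ⟨A', h5, h3.trans t.2.2.1, h6⟩), h1, h2, h3, h4⟩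
  choose p hp1 hp2 hp3 hp4 using hstep
  let a : ℕ → T := fun n => Nat.rec ⟨A, hA, subset_rfl, hcon⟩ (fun _ t => (p t).2) n
  have ha : ∀ n, a (n + 1) = (p (a n)).2 := fun n => rfl
  have hanti : ∀ n m, n ≤ m → (a m).1 ⊆ (a n).1 := by
    intro n m hnm
    induction m, hnm using Nat.le_induction with
    | base => exact subset_rfl
    | succ m _ ih =>
      rw [ha]
      exact (hp3 _).trans ih
  have hdis : ∀ n m, n < m → Disjoint (p (a n)).1 (p (a m)).1 := by
    intro n m hnm
    have h1 : (p (a m)).1 ⊆ (a (n + 1)).1 := (hp2 _).trans (hanti (n + 1) m hnm)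
    rw [ha] at h1
    exact (hp4 (a n)).mono_right h1
  have hfin : rk A + 1 ≤ rk A := by
    rw [rk_succ_iff hA hne]
    refine ⟨fun n => (p (a n)).1, ?_, ?_⟩
    · intro n m hnm
      rcases lt_or_gt_of_ne hnm with h | h
      · exact hdis n m h
      · exact (hdis m n h).symm
    · intro n
      exact ⟨(hp1 _).1, (hp1 _).2.1, (hp2 _).trans (a n).2.2.1, (hp1 _).2.2⟩
  omega

/-- **Finite degree.** There is `N` such that of any `N` nonempty full-rank definable subsets of `A` two
different ones have a nonempty full-rank intersection.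

Proof. Put `r = rk A`; full: nonempty definable of rank `r`. Call `A' ⊆ A` definable `N`-splittable if it has
`N` pairwise disjoint full subsets, and unbounded if it is `N`-splittable for all `N`.
(1) If `A'` is unbounded there are disjoint definable `C, A'' ⊆ A'`, `C` full and `A''` unbounded: `A'` has
disjoint full subsets `D₁`, `C₂`; put `D₂ = A' \ D₁ ⊇ C₂`. For each `N` there are `2N` disjoint full subsets
of `A'`; for each of them its intersection with `D₁` or with `D₂` is full (`rk_union`), so `D₁` or `D₂` is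
`N`-splittable. So one of them, `D₁` or `D₂`, is `N`-splittable for infinitely many, hence for all `N`. Take
`(C, A'') = (C₂, D₁)` or `(D₁, D₂)`.
(2) If `A` is unbounded, dependent choice gives infinitely many disjoint full subsets of `A`: `rk_succ_iff`
gives `rk A ≥ r + 1`, a contradiction. So `A` is not `N`-splittable for some `N`.
(3) Let `B : Fin N → Set E` be full subsets with no two having a full intersection, then the sets
`B i \ ⋃ j < i, B j` are disjoint and full: if `r > 0` a set of rank `< r` is removed; if `r = 0` all the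
intersections are empty. Contradiction. -/
theorem exists_bound {A : Set E} (hA : Df A) (hne : A.Nonempty) : ∃ N : ℕ,
    ∀ B : Fin N → Set E, (∀ i, Df (B i) ∧ (B i).Nonempty ∧ B i ⊆ A ∧ rk (B i) = rk A) →
      ∃ i j, i ≠ j ∧ (B i ∩ B j).Nonempty ∧ rk (B i ∩ B j) = rk A := by
  obtain ⟨N, hN⟩ := exists_not_split hA hne
  refine ⟨N, fun B hB => ?_⟩
  by_contra hcon
  push Not at hcon
  apply hN
  have hle : ∀ i j, rk (B i ∩ B j) ≤ rk A := fun i j =>
    rk_mono ((hB i).1.inter (hB j).1) hA (Set.inter_subset_left.trans (hB i).2.2.1)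
  rcases Nat.eq_zero_or_pos (rk A) with h0 | h0
  · refine ⟨B, ?_, fun i => ⟨⟨(hB i).1, (hB i).2.1, (hB i).2.2.2.ge⟩, (hB i).2.2.1⟩⟩
    intro i j hij
    refine Set.disjoint_iff_inter_eq_empty.mpr ?_
    by_contra hne'
    refine hcon i j hij (Set.nonempty_iff_ne_empty.mpr hne') ?_
    have := hle i j
    omega
  · have hlt : ∀ i j, i ≠ j → rk (B i ∩ B j) ≤ rk A - 1 := by
      intro i j hij
      by_contra hge
      have h1 : rk (B i ∩ B j) = rk A := by
        have := hle i j
        omega
      exact hcon i j hij (nonempty_of_rk_pos (by omega)) h1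
    let U : Fin N → Set E := fun i => ⋃ j ∈ Finset.univ.filter (fun j => j < i), (B i ∩ B j)
    have hUd : ∀ i, Df (U i) := fun i =>
      Df.biUnion _ (fun j _ => (hB i).1.inter (hB j).1)
    have hUr : ∀ i, rk (U i) ≤ rk A - 1 := by
      intro i
      refine rk_biUnion_le _ (fun j _ => (hB i).1.inter (hB j).1) _ ?_
      intro j hj
      exact hlt i j (ne_of_gt (Finset.mem_filter.mp hj).2)
    have hr : ∀ i, rk (B i \ U i) = rk A := by
      intro i
      rw [rk_diff_eq (hB i).1 (hUd i) (by have := hUr i; rw [(hB i).2.2.2]; omega)]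
      exact (hB i).2.2.2
    have hdis : ∀ i j, j < i → Disjoint (B j \ U j) (B i \ U i) := by
      intro i j hji
      refine Set.disjoint_left.mpr ?_
      intro x hx hy
      apply hy.2
      refine Set.mem_iUnion₂.mpr ⟨j, ?_, hy.1, hx.1⟩
      exact Finset.mem_filter.mpr ⟨Finset.mem_univ _, hji⟩
    refine ⟨fun i => B i \ U i, ?_, ?_⟩
    · intro i j hij
      rcases lt_or_gt_of_ne hij with h | h
      · exact hdis j i h
      · exact (hdis i j h).symm
    · intro i
      refine ⟨⟨(hB i).1.diff (hUd i), nonempty_of_rk_pos (by rw [hr i]; exact h0), (hr i).ge⟩, ?_⟩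
      exact Set.sdiff_subset.trans (hB i).2.2.1

/-- **Maximal families.** Let `L : ι → Set E` be a family of full subsets of `A`. There is a finite
set `s` of indices such that every `L i` has a nonempty full intersection with some `L j`, `j ∈ s`.
(Take a finite `s` with pairwise non-full intersections of maximal size, which exists by
`exists_bound`.) -/
theorem exists_finite_classes {A : Set E} (hA : Df A) {I : Type} (L : I → Set E)
    (hL : ∀ i, Df (L i) ∧ (L i).Nonempty ∧ L i ⊆ A ∧ rk (L i) = rk A) :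
    ∃ s : Finset I, ∀ i, ∃ j ∈ s, (L i ∩ L j).Nonempty ∧ rk (L i ∩ L j) = rk A := by
  classical
  by_cases hI : Nonempty I
  swap
  · exact ⟨∅, fun i => absurd ⟨i⟩ hI⟩
  obtain ⟨i0⟩ := hI
  have hne : A.Nonempty := (hL i0).2.1.mono (hL i0).2.2.1
  obtain ⟨N, hN⟩ := exists_bound hA hne
  by_contra hcon
  push Not at hcon
  have hex : ∀ n : ℕ, ∃ f : Fin n → I, ∀ i j, i ≠ j → (L (f i) ∩ L (f j)).Nonempty →
      rk (L (f i) ∩ L (f j)) ≠ rk A := by
    intro n
    induction n with
    | zero => exact ⟨fun i => i.elim0, fun i => i.elim0⟩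
    | succ n ih =>
      obtain ⟨f, hf⟩ := ih
      obtain ⟨i, hi⟩ := hcon (Finset.univ.image f)
      have hi' : ∀ j, (L i ∩ L (f j)).Nonempty → rk (L i ∩ L (f j)) ≠ rk A := fun j =>
        hi (f j) (Finset.mem_image_of_mem f (Finset.mem_univ j))
      refine ⟨Fin.cons i f, ?_⟩
      intro a b
      refine Fin.cases ?_ (fun a => ?_) a <;> refine Fin.cases ?_ (fun b => ?_) b
      · intro h
        exact absurd rfl h
      · intro _
        simp only [Fin.cons_zero, Fin.cons_succ]
        exact hi' b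
      · intro _
        simp only [Fin.cons_zero, Fin.cons_succ]
        rw [Set.inter_comm]
        exact hi' a
      · intro h
        simp only [Fin.cons_succ]
        exact hf a b (fun hab => h (by rw [hab]))
  obtain ⟨f, hf⟩ := hex N
  obtain ⟨i, j, hij, h1, h2⟩ := hN (fun i => L (f i)) (fun i => hL (f i))
  exact hf i j hij h1 h2

/-- Every nonempty definable set has an irreducible definable subset of the same rank: apply
`exists_finite_classes` to the family of ALL full subsets of `A` (a set-theoretic index type) and take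
a family of maximal size; or: if no full subset is irreducible then every full subset contains two
disjoint ones, so there are arbitrarily many disjoint full subsets, against `exists_bound`. -/
theorem exists_irr {A : Set E} (hA : Df A) (hne : A.Nonempty) : ∃ Y ⊆ A, Irr Y ∧ rk Y = rk A := by
  by_contra hcon
  push Not at hcon
  obtain ⟨N, hN⟩ := exists_not_split hA hne
  have hall : ∀ (n : ℕ) (B : Set E), Fl (rk A) B → B ⊆ A → Split (rk A) B n := by
    intro n
    induction n with
    | zero =>
      intro B _ _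
      exact ⟨fun i => i.elim0, fun i => i.elim0, fun i => i.elim0⟩
    | succ n ih =>
      intro B hB hBA
      have hBr : rk B = rk A := le_antisymm (rk_mono hB.1 hA hBA) hB.2.2
      have hnot : ¬ Irr B := fun h => hcon B hBA h hBr
      unfold Irr at hnot
      push Not at hnot
      obtain ⟨B₁, B₂, d1, d2, s1, s2, n1, n2, r1, r2, hdis⟩ := hnot hB.1 hB.2.1
      obtain ⟨C, hC, hC'⟩ := ih B₂ ⟨d2, n2, by rw [r2, hBr]⟩ (s2.trans hBA)
      have hd : Disjoint B₁ B₂ := Set.disjoint_iff_inter_eq_empty.mpr hdis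
      refine ⟨Fin.cons B₁ C, ?_, ?_⟩
      · intro a b
        refine Fin.cases ?_ (fun a => ?_) a <;> refine Fin.cases ?_ (fun b => ?_) b
        · intro h
          exact absurd rfl h
        · intro _
          simp only [onFun, Fin.cons_zero, Fin.cons_succ]
          exact hd.mono_right (hC' b).2
        · intro _
          simp only [onFun, Fin.cons_zero, Fin.cons_succ]
          exact (hd.mono_right (hC' a).2).symm
        · intro h
          simp only [onFun, Fin.cons_succ]
          exact hC (fun hab => h (by rw [hab]))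
      · intro a
        refine Fin.cases ?_ (fun a => ?_) a
        · simp only [Fin.cons_zero]
          exact ⟨⟨d1, n1, by rw [r1, hBr]⟩, s1⟩
        · simp only [Fin.cons_succ]
          exact ⟨(hC' a).1, (hC' a).2.trans s2⟩
  exact hN (hall N A ⟨hA, hne, le_rfl⟩ subset_rfl)

end Pool.Agent.BadG
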