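import Pool.Agent.BadG.Cc
import Pool.Agent.BadG.Classes

set_option autoImplicit false

/-! BG11. Connected groups are irreducible. -/

namespace Pool.Agent.BadG

open Function

variable {X : Type} [RU X] {E F : Type} [RS X E] [RS X F] [Group E] [DG E] [Group F] [DG F]

private lemma ci_memimg (g : E) (Y : Set E) (y : E) :
    y ∈ (fun x => g * x) '' Y ↔ g⁻¹ * y ∈ Y := by
  constructor
  · rintro ⟨x, hx, rfl⟩
    simpa using hx
  · intro h
    exact ⟨g⁻¹ * y, h, by simp⟩

private lemma ci_df_img (g : E) {Y : Set E} (hY : Df Y) : Df ((fun x => g * x) '' Y) :=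
  Df.im (by fun_prop) hY

private lemma ci_irr_img (g : E) {Y : Set E} (hY : Irr Y) : Irr ((fun x => g * x) '' Y) :=
  hY.map_inj (by fun_prop) (fun _ _ _ _ h => mul_left_cancel h)

private lemma ci_img_inter (g : E) (Y Z : Set E) :
    (fun x => g * x) '' (Y ∩ Z) = ((fun x => g * x) '' Y) ∩ ((fun x => g * x) '' Z) :=
  Set.image_inter (fun _ _ h => mul_left_cancel h)

private lemma ci_img_img (g h : E) (Y : Set E) :
    (fun x => g * x) '' ((fun x => h * x) '' Y) = (fun x => (g * h) * x) '' Y := by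
  rw [Set.image_image]
  congr 1
  funext x
  rw [mul_assoc]

private lemma ci_img_one (Y : Set E) : (fun x => (1 : E) * x) '' Y = Y := by
  simp

/-- Finitely many cosets. -/
private lemma ci_relIndex {T H : Subgroup E} (s : Finset H)
    (h : ∀ g : H, ∃ j ∈ s, ((j : E)⁻¹ * (g : E)) ∈ T) : T.relIndex H ≠ 0 := by
  have hfin : Finite (H ⧸ T.subgroupOf H) := by
    refine Finite.of_surjective (fun j : s => (QuotientGroup.mk (j : H) : H ⧸ T.subgroupOf H)) ?_
    intro q
    obtain ⟨g, rfl⟩ := QuotientGroup.mk_surjective q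
    obtain ⟨j, hj, hjT⟩ := h g
    refine ⟨⟨j, hj⟩, ?_⟩
    rw [QuotientGroup.eq]
    rw [Subgroup.mem_subgroupOf]
    simpa using hjT
  rw [Subgroup.relIndex]
  exact Subgroup.index_ne_zero_of_finite

/-- The almost stabilizer of `Y`. -/
private def ciT (H : Subgroup E) (Y : Set E) (r : ℕ) (hY : Irr Y) (hr : rk Y = r) :
    Subgroup E where
  carrier := {g | g ∈ H ∧ ((((fun x => g * x) '' Y) ∩ Y).Nonempty ∧
    rk (((fun x => g * x) '' Y) ∩ Y) = r)}
  one_mem' := by
    refine ⟨H.one_mem, ?_⟩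
    rw [ci_img_one, Set.inter_self]
    exact ⟨hY.2.1, hr⟩
  mul_mem' := by
    rintro g h ⟨hg, hg2⟩ ⟨hh, hh2⟩
    refine ⟨H.mul_mem hg hh, ?_⟩
    have hd := hY.1
    refine Irr.trans (B := (fun x => g * x) '' Y) (ci_irr_img g hY) (ci_df_img _ hd) hd
      ((rk_mul_left g hd).trans hr) ((rk_mul_left _ hd).trans hr) ?_ hg2
    rw [← ci_img_img, ← ci_img_inter]
    refine ⟨hh2.1.image _, ?_⟩
    rw [rk_mul_left g ((ci_df_img h hd).inter hd)]
    exact hh2.2
  inv_mem' := by
    rintro g ⟨hg, hg2⟩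
    refine ⟨H.inv_mem hg, ?_⟩
    have hd := hY.1
    have h1 : ((fun x => g⁻¹ * x) '' Y) ∩ Y
        = (fun x => g⁻¹ * x) '' (((fun x => g * x) '' Y) ∩ Y) := by
      rw [ci_img_inter, ci_img_img, inv_mul_cancel, ci_img_one, Set.inter_comm]
    rw [h1]
    refine ⟨hg2.1.image _, ?_⟩
    rw [rk_mul_left g⁻¹ ((ci_df_img g hd).inter hd)]
    exact hg2.2

private lemma ci_T_df {H : Subgroup E} (hH : Df (H : Set E)) (Y : Set E) (r : ℕ) (hpos : 0 < r)
    (hY : Irr Y) (hr : rk Y = r) : Df (ciT H Y r hY hr : Set E) := by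
  have h1 : (ciT H Y r hY hr : Set E) = {g | g ∈ (H : Set E) ∧
      rk {y | g⁻¹ * y ∈ Y ∧ y ∈ Y} = r} := by
    ext g
    have h2 : ((fun x => g * x) '' Y) ∩ Y = {y | g⁻¹ * y ∈ Y ∧ y ∈ Y} := by
      ext y
      rw [Set.mem_inter_iff, ci_memimg]
      rfl
    constructor
    · rintro ⟨hg, hg1, hg2⟩
      refine ⟨hg, ?_⟩
      rw [← h2]
      exact hg2
    · rintro ⟨hg, hg2⟩
      rw [← h2] at hg2
      refine ⟨hg, ?_, hg2⟩
      apply nonempty_of_rk_pos
      rw [hg2]
      exact hpos
  rw [h1]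
  have hd := hY.1
  refine Df.and hH ?_
  exact Df.rk_eq (P := fun g y => g⁻¹ * y ∈ Y ∧ y ∈ Y)
    (Df.and (Df.mem hd (by fun_prop)) (Df.mem hd (by fun_prop))) r

/-- **A connected group is irreducible.** Let `r = rk H`. If `r = 0` then `H` is finite, `⊥` has
finite index, `H = ⊥`. Let `r > 0` and let `Y ⊆ H` be irreducible of rank `r` (`exists_irr`).
(1) `T = {g ∈ H | rk (gY ∩ Y) = r}` is a definable subgroup of `H` (`Irr.trans`; `gY` is irreducible by
`Irr.map_inj`; definable by `Df.rk_eq`). It has finite index in `H`: if `g_i` are in different cosets of `T` then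
`rk (g_i Y ∩ g_j Y) < r` (translate by `g_i⁻¹`), against `exists_bound` (or `exists_finite_classes` for the
family `g Y`, `g ∈ H`: `H` is a finite union of cosets of `T`). So `T = H`.
(2) `rk (H \ Y) < r`: otherwise let `Z = H \ Y`, `rk Z = r`, and `P = {(g, y) | g ∈ H, y ∈ Y, g y ∈ Z}`. For
`y ∈ Y` the fibre `Z y⁻¹` has rank `r`: `rk P ≥ 2 r` (`add_le_rk'`). For `g ∈ H` the fibre is
`Y \ g⁻¹ Y` of rank `< r` (`Irr.diff_lt`, as `rk (Y ∩ g⁻¹ Y) = r`): `rk P ≤ r + (r - 1)` (`rk_le_add`).
(3) `Irr.superset`. -/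
theorem Conn.irr {H : Subgroup E} (hH : Conn H) : Irr (H : Set E) := by
  have hd := hH.1
  rcases Nat.eq_zero_or_pos (rk (H : Set E)) with h0 | hpos
  · -- finite case
    have hfin : (H : Set E).Finite := by
      by_contra hinf
      have := (rk_pos_iff hd).mpr hinf
      omega
    have hbot : (⊥ : Subgroup E) = H := by
      apply hH.2 ⊥ bot_le Df.bot
      rw [Subgroup.relIndex_bot_left]
      have : Finite H := hfin
      exact Nat.card_pos.ne'
    rw [← hbot]
    have h1 : ((⊥ : Subgroup E) : Set E) = {1} := Subgroup.coe_bot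
    rw [h1]
    exact Irr.singleton 1
  · obtain ⟨r, hr⟩ : ∃ r, r = rk (H : Set E) := ⟨_, rfl⟩
    rw [← hr] at hpos
    obtain ⟨Y, hYH, hY, hYr⟩ := exists_irr hd ⟨1, H.one_mem⟩
    rw [← hr] at hYr
    have hdY := hY.1
    have hTH : ciT H Y r hY hYr = H := by
      have hle : ciT H Y r hY hYr ≤ H := fun g hg => hg.1
      apply hH.2 (ciT H Y r hY hYr) hle (ci_T_df hd Y r hpos hY hYr)
      obtain ⟨s, hs⟩ := exists_finite_classes hd
        (fun g : H => (fun x => (g : E) * x) '' Y) (by
          intro g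
          refine ⟨ci_df_img _ hdY, hY.2.1.image _, ?_, ?_⟩
          · rintro _ ⟨x, hx, rfl⟩
            exact H.mul_mem g.2 (hYH hx)
          · rw [rk_mul_left _ hdY, hYr, hr])
      apply ci_relIndex s
      intro g
      obtain ⟨j, hj, hj1, hj2⟩ := hs g
      refine ⟨j, hj, ?_⟩
      refine ⟨H.mul_mem (H.inv_mem j.2) g.2, ?_⟩
      have h1 : ((fun x => ((j : E)⁻¹ * (g : E)) * x) '' Y) ∩ Y
          = (fun x => (j : E)⁻¹ * x) '' (((fun x => (g : E) * x) '' Y) ∩
            ((fun x => (j : E) * x) '' Y)) := by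
        rw [ci_img_inter, ci_img_img, ci_img_img, inv_mul_cancel, ci_img_one]
      rw [h1]
      refine ⟨hj1.image _, ?_⟩
      rw [rk_mul_left _ ((ci_df_img _ hdY).inter (ci_df_img _ hdY))]
      rw [hr]
      exact hj2
    have hT : ∀ g ∈ H, rk (((fun x => g * x) '' Y) ∩ Y) = r := by
      intro g hg
      rw [← hTH] at hg
      exact hg.2.2
    have hlt : rk ((H : Set E) \ Y) < rk Y := by
      by_contra hge
      rw [not_lt, hYr] at hge
      obtain ⟨Z, hZ⟩ : ∃ Z : Set E, Z = (H : Set E) \ Y := ⟨_, rfl⟩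
      rw [← hZ] at hge
      have hdZ : Df Z := by rw [hZ]; exact hd.diff hdY
      obtain ⟨P, hP⟩ : ∃ P : Set (E × E),
        P = {p : E × E | p.1 ∈ (H : Set E) ∧ p.2 ∈ Y ∧ p.1 * p.2 ∈ Z} := ⟨_, rfl⟩
      have hdP : Df P := by
        rw [hP]
        exact Df.and (Df.mem hd (by fun_prop))
          (Df.and (Df.mem hdY (by fun_prop)) (Df.mem hdZ (by fun_prop)))
      have h1 : rk Y + r ≤ rk P := by
        apply add_le_rk' hdP hdY hY.2.1
        intro y hy
        have h2 : {e | (e, y) ∈ P} = (fun x => x * y⁻¹) '' Z := by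
          ext e
          constructor
          · intro he
            rw [hP] at he
            exact ⟨e * y, he.2.2, by simp⟩
          · rintro ⟨z, hz, rfl⟩
            rw [hP]
            have hzH : z ∈ (H : Set E) := by
              rw [hZ] at hz
              exact hz.1
            refine ⟨H.mul_mem hzH (H.inv_mem (hYH hy)), hy, ?_⟩
            simpa using hz
        rw [h2, rk_mul_right _ hdZ]
        refine ⟨?_, hge⟩
        have : Z.Nonempty := by
          apply nonempty_of_rk_pos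
          omega
        exact this.image _
      have h2 : rk P ≤ rk (H : Set E) + (r - 1) := by
        apply rk_le_add hdP hd
        · intro p hp
          rw [hP] at hp
          exact hp.1
        · intro g hg
          have h3 : fib P g = Y \ (((fun x => g⁻¹ * x) '' Y) ∩ Y) := by
            ext y
            constructor
            · intro hy
              have hy' : (g, y) ∈ P := hy
              rw [hP] at hy'
              obtain ⟨_, hyY, hyZ⟩ := hy'
              refine ⟨hyY, ?_⟩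
              rintro ⟨h4, _⟩
              rw [ci_memimg, inv_inv] at h4
              rw [hZ] at hyZ
              exact hyZ.2 h4
            · rintro ⟨hyY, hy2⟩
              change (g, y) ∈ P
              rw [hP]
              refine ⟨hg, hyY, ?_⟩
              rw [hZ]
              refine ⟨H.mul_mem hg (hYH hyY), ?_⟩
              intro h4
              apply hy2
              refine ⟨?_, hyY⟩
              rw [ci_memimg, inv_inv]
              exact h4
          rw [h3]
          have h4 : rk (Y \ (((fun x => g⁻¹ * x) '' Y) ∩ Y)) < rk Y := by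
            apply hY.diff_lt (by omega) ((ci_df_img _ hdY).inter hdY) Set.inter_subset_right
            rw [hT _ (H.inv_mem hg), hYr]
          omega
      omega
    exact (hY.superset hd hYH hlt).1

/-- A proper subgroup of finite index is disjoint from one of its cosets, both are full. -/
theorem Irr.conn {H : Subgroup E} (hH : Irr (H : Set E)) : Conn H := by
  refine ⟨hH.1, ?_⟩
  intro K hK hdK hidx
  by_contra hne
  have hlt : K < H := lt_of_le_of_ne hK hne
  obtain ⟨g, hg, hgK⟩ := SetLike.exists_of_lt hlt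
  have hrk := rk_eq_of_relIndex hdK hH.1 hK hidx
  obtain ⟨x, hx1, hx2⟩ := hH.2.2 (K : Set E) ((fun x => g * x) '' (K : Set E)) hdK
    (ci_df_img g hdK) hK (by
      rintro _ ⟨x, hx, rfl⟩
      exact H.mul_mem hg (hK hx)) ⟨1, K.one_mem⟩ ⟨g * 1, 1, K.one_mem, rfl⟩ hrk
    ((rk_mul_left g hdK).trans hrk)
  obtain ⟨y, hy, hyx⟩ := hx2
  apply hgK
  have h1 : g = x * y⁻¹ := by
    rw [← hyx]
    simp
  rw [h1]
  exact K.mul_mem hx1 (K.inv_mem hy)

/-- Two full subsets of a connected group meet in a point `≠ 1` (if the group is infinite). -/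
theorem Conn.meet {H : Subgroup E} (hH : Conn H) (hpos : 0 < rk (H : Set E)) {A B : Set E}
    (hA : Df A) (hB : Df B) (sA : A ⊆ H) (sB : B ⊆ H) (rA : rk (H : Set E) ≤ rk A)
    (rB : rk (H : Set E) ≤ rk B) : ∃ x, x ∈ A ∧ x ∈ B ∧ x ≠ 1 := by
  have hI := hH.irr
  have r1 : rk A = rk (H : Set E) := le_antisymm (rk_mono hA hH.1 sA) rA
  have r2 : rk B = rk (H : Set E) := le_antisymm (rk_mono hB hH.1 sB) rB
  have n1 : A.Nonempty := nonempty_of_rk_pos (by omega)
  have n2 : B.Nonempty := nonempty_of_rk_pos (by omega)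
  obtain ⟨_, h2⟩ := hI.inter_rk hA hB sA sB n1 n2 r1 r2
  have hinf : (A ∩ B).Infinite := by
    rw [← rk_pos_iff (hA.inter hB), h2]
    exact hpos
  obtain ⟨x, hx, hx1⟩ := hinf.exists_notMem_finite (Set.finite_singleton (1 : E))
  exact ⟨x, hx.1, hx.2, hx1⟩

/-- A finite set which is invariant under a connected group of definable automorphisms is fixed
pointwise. Here: `H` connected acts on `F` by `a`, definably, and the orbit of `x` is finite. The
stabilizer of `x` is a definable subgroup of `H` of finite index. -/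
theorem Conn.fix_of_finite {H : Subgroup E} (hH : Conn H) (a : E →* MulAut F)
    (ha : DefMap (fun p : E × F => a p.1 p.2)) (x : F) (h : {y | ∃ g ∈ H, y = a g x}.Finite) :
    ∀ g ∈ H, a g x = x := by
  obtain ⟨K, hK⟩ : ∃ K : Subgroup E, ∀ g, g ∈ K ↔ g ∈ H ∧ a g x = x := by
    refine ⟨{
      carrier := {g | g ∈ H ∧ a g x = x}
      mul_mem' := ?_
      one_mem' := ?_
      inv_mem' := ?_ }, fun g => Iff.rfl⟩
    · rintro g k ⟨hg, hg2⟩ ⟨hk, hk2⟩
      refine ⟨H.mul_mem hg hk, ?_⟩
      rw [map_mul, MulAut.mul_apply, hk2, hg2]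
    · refine ⟨H.one_mem, ?_⟩
      rw [map_one, MulAut.one_apply]
    · rintro g ⟨hg, hg2⟩
      refine ⟨H.inv_mem hg, ?_⟩
      rw [map_inv]
      nth_rewrite 1 [← hg2]
      exact MulAut.inv_apply_self _ _ _
  have hKH : K ≤ H := fun g hg => ((hK g).mp hg).1
  have hax : DefMap (fun g : E => a g x) :=
    DefMap.comp (g := fun p : E × F => a p.1 p.2) (f := fun g : E => (g, x)) ha (by fun_prop)
  have hdK : Df (K : Set E) := by
    have h1 : (K : Set E) = {g | g ∈ (H : Set E) ∧ a g x = x} := by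
      ext g
      exact hK g
    rw [h1]
    exact Df.and hH.1 (Df.eq hax (by fun_prop))
  have hidx : K.relIndex H ≠ 0 := by
    have hex : ∀ y : {y | ∃ g ∈ H, y = a g x}, ∃ g : H, (y : F) = a (g : E) x := by
      rintro ⟨y, g, hg, hy⟩
      exact ⟨⟨g, hg⟩, hy⟩
    choose f hf using hex
    have hfinite : Finite {y | ∃ g ∈ H, y = a g x} := h
    have hfin : Finite (H ⧸ K.subgroupOf H) := by
      refine Finite.of_surjective (fun y => (QuotientGroup.mk (f y) : H ⧸ K.subgroupOf H)) ?_
      intro q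
      obtain ⟨g, rfl⟩ := QuotientGroup.mk_surjective q
      refine ⟨⟨a (g : E) x, (g : E), g.2, rfl⟩, ?_⟩
      have h1 := hf ⟨a (g : E) x, (g : E), g.2, rfl⟩
      rw [QuotientGroup.eq]
      rw [Subgroup.mem_subgroupOf]
      rw [hK]
      refine ⟨H.mul_mem (H.inv_mem (f _).2) g.2, ?_⟩
      simp only at h1
      generalize f ⟨a (g : E) x, (g : E), g.2, rfl⟩ = k at h1
      rw [Subgroup.coe_mul, Subgroup.coe_inv, map_mul, MulAut.mul_apply, h1, map_inv]
      exact MulAut.inv_apply_self _ _ _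
    rw [Subgroup.relIndex]
    exact Subgroup.index_ne_zero_of_finite
  have hKe := hH.2 K hKH hdK hidx
  intro g hg
  rw [← hKe] at hg
  exact ((hK g).mp hg).2

end Pool.Agent.BadG
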