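import Pool.Agent.BadG.Defs

set_option autoImplicit false

/-! BG01. Definable sets of sorts: boolean operations, substitution of coordinates, projections,
the diagonal, singletons. Everything is reduced to the axioms of `RU` by computing `code '' _`. -/

namespace Pool.Agent.BadG

open Function

variable {X : Type} [RU X] {E F H : Type} [RS X E] [RS X F] [RS X H]

/-- `code '' univ = range code` (`RS.rng`). -/
theorem Df.univ : Df (Set.univ : Set E) := by
  unfold Df
  rw [Set.image_univ]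
  exact RS.rng

/-- `code` is injective: `code '' (A ∩ B) = code '' A ∩ code '' B`. -/
theorem Df.inter {A B : Set E} (hA : Df A) (hB : Df B) : Df (A ∩ B) := by
  unfold Df at *
  rw [Set.image_inter RS.inj]
  exact RU.D_inter hA hB

/-- `code '' Aᶜ = range code ∩ (code '' A)ᶜ`. -/
theorem Df.compl {A : Set E} (hA : Df A) : Df Aᶜ := by
  unfold Df at *
  have h : RS.code '' Aᶜ = Set.range (RS.code (E := E)) ∩ (RS.code '' A)ᶜ := by
    ext v
    constructor
    · rintro ⟨a, ha, rfl⟩
      refine ⟨⟨a, rfl⟩, ?_⟩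
      rintro ⟨b, hb, hab⟩
      exact ha (RS.inj hab ▸ hb)
    · rintro ⟨⟨a, rfl⟩, h⟩
      exact ⟨a, fun ha => h ⟨a, ha, rfl⟩, rfl⟩
  rw [h]
  exact RU.D_inter RS.rng (RU.D_compl hA)

theorem Df.empty : Df (∅ : Set E) := by
  rw [← Set.compl_univ]
  exact Df.univ.compl

theorem Df.union {A B : Set E} (hA : Df A) (hB : Df B) : Df (A ∪ B) := by
  rw [← compl_compl (A ∪ B), Set.compl_union]
  exact (hA.compl.inter hB.compl).compl

theorem Df.diff {A B : Set E} (hA : Df A) (hB : Df B) : Df (A \ B) := by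
  rw [Set.diff_eq]
  exact hA.inter hB.compl

/-- Induction over the finset. -/
theorem Df.biInter {I : Type} (s : Finset I) {A : I → Set E} (h : ∀ i ∈ s, Df (A i)) :
    Df (⋂ i ∈ s, A i) := by
  classical
  induction s using Finset.induction_on with
  | empty =>
    have e : (⋂ i ∈ (∅ : Finset I), A i) = Set.univ := by simp
    rw [e]
    exact Df.univ
  | insert a s _ ih =>
    have e : (⋂ i ∈ insert a s, A i) = A a ∩ ⋂ i ∈ s, A i :=
      Finset.set_biInter_insert a s A
    rw [e]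
    exact (h a (Finset.mem_insert_self a s)).inter
      (ih fun i hi => h i (Finset.mem_insert_of_mem hi))

theorem Df.biUnion {I : Type} (s : Finset I) {A : I → Set E} (h : ∀ i ∈ s, Df (A i)) :
    Df (⋃ i ∈ s, A i) := by
  classical
  induction s using Finset.induction_on with
  | empty =>
    have e : (⋃ i ∈ (∅ : Finset I), A i) = ∅ := by simp
    rw [e]
    exact Df.empty
  | insert a s _ ih =>
    have e : (⋃ i ∈ insert a s, A i) = A a ∪ ⋃ i ∈ s, A i :=
      Finset.set_biUnion_insert a s A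
    rw [e]
    exact (h a (Finset.mem_insert_self a s)).union
      (ih fun i hi => h i (Finset.mem_insert_of_mem hi))

theorem Coord.id : Coord (fun x : E => x) :=
  ⟨fun i => i, fun _ => rfl⟩

theorem Coord.comp {g : F → H} {f : E → F} (hg : Coord g) (hf : Coord f) :
    Coord (fun x => g (f x)) := by
  obtain ⟨s, hs⟩ := hg
  obtain ⟨t, ht⟩ := hf
  refine ⟨fun i => t (s i), fun e => ?_⟩
  rw [hs, ht]
  rfl

theorem Coord.fst : Coord (Prod.fst : E × F → E) :=
  ⟨Sum.inl, fun _ => rfl⟩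

theorem Coord.snd : Coord (Prod.snd : E × F → F) :=
  ⟨Sum.inr, fun _ => rfl⟩

/-- The substitution is `Sum.elim`. -/
theorem Coord.prodMk {f : E → F} {g : E → H} (hf : Coord f) (hg : Coord g) :
    Coord (fun x => (f x, g x)) := by
  obtain ⟨s, hs⟩ := hf
  obtain ⟨t, ht⟩ := hg
  refine ⟨Sum.elim s t, fun e => ?_⟩
  funext i
  rcases i with i | i
  · exact congrFun (hs e) i
  · exact congrFun (ht e) i

/-- `code '' (π ⁻¹' A) = range code ∩ {v | v ∘ t ∈ code '' A}`: `RU.D_pre`. -/
theorem Df.coord_pre {π : E → F} (hπ : Coord π) {A : Set F} (hA : Df A) : Df (π ⁻¹' A) := by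
  obtain ⟨t, ht⟩ := hπ
  unfold Df at *
  have h : RS.code '' (π ⁻¹' A) = Set.range (RS.code (E := E)) ∩
      ((fun g : RS.ix E → X => g ∘ t) ⁻¹' (RS.code '' A)) := by
    ext v
    constructor
    · rintro ⟨a, ha, rfl⟩
      exact ⟨⟨a, rfl⟩, ⟨π a, ha, ht a⟩⟩
    · rintro ⟨⟨a, rfl⟩, ⟨b, hb, hab⟩⟩
      refine ⟨a, ?_, rfl⟩
      have h1 : RS.code b = RS.code (π a) := hab.trans (ht a).symm
      rw [Set.mem_preimage, ← RS.inj h1]
      exact hb
  rw [h]
  exact RU.D_inter RS.rng (RU.D_pre _ hA)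

/-- `code '' (π '' A) = (fun v => v ∘ t) '' (code '' A)`: `RU.D_im` (`RS.fin`). -/
theorem Df.coord_im {π : E → F} (hπ : Coord π) {A : Set E} (hA : Df A) : Df (π '' A) := by
  obtain ⟨t, ht⟩ := hπ
  unfold Df at *
  have h : RS.code '' (π '' A) = (fun g : RS.ix E → X => g ∘ t) '' (RS.code '' A) := by
    ext v
    constructor
    · rintro ⟨_, ⟨a, ha, rfl⟩, rfl⟩
      exact ⟨RS.code a, ⟨a, ha, rfl⟩, (ht a).symm⟩
    · rintro ⟨_, ⟨a, ha, rfl⟩, rfl⟩
      exact ⟨π a, ⟨a, ha, rfl⟩, ht a⟩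
  rw [h]
  have := RS.fin (X := X) (E := E)
  have := RS.fin (X := X) (E := F)
  exact RU.D_im t hA

private theorem D_biInter {α I : Type} {s : Set (α → X)} (hs : RU.D s) (J : Finset I)
    {A : I → Set (α → X)} (h : ∀ i, RU.D (A i)) : RU.D (s ∩ ⋂ i ∈ J, A i) := by
  classical
  induction J using Finset.induction_on with
  | empty =>
    have e : (⋂ i ∈ (∅ : Finset I), A i) = Set.univ := by simp
    rw [e, Set.inter_univ]
    exact hs
  | insert a J _ ih =>
    have e : (⋂ i ∈ insert a J, A i) = A a ∩ ⋂ i ∈ J, A i :=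
      Finset.set_biInter_insert a J A
    rw [e, Set.inter_left_comm]
    exact RU.D_inter (h a) ih

private theorem D_iInter {α I : Type} [Finite I] {s : Set (α → X)} (hs : RU.D s)
    {A : I → Set (α → X)} (h : ∀ i, RU.D (A i)) : RU.D (s ∩ ⋂ i, A i) := by
  have := Fintype.ofFinite I
  have h1 := D_biInter hs (Finset.univ : Finset I) h
  have e : (⋂ i ∈ (Finset.univ : Finset I), A i) = ⋂ i, A i := by simp
  rw [e] at h1
  exact h1

/-- `code '' {p | p.1 = p.2}` is the intersection of the range of `code` with the sets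
`{v | v (inl i) = v (inr i)}`, `i : ix E` (finite intersection; `RU.D_pre` with `Fin 2 → _` and
`RU.D_eq`). -/
theorem Df.diag : Df {p : E × E | p.1 = p.2} := by
  unfold Df
  have h : RS.code '' {p : E × E | p.1 = p.2} = Set.range (RS.code (E := E × E)) ∩
      ⋂ i : RS.ix E, {v : RS.ix E ⊕ RS.ix E → X | v (Sum.inl i) = v (Sum.inr i)} := by
    ext v
    constructor
    · rintro ⟨⟨a, b⟩, hab, rfl⟩
      have hab' : a = b := hab
      subst hab'
      exact ⟨⟨(a, a), rfl⟩, Set.mem_iInter.2 fun i => rfl⟩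
    · rintro ⟨⟨⟨a, b⟩, rfl⟩, h⟩
      refine ⟨(a, b), ?_, rfl⟩
      refine RS.inj (X := X) ?_
      funext i
      exact Set.mem_iInter.1 h i
  rw [h]
  have := RS.fin (X := X) (E := E)
  refine D_iInter RS.rng fun i => ?_
  exact RU.D_pre (fun j : Fin 2 => if j = 0 then (Sum.inl i : RS.ix E ⊕ RS.ix E) else Sum.inr i)
    RU.D_eq

/-- `code '' {a} = {v | ∀ i, v i = code a i}`: finite intersection, `RU.D_const`. -/
theorem Df.singleton (a : E) : Df ({a} : Set E) := by
  unfold Df
  have h : RS.code '' {a} = Set.range (RS.code (E := E)) ∩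
      ⋂ i : RS.ix E, {v : RS.ix E → X | v i = RS.code a i} := by
    ext v
    constructor
    · rintro ⟨b, hb, rfl⟩
      have hb' : b = a := hb
      subst hb'
      exact ⟨⟨b, rfl⟩, Set.mem_iInter.2 fun i => rfl⟩
    · rintro ⟨⟨b, rfl⟩, h⟩
      refine ⟨b, ?_, rfl⟩
      refine RS.inj (X := X) ?_
      funext i
      exact Set.mem_iInter.1 h i
  rw [h]
  have := RS.fin (X := X) (E := E)
  refine D_iInter RS.rng fun i => ?_
  exact RU.D_pre (fun _ : Fin 1 => i) (RU.D_const (RS.code a i))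

theorem Df.finite {A : Set E} (hA : A.Finite) : Df A := by
  induction A, hA using Set.Finite.induction_on with
  | empty => exact Df.empty
  | insert _ _ ih =>
    rw [Set.insert_eq]
    exact (Df.singleton _).union ih

/-- `(A ×ˢ B) = fst ⁻¹' A ∩ snd ⁻¹' B`. -/
theorem Df.prod {A : Set E} {B : Set F} (hA : Df A) (hB : Df B) : Df (A ×ˢ B) :=
  (Df.coord_pre Coord.fst hA).inter (Df.coord_pre Coord.snd hB)

/-- `fib P e = snd '' (P ∩ fst ⁻¹' {e})`. -/
theorem Df.fibre {P : Set (E × F)} (hP : Df P) (e : E) : Df (fib P e) := by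
  have h : fib P e = Prod.snd '' (P ∩ Prod.fst ⁻¹' {e}) := by
    ext f
    constructor
    · intro hf
      exact ⟨(e, f), ⟨hf, rfl⟩, rfl⟩
    · rintro ⟨⟨a, b⟩, ⟨h1, h2⟩, rfl⟩
      have h2' : a = e := h2
      subst h2'
      exact h1
  rw [h]
  exact Df.coord_im Coord.snd (hP.inter (Df.coord_pre Coord.fst (Df.singleton e)))

end Pool.Agent.BadG
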