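import Pool.Agent.BadG.SelfNorm

set_option autoImplicit false

/-! BG19. Borel subgroups are conjugate and cover the group. -/

namespace Pool.Agent.BadG

open Function

variable {X : Type} [RU X] {S : Type} [RS X S] [Group S] [Bad S]

private theorem mem_conj {B : Subgroup S} {g x : S} (h : x ∈ B) :
    g * x * g⁻¹ ∈ B.map (MulAut.conj g).toMonoidHom := ⟨x, h, rfl⟩

private theorem conj_iff {B : Subgroup S} {g : S}
    (h : B.map (MulAut.conj g).toMonoidHom = B) (z : S) : g * z * g⁻¹ ∈ B ↔ z ∈ B := by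
  constructor
  · intro hz
    rw [← h] at hz
    obtain ⟨w, hw, e⟩ := hz
    change g * w * g⁻¹ = g * z * g⁻¹ at e
    have e1 : w = z := by simpa using e
    rw [← e1]
    exact hw
  · intro hz
    rw [← h]
    exact mem_conj hz

/-- The union of the conjugates. -/
private def uni (B : Subgroup S) : Set S := {y : S | ∃ s : S, ∃ x ∈ B, s * y * s⁻¹ = 1 * x}

private theorem uni_df {B : Subgroup S} (hB : Borel B) : Df (uni B) := by
  have h : Df {q : (S × S) × S | q.1.2 * q.1.1 * q.1.2⁻¹ = 1 * q.2} :=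
    Df.eq (by fun_prop) (by fun_prop)
  exact Df.ex (P := fun y s : S => ∃ x ∈ B, s * y * s⁻¹ = 1 * x)
    (Df.exin (P := fun (p : S × S) (x : S) => p.2 * p.1 * p.2⁻¹ = 1 * x) hB.1.1 h)

private theorem uni_rk {B : Subgroup S} (hB : Borel B) : rk (Set.univ : Set S) ≤ rk (uni B) :=
  rk_union_coset hB (g := 1) fun x => by rw [one_mul, inv_one, mul_one]

private theorem meet_top {A B : Set S} (hA : Df A) (hB : Df B)
    (rA : rk (Set.univ : Set S) ≤ rk A) (rB : rk (Set.univ : Set S) ≤ rk B) :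
    ∃ x, x ∈ A ∧ x ∈ B ∧ x ≠ 1 := by
  have h := conn_top (S := S)
  refine h.meet ?_ hA hB (fun _ _ => Subgroup.mem_top _) (fun _ _ => Subgroup.mem_top _) ?_ ?_
  · rw [Subgroup.coe_top]
    exact rk_top_pos
  · rw [Subgroup.coe_top]
    exact rA
  · rw [Subgroup.coe_top]
    exact rB

/-- The unions of the conjugates of `B₁` and of `B₂` have rank `rk S` (`rk_union_coset` with `g = 1`), so they
have a common point `y ≠ 1` (`Conn.meet`), `s y s⁻¹ ∈ B₁`, `t y t⁻¹ ∈ B₂`: `s⁻¹ B₁ s = t⁻¹ B₂ t`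
(`Borel.eq_of_mem`). -/
theorem Borel.conjugate {B₁ B₂ : Subgroup S} (h1 : Borel B₁) (h2 : Borel B₂) :
    ∃ g : S, B₂ = B₁.map (MulAut.conj g).toMonoidHom := by
  obtain ⟨y, ⟨s, x, hx, e⟩, ⟨t, x', hx', e'⟩, hy⟩ :=
    meet_top (uni_df h1) (uni_df h2) (uni_rk h1) (uni_rk h2)
  rw [one_mul] at e e'
  refine ⟨t * s⁻¹, ?_⟩
  have h3 : x' = (t * s⁻¹) * x * (t * s⁻¹)⁻¹ := by
    rw [← e, ← e']
    group
  have h4 : x' ≠ 1 := by
    rw [← e']
    intro h0
    apply hy
    rw [mul_inv_eq_one] at h0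
    exact mul_left_cancel (h0.trans (mul_one t).symm)
  refine h2.eq_of_mem (h1.conj (t * s⁻¹)) h4 hx' ?_
  rw [h3]
  exact mem_conj hx

theorem rk_borel_eq {B₁ B₂ : Subgroup S} (h1 : Borel B₁) (h2 : Borel B₂) :
    rk (B₁ : Set S) = rk (B₂ : Set S) := by
  obtain ⟨g, rfl⟩ := h1.conjugate h2
  have h3 : ((B₁.map (MulAut.conj g).toMonoidHom : Subgroup S) : Set S) =
      (fun x => (MulAut.conj g : MulAut S) x) '' (B₁ : Set S) := rfl
  rw [h3, rk_image_inj h1.1.1 (DefMap.aut_conj g) (MulAut.conj g).injective.injOn]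

/-- `rk H = rk (cc H)`, `exists_borel_cc`. -/
theorem rk_le_borel {B H : Subgroup S} (hB : Borel B) (hH : Df (H : Set S)) (h : H ≠ ⊤) :
    rk (H : Set S) ≤ rk (B : Set S) := by
  obtain ⟨B', hB', hle⟩ := exists_borel_cc hH h
  rw [← rk_cc hH, rk_borel_eq hB hB']
  exact rk_mono hH.cc hB'.1.1 hle

/-- **The Borel subgroups cover `S`.** Let `x ≠ 1`. If `C(x)` is infinite let `cc C(x) ≤ B`, `B` a Borel subgroup
(`exists_borel_cc`, `cz_ne_top`). `x` centralizes `cc C(x)`, so `cc C(x) ≤ B ⊓ x B x⁻¹` and `x B x⁻¹ = B`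
(`Borel.eq_of_infinite`), `x ∈ B` by `Borel.self_norm`. If `C(x)` is finite then the class of `x` has rank `rk S`
(`rk_class`), so it meets the union of the conjugates of a Borel subgroup (`rk_union_coset`,
`Conn.meet`). -/
theorem exists_borel_mem (x : S) : ∃ B, Borel B ∧ x ∈ B := by
  by_cases hx : x = 1
  · obtain ⟨B, hB⟩ := exists_borel (S := S)
    exact ⟨B, hB, by rw [hx]; exact B.one_mem⟩
  have hs : Df ({x} : Set S) := Df.eq DefMap.id (DefMap.const x)
  have hC : Df (Subgroup.centralizer ({x} : Set S) : Set S) := Df.centralizer hs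
  by_cases hinf : (Subgroup.centralizer ({x} : Set S) : Set S).Infinite
  · obtain ⟨B, hB, hle⟩ := exists_borel_cc hC (cz_ne_top hx)
    refine ⟨B, hB, hB.self_norm (conj_iff ?_)⟩
    refine (hB.conj x).eq_of_infinite hB ?_
    have h1 := (cc_conn hC).infinite (cc_ne_bot hC hinf)
    refine h1.mono fun z hz => ⟨?_, hle hz⟩
    have h2 : x * z = z * x := mem_cz.1 (cc_le hC hz)
    have h3 : z = x * z * x⁻¹ := by rw [h2, mul_inv_cancel_right]
    rw [h3]
    exact mem_conj (hle hz)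
  · obtain ⟨B, hB⟩ := exists_borel (S := S)
    have h1 := rk_class x
    rw [rk_of_finite (Set.not_infinite.1 hinf), add_zero] at h1
    have h2 : Df {y : S | ∃ g, y = g⁻¹ * x * g} :=
      Df.ex (P := fun y g : S => y = g⁻¹ * x * g) (Df.eq (by fun_prop) (by fun_prop))
    obtain ⟨y, ⟨g, e⟩, ⟨s, b, hb, e'⟩, hy⟩ := meet_top h2 (uni_df hB) h1.le (uni_rk hB)
    rw [one_mul] at e'
    refine ⟨_, hB.conj (g * s⁻¹), ?_⟩
    have h3 : x = (g * s⁻¹) * b * (g * s⁻¹)⁻¹ := by
      rw [← e', e]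
      group
    rw [h3]
    exact mem_conj hb

/-- The Borel subgroup which contains `x` (unique for `x ≠ 1`). -/
noncomputable def bo (x : S) : Subgroup S := (exists_borel_mem x).choose

theorem bo_borel (x : S) : Borel (bo x) := (exists_borel_mem x).choose_spec.1

theorem mem_bo (x : S) : x ∈ bo x := (exists_borel_mem x).choose_spec.2

theorem bo_eq {B : Subgroup S} (hB : Borel B) {x : S} (hx : x ≠ 1) (h : x ∈ B) : bo x = B :=
  (bo_borel x).eq_of_mem hB hx (mem_bo x) h

/-- `y` normalizes `B`: `y x y⁻¹ = x ∈ B ⊓ y B y⁻¹`; `Borel.self_norm`. -/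
theorem Borel.mem_of_comm {B : Subgroup S} (hB : Borel B) {x y : S} (hx : x ≠ 1) (hm : x ∈ B)
    (h : x * y = y * x) : y ∈ B := by
  refine hB.self_norm (conj_iff ?_)
  refine (hB.conj y).eq_of_mem hB hx ?_ hm
  have h3 : x = y * x * y⁻¹ := by rw [← h, mul_inv_cancel_right]
  rw [h3]
  exact mem_conj hm

/-- A Borel subgroup is not normal (`normal_cases`), so it has a conjugate which is different from
it. -/
theorem Borel.exists_conj_ne {B : Subgroup S} (hB : Borel B) :
    ∃ g : S, B.map (MulAut.conj g).toMonoidHom ≠ B := by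
  by_contra hcon
  push Not at hcon
  rcases normal_cases (N := B) (fun g x hx => by
    rw [← hcon g]
    exact mem_conj hx) with h | h
  · exact hB.ne_bot h
  · exact hB.2.1 h

/-- `α(B)` is a Borel subgroup which contains `α x`. -/
theorem fixes_of_mem {B : Subgroup S} (hB : Borel B) {α : MulAut S} (hα : DefMap α) {x : S}
    (hx : x ≠ 1) (h1 : x ∈ B) (h2 : α x ∈ B) : Fixes α B := by
  have h3 : α x ≠ 1 := fun h0 => hx (by
    apply α.injective
    rw [h0, map_one])
  have h4 : B.map α.toMonoidHom = B := (hB.map_aut hα).eq_of_mem hB h3 ⟨x, h1, rfl⟩ h2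
  intro z
  constructor
  · intro hz
    rw [← h4] at hz
    obtain ⟨w, hw, e⟩ := hz
    have e1 : w = z := α.injective e
    rw [← e1]
    exact hw
  · intro hz
    rw [← h4]
    exact ⟨z, hz, rfl⟩

end Pool.Agent.BadG
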