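import Mathlib

set_option autoImplicit false

/-! # Bad groups (MP_20b549_lc): definitions

A ranked universe in the sense of Borovik and Poizat, its sorts, definable sets and maps, the rank,
irreducible sets, connected subgroups. -/

namespace Pool.Agent.BadG

open Function

/-- **A ranked universe**: a family of definable subsets of the powers of `X`, closed under
intersection, complement, substitution of coordinates and projection, with equality and constants,
and a rank on the (nonempty) definable sets which satisfies the axioms A (monotonicity), B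
(definability), C (additivity) of Borovik and Poizat. (The axiom D is not needed.) -/
class RU (X : Type) where
  D : ∀ {α : Type}, Set (α → X) → Prop
  D_inter : ∀ {α : Type} {s t : Set (α → X)}, D s → D t → D (s ∩ t)
  D_compl : ∀ {α : Type} {s : Set (α → X)}, D s → D sᶜ
  D_pre : ∀ {α β : Type} (f : α → β) {s : Set (α → X)}, D s →
    D ((fun g : β → X => g ∘ f) ⁻¹' s)
  D_im : ∀ {α β : Type} [Finite α] [Finite β] (f : α → β) {s : Set (β → X)}, D s →
    D ((fun g : β → X => g ∘ f) '' s)
  D_eq : D {v : Fin 2 → X | v 0 = v 1}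
  D_const : ∀ a : X, D {v : Fin 1 → X | v 0 = a}
  rk : ∀ {α : Type}, Set (α → X) → ℕ
  rk_succ : ∀ {α : Type} [Finite α] {A : Set (α → X)}, D A → A.Nonempty → ∀ n : ℕ,
    n + 1 ≤ rk A ↔ ∃ B : ℕ → Set (α → X), Pairwise (onFun Disjoint B) ∧
      ∀ i, D (B i) ∧ (B i).Nonempty ∧ B i ⊆ A ∧ n ≤ rk (B i)
  D_rk : ∀ {α β : Type} [Finite α] [Finite β] {A : Set (α → X)} {f : (α → X) → (β → X)}, D A →
    D {v : α ⊕ β → X | v ∘ Sum.inl ∈ A ∧ f (v ∘ Sum.inl) = v ∘ Sum.inr} → ∀ n : ℕ,
    D {b : β → X | (A ∩ f ⁻¹' {b}).Nonempty ∧ rk (A ∩ f ⁻¹' {b}) = n}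
  rk_add : ∀ {α β : Type} [Finite α] [Finite β] {A : Set (α → X)} {f : (α → X) → (β → X)}, D A →
    D {v : α ⊕ β → X | v ∘ Sum.inl ∈ A ∧ f (v ∘ Sum.inl) = v ∘ Sum.inr} → A.Nonempty →
    ∀ n : ℕ, (∀ b ∈ f '' A, rk (A ∩ f ⁻¹' {b}) = n) → rk A = rk (f '' A) + n

/-- **A sort** of the universe: a type `E` whose elements are coded by the elements of a definable
subset of a finite power of `X`. -/
class RS (X : outParam Type) [RU X] (E : Type) where
  ix : Type
  fin : Finite ix
  code : E → ix → X
  inj : Injective code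
  rng : RU.D (Set.range code)

section Sorts

variable {X : Type} [RU X]

theorem D_inter {α : Type} {s t : Set (α → X)} (hs : RU.D s) (ht : RU.D t) : RU.D (s ∩ t) :=
  RU.D_inter hs ht

/-- The product of two sorts is a sort. -/
instance prodSort {E F : Type} [RS X E] [RS X F] : RS X (E × F) where
  ix := RS.ix E ⊕ RS.ix F
  fin := by
    have := RS.fin (X := X) (E := E)
    have := RS.fin (X := X) (E := F)
    infer_instance
  code p := Sum.elim (RS.code p.1) (RS.code p.2)
  inj := by
    rintro ⟨a, b⟩ ⟨c, d⟩ h
    have h1 : RS.code a = RS.code c := by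
      funext i
      exact congrFun h (Sum.inl i)
    have h2 : RS.code b = RS.code d := by
      funext i
      exact congrFun h (Sum.inr i)
    rw [RS.inj h1, RS.inj h2]
  rng := by
    have h : Set.range (fun p : E × F => Sum.elim (RS.code p.1) (RS.code p.2)) =
        ((fun g : RS.ix E ⊕ RS.ix F → X => g ∘ Sum.inl) ⁻¹' Set.range (RS.code (E := E))) ∩
        ((fun g : RS.ix E ⊕ RS.ix F → X => g ∘ Sum.inr) ⁻¹' Set.range (RS.code (E := F))) := by
      ext v
      constructor
      · rintro ⟨p, rfl⟩
        exact ⟨⟨p.1, rfl⟩, ⟨p.2, rfl⟩⟩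
      · rintro ⟨⟨a, ha⟩, ⟨b, hb⟩⟩
        refine ⟨(a, b), ?_⟩
        funext i
        rcases i with i | i
        · exact congrFun ha i
        · exact congrFun hb i
    rw [h]
    exact RU.D_inter (RU.D_pre _ RS.rng) (RU.D_pre _ RS.rng)

variable {E F : Type} [RS X E] [RS X F]

/-- Definable subsets of a sort. -/
def Df (A : Set E) : Prop := RU.D (RS.code '' A)

/-- Definable maps between sorts: the graph is definable. -/
@[fun_prop]
def DefMap (f : E → F) : Prop := Df {p : E × F | f p.1 = p.2}

open Classical in
/-- The rank of a subset of a sort, with `rk ∅ = 0`. -/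
noncomputable def rk (A : Set E) : ℕ := if A.Nonempty then RU.rk (RS.code '' A) else 0

/-- The fibre of a relation over a first coordinate. -/
def fib (P : Set (E × F)) (e : E) : Set F := {f | (e, f) ∈ P}

/-- A substitution of coordinates. -/
def Coord (π : E → F) : Prop :=
  ∃ t : RS.ix F → RS.ix E, ∀ e, RS.code (π e) = RS.code e ∘ t

/-- **Irreducible** (Morley degree one): two definable subsets of full rank meet. -/
def Irr (A : Set E) : Prop :=
  Df A ∧ A.Nonempty ∧ ∀ B₁ B₂ : Set E, Df B₁ → Df B₂ → B₁ ⊆ A → B₂ ⊆ A → B₁.Nonempty →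
    B₂.Nonempty → rk B₁ = rk A → rk B₂ = rk A → (B₁ ∩ B₂).Nonempty

end Sorts

section Groups

variable {X : Type} [RU X]

/-- **A definable group** (a ranked group): the multiplication is definable. -/
class DG (E : Type) [RS X E] [Group E] : Prop where
  mul : DefMap (fun p : E × E => p.1 * p.2)

variable {E : Type} [RS X E] [Group E]

/-- **A connected definable subgroup**: it has no proper definable subgroup of finite index. -/
def Conn (H : Subgroup E) : Prop :=
  Df (H : Set E) ∧ ∀ K : Subgroup E, K ≤ H → Df (K : Set E) → K.relIndex H ≠ 0 → K = H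

/-- **The connected component** of a definable subgroup: the intersection of its definable subgroups
of finite index. -/
def cc (H : Subgroup E) : Subgroup E :=
  sInf {K : Subgroup E | K ≤ H ∧ Df (K : Set E) ∧ K.relIndex H ≠ 0}

/-- The upper central series of a subgroup `H`, as subgroups of the big group. -/
def uc (H : Subgroup E) (i : ℕ) : Subgroup E := (Subgroup.upperCentralSeries ↥H i).map H.subtype

/-- **Bad groups**: infinite simple, all proper definable subgroups are nilpotent. -/
class Bad (S : Type) [RS X S] [Group S] : Prop extends DG S where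
  simple : IsSimpleGroup S
  inf : Infinite S
  nil : ∀ H : Subgroup S, Df (H : Set S) → H ≠ ⊤ → Group.IsNilpotent H

variable {S : Type} [RS X S] [Group S]

/-- **Borel subgroups** of a bad group: the maximal proper connected definable subgroups. -/
def Borel (B : Subgroup S) : Prop :=
  Conn B ∧ B ≠ ⊤ ∧ ∀ K : Subgroup S, Conn K → K ≠ ⊤ → B ≤ K → K = B

/-- The automorphism `α` normalizes `B`. -/
def Fixes (α : MulAut S) (B : Subgroup S) : Prop := ∀ x, α x ∈ B ↔ x ∈ B

/-- **The standing set-up**: the group `Γ` acts definably on `S` and contains the inner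
automorphisms (`Γ = S ⋊ M` in the application). -/
structure Act (Γ S : Type) [RS X Γ] [RS X S] [Group Γ] [Group S] where
  act : Γ →* MulAut S
  ι : S →* Γ
  d_act : DefMap (fun p : Γ × S => act p.1 p.2)
  d_ι : DefMap ι
  act_ι : ∀ s x : S, act (ι s) x = s * x * s⁻¹
  conj_ι : ∀ (g : Γ) (s : S), g * ι s * g⁻¹ = ι (act g s)

variable {Γ : Type} [RS X Γ] [Group Γ]

/-- The stabilizer of a subgroup. -/
def Act.R (𝒜 : Act Γ S) (B : Subgroup S) : Subgroup Γ where
  carrier := {g | Fixes (𝒜.act g) B}
  mul_mem' := by
    intro a b ha hb x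
    rw [map_mul, MulAut.mul_apply, ha, hb]
  one_mem' := by
    intro x
    rw [map_one, MulAut.one_apply]
  inv_mem' := by
    intro a ha x
    have h := ha (𝒜.act a⁻¹ x)
    rw [← MulAut.mul_apply, ← map_mul, mul_inv_cancel, map_one, MulAut.one_apply] at h
    exact h.symm

/-- The kernel of the action. -/
def Act.C (𝒜 : Act Γ S) : Subgroup Γ := 𝒜.act.ker

end Groups

end Pool.Agent.BadG
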