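import Pool.Agent.BadG.ConnIrr
import Pool.Agent.BadG.Orbit

set_option autoImplicit false

/-! BG16. Bad groups: first properties, a proper infinite definable subgroup exists. -/

namespace Pool.Agent.BadG

open Function

variable {X : Type} [RU X] {S : Type} [RS X S] [Group S] [Bad S]

include X in
theorem normal_cases {N : Subgroup S} (hN : ∀ g : S, ∀ x ∈ N, g * x * g⁻¹ ∈ N) :
    N = ⊥ ∨ N = ⊤ := by
  have : IsSimpleGroup S := Bad.simple X
  have h : N.Normal := ⟨fun n hn g => hN g n hn⟩
  exact h.eq_bot_or_eq_top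

/-- A subgroup of finite index contains a normal subgroup of finite index
(`Subgroup.normalCore`), which is `⊤` as `S` is simple and infinite. -/
theorem conn_top : Conn (⊤ : Subgroup S) := by
  refine ⟨Df.top, fun K _ _ hi => ?_⟩
  have hinf : Infinite S := Bad.inf X
  rw [Subgroup.relIndex_top_right] at hi
  have hf : K.FiniteIndex := ⟨hi⟩
  have hc : K.normalCore.FiniteIndex := inferInstance
  have hn : K.normalCore.Normal := inferInstance
  rcases normal_cases (N := K.normalCore) (fun g x hx => hn.conj_mem x hx g) with h | h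
  · exfalso
    refine hc.index_ne_zero ?_
    rw [h, Subgroup.index_bot]
    exact Nat.card_eq_zero_of_infinite
  · refine top_le_iff.1 ?_
    rw [← h]
    exact Subgroup.normalCore_le K

theorem rk_top_pos : 0 < rk (Set.univ : Set S) := by
  have hinf : Infinite S := Bad.inf X
  have h := (Df.top : Df ((⊤ : Subgroup S) : Set S))
  rw [Subgroup.coe_top] at h
  exact (rk_pos_iff h).2 Set.infinite_univ

include X in
/-- The centre is trivial: a simple group with nontrivial centre is abelian, and an infinite abelian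
group is not simple (an abelian simple group is cyclic of prime order: Mathlib
`IsSimpleGroup.prime_card` for commutative groups). -/
theorem eq_one_of_central {x : S} (h : ∀ y, x * y = y * x) : x = 1 := by
  by_contra hx
  have hinf : Infinite S := Bad.inf X
  have hz : ∀ n : ℤ, Subgroup.zpowers (x ^ n) = ⊥ ∨ Subgroup.zpowers (x ^ n) = ⊤ := by
    intro n
    refine normal_cases fun g y hy => ?_
    obtain ⟨m, rfl⟩ := Subgroup.mem_zpowers_iff.1 hy
    have h1 : g * (x ^ n) ^ m * g⁻¹ = (x ^ n) ^ m := by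
      have h2 : Commute x g := h g
      rw [← ((h2.zpow_left n).zpow_left m).eq, mul_inv_cancel_right]
    rw [h1]
    exact hy
  have h1 : Subgroup.zpowers x = ⊤ := by
    have h2 := hz 1
    rw [zpow_one] at h2
    rcases h2 with h2 | h2
    · exact absurd (Subgroup.zpowers_eq_bot.1 h2) hx
    · exact h2
  have hord : ¬ IsOfFinOrder x := by
    intro h2
    have h3 := finite_zpowers.2 h2
    rw [h1, Subgroup.coe_top] at h3
    exact Set.infinite_univ h3
  have hne : ∀ n : ℤ, n ≠ 0 → x ^ n ≠ 1 := fun n hn h2 =>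
    hord (isOfFinOrder_iff_zpow_eq_one.2 ⟨n, hn, h2⟩)
  rcases hz 2 with h2 | h2
  · exact hne 2 (by norm_num) (Subgroup.zpowers_eq_bot.1 h2)
  · have h3 : x ∈ Subgroup.zpowers (x ^ (2 : ℤ)) := by
      rw [h2]
      exact Subgroup.mem_top x
    obtain ⟨m, hm⟩ := Subgroup.mem_zpowers_iff.1 h3
    refine hne (2 * m - 1) (by omega) ?_
    rw [zpow_sub, zpow_mul, hm, zpow_one, mul_inv_cancel]

theorem mem_cz {x y : S} : y ∈ Subgroup.centralizer ({x} : Set S) ↔ x * y = y * x := by
  rw [Subgroup.mem_centralizer_iff]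
  constructor
  · intro h
    exact h x rfl
  · rintro h _ rfl
    exact h

include X in
theorem cz_ne_top {x : S} (h : x ≠ 1) : Subgroup.centralizer ({x} : Set S) ≠ ⊤ := by
  intro h1
  refine h (eq_one_of_central fun y => ?_)
  rw [← mem_cz, h1]
  exact Subgroup.mem_top y

omit [Group S] [Bad S] in
private theorem df_singleton (x : S) : Df ({x} : Set S) :=
  Df.eq (f := fun y : S => y) (g := fun _ : S => x) (by fun_prop) (by fun_prop)

private theorem df_cz (x : S) : Df (Subgroup.centralizer ({x} : Set S) : Set S) :=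
  Df.centralizer (df_singleton x)

/-- The conjugacy class of `x` and the centralizer: `rk S = rk (x ^ S) + rk C(x)` (`rk_orbit'` for
`g ↦ g⁻¹ x g`). -/
theorem rk_class (x : S) : rk (Set.univ : Set S) = rk {y : S | ∃ g, y = g⁻¹ * x * g} +
    rk (Subgroup.centralizer ({x} : Set S) : Set S) := by
  have hf : DefMap (fun g : S => g⁻¹ * x * g) := by fun_prop
  have h := rk_orbit' (H := (⊤ : Subgroup S)) (K := Subgroup.centralizer ({x} : Set S)) Df.top
    (df_cz x) le_top hf (fun g _ g' _ => by
      rw [mem_cz]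
      constructor
      · intro h
        have h1 : x * g = g * (g'⁻¹ * x * g') := by
          rw [← h]
          group
        calc x * (g' * g⁻¹) = g' * (g'⁻¹ * x * g') * g⁻¹ := by group
          _ = g' * (g⁻¹ * x * g) * g⁻¹ := by rw [h]
          _ = g' * g⁻¹ * x := by group
      · intro h
        calc g⁻¹ * x * g = g'⁻¹ * (g' * g⁻¹ * x) * g := by group
          _ = g'⁻¹ * (x * (g' * g⁻¹)) * g := by rw [h]
          _ = g'⁻¹ * x * g' := by group)
  rw [Subgroup.coe_top] at h
  rw [h]
  congr 2
  ext y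
  constructor
  · rintro ⟨g, -, rfl⟩
    exact ⟨g, rfl⟩
  · rintro ⟨g, rfl⟩
    exact ⟨g, Set.mem_univ g, rfl⟩

/-- **A proper infinite definable subgroup.** If some `x ≠ 1` has an infinite centralizer take it
(`cz_ne_top`). Suppose all centralizers of elements `≠ 1` are finite. By `rk_class` all classes of
elements `≠ 1` have full rank, so they meet (`Conn.meet`, `conn_top`): any two elements `≠ 1` are
conjugate. All elements have finite order (the powers of `x` centralize `x`), so some element has
prime order `p`, and then all elements `≠ 1` have order `p`. If `p = 2` then `S` is abelian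
(`xy = (xy)⁻¹ = y⁻¹x⁻¹ = yx`), against `eq_one_of_central`. If `p` is odd let `x ≠ 1` and `y⁻¹ x y = x⁻¹`. `y ^ 2`
commutes with `x`, and `y` is a power of `y ^ 2` (`y = (y ^ 2) ^ ((p + 1) / 2)`), so `y` commutes with `x`:
`x = x⁻¹`, `x ^ 2 = 1`, a contradiction. -/
theorem exists_infinite_proper : ∃ H : Subgroup S, Df (H : Set S) ∧ H ≠ ⊤ ∧
    (H : Set S).Infinite := by
  by_contra hcon
  have hfin : ∀ x : S, x ≠ 1 → (Subgroup.centralizer ({x} : Set S) : Set S).Finite := by
    intro x hx
    by_contra h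
    exact hcon ⟨_, df_cz x, cz_ne_top hx, h⟩
  have hdf : ∀ x : S, Df {y : S | ∃ g : S, y = g⁻¹ * x * g} := fun x =>
    Df.ex (Df.eq (by fun_prop) (by fun_prop))
  have hrk : ∀ x : S, x ≠ 1 → rk (Set.univ : Set S) = rk {y : S | ∃ g, y = g⁻¹ * x * g} := by
    intro x hx
    have h := rk_class x
    rwa [rk_of_finite (hfin x hx), add_zero] at h
  have hconj : ∀ x y : S, x ≠ 1 → y ≠ 1 → ∃ g, y = g⁻¹ * x * g := by
    intro x y hx hy
    obtain ⟨z, ⟨g, hg⟩, ⟨g', hg'⟩, -⟩ := (conn_top (S := S)).meet
      (by rw [Subgroup.coe_top]; exact rk_top_pos) (hdf x) (hdf y)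
      (by rw [Subgroup.coe_top]; exact Set.subset_univ _)
      (by rw [Subgroup.coe_top]; exact Set.subset_univ _)
      (by rw [Subgroup.coe_top]; exact (hrk x hx).le)
      (by rw [Subgroup.coe_top]; exact (hrk y hy).le)
    refine ⟨g * g'⁻¹, ?_⟩
    have h1 : y = g' * z * g'⁻¹ := by
      rw [hg']
      group
    rw [h1, hg]
    group
  -- an element of prime order
  have hinf : Infinite S := Bad.inf X
  obtain ⟨x, hx⟩ := exists_ne (1 : S)
  have hxo : IsOfFinOrder x := by
    rw [← finite_zpowers]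
    refine (hfin x hx).subset ?_
    rintro y hy
    obtain ⟨m, rfl⟩ := Subgroup.mem_zpowers_iff.1 hy
    exact mem_cz.2 ((Commute.refl x).zpow_right m).eq
  have hn : orderOf x ≠ 1 := fun h => hx (orderOf_eq_one_iff.1 h)
  obtain ⟨p, hp, hpn⟩ := Nat.exists_prime_and_dvd hn
  obtain ⟨m, hm⟩ := hpn
  have hm0 : m ≠ 0 := by
    rintro rfl
    rw [mul_zero] at hm
    exact hxo.orderOf_pos.ne' hm
  have hz1 : x ^ m ≠ 1 := by
    intro h
    have h1 := Nat.le_of_dvd (Nat.pos_of_ne_zero hm0) (orderOf_dvd_of_pow_eq_one h)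
    rw [hm] at h1
    have h2 := hp.two_le
    have h3 := Nat.pos_of_ne_zero hm0
    nlinarith
  have hzp : (x ^ m) ^ p = 1 := by
    rw [← pow_mul, mul_comm, ← hm, pow_orderOf_eq_one]
  have hall : ∀ y : S, y ^ p = 1 := by
    intro y
    by_cases hy : y = 1
    · rw [hy, one_pow]
    · obtain ⟨g, rfl⟩ := hconj _ y hz1 hy
      have h1 : (g⁻¹ * x ^ m * g) ^ p = g⁻¹ * (x ^ m) ^ p * g := by
        have h2 := conj_pow (i := p) (a := g⁻¹) (b := x ^ m)
        rwa [inv_inv] at h2
      rw [h1, hzp, mul_one, inv_mul_cancel]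
  rcases hp.eq_two_or_odd' with h2 | h2
  · subst h2
    refine hx (eq_one_of_central fun y => ?_)
    have h3 : ∀ u : S, u⁻¹ = u := by
      intro u
      have := hall u
      rw [pow_two] at this
      exact inv_eq_of_mul_eq_one_left this
    calc x * y = (x * y)⁻¹ := (h3 _).symm
      _ = y⁻¹ * x⁻¹ := mul_inv_rev _ _
      _ = y * x := by rw [h3, h3]
  · obtain ⟨l, hl⟩ := h2
    have hsq : ∀ u : S, (u ^ 2) ^ (l + 1) = u := by
      intro u
      rw [← pow_mul, show 2 * (l + 1) = p + 1 by omega, pow_succ, hall, one_mul]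
    obtain ⟨y, hy⟩ := hconj x x⁻¹ hx (inv_ne_one.2 hx)
    have h3 : y⁻¹ * x⁻¹ * y = x := by
      have : y⁻¹ * x⁻¹ * y = (y⁻¹ * x * y)⁻¹ := by group
      rw [this, ← hy, inv_inv]
    have h4 : Commute (y ^ 2) x := by
      change y ^ 2 * x = x * y ^ 2
      calc y ^ 2 * x = y ^ 2 * (y⁻¹ * x⁻¹ * y) := by rw [h3]
        _ = y * x⁻¹ * y := by
            rw [pow_two]
            group
        _ = y * (y⁻¹ * x * y) * y := by rw [← hy]
        _ = x * y ^ 2 := by
            rw [pow_two]
            group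
    have h5 : Commute y x := by
      have := h4.pow_left (l + 1)
      rwa [hsq] at this
    have h6 : x⁻¹ = x := by
      rw [hy, mul_assoc, ← h5.eq, inv_mul_cancel_left]
    refine hx ?_
    rw [← hsq x, pow_two]
    nth_rewrite 1 [← h6]
    rw [inv_mul_cancel, one_pow]

end Pool.Agent.BadG
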