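import Pool.Agent.BadG.Outer

set_option autoImplicit false

/-! BG34. From the rank bound to inner automorphisms. -/

namespace Pool.Agent.BadG

open Function

variable {X : Type} [RU X] {Γ S M : Type} [RS X Γ] [RS X S] [Group Γ] [Group S] [Bad S]

/-- `ι(S) C` is a definable subgroup of `Γ` (`C` is normal) of rank `rk S + rk C` (`rk_S_add_C`), so it is equal to `Γ`
(`Conn.eq_of_rk`). -/
theorem inner_of_bound [DG Γ] (𝒜 : Act Γ S) (hΓ : Conn (⊤ : Subgroup Γ))
    (h : rk (Set.univ : Set Γ) ≤ rk (Set.univ : Set S) + rk (𝒜.C : Set Γ)) (g : Γ) :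
    ∃ s : S, ∀ x, 𝒜.act g x = s * x * s⁻¹ := by
  have hn : (𝒜.C).Normal := MonoidHom.normal_ker 𝒜.act
  have hι := 𝒜.d_ι
  have hset : ((𝒜.ι.range ⊔ 𝒜.C : Subgroup Γ) : Set Γ) =
      {g : Γ | ∃ s : S, ∃ c ∈ 𝒜.C, g = 𝒜.ι s * c} := by
    rw [Subgroup.mul_normal]
    ext y
    rw [Set.mem_mul]
    constructor
    · rintro ⟨_, ⟨s, rfl⟩, c, hc, rfl⟩
      exact ⟨s, c, hc, rfl⟩
    · rintro ⟨s, c, hc, rfl⟩
      exact ⟨_, ⟨s, rfl⟩, c, hc, rfl⟩
  have hC : Df ((𝒜.C : Subgroup Γ) : Set Γ) := Df_C 𝒜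
  have hD : Df ((𝒜.ι.range ⊔ 𝒜.C : Subgroup Γ) : Set Γ) := by
    rw [hset]
    exact Df.ex (P := fun (g : Γ) (s : S) => ∃ c ∈ 𝒜.C, g = 𝒜.ι s * c)
      (Df.exin hC (Df.eq (by fun_prop) (by fun_prop)))
  have htop : 𝒜.ι.range ⊔ 𝒜.C = ⊤ := by
    refine Conn.eq_of_rk hΓ hD le_top ?_
    rw [Subgroup.coe_top, hset, rk_S_add_C]
    exact h
  have hg : g ∈ ((𝒜.ι.range ⊔ 𝒜.C : Subgroup Γ) : Set Γ) := by
    rw [htop]
    exact Subgroup.mem_top g
  rw [hset] at hg
  obtain ⟨s, c, hc, rfl⟩ := hg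
  refine ⟨s, fun x => ?_⟩
  rw [map_mul, MulAut.mul_apply, (mem_C 𝒜).1 hc x, 𝒜.act_ι]

/-- **The image is `Inn(S)`.** `M` is connected and acts faithfully, definably and irreducibly, by inner automorphisms. Let
`N = {s | ∃ m, ∀ x, φ m x = s x s⁻¹}`: a definable subgroup of `S`, `M`-invariant (`φ_m (s) x φ_m (s)⁻¹ = φ_m s φ_m⁻¹`-conjugation). The map
`N → M` which sends `s` to the unique `m` is an isomorphism of definable groups (its graph is definable; `m` determines
`s` since the centre of `S` is trivial), so `N` is connected (a definable subgroup of finite index of `N` corresponds to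
one of `M`). By irreducibility `N = ⊥` or `N = ⊤`. If `N = ⊥` then all `φ m = 1` and every Borel subgroup (`exists_borel`,
`Borel.ne_bot`) is a proper nontrivial connected invariant subgroup. So `N = ⊤`: all inner automorphisms are in the image. -/
theorem range_eq [RS X M] [Group M] [DG M] (φ : M →* MulAut S)
    (hφ : DefMap (fun p : M × S => φ p.1 p.2)) (hM : Conn (⊤ : Subgroup M)) (hinj : Injective φ)
    (hirr : ∀ H : Subgroup S, Conn H → (∀ m x, φ m x ∈ H ↔ x ∈ H) → H = ⊥ ∨ H = ⊤)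
    (hinn : ∀ m : M, ∃ s : S, ∀ x, φ m x = s * x * s⁻¹) :
    φ.range = (MulAut.conj : S →* MulAut S).range := by
  have hcinj : ∀ s t : S, (∀ x, s * x * s⁻¹ = t * x * t⁻¹) → s = t := by
    intro s t h
    have h1 : t⁻¹ * s = 1 := by
      refine eq_one_of_central fun y => ?_
      have h2 := h y
      calc t⁻¹ * s * y = t⁻¹ * (s * y * s⁻¹) * s := by group
        _ = t⁻¹ * (t * y * t⁻¹) * s := by rw [h2]
        _ = y * (t⁻¹ * s) := by group
    exact (inv_mul_eq_one.1 h1).symm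
  choose θ₀ hθ₀ using hinn
  have hmul : ∀ m m' : M, θ₀ (m * m') = θ₀ m * θ₀ m' := by
    intro m m'
    refine hcinj _ _ fun x => ?_
    rw [← hθ₀, map_mul, MulAut.mul_apply, hθ₀, hθ₀]
    group
  let θ : M →* S := MonoidHom.mk' θ₀ hmul
  have hθ : ∀ m x, φ m x = θ m * x * (θ m)⁻¹ := hθ₀
  have hdef : DefMap θ := by
    have h1 : {p : M × S | θ p.1 = p.2} = {p : M × S | ∀ x, φ p.1 x = p.2 * x * p.2⁻¹} := by
      ext p
      constructor
      · intro h x
        have h2 : θ p.1 = p.2 := h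
        rw [hθ, h2]
      · intro h
        refine hcinj _ _ fun x => ?_
        rw [← hθ]
        exact h x
    change Df {p : M × S | θ p.1 = p.2}
    rw [h1]
    have h2 : DefMap (fun q : (M × S) × S => φ q.1.1 q.2) :=
      DefMap.comp (g := fun p : M × S => φ p.1 p.2) (f := fun q : (M × S) × S => (q.1.1, q.2))
        hφ (by fun_prop)
    exact Df.all (P := fun (p : M × S) (x : S) => φ p.1 x = p.2 * x * p.2⁻¹)
      (Df.eq h2 (by fun_prop))
  have hH : Conn ((⊤ : Subgroup M).map θ) := Conn.map hM hdef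
  have hmem : ∀ m : M, θ m ∈ (⊤ : Subgroup M).map θ := fun m =>
    Subgroup.mem_map_of_mem θ (Subgroup.mem_top m)
  have hinv1 : ∀ m x, x ∈ (⊤ : Subgroup M).map θ → φ m x ∈ (⊤ : Subgroup M).map θ := by
    intro m x hx
    rw [hθ]
    exact Subgroup.mul_mem _ (Subgroup.mul_mem _ (hmem m) hx) (Subgroup.inv_mem _ (hmem m))
  have hinv : ∀ m x, φ m x ∈ (⊤ : Subgroup M).map θ ↔ x ∈ (⊤ : Subgroup M).map θ := by
    intro m x
    refine ⟨fun h => ?_, hinv1 m x⟩
    have h1 := hinv1 m⁻¹ _ h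
    rwa [← MulAut.mul_apply, ← map_mul, inv_mul_cancel, map_one, MulAut.one_apply] at h1
  rcases hirr _ hH hinv with hbot | htop
  · exfalso
    have h1 : ∀ m x, φ m x = x := by
      intro m x
      have h2 := hmem m
      rw [hbot, Subgroup.mem_bot] at h2
      rw [hθ, h2, one_mul, inv_one, mul_one]
    obtain ⟨B, hB⟩ := exists_borel (S := S)
    rcases hirr B hB.1 fun m x => by rw [h1] with h2 | h2
    · exact hB.ne_bot h2
    · exact hB.2.1 h2
  · ext α
    constructor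
    · rintro ⟨m, rfl⟩
      refine ⟨θ m, MulEquiv.ext fun x => ?_⟩
      rw [MulAut.conj_apply, hθ]
    · rintro ⟨s, rfl⟩
      have h2 : s ∈ (⊤ : Subgroup M).map θ := by
        rw [htop]
        exact Subgroup.mem_top s
      obtain ⟨m, -, rfl⟩ := h2
      refine ⟨m, MulEquiv.ext fun x => ?_⟩
      rw [MulAut.conj_apply, hθ]

end Pool.Agent.BadG
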