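import Pool.Agent.BadG.Exist

set_option autoImplicit false

/-! BG32. Definable subgroups of `S × S` with full projections and proper kernels are graphs of
definable automorphisms. -/

namespace Pool.Agent.BadG

open Function

variable {X : Type} [RU X] {S : Type} [RS X S] [Group S] [Bad S]

/-- `K₂ = {v | (1, v) ∈ H}` is a normal subgroup of `S` (`(u, w) (1, v) (u, w)⁻¹ = (1, w v w⁻¹)` and the second projection of
`H` is `S`), `K₂ ≠ ⊤`, so `K₂ = ⊥` (`normal_cases`). In the same way `{u | (u, 1) ∈ H} = ⊥`. So for every `u` there is exactly one `v` with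
`(u, v) ∈ H`, and for every `v` exactly one `u`. The map `β` is an automorphism, its graph is `H`. -/
theorem exists_aut_of_graph {H : Subgroup (S × S)} (hH : Df (H : Set (S × S)))
    (h1 : ∀ u : S, ∃ v, (u, v) ∈ H) (h2 : ∀ v : S, ∃ u, (u, v) ∈ H)
    (n1 : ∃ u : S, (u, (1 : S)) ∉ H) (n2 : ∃ v : S, ((1 : S), v) ∉ H) :
    ∃ β : MulAut S, DefMap β ∧ ∀ p : S × S, p ∈ H ↔ β p.1 = p.2 := by
  have k2 : H.comap (MonoidHom.inr S S) = ⊥ := by
    refine (normal_cases ?_).resolve_right ?_
    · intro g x hx
      obtain ⟨u, hu⟩ := h2 g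
      rw [Subgroup.mem_comap, MonoidHom.inr_apply] at hx ⊢
      have h3 := H.mul_mem (H.mul_mem hu hx) (H.inv_mem hu)
      simpa using h3
    · intro h3
      obtain ⟨v, hv⟩ := n2
      apply hv
      have h4 : v ∈ H.comap (MonoidHom.inr S S) := by
        rw [h3]
        exact Subgroup.mem_top v
      exact h4
  have k1 : H.comap (MonoidHom.inl S S) = ⊥ := by
    refine (normal_cases ?_).resolve_right ?_
    · intro g x hx
      obtain ⟨v, hv⟩ := h1 g
      rw [Subgroup.mem_comap, MonoidHom.inl_apply] at hx ⊢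
      have h3 := H.mul_mem (H.mul_mem hv hx) (H.inv_mem hv)
      simpa using h3
    · intro h3
      obtain ⟨u, hu⟩ := n1
      apply hu
      have h4 : u ∈ H.comap (MonoidHom.inl S S) := by
        rw [h3]
        exact Subgroup.mem_top u
      exact h4
  have u2 : ∀ u v v' : S, (u, v) ∈ H → (u, v') ∈ H → v = v' := by
    intro u v v' hv hv'
    have h3 := H.mul_mem (H.inv_mem hv) hv'
    have h4 : v⁻¹ * v' ∈ H.comap (MonoidHom.inr S S) := by
      rw [Subgroup.mem_comap, MonoidHom.inr_apply]
      simpa using h3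
    rw [k2, Subgroup.mem_bot] at h4
    exact inv_mul_eq_one.1 h4
  have u1 : ∀ u u' v : S, (u, v) ∈ H → (u', v) ∈ H → u = u' := by
    intro u u' v hu hu'
    have h3 := H.mul_mem (H.inv_mem hu) hu'
    have h4 : u⁻¹ * u' ∈ H.comap (MonoidHom.inl S S) := by
      rw [Subgroup.mem_comap, MonoidHom.inl_apply]
      simpa using h3
    rw [k1, Subgroup.mem_bot] at h4
    exact inv_mul_eq_one.1 h4
  choose f hf using h1
  have hmul : ∀ a b, f (a * b) = f a * f b := by
    intro a b
    exact u2 (a * b) _ _ (hf _) (H.mul_mem (hf a) (hf b))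
  have hbij : Bijective (MonoidHom.mk' f hmul) := by
    constructor
    · intro a b hab
      have hab' : f a = f b := hab
      have h3 := hf b
      rw [← hab'] at h3
      exact u1 a b (f a) (hf a) h3
    · intro v
      obtain ⟨u, hu⟩ := h2 v
      exact ⟨u, u2 u _ _ (hf u) hu⟩
  have key : ∀ p : S × S, p ∈ H ↔ f p.1 = p.2 := by
    rintro ⟨a, b⟩
    constructor
    · intro h3
      exact u2 a _ _ (hf a) h3
    · intro h3
      have h4 : f a = b := h3
      rw [← h4]
      exact hf a
  refine ⟨MulEquiv.ofBijective (MonoidHom.mk' f hmul) hbij, ?_, key⟩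
  have h5 : {p : S × S | (MulEquiv.ofBijective (MonoidHom.mk' f hmul) hbij : MulAut S) p.1 = p.2} =
      (H : Set (S × S)) := by
    ext p
    exact (key p).symm
  unfold DefMap
  rw [h5]
  exact hH

end Pool.Agent.BadG
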