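import Pool.Agent.BadG.ConnIrr

set_option autoImplicit false

/-! BG31. The stabilizer in `E × E` of an irreducible subset of `E`. -/

namespace Pool.Agent.BadG

open Function

variable {X : Type} [RU X] {E : Type} [RS X E] [Group E] [DG E]

/-- The map `y ↦ u y v⁻¹` for `p = (u, v)`. -/
def tr (p : E × E) (y : E) : E := p.1 * y * p.2⁻¹

theorem tr_mul (p q : E × E) (y : E) : tr (p * q) y = tr p (tr q y) := by
  unfold tr
  simp only [Prod.fst_mul, Prod.snd_mul, mul_inv_rev, mul_assoc]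

theorem tr_one (y : E) : tr (1 : E × E) y = y := by
  simp [tr]

theorem tr_inj (p : E × E) : Injective (tr p) := by
  intro a b h
  unfold tr at h
  exact mul_left_cancel (mul_right_cancel h)

theorem DefMap.tr (p : E × E) : DefMap (tr p) := by
  unfold BadG.tr
  fun_prop

omit [Group E] [DG E] in
/-- Almost equality is preserved by injective definable maps. -/
private theorem sb_image {A B : Set E} (hA : Df A) (hB : Df B) {f : E → E} (hf : DefMap f)
    (hi : Injective f) : rk (f '' A ∩ f '' B) = rk (A ∩ B) := by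
  rw [← Set.image_inter hi]
  exact rk_image_inj (hA.inter hB) hf hi.injOn

/-- `tr` as a definable relation. -/
private theorem sb_df {Y : Set E} (hY : Df Y) :
    Df {q : (E × E) × E | q.2 ∈ Y ∧ ∃ y' ∈ Y, q.2 = q.1.1 * y' * (q.1.2)⁻¹} := by
  refine Df.and (Df.mem hY (by fun_prop)) ?_
  refine Df.exin (P := fun (q : (E × E) × E) (y' : E) => q.2 = q.1.1 * y' * (q.1.2)⁻¹) hY ?_
  exact Df.eq (by fun_prop) (by fun_prop)

/-- **The stabilizer.** The `p` such that `tr p '' Y` and `Y` are almost equal form a definable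
subgroup. Closed under products: `Y`, `tr p '' Y`, `tr p '' (tr q '' Y)` are irreducible
(`Irr.map_inj`), `Irr.trans`. Definable: `Df.rk_eq` for `{(p, y) | y ∈ Y ∧ ∃ y' ∈ Y, y = tr p y'}`.
As `0 < rk Y`, sets of rank `rk Y` are nonempty. -/
theorem exists_stab {Y : Set E} (hY : Irr Y) (hpos : 0 < rk Y) :
    ∃ H : Subgroup (E × E), Df (H : Set (E × E)) ∧
      ∀ p, p ∈ H ↔ rk (tr p '' Y ∩ Y) = rk Y := by
  have hne : ∀ {A : Set E}, rk A = rk Y → A.Nonempty := fun h =>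
    nonempty_of_rk_pos (by rw [h]; exact hpos)
  have htY : ∀ p, Df (tr p '' Y) := fun p => Df.im (DefMap.tr p) hY.1
  have hmul : ∀ p q : E × E, tr (p * q) '' Y = tr p '' (tr q '' Y) := by
    intro p q
    rw [Set.image_image]
    exact Set.image_congr fun y _ => tr_mul p q y
  have hrk : ∀ p, rk (tr p '' Y) = rk Y := fun p =>
    rk_image_inj hY.1 (DefMap.tr p) (tr_inj p).injOn
  let H : Subgroup (E × E) :=
    { carrier := {p | rk (tr p '' Y ∩ Y) = rk Y}
      mul_mem' := by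
        intro p q hp hq
        have hp' : rk (tr p '' Y ∩ Y) = rk Y := hp
        have hq' : rk (tr q '' Y ∩ Y) = rk Y := hq
        have h1 : rk (tr (p * q) '' Y ∩ tr p '' Y) = rk Y := by
          rw [hmul, sb_image (htY q) hY.1 (DefMap.tr p) (tr_inj p), hq']
        exact (Irr.trans (hY.map_inj (DefMap.tr p) (tr_inj p).injOn) (htY (p * q)) hY.1
          (hrk p) (hrk (p * q)) ⟨hne h1, h1⟩ ⟨hne hp', hp'⟩).2
      one_mem' := by
        have h1 : tr (1 : E × E) '' Y = Y := by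
          have h2 : (tr (1 : E × E) : E → E) = id := funext tr_one
          rw [h2, Set.image_id]
        change rk (tr (1 : E × E) '' Y ∩ Y) = rk Y
        rw [h1, Set.inter_self]
      inv_mem' := by
        intro p hp
        have hp' : rk (tr p '' Y ∩ Y) = rk Y := hp
        have h1 : tr p⁻¹ '' (tr p '' Y) = Y := by
          rw [← hmul, inv_mul_cancel]
          have h2 : (tr (1 : E × E) : E → E) = id := funext tr_one
          rw [h2, Set.image_id]
        change rk (tr p⁻¹ '' Y ∩ Y) = rk Y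
        have h2 := sb_image (htY p) hY.1 (DefMap.tr p⁻¹) (tr_inj p⁻¹)
        rw [h1] at h2
        rw [Set.inter_comm, h2, hp'] }
  refine ⟨H, ?_, fun p => Iff.rfl⟩
  have h1 := Df.rk_eq (P := fun (p : E × E) (y : E) =>
    y ∈ Y ∧ ∃ y' ∈ Y, y = p.1 * y' * (p.2)⁻¹) (sb_df hY.1) (rk Y)
  have h2 : (H : Set (E × E)) = {p : E × E | rk {y | y ∈ Y ∧ ∃ y' ∈ Y,
      y = p.1 * y' * (p.2)⁻¹} = rk Y} := by
    ext p
    have h3 : {y | y ∈ Y ∧ ∃ y' ∈ Y, y = p.1 * y' * (p.2)⁻¹} = tr p '' Y ∩ Y := by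
      ext y
      constructor
      · rintro ⟨h4, y', h5, h6⟩
        exact ⟨⟨y', h5, h6.symm⟩, h4⟩
      · rintro ⟨⟨y', h5, h6⟩, h4⟩
        exact ⟨h4, y', h5, h6.symm⟩
    rw [Set.mem_ofPred_eq, h3]
    exact Iff.rfl
  rw [h2]
  exact h1

omit [DG E] in
/-- The count behind `exists_not_right` and `exists_not_left`. -/
private theorem sb_count {Y : Set E} (hY : Df Y) (hpos : 0 < rk Y)
    (hlt : rk Y < rk (Set.univ : Set E)) {P : Set (E × E)} (hP : Df P)
    (h1 : ∀ v, rk (fib P v) = rk Y) (h2 : ∀ q ∈ P, q.2 ∈ Y)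
    (g : E → E → E) (hg : ∀ y, DefMap (g y)) (hgi : ∀ y, Injective (g y))
    (hgY : ∀ q ∈ P, g q.2 q.1 ∈ Y) : False := by
  have h3 : rk (Set.univ : Set E) + rk Y ≤ rk P := by
    refine add_le_rk hP Df.univ ⟨1, Set.mem_univ _⟩ (rk Y) fun v _ => ⟨?_, (h1 v).ge⟩
    exact nonempty_of_rk_pos (by rw [h1 v]; exact hpos)
  have h4 : rk P ≤ rk Y + rk Y := by
    refine rk_le_add' hP hY h2 (rk Y) fun y _ => ?_
    have h5 : Df {v : E | (v, y) ∈ P} := Df.mem hP (by fun_prop)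
    rw [← rk_image_inj h5 (hg y) (hgi y).injOn]
    refine rk_mono (Df.im (hg y) h5) hY ?_
    rintro _ ⟨v, hv, rfl⟩
    exact hgY (v, y) hv
  omega

/-- **Not everything stabilizes.** If `rk Y < rk E` then some `(1, v)` is not in the stabilizer.
Otherwise let `P = {(v, y) | y ∈ Y, y v ∈ Y}`. For every `v` the fibre is `tr (1, v) '' Y ∩ Y` and
has rank `rk Y`: `rk P ≥ rk E + rk Y` (`add_le_rk`). For `y ∈ Y` the fibre is `{v | y v ∈ Y}`, of
rank `≤ rk Y` (`v ↦ y v` is injective): `rk P ≤ rk Y + rk Y` (`rk_le_add'`). Contradiction. -/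
theorem exists_not_right {Y : Set E} (hY : Irr Y) (hpos : 0 < rk Y)
    (hlt : rk Y < rk (Set.univ : Set E)) : ∃ v : E, rk (tr (1, v) '' Y ∩ Y) ≠ rk Y := by
  by_contra hcon
  push Not at hcon
  have hD := hY.1
  refine sb_count hD hpos hlt (P := {q : E × E | q.2 ∈ Y ∧ q.2 * q.1 ∈ Y})
    (Df.and (Df.mem hD (by fun_prop)) (Df.mem hD (by fun_prop))) (fun v => ?_)
    (fun q hq => hq.1) (fun y v => y * v) (fun y => by fun_prop)
    (fun y => mul_right_injective y) (fun q hq => hq.2)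
  rw [← hcon v]
  congr 1
  ext y
  constructor
  · rintro ⟨h1, h2⟩
    refine ⟨⟨y * v, h2, ?_⟩, h1⟩
    change 1 * (y * v) * v⁻¹ = y
    rw [one_mul, mul_inv_cancel_right]
  · rintro ⟨⟨y', h1, h2⟩, h3⟩
    refine ⟨h3, ?_⟩
    have h4 : 1 * y' * v⁻¹ = y := h2
    change y * v ∈ Y
    rw [← h4, one_mul, inv_mul_cancel_right]
    exact h1

theorem exists_not_left {Y : Set E} (hY : Irr Y) (hpos : 0 < rk Y)
    (hlt : rk Y < rk (Set.univ : Set E)) : ∃ u : E, rk (tr (u, 1) '' Y ∩ Y) ≠ rk Y := by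
  by_contra hcon
  push Not at hcon
  have hD := hY.1
  refine sb_count hD hpos hlt (P := {q : E × E | q.2 ∈ Y ∧ q.1⁻¹ * q.2 ∈ Y})
    (Df.and (Df.mem hD (by fun_prop)) (Df.mem hD (by fun_prop))) (fun u => ?_)
    (fun q hq => hq.1) (fun y u => u⁻¹ * y) (fun y => by fun_prop)
    (fun y => (mul_left_injective y).comp inv_injective) (fun q hq => hq.2)
  rw [← hcon u]
  congr 1
  ext y
  constructor
  · rintro ⟨h1, h2⟩
    refine ⟨⟨u⁻¹ * y, h2, ?_⟩, h1⟩
    change u * (u⁻¹ * y) * (1 : E)⁻¹ = y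
    rw [inv_one, mul_one, mul_inv_cancel_left]
  · rintro ⟨⟨y', h1, h2⟩, h3⟩
    refine ⟨h3, ?_⟩
    have h4 : u * y' * (1 : E)⁻¹ = y := h2
    change u⁻¹ * y ∈ Y
    rw [← h4, inv_one, mul_one, inv_mul_cancel_left]
    exact h1

/-- **Reflections.** Let `Y`, `L` be irreducible of the same rank `> 0`, almost equal, and
`σ : E → E` definable, injective with `σ(L) ⊆ L`. Then `σ(Y)` and `Y` are almost equal: `σ(L ∩ Y)`
and `L ∩ Y` are full subsets of the irreducible set `L`, so their intersection, which is contained in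
`σ(Y) ∩ Y`, has rank `rk L`. -/
theorem refl_sim {Y L : Set E} (hY : Irr Y) (hL : Irr L) (hpos : 0 < rk Y) (hr : rk L = rk Y)
    (h : rk (L ∩ Y) = rk Y) {σ : E → E} (hσ : DefMap σ) (hi : Injective σ)
    (hσL : ∀ y ∈ L, σ y ∈ L) : rk (σ '' Y ∩ Y) = rk Y := by
  have hLY : Df (L ∩ Y) := hL.1.inter hY.1
  have h1 : rk (σ '' (L ∩ Y)) = rk Y := by
    rw [rk_image_inj hLY hσ hi.injOn, h]
  have hne : ∀ {A : Set E}, rk A = rk Y → A.Nonempty := fun h =>
    nonempty_of_rk_pos (by rw [h]; exact hpos)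
  have h2 : σ '' (L ∩ Y) ⊆ L := by
    rintro _ ⟨y, hy, rfl⟩
    exact hσL y hy.1
  have h3 := (hL.inter_rk (Df.im hσ hLY) hLY h2 Set.inter_subset_left (hne h1) (hne h)
    (by rw [h1, hr]) (by rw [h, hr])).2
  have hσY : Df (σ '' Y) := Df.im hσ hY.1
  refine le_antisymm (rk_mono (hσY.inter hY.1) hY.1 Set.inter_subset_right) ?_
  rw [← hr, ← h3]
  refine rk_mono ((Df.im hσ hLY).inter hLY) (hσY.inter hY.1) ?_
  rintro y ⟨⟨y', hy', rfl⟩, hy⟩
  exact ⟨⟨y', hy'.2, rfl⟩, hy.2⟩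

/-- **Products of two reflections.** `σ_x y = x y⁻¹ x` and
`σ_x (σ_x' y) = (x x'⁻¹) y (x⁻¹ x')⁻¹`. If `σ_x`, `σ_x'` almost preserve the irreducible set `Y` (in
the sense of `refl_sim`) then `(x x'⁻¹, x⁻¹ x')` is in the stabilizer: `Y ~ σ_x(Y)` and
`σ_x(σ_x'(Y)) ~ σ_x(Y)` (apply the injective map `σ_x`), `Irr.trans`. -/
theorem two_refl {Y : Set E} (hY : Irr Y) (hpos : 0 < rk Y) {x x' : E}
    (h : rk ((fun y => x * y⁻¹ * x) '' Y ∩ Y) = rk Y)
    (h' : rk ((fun y => x' * y⁻¹ * x') '' Y ∩ Y) = rk Y) :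
    rk (tr (x * x'⁻¹, x⁻¹ * x') '' Y ∩ Y) = rk Y := by
  have hD := hY.1
  have hσ : ∀ z : E, DefMap (fun y : E => z * y⁻¹ * z) := fun z => by fun_prop
  have hi : ∀ z : E, Injective (fun y : E => z * y⁻¹ * z) := fun z a b hab =>
    inv_injective (mul_left_cancel (mul_right_cancel hab))
  have hne : ∀ {A : Set E}, rk A = rk Y → A.Nonempty := fun h =>
    nonempty_of_rk_pos (by rw [h]; exact hpos)
  have h1 : tr (x * x'⁻¹, x⁻¹ * x') '' Y =
      (fun y : E => x * y⁻¹ * x) '' ((fun y : E => x' * y⁻¹ * x') '' Y) := by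
    rw [Set.image_image]
    refine Set.image_congr fun y _ => ?_
    change x * x'⁻¹ * y * (x⁻¹ * x')⁻¹ = x * (x' * y⁻¹ * x')⁻¹ * x
    group
  have h2 : rk (tr (x * x'⁻¹, x⁻¹ * x') '' Y ∩ (fun y : E => x * y⁻¹ * x) '' Y) = rk Y := by
    rw [h1, sb_image (Df.im (hσ x') hD) hD (hσ x) (hi x), h']
  exact (Irr.trans (hY.map_inj (hσ x) (hi x).injOn) (Df.im (DefMap.tr _) hD) hD
    (rk_image_inj hD (hσ x) (hi x).injOn) (rk_image_inj hD (DefMap.tr _) (tr_inj _).injOn)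
    ⟨hne h2, h2⟩ ⟨hne h, h⟩).2

end Pool.Agent.BadG
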