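import Pool.Agent.BadG.Line
import Pool.Agent.BadG.StabA
import Pool.Agent.BadG.Goursat

set_option autoImplicit false

/-! BG33. The lines do not fill `Xd d`: theorem (D). -/

namespace Pool.Agent.BadG

open Function

variable {X : Type} [RU X] {Γ S : Type} [RS X Γ] [RS X S] [Group Γ] [Group S] [Bad S] [DG Γ]
  (𝒜 : Act Γ S)

/-- **A large class of lines.** If all `Ln d x`, `x ∈ Xd d`, have the rank of `Xd d`, then there is `x₀ ∈ Xd d` such that the set `P` of the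
`x ∈ Xd d` with `rk (Ln d x ∩ Ln d x₀) = rk (Xd d)` has rank `rk (Xd d)`: by `exists_finite_classes` for the family `Ln d x`,
`x ∈ Xd d`, the set `Xd d` is a finite union of such sets `P`; `rk_biUnion_le`. (`P` is definable by `Df_Ln_rel`, `Df.rk_eq`.) -/
theorem exists_class (hΓ : Conn (⊤ : Subgroup Γ))
    (hb : ∀ B : Subgroup S, Borel B → rk (B : Set S) = 1) {d : S} (hd : d ≠ 1)
    (hne : (Xd d).Nonempty) (h : ∀ x ∈ Xd d, rk (Ln 𝒜 d x) = rk (Xd d)) :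
    ∃ x₀ ∈ Xd d, Df {x | x ∈ Xd d ∧ rk (Ln 𝒜 d x ∩ Ln 𝒜 d x₀) = rk (Xd d)} ∧
      rk {x | x ∈ Xd d ∧ rk (Ln 𝒜 d x ∩ Ln 𝒜 d x₀) = rk (Xd d)} = rk (Xd d) := by
  classical
  obtain ⟨B, hB⟩ := exists_borel (S := S)
  have hdf : ∀ j : S, Df {x | x ∈ Xd d ∧ rk (Ln 𝒜 d x ∩ Ln 𝒜 d j) = rk (Xd d)} := by
    intro j
    refine Df.and (Df_Xd d) ?_
    have h1 : Df {p : S × S | p.2 ∈ Ln 𝒜 d p.1 ∧ p.2 ∈ Ln 𝒜 d j} :=
      Df.and (Df_Ln_rel 𝒜 d) (Df.mem (Df_Ln 𝒜 d j) (by fun_prop))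
    exact Df.rk_eq (P := fun x y => y ∈ Ln 𝒜 d x ∧ y ∈ Ln 𝒜 d j) h1 _
  obtain ⟨s, hs⟩ := exists_finite_classes (Df_Xd d) (I := Xd d) (fun i => Ln 𝒜 d i) (by
    rintro ⟨i, hi⟩
    exact ⟨Df_Ln 𝒜 d i, (Ln_irr 𝒜 hΓ hb hd hi hB).1.2.1, Ln_sub 𝒜 hΓ hb d i, h i hi⟩)
  obtain ⟨y, hy⟩ := hne
  have h2 : 2 ≤ rk (Xd d) := by
    rw [← h y hy]
    exact rk_Ln_ge 𝒜 hΓ hb hd hy
  by_contra hcon
  push Not at hcon
  have h3 : ∀ j ∈ s, rk {x | x ∈ Xd d ∧ rk (Ln 𝒜 d x ∩ Ln 𝒜 d j) = rk (Xd d)} ≤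
      rk (Xd d) - 1 := by
    intro j _
    have h4 := hcon j j.2 (hdf j)
    have h5 : rk {x | x ∈ Xd d ∧ rk (Ln 𝒜 d x ∩ Ln 𝒜 d j) = rk (Xd d)} ≤ rk (Xd d) :=
      rk_mono (hdf j) (Df_Xd d) fun x hx => hx.1
    omega
  have h4 := rk_biUnion_le s (fun j _ => hdf j) _ h3
  have h5 : rk (Xd d) ≤ rk (⋃ j ∈ s, {x | x ∈ Xd d ∧ rk (Ln 𝒜 d x ∩ Ln 𝒜 d j) = rk (Xd d)}) := by
    refine rk_mono (Df_Xd d) (Df.biUnion s fun j _ => hdf j) ?_
    intro x hx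
    obtain ⟨j, hj, _, hj'⟩ := hs ⟨x, hx⟩
    simp only [Set.mem_iUnion]
    exact ⟨j, hj, hx, hj'⟩
  omega

/-- **An automorphism which inverts a set `Q` of rank `≥ 2` does not exist** (Borel subgroups of rank one). If `β = 1` then
`u² = 1`, `u = 1` for `u ∈ Q` (`no_inv_elt`), so `rk Q = 0`. If `β ≠ 1`: let `B` be the Borel subgroup normalized by `β` (`aut_exists`). For
`u ∈ Q`, `u ≠ 1`: `β u = u⁻¹ ∈ bo u`, so `β` normalizes `bo u` (`fixes_of_mem`), `bo u = B` (`aut_unique`). So `Q ⊆ B`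
and `rk Q ≤ 1`. -/
theorem no_inverting (hb : ∀ B : Subgroup S, Borel B → rk (B : Set S) = 1) {Q : Set S}
    (hQ : Df Q) (h2 : 2 ≤ rk Q) {β : MulAut S} (hβ : DefMap β) (h : ∀ u ∈ Q, β u = u⁻¹) :
    False := by
  by_cases hβ1 : β = 1
  · have h3 : Q ⊆ {1} := by
      intro u hu
      have h4 := h u hu
      rw [hβ1, MulAut.one_apply] at h4
      rw [Set.mem_singleton_iff]
      apply no_inv_elt
      nth_rewrite 2 [h4]
      exact mul_inv_cancel u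
    have h4 := rk_mono hQ (Df.singleton 1) h3
    have h5 : rk ({1} : Set S) = 0 := rk_of_finite (Set.finite_singleton 1)
    omega
  · obtain ⟨B, hB, hF⟩ := aut_exists hβ
    have h3 : Q ⊆ (B : Set S) := by
      intro u hu
      by_cases hu1 : u = 1
      · rw [hu1]
        exact B.one_mem
      · have h4 : Fixes β (bo u) := by
          refine fixes_of_mem (bo_borel u) hβ hu1 (mem_bo u) ?_
          rw [h u hu]
          exact (bo u).inv_mem (mem_bo u)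
        rw [← aut_unique hβ hβ1 (bo_borel u) hB h4 hF]
        exact mem_bo u
    have h4 := rk_mono hQ hB.1.1 h3
    have h5 := hb B hB
    omega

/-- **The lines are not of maximal rank.** Suppose `rk (Ln d x) ≥ rk S - 1` for all `x ∈ Xd d`. By `Ln_sub` and
`rk_Xd_lt`, `rk (Ln d x) = rk (Xd d) = rk S - 1 =: m`, `m ≥ 2` (`rk_Ln_ge`). Let `x₀` and `P` be as in `exists_class`, `Y = Ln d x₀`, and `H` the
stabilizer of `Y` (`exists_stab`). For `x ∈ P` the map `σ_x y = x y⁻¹ x` leaves `Ln d x` invariant (`Ln_refl`), so `σ_x(Y) ~ Y` by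
`refl_sim` (`Ln d x ~ Y`). By `two_refl`: `(x x'⁻¹, x⁻¹ x') ∈ H` for `x, x' ∈ P`. Fix `x₁ ∈ P`. The first projection of `H` is a
definable subgroup of `S` containing `P x₁⁻¹`, of rank `≥ m ≥ 2`; so it is `S` by `rk_le_borel`. The second projection contains
the `x⁻¹ x₁`, `x ∈ P`: it is `S`. By `exists_not_right`, `exists_not_left` and `exists_aut_of_graph`, `H` is the graph of a definable
automorphism `β`: `β (x x₁⁻¹) = x⁻¹ x₁` for `x ∈ P`. Let `β' = MulAut.conj x₁ * β`: `β' (x x₁⁻¹) = x₁ x⁻¹ = (x x₁⁻¹)⁻¹`. This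
contradicts `no_inverting` for `Q = P x₁⁻¹`. -/
theorem no_max (hΓ : Conn (⊤ : Subgroup Γ))
    (hb : ∀ B : Subgroup S, Borel B → rk (B : Set S) = 1) {d : S} (hd : d ≠ 1)
    (hne : (Xd d).Nonempty)
    (h : ∀ x ∈ Xd d, rk (Set.univ : Set S) ≤ rk (Ln 𝒜 d x) + 1) : False := by
  obtain ⟨B, hB⟩ := exists_borel (S := S)
  have hlt := rk_Xd_lt hb hd
  have hr : ∀ x ∈ Xd d, rk (Ln 𝒜 d x) = rk (Xd d) := by
    intro x hx
    have h1 := rk_mono (Df_Ln 𝒜 d x) (Df_Xd d) (Ln_sub 𝒜 hΓ hb d x)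
    have h2 := h x hx
    omega
  obtain ⟨x₀, hx₀, hPd, hPr⟩ := exists_class 𝒜 hΓ hb hd hne hr
  set P : Set S := {x | x ∈ Xd d ∧ rk (Ln 𝒜 d x ∩ Ln 𝒜 d x₀) = rk (Xd d)} with hP
  have hm : 2 ≤ rk (Xd d) := by
    rw [← hr x₀ hx₀]
    exact rk_Ln_ge 𝒜 hΓ hb hd hx₀
  set Y : Set S := Ln 𝒜 d x₀ with hYd
  have hY : Irr Y := (Ln_irr 𝒜 hΓ hb hd hx₀ hB).1
  have hYr : rk Y = rk (Xd d) := hr x₀ hx₀
  have hpos : 0 < rk Y := by omega
  have hYlt : rk Y < rk (Set.univ : Set S) := by omega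
  obtain ⟨H, hHd, hH⟩ := exists_stab hY hpos
  have hσ : ∀ x ∈ P, rk ((fun y => x * y⁻¹ * x) '' Y ∩ Y) = rk Y := by
    intro x hx
    refine refl_sim hY (Ln_irr 𝒜 hΓ hb hd hx.1 hB).1 hpos ?_ ?_ (by fun_prop) ?_ ?_
    · rw [hr x hx.1, hYr]
    · rw [hx.2, hYr]
    · intro a b hab
      exact inv_injective (mul_left_cancel (mul_right_cancel hab))
    · intro y hy
      exact Ln_refl 𝒜 hy
  have hmem : ∀ x ∈ P, ∀ x' ∈ P, (x * x'⁻¹, x⁻¹ * x') ∈ H := by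
    intro x hx x' hx'
    rw [hH]
    exact two_refl hY hpos (hσ x hx) (hσ x' hx')
  obtain ⟨x₁, hx₁⟩ : P.Nonempty := by
    by_contra hcon
    rw [Set.not_nonempty_iff_eq_empty] at hcon
    rw [hcon, rk_of_finite Set.finite_empty] at hPr
    omega
  have hB1 := hb B hB
  -- the projections
  have hfst : ∀ u : S, ∃ v, (u, v) ∈ H := by
    have h1 : H.map (MonoidHom.fst S S) = ⊤ := by
      by_contra hcon
      have h2 : Df ((H.map (MonoidHom.fst S S) : Subgroup S) : Set S) :=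
        Df.map_hom hHd (DefMap.fst)
      have h3 := rk_le_borel hB h2 hcon
      have h4 : rk ((fun x => x * x₁⁻¹) '' P) ≤
          rk ((H.map (MonoidHom.fst S S) : Subgroup S) : Set S) := by
        refine rk_mono (Df.im (by fun_prop) hPd) h2 ?_
        rintro _ ⟨x, hx, rfl⟩
        exact ⟨_, hmem x hx x₁ hx₁, rfl⟩
      rw [rk_mul_right _ hPd] at h4
      omega
    intro u
    have h2 : u ∈ H.map (MonoidHom.fst S S) := by
      rw [h1]
      exact Subgroup.mem_top u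
    obtain ⟨⟨a, b⟩, hab, rfl⟩ := h2
    exact ⟨b, hab⟩
  have hsnd : ∀ v : S, ∃ u, (u, v) ∈ H := by
    have h1 : H.map (MonoidHom.snd S S) = ⊤ := by
      by_contra hcon
      have h2 : Df ((H.map (MonoidHom.snd S S) : Subgroup S) : Set S) :=
        Df.map_hom hHd (DefMap.snd)
      have h3 := rk_le_borel hB h2 hcon
      have h4 : rk ((fun x => x⁻¹ * x₁) '' P) ≤
          rk ((H.map (MonoidHom.snd S S) : Subgroup S) : Set S) := by
        refine rk_mono (Df.im (by fun_prop) hPd) h2 ?_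
        rintro _ ⟨x, hx, rfl⟩
        exact ⟨_, hmem x hx x₁ hx₁, rfl⟩
      rw [rk_image_inj hPd (by fun_prop)
        (fun a _ b _ hab => inv_injective (mul_right_cancel hab))] at h4
      omega
    intro v
    have h2 : v ∈ H.map (MonoidHom.snd S S) := by
      rw [h1]
      exact Subgroup.mem_top v
    obtain ⟨⟨a, b⟩, hab, rfl⟩ := h2
    exact ⟨a, hab⟩
  obtain ⟨β, hβ, hgr⟩ := exists_aut_of_graph hHd hfst hsnd
    (by
      obtain ⟨u, hu⟩ := exists_not_left hY hpos hYlt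
      exact ⟨u, fun h => hu ((hH _).1 h)⟩)
    (by
      obtain ⟨v, hv⟩ := exists_not_right hY hpos hYlt
      exact ⟨v, fun h => hv ((hH _).1 h)⟩)
  refine no_inverting hb (Q := (fun x => x * x₁⁻¹) '' P) (Df.im (by fun_prop) hPd) ?_
    (DefMap.aut_mul (DefMap.aut_conj x₁) hβ) ?_
  · rw [rk_mul_right _ hPd]
    omega
  · rintro _ ⟨x, hx, rfl⟩
    have h1 : β (x * x₁⁻¹) = x⁻¹ * x₁ := (hgr _).1 (hmem x hx x₁ hx₁)
    rw [MulAut.mul_apply, h1, MulAut.conj_apply]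
    group

/-- **Theorem (D)** `k ≤ n - 4` if the Borel subgroups have rank one. Let `d ≠ 1` with `Xd d ≠ ∅` (`exists_Xd_nonempty`).
All `Ln d x`, `x ∈ Xd d`, have the same rank `ρ + 1 - c` (`Ln_irr` for a fixed Borel subgroup `B`), so by `no_max` `ρ + 1 - c + 2 ≤ n`; and `rk Γ + 1 = n + ρ`
(`rk_frattini`). -/
theorem outer_bound_one (hΓ : Conn (⊤ : Subgroup Γ))
    (hb : ∀ B : Subgroup S, Borel B → rk (B : Set S) = 1) :
    rk (Set.univ : Set Γ) + 4 ≤ 2 * rk (Set.univ : Set S) + rk (𝒜.C : Set Γ) := by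
  obtain ⟨d, hd, hne⟩ := exists_Xd_nonempty (S := S)
  obtain ⟨B, hB⟩ := exists_borel (S := S)
  obtain ⟨x, hx, hlt⟩ : ∃ x ∈ Xd d, rk (Ln 𝒜 d x) + 1 < rk (Set.univ : Set S) := by
    by_contra hcon
    push Not at hcon
    exact no_max 𝒜 hΓ hb hd hne hcon
  have h1 := (Ln_irr 𝒜 hΓ hb hd hx hB).2
  have h2 := rk_frattini 𝒜 hB
  have h3 := hb B hB
  omega

end Pool.Agent.BadG
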