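import Pool.Agent.BadG.AutThm

set_option autoImplicit false

/-! BG25. Theorem (B): no solvable normal subgroups in irreducible groups of automorphisms. -/

namespace Pool.Agent.BadG

open Function

variable {X : Type} [RU X] {S : Type} [RS X S] [Group S] [Bad S]

omit [RS X S] [Bad S] in
private theorem fixes_map {α β γ : MulAut S} {B : Subgroup S} (h : Fixes γ B)
    (he : α⁻¹ * β = γ * α⁻¹) : Fixes β (B.map α.toMonoidHom) := by
  intro x
  have h1 : ∀ z : S, z ∈ B.map α.toMonoidHom ↔ α⁻¹ z ∈ B := fun z => Subgroup.mem_map_equiv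
  rw [h1, h1]
  have h2 : α⁻¹ (β x) = γ (α⁻¹ x) := by
    rw [← MulAut.mul_apply, he, MulAut.mul_apply]
  rw [h2]
  exact h _

omit [RS X S] [Bad S] in
private theorem fixes_of_map {α : MulAut S} {B : Subgroup S} (h : B = B.map α.toMonoidHom) :
    Fixes α B := by
  intro x
  have h1 : α x ∈ B.map α.toMonoidHom ↔ α⁻¹ (α x) ∈ B := Subgroup.mem_map_equiv
  rw [← h, ← MulAut.mul_apply, inv_mul_cancel, MulAut.one_apply] at h1
  exact h1

/-- The group `M` acts faithfully and irreducibly by definable automorphisms. Let `1 ≠ y ∈ A` and let `B` be the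
Borel subgroup normalized by `φ y` (`aut_exists`, `aut_unique`; `φ y ≠ 1`). For `a ∈ A`: `φ a (B)` is a Borel subgroup
(`Borel.map_aut`) normalized by `φ (a y a⁻¹) = φ y`, so `φ a (B) = B`. For `m ∈ M`: `y' = m y m⁻¹ ∈ A` (so `φ y'`
normalizes `B`), `y' ≠ 1`, and `φ y'` normalizes the Borel subgroup `φ m (B)`: `φ m (B) = B`. So `B` is a connected
`M`-invariant subgroup, `B ≠ ⊥` (`Borel.ne_bot`) and `B ≠ ⊤`: contradiction. -/
theorem no_abelian {M : Type} [Group M] (φ : M →* MulAut S) (hφ : ∀ m, DefMap (φ m))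
    (hinj : Injective φ)
    (hirr : ∀ H : Subgroup S, Conn H → (∀ m x, φ m x ∈ H ↔ x ∈ H) → H = ⊥ ∨ H = ⊤)
    (A : Subgroup M) (hA : A.Normal) (hcomm : ∀ a ∈ A, ∀ b ∈ A, a * b = b * a) : A = ⊥ := by
  by_contra hne
  obtain ⟨⟨y, hy⟩, hy0⟩ := A.ne_bot_iff_exists_ne_one.1 hne
  have hy1 : y ≠ 1 := fun h => hy0 (Subtype.ext h)
  obtain ⟨B, hB, hfix⟩ := aut_exists (hφ y)
  have hφ1 : ∀ z : M, z ≠ 1 → φ z ≠ 1 := fun z hz h => hz (hinj (by rw [h, map_one]))
  have hAB : ∀ a ∈ A, Fixes (φ a) B := by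
    intro a ha
    refine fixes_of_map (aut_unique (hφ y) (hφ1 y hy1) hB (hB.map_aut (hφ a)) hfix ?_)
    refine fixes_map hfix ?_
    rw [← map_inv, ← map_mul, ← map_mul, hcomm _ (A.inv_mem ha) _ hy]
  have hMB : ∀ m : M, Fixes (φ m) B := by
    intro m
    have hy' : m * y * m⁻¹ ∈ A := hA.conj_mem _ hy m
    have hy1' : m * y * m⁻¹ ≠ 1 := by
      intro h
      apply hy1
      have h2 : m * y * m⁻¹ * m = 1 * m := by rw [h]
      rw [inv_mul_cancel_right, one_mul] at h2
      exact mul_eq_left.1 h2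
    refine fixes_of_map (aut_unique (hφ _) (hφ1 _ hy1') hB (hB.map_aut (hφ m))
      (hAB _ hy') ?_)
    refine fixes_map hfix ?_
    rw [← map_inv, ← map_mul, ← map_mul]
    congr 1
    group
  rcases hirr B hB.1 fun m x => hMB m x with h | h
  · exact hB.ne_bot h
  · exact hB.2.1 h

/-- If `N ≠ ⊥` is a solvable normal subgroup then the last term `≠ 1` of its derived series (mapped to `M`) is
an abelian normal subgroup of `M` (characteristic in `N`). -/
theorem no_solvable {M : Type} [Group M] (φ : M →* MulAut S) (hφ : ∀ m, DefMap (φ m))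
    (hinj : Injective φ)
    (hirr : ∀ H : Subgroup S, Conn H → (∀ m x, φ m x ∈ H ↔ x ∈ H) → H = ⊥ ∨ H = ⊤)
    (N : Subgroup M) (hN : N.Normal) (hsol : Group.IsSolvable N) : N = ⊥ := by
  classical
  have hex : ∃ n, derivedSeries N n = ⊥ := hsol.solvable
  have hn := Nat.find_spec hex
  rcases Nat.eq_zero_or_pos (Nat.find hex) with h0 | h0
  · rw [h0, derivedSeries_zero] at hn
    rw [← Subgroup.range_subtype N, MonoidHom.range_eq_map, hn, Subgroup.map_bot]
  · exfalso
    obtain ⟨k, hk⟩ := Nat.exists_eq_succ_of_ne_zero h0.ne'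
    have hk1 : derivedSeries N k ≠ ⊥ := Nat.find_min hex (by omega)
    rw [hk, Nat.succ_eq_add_one, derivedSeries_succ] at hn
    have hnor : ((derivedSeries N k).map N.subtype).Normal := inferInstance
    have hab : ∀ a ∈ (derivedSeries N k).map N.subtype,
        ∀ b ∈ (derivedSeries N k).map N.subtype, a * b = b * a := by
      rintro _ ⟨a, ha, rfl⟩ _ ⟨b, hb, rfl⟩
      have h1 := Subgroup.mem_centralizer_iff.1
        (Subgroup.commutator_eq_bot_iff_le_centralizer.1 hn ha) b hb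
      exact (congrArg Subtype.val h1).symm
    have h2 := no_abelian φ hφ hinj hirr _ hnor hab
    exact hk1 ((Subgroup.map_eq_bot_iff_of_injective _ N.subtype_injective).1 h2)

end Pool.Agent.BadG
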