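import Pool.Agent.BadG.ActBasic

set_option autoImplicit false

/-! BG26. Theorem (C): the bound `k ≤ n - 2 b - 1`. -/

namespace Pool.Agent.BadG

open Function

variable {X : Type} [RU X] {Γ S : Type} [RS X Γ] [RS X S] [Group Γ] [Group S] [Bad S] [DG Γ]
  (𝒜 : Act Γ S)

private theorem map_ne {B : Subgroup S} {g : Γ} (hg : g ∉ 𝒜.R B) :
    B.map (𝒜.act g).toMonoidHom ≠ B := by
  intro h
  apply hg
  rw [mem_R]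
  intro x
  constructor
  · intro hx
    rw [← h] at hx
    obtain ⟨y, hy, hyx⟩ := hx
    have h1 : 𝒜.act g y = 𝒜.act g x := hyx
    rw [← (𝒜.act g).injective h1]
    exact hy
  · intro hx
    rw [← h]
    exact ⟨x, hx, rfl⟩

private theorem Df_dbl (B : Subgroup S) (hB : Df (B : Set S)) (x : Γ) :
    Df {y : Γ | ∃ a ∈ 𝒜.R B, ∃ b ∈ 𝒜.R B, y = a * x * b} := by
  have hR : Df (𝒜.R B : Set Γ) := Df_R 𝒜 hB
  exact Df.exin (P := fun y a => ∃ b ∈ 𝒜.R B, y = a * x * b) hR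
    (Df.exin (P := fun (p : Γ × Γ) b => p.1 = p.2 * x * b) hR
      (Df.eq (by fun_prop) (by fun_prop)))

/-- **The rank of a double coset.** `rk_double` for `A = B = R B`, `x = ι s`, `s ∉ B`: the group
`{t ∈ R B | (ι s)⁻¹ t (ι s) ∈ R B}` is `C` by `mem_C_of_mem` (`t` normalizes `B` and `s B s⁻¹`, `mem_R_map`;
`s B s⁻¹ ≠ B` by `Borel.self_norm`) and `C_le_R` (`C` is normal). -/
theorem rk_double_R {B : Subgroup S} (hB : Borel B) {s : S} (hs : s ∉ B) :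
    rk {y : Γ | ∃ a ∈ 𝒜.R B, ∃ b ∈ 𝒜.R B, y = a * 𝒜.ι s * b} + rk (𝒜.C : Set Γ) =
      2 * rk (𝒜.R B : Set Γ) := by
  have hR : Df (𝒜.R B : Set Γ) := Df_R 𝒜 hB.1.1
  have h := rk_double hR hR (𝒜.ι s)
  have hset : {t : Γ | t ∈ 𝒜.R B ∧ (𝒜.ι s)⁻¹ * t * 𝒜.ι s ∈ 𝒜.R B} = (𝒜.C : Set Γ) := by
    ext t
    constructor
    · rintro ⟨h1, h2⟩
      have hns : 𝒜.ι s ∉ 𝒜.R B := fun h3 => hs ((ι_mem_R 𝒜 hB).1 h3)
      exact mem_C_of_mem 𝒜 hB (hB.map_aut (act_defMap 𝒜 (𝒜.ι s))) (map_ne 𝒜 hns).symm h1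
        ((mem_R_map 𝒜).2 h2)
    · intro ht
      have ht' : t ∈ 𝒜.act.ker := ht
      refine ⟨C_le_R 𝒜 B ht, C_le_R 𝒜 B ?_⟩
      have h3 := (MonoidHom.normal_ker 𝒜.act).conj_mem t ht' (𝒜.ι s)⁻¹
      rw [inv_inv] at h3
      exact h3
  rw [hset] at h
  rw [h, two_mul]

/-- **No swap.** There are no `r, r' ∈ R B` and `s ∉ B` with `(ι s)⁻¹ = r (ι s) r'`: put `g = r (ι s)`. Then
`(ι s) g = r'⁻¹ ∈ R B`, `g² = r ((ι s) g) = r r'⁻¹ ∈ R B`, and `g² = g⁻¹ (g²) g ∈ g⁻¹ (R B) g = (ι s)⁻¹ (R B) (ι s)`. So `g²`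
normalizes `B` and `s⁻¹ B s ≠ B`: `g² ∈ C` (`mem_C_of_mem`), `g ∈ C` (`mem_C_of_sq`), so `g ∈ R B`
and `ι s ∈ R B`, `s ∈ B` (`ι_mem_R`). Contradiction. -/
theorem no_swap {B : Subgroup S} (hB : Borel B) {s : S} (hs : s ∉ B) {r r' : Γ}
    (hr : r ∈ 𝒜.R B) (hr' : r' ∈ 𝒜.R B) (h : (𝒜.ι s)⁻¹ = r * 𝒜.ι s * r') : False := by
  have h1 : 𝒜.ι s * (r * 𝒜.ι s) = r'⁻¹ := by
    rw [eq_inv_iff_mul_eq_one, mul_assoc, ← h, mul_inv_cancel]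
  have h2 : (r * 𝒜.ι s) * (r * 𝒜.ι s) = r * r'⁻¹ := by
    rw [mul_assoc, h1]
  have h3 : (r * 𝒜.ι s) * (r * 𝒜.ι s) ∈ 𝒜.R B := by
    rw [h2]
    exact mul_mem hr (inv_mem hr')
  have hns : (𝒜.ι s)⁻¹ ∉ 𝒜.R B := fun h4 => hs ((ι_mem_R 𝒜 hB).1 (inv_mem_iff.1 h4))
  have h5 : (r * 𝒜.ι s) * (r * 𝒜.ι s) ∈ 𝒜.R (B.map (𝒜.act (𝒜.ι s)⁻¹).toMonoidHom) := by
    rw [mem_R_map, inv_inv]
    have e : 𝒜.ι s * (r * 𝒜.ι s * (r * 𝒜.ι s)) * (𝒜.ι s)⁻¹ =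
        r⁻¹ * ((r * 𝒜.ι s) * (r * 𝒜.ι s)) * r := by group
    rw [e]
    exact mul_mem (mul_mem (inv_mem hr) h3) hr
  have h6 := mem_C_of_mem 𝒜 hB (hB.map_aut (act_defMap 𝒜 (𝒜.ι s)⁻¹)) (map_ne 𝒜 hns).symm h3 h5
  have h7 := mem_C_of_sq 𝒜 h6
  have h8 : 𝒜.ι s ∈ 𝒜.R B := by
    have e : 𝒜.ι s = r⁻¹ * (r * 𝒜.ι s) := by group
    rw [e]
    exact mul_mem (inv_mem hr) (C_le_R 𝒜 B h7)
  exact hs ((ι_mem_R 𝒜 hB).1 h8)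

/-- **Theorem (C)** `k + 2 b + 1 ≤ n`, where `k = rk Γ - rk S - rk C`. Let `s ∉ B`. By `rk_double_R` for `s` and for `s⁻¹` the double cosets `(R B) (ι s) (R B)` and
`(R B) (ι s)⁻¹ (R B)` have rank `2 ρ - c ≤ rk Γ` (`ρ = rk (R B)`, `c = rk C`). If `2 ρ - c = rk Γ` they meet (`Conn.meet` or `Conn.irr`; `Γ` is connected),
so `(ι s)⁻¹ = r (ι s) r'`, against `no_swap`. So `2 ρ < rk Γ + c`, and
`rk Γ + b = n + ρ` (`rk_frattini`) gives `rk Γ + 2 b + 1 ≤ 2 n + c` (arithmetic). -/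
theorem outer_bound (hΓ : Conn (⊤ : Subgroup Γ)) {B : Subgroup S} (hB : Borel B) :
    rk (Set.univ : Set Γ) + 2 * rk (B : Set S) + 1 ≤
      2 * rk (Set.univ : Set S) + rk (𝒜.C : Set Γ) := by
  obtain ⟨s, hs⟩ : ∃ s, s ∉ B := by
    by_contra hc
    push Not at hc
    exact hB.2.1 ((Subgroup.eq_top_iff' B).2 hc)
  have hs' : s⁻¹ ∉ B := fun h => hs (inv_mem_iff.1 h)
  have h1 := rk_double_R 𝒜 hB hs
  have h2 := rk_double_R 𝒜 hB hs'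
  have h3 := rk_frattini 𝒜 hB
  have d1 := Df_dbl 𝒜 B hB.1.1 (𝒜.ι s)
  have d2 := Df_dbl 𝒜 B hB.1.1 (𝒜.ι s⁻¹)
  have huniv : Df (Set.univ : Set Γ) := by
    have := hΓ.1
    rwa [Subgroup.coe_top] at this
  have hle := rk_mono d1 huniv (Set.subset_univ _)
  have hlt : rk {y : Γ | ∃ a ∈ 𝒜.R B, ∃ b ∈ 𝒜.R B, y = a * 𝒜.ι s * b} <
      rk (Set.univ : Set Γ) := by
    refine lt_of_le_of_ne hle fun heq => ?_
    have hI := hΓ.irr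
    rw [Subgroup.coe_top] at hI
    have hn : ∀ x : Γ, {y : Γ | ∃ a ∈ 𝒜.R B, ∃ b ∈ 𝒜.R B, y = a * x * b}.Nonempty := fun x =>
      ⟨x, 1, one_mem _, 1, one_mem _, by rw [one_mul, mul_one]⟩
    have heq2 : rk {y : Γ | ∃ a ∈ 𝒜.R B, ∃ b ∈ 𝒜.R B, y = a * 𝒜.ι s⁻¹ * b} =
        rk (Set.univ : Set Γ) := by omega
    obtain ⟨y, ⟨a, ha, b, hb, e1⟩, ⟨a', ha', b', hb', e2⟩⟩ := hI.2.2 _ _ d1 d2
      (Set.subset_univ _) (Set.subset_univ _) (hn _) (hn _) heq heq2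
    apply no_swap 𝒜 hB hs (r := a'⁻¹ * a) (r' := b * b'⁻¹) (mul_mem (inv_mem ha') ha)
      (mul_mem hb (inv_mem hb'))
    have e3 : a * 𝒜.ι s * b = a' * (𝒜.ι s)⁻¹ * b' := by
      rw [← map_inv, ← e1, ← e2]
    calc (𝒜.ι s)⁻¹ = a'⁻¹ * (a' * (𝒜.ι s)⁻¹ * b') * b'⁻¹ := by group
      _ = a'⁻¹ * (a * 𝒜.ι s * b) * b'⁻¹ := by rw [e3]
      _ = a'⁻¹ * a * 𝒜.ι s * (b * b'⁻¹) := by group
  omega

end Pool.Agent.BadG
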