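import Pool.Agent.BadG.Exist

set_option autoImplicit false

/-! BG35. The semidirect product `S ⋊ M`. Here `S`, `M` and `S ⋊ M` are sorts of one universe, and
the embeddings of `S` and `M` are definable. -/

namespace Pool.Agent.BadG

open Function

variable {X : Type} [RU X] {S M : Type} [RS X S] [RS X M] [Group S] [Group M] {φ : M →* MulAut S}
  [RS X (S ⋊[φ] M)] [DG M] [DG (S ⋊[φ] M)]

private theorem conj_inl (g : S ⋊[φ] M) (x : S) :
    g * SemidirectProduct.inl x * g⁻¹ =
      SemidirectProduct.inl (g.left * φ g.right x * g.left⁻¹) := by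
  have h1 : (SemidirectProduct.inl (φ g.right x) : S ⋊[φ] M) =
      SemidirectProduct.inr g.right * SemidirectProduct.inl x *
        (SemidirectProduct.inr g.right)⁻¹ := by
    rw [SemidirectProduct.inl_aut, map_inv]
  have h2 : SemidirectProduct.inl g.left * SemidirectProduct.inr g.right = g :=
    SemidirectProduct.inl_left_mul_inr_right g
  rw [map_mul, map_mul, h1, map_inv]
  calc g * SemidirectProduct.inl x * g⁻¹ =
      (SemidirectProduct.inl g.left * SemidirectProduct.inr g.right) * SemidirectProduct.inl x *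
        (SemidirectProduct.inl g.left * SemidirectProduct.inr g.right)⁻¹ := by rw [h2]
    _ = _ := by rw [mul_inv_rev]; simp only [mul_assoc]

section

variable [DG S]

/-- `inr m * inl x * (inr m)⁻¹ = inl (φ m x)`. -/
theorem semi_φ (hl : DefMap (SemidirectProduct.inl : S →* S ⋊[φ] M))
    (hr : DefMap (SemidirectProduct.inr : M →* S ⋊[φ] M)) :
    DefMap (fun p : M × S => φ p.1 p.2) := by
  have h1 : {q : (M × S) × S | φ q.1.1 q.1.2 = q.2} =
      {q : (M × S) × S | (SemidirectProduct.inr q.1.1 : S ⋊[φ] M) * SemidirectProduct.inl q.1.2 *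
        (SemidirectProduct.inr q.1.1)⁻¹ = SemidirectProduct.inl q.2} := by
    ext q
    change φ q.1.1 q.1.2 = q.2 ↔ (SemidirectProduct.inr q.1.1 : S ⋊[φ] M) *
      SemidirectProduct.inl q.1.2 * (SemidirectProduct.inr q.1.1)⁻¹ = SemidirectProduct.inl q.2
    rw [← map_inv, ← SemidirectProduct.inl_aut]
    exact (SemidirectProduct.inl_inj).symm
  have h2 : DefMap (fun q : (M × S) × S => (SemidirectProduct.inr q.1.1 : S ⋊[φ] M)) :=
    DefMap.comp hr (f := fun q : (M × S) × S => q.1.1) (by fun_prop)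
  have h3 : DefMap (fun q : (M × S) × S => (SemidirectProduct.inl q.1.2 : S ⋊[φ] M)) :=
    DefMap.comp hl (f := fun q : (M × S) × S => q.1.2) (by fun_prop)
  have h4 : DefMap (fun q : (M × S) × S => (SemidirectProduct.inl q.2 : S ⋊[φ] M)) :=
    DefMap.comp hl (f := fun q : (M × S) × S => q.2) (by fun_prop)
  change Df {q : (M × S) × S | φ q.1.1 q.1.2 = q.2}
  rw [h1]
  exact Df.eq ((h2.mul h3).mul h2.inv) h4

/-- The set-up `Act`: `act g = MulAut.conj g.left * φ g.right` (`SemidirectProduct.lift`), `ι = inl`;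
`g * inl x * g⁻¹ = inl (act g x)`. -/
theorem exists_act (hl : DefMap (SemidirectProduct.inl : S →* S ⋊[φ] M))
    (hr : DefMap (SemidirectProduct.inr : M →* S ⋊[φ] M)) :
    ∃ 𝒜 : Act (S ⋊[φ] M) S, ∀ (g : S ⋊[φ] M) (x : S),
      𝒜.act g x = g.left * φ g.right x * g.left⁻¹ := by
  let act : S ⋊[φ] M →* MulAut S := SemidirectProduct.lift MulAut.conj φ (fun m => by
    ext s x
    simp [MulAut.conj_apply, MulAut.mul_apply])
  have hact : ∀ (g : S ⋊[φ] M) (x : S), act g x = g.left * φ g.right x * g.left⁻¹ := fun g x => rfl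
  refine ⟨⟨act, SemidirectProduct.inl, ?_, hl, ?_, ?_⟩, hact⟩
  · have h1 : {q : ((S ⋊[φ] M) × S) × S | act q.1.1 q.1.2 = q.2} =
        {q : ((S ⋊[φ] M) × S) × S | q.1.1 * (SemidirectProduct.inl q.1.2 : S ⋊[φ] M) *
          (q.1.1)⁻¹ = SemidirectProduct.inl q.2} := by
      ext q
      change act q.1.1 q.1.2 = q.2 ↔ q.1.1 * (SemidirectProduct.inl q.1.2 : S ⋊[φ] M) *
          (q.1.1)⁻¹ = SemidirectProduct.inl q.2
      rw [conj_inl, hact]
      exact (SemidirectProduct.inl_inj).symm
    have h2 : DefMap (fun q : ((S ⋊[φ] M) × S) × S => q.1.1) := by fun_prop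
    have h3 : DefMap (fun q : ((S ⋊[φ] M) × S) × S => (SemidirectProduct.inl q.1.2 : S ⋊[φ] M)) :=
      DefMap.comp hl (f := fun q : ((S ⋊[φ] M) × S) × S => q.1.2) (by fun_prop)
    have h4 : DefMap (fun q : ((S ⋊[φ] M) × S) × S => (SemidirectProduct.inl q.2 : S ⋊[φ] M)) :=
      DefMap.comp hl (f := fun q : ((S ⋊[φ] M) × S) × S => q.2) (by fun_prop)
    change Df {q : ((S ⋊[φ] M) × S) × S | act q.1.1 q.1.2 = q.2}
    rw [h1]
    exact Df.eq ((h2.mul h3).mul h2.inv) h4
  · intro s x
    rw [hact, SemidirectProduct.left_inl, SemidirectProduct.right_inl, map_one, MulAut.one_apply]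
  · intro g s
    rw [conj_inl, hact]

private theorem map_mk (hl : DefMap (SemidirectProduct.inl : S →* S ⋊[φ] M))
    (hr : DefMap (SemidirectProduct.inr : M →* S ⋊[φ] M)) :
    DefMap (fun p : S × M => (SemidirectProduct.inl p.1 : S ⋊[φ] M) * SemidirectProduct.inr p.2) :=
  (DefMap.comp hl (f := fun p : S × M => p.1) (by fun_prop)).mul
    (DefMap.comp hr (f := fun p : S × M => p.2) (by fun_prop))

/-- `S × M → S ⋊ M`, `(s, m) ↦ inl s * inr m` is a definable bijection; `rk_prod`. -/
theorem rk_semi (hl : DefMap (SemidirectProduct.inl : S →* S ⋊[φ] M))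
    (hr : DefMap (SemidirectProduct.inr : M →* S ⋊[φ] M)) :
    rk (Set.univ : Set (S ⋊[φ] M)) = rk (Set.univ : Set S) + rk (Set.univ : Set M) := by
  rw [← rk_prod Df.univ Df.univ Set.univ_nonempty Set.univ_nonempty]
  have h1 := rk_image_inj (A := (Set.univ : Set S) ×ˢ (Set.univ : Set M))
    (Df.prod Df.univ Df.univ) (map_mk hl hr) (by
      rintro ⟨s, m⟩ _ ⟨s', m'⟩ _ h
      change (SemidirectProduct.inl s : S ⋊[φ] M) * SemidirectProduct.inr m =
        SemidirectProduct.inl s' * SemidirectProduct.inr m' at h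
      rw [← SemidirectProduct.mk_eq_inl_mul_inr, ← SemidirectProduct.mk_eq_inl_mul_inr] at h
      exact Prod.ext (congrArg SemidirectProduct.left h) (congrArg SemidirectProduct.right h))
  rw [← h1]
  congr 1
  symm
  rw [Set.eq_univ_iff_forall]
  intro g
  exact ⟨(g.left, g.right), ⟨Set.mem_univ _, Set.mem_univ _⟩,
    SemidirectProduct.inl_left_mul_inr_right g⟩

/-- A definable subgroup `K` of finite index contains `inl(S)` and `inr(M)` (its preimages in `S`
and `M` are definable of finite index), so `K = ⊤`. -/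
theorem conn_semi (hl : DefMap (SemidirectProduct.inl : S →* S ⋊[φ] M))
    (hr : DefMap (SemidirectProduct.inr : M →* S ⋊[φ] M)) (hS : Conn (⊤ : Subgroup S))
    (hM : Conn (⊤ : Subgroup M)) : Conn (⊤ : Subgroup (S ⋊[φ] M)) := by
  refine ⟨Df.top, fun K _ hK hind => ?_⟩
  have h1 : K.comap (SemidirectProduct.inl : S →* S ⋊[φ] M) = ⊤ := by
    refine hS.2 _ le_top (Df.comap_hom hK hl) ?_
    have := Subgroup.relIndex_comap_ne_zero (SemidirectProduct.inl : S →* S ⋊[φ] M) hind
    rwa [Subgroup.comap_top] at this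
  have h2 : K.comap (SemidirectProduct.inr : M →* S ⋊[φ] M) = ⊤ := by
    refine hM.2 _ le_top (Df.comap_hom hK hr) ?_
    have := Subgroup.relIndex_comap_ne_zero (SemidirectProduct.inr : M →* S ⋊[φ] M) hind
    rwa [Subgroup.comap_top] at this
  rw [eq_top_iff]
  intro g _
  rw [← SemidirectProduct.inl_left_mul_inr_right g]
  have h3 : g.left ∈ K.comap (SemidirectProduct.inl : S →* S ⋊[φ] M) := h1 ▸ Subgroup.mem_top _
  have h4 : g.right ∈ K.comap (SemidirectProduct.inr : M →* S ⋊[φ] M) := h2 ▸ Subgroup.mem_top _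
  exact K.mul_mem h3 h4

end

/-- `C = {(s, m) | φ m x = s⁻¹ x s}`; the projection `C → {m | φ m inner}` is a definable bijection (the
centre of `S` is trivial): `rk_image_inj`. -/
theorem rk_C_semi [Bad S] (hl : DefMap (SemidirectProduct.inl : S →* S ⋊[φ] M))
    (hr : DefMap (SemidirectProduct.inr : M →* S ⋊[φ] M)) (𝒜 : Act (S ⋊[φ] M) S)
    (h𝒜 : ∀ (g : S ⋊[φ] M) (x : S), 𝒜.act g x = g.left * φ g.right x * g.left⁻¹) :
    Df {m : M | ∃ s : S, ∀ x, φ m x = s * x * s⁻¹} ∧
      rk (𝒜.C : Set (S ⋊[φ] M)) = rk {m : M | ∃ s : S, ∀ x, φ m x = s * x * s⁻¹} := by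
  have hφ := semi_φ hl hr
  have hC : Df (𝒜.C : Set (S ⋊[φ] M)) := by
    have h1 : (𝒜.C : Set (S ⋊[φ] M)) = {g | ∀ x, 𝒜.act g x = x} := by
      ext g
      change 𝒜.act g = 1 ↔ ∀ x, 𝒜.act g x = x
      rw [DFunLike.ext_iff]
      rfl
    rw [h1]
    exact Df.all (P := fun g x => 𝒜.act g x = x) (Df.eq 𝒜.d_act (by fun_prop))
  have hmem : ∀ g : S ⋊[φ] M, g ∈ 𝒜.C ↔ ∀ x, g.left * φ g.right x * g.left⁻¹ = x := by
    intro g
    change 𝒜.act g = 1 ↔ _
    rw [DFunLike.ext_iff]
    exact forall_congr' fun x => by rw [h𝒜]; rfl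
  have hpr : DefMap (fun g : S ⋊[φ] M => g.right) := by
    have h1 : {q : (S ⋊[φ] M) × M | q.1.right = q.2} =
        {q : (S ⋊[φ] M) × M | ∃ s : S, q.1 = SemidirectProduct.inl s *
          SemidirectProduct.inr q.2} := by
      ext q
      constructor
      · intro h
        refine ⟨q.1.left, ?_⟩
        have h' : q.1.right = q.2 := h
        rw [← h']
        exact (SemidirectProduct.inl_left_mul_inr_right q.1).symm
      · rintro ⟨s, h⟩
        change q.1.right = q.2
        rw [h]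
        simp
    change Df {q : (S ⋊[φ] M) × M | q.1.right = q.2}
    rw [h1]
    refine Df.ex (P := fun (q : (S ⋊[φ] M) × M) (s : S) => q.1 = SemidirectProduct.inl s *
          SemidirectProduct.inr q.2) (Df.eq (by fun_prop) ?_)
    exact (DefMap.comp hl (f := fun p : ((S ⋊[φ] M) × M) × S => p.2) (by fun_prop)).mul
      (DefMap.comp hr (f := fun p : ((S ⋊[φ] M) × M) × S => p.1.2) (by fun_prop))
  refine ⟨?_, ?_⟩
  · refine Df.ex (P := fun (m : M) (s : S) => ∀ x, φ m x = s * x * s⁻¹)
      (Df.all (P := fun (p : M × S) (x : S) => φ p.1 x = p.2 * x * p.2⁻¹) (Df.eq ?_ (by fun_prop)))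
    exact DefMap.comp hφ (f := fun p : (M × S) × S => (p.1.1, p.2)) (by fun_prop)
  · rw [← rk_image_inj hC hpr]
    · congr 1
      ext m
      constructor
      · rintro ⟨g, hg, rfl⟩
        refine ⟨g.left⁻¹, fun x => ?_⟩
        have h1 := (hmem g).1 hg x
        rw [inv_inv]
        calc φ g.right x = g.left⁻¹ * (g.left * φ g.right x * g.left⁻¹) * g.left := by group
          _ = g.left⁻¹ * x * g.left := by rw [h1]
      · rintro ⟨s, hs⟩
        refine ⟨⟨s⁻¹, m⟩, (hmem _).2 fun x => ?_, rfl⟩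
        change s⁻¹ * φ m x * (s⁻¹)⁻¹ = x
        rw [hs]
        group
    · intro g hg g' hg' h
      have hr' : g.right = g'.right := h
      have h1 := (hmem g).1 hg
      have h2 := (hmem g').1 hg'
      have h3 : g'.left⁻¹ * g.left = 1 := by
        refine eq_one_of_central fun y => ?_
        obtain ⟨x, rfl⟩ : ∃ x, φ g.right x = y := ⟨(φ g.right).symm y, (φ g.right).apply_symm_apply y⟩
        have h4 : g.left * φ g.right x * g.left⁻¹ = g'.left * φ g.right x * g'.left⁻¹ := by
          rw [h1, hr', h2]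
        calc g'.left⁻¹ * g.left * φ g.right x =
            g'.left⁻¹ * (g.left * φ g.right x * g.left⁻¹) * g.left := by group
          _ = φ g.right x * (g'.left⁻¹ * g.left) := by rw [h4]; group
      refine SemidirectProduct.ext ?_ hr'
      have h5 : g'.left * (g'.left⁻¹ * g.left) = g'.left * 1 := by rw [h3]
      rw [mul_inv_cancel_left, mul_one] at h5
      exact h5

end Pool.Agent.BadG
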