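import Pool.Agent.BadG.OfLang
import Pool.Agent.BadG.Semi
import Pool.Agent.BadG.NoMax
import Pool.Agent.BadG.Outer
import Pool.Agent.BadG.Inner
import Pool.Agent.BadG.NoSolv
import Pool.Agent.BadG.Big

set_option autoImplicit false

/-! BG37. The final theorem over Mathlib's definable sets. -/

namespace Pool.Agent.BadG

open Function

universe u v

/-- **Main theorem.** Let `S ⋊ M` be a group with a rank function (Borovik-Poizat axioms A, B, C; for example a
group of finite Morley rank), in which `S` and `M` are definable, `S` a bad group, `M` connected.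
(A) Every automorphism `α ≠ 1` of `S` with a definable graph normalizes exactly one Borel subgroup
of `S`.
(C) The outer rank `k = rk M - rk {m | φ m inner}` satisfies `k ≤ rk S - 2 b - 1`, `b ≥ 1` the rank of the Borel subgroups.
(D) If `b = 1` then `k ≤ rk S - 4`.
(B) If the action is faithful and irreducible then `M` has no solvable normal subgroup `≠ 1`.
(F) If the action is faithful and irreducible and `rk S ≤ 5`, or `rk S ≤ 2 b + 3`, or `b = 1` and `rk S ≤ 6`,
then the image of `M` contains `Inn(S)`.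
(E) If the action is faithful and irreducible and `rk S = 4` or `rk S ≤ 2 b + 1`, then the image of `M` in
`Aut(S)` is `Inn(S)`. -/
theorem main (L : FirstOrder.Language.{u, v}) (S M : Type) [Group S] [Group M] (φ : M →* MulAut S)
    [L.Structure (S ⋊[φ] M)] (ℛ : RankFn L (S ⋊[φ] M))
    (hmul : DFn L {v : Fin 3 → S ⋊[φ] M | v 0 * v 1 = v 2})
    (hS : DIn L (SemidirectProduct.inl : S → S ⋊[φ] M) Set.univ)
    (hM : DIn L (SemidirectProduct.inr : M → S ⋊[φ] M) Set.univ)
    (hbad : BadIn L S (SemidirectProduct.inl : S → S ⋊[φ] M))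
    (hMc : ConnIn L (SemidirectProduct.inr : M → S ⋊[φ] M) (⊤ : Subgroup M)) :
    (∀ α : MulAut S, α ≠ 1 →
      DFn L {v : Fin 2 → S ⋊[φ] M | ∃ s : S, v 0 = SemidirectProduct.inl s ∧
        v 1 = SemidirectProduct.inl (α s)} →
      ∃! B : Subgroup S, BorelIn L (SemidirectProduct.inl : S → S ⋊[φ] M) B ∧
        ∀ x, α x ∈ B ↔ x ∈ B) ∧
    (∀ B : Subgroup S, BorelIn L (SemidirectProduct.inl : S → S ⋊[φ] M) B →
      1 ≤ ℛ.rkIn (SemidirectProduct.inl : S → S ⋊[φ] M) (B : Set S) ∧
      OuterRankLe ℛ (ℛ.rkIn (SemidirectProduct.inl : S → S ⋊[φ] M) Set.univ -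
        2 * ℛ.rkIn (SemidirectProduct.inl : S → S ⋊[φ] M) (B : Set S) - 1) ∧
      (ℛ.rkIn (SemidirectProduct.inl : S → S ⋊[φ] M) (B : Set S) = 1 →
        OuterRankLe ℛ (ℛ.rkIn (SemidirectProduct.inl : S → S ⋊[φ] M) Set.univ - 4))) ∧
    (Injective φ →
      (∀ H : Subgroup S, ConnIn L (SemidirectProduct.inl : S → S ⋊[φ] M) H →
        (∀ m x, φ m x ∈ H ↔ x ∈ H) → H = ⊥ ∨ H = ⊤) →
      (∀ N : Subgroup M, N.Normal → Group.IsSolvable N → N = ⊥) ∧
      ((ℛ.rkIn (SemidirectProduct.inl : S → S ⋊[φ] M) Set.univ ≤ 5 ∨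
        ∃ B : Subgroup S, BorelIn L (SemidirectProduct.inl : S → S ⋊[φ] M) B ∧
          (ℛ.rkIn (SemidirectProduct.inl : S → S ⋊[φ] M) Set.univ ≤
            2 * ℛ.rkIn (SemidirectProduct.inl : S → S ⋊[φ] M) (B : Set S) + 3 ∨
          (ℛ.rkIn (SemidirectProduct.inl : S → S ⋊[φ] M) (B : Set S) = 1 ∧
            ℛ.rkIn (SemidirectProduct.inl : S → S ⋊[φ] M) Set.univ ≤ 6))) →
        (MulAut.conj : S →* MulAut S).range ≤ φ.range) ∧
      ((ℛ.rkIn (SemidirectProduct.inl : S → S ⋊[φ] M) Set.univ = 4 ∨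
        ∃ B : Subgroup S, BorelIn L (SemidirectProduct.inl : S → S ⋊[φ] M) B ∧
          ℛ.rkIn (SemidirectProduct.inl : S → S ⋊[φ] M) Set.univ ≤
            2 * ℛ.rkIn (SemidirectProduct.inl : S → S ⋊[φ] M) (B : Set S) + 1) →
        φ.range = (MulAut.conj : S →* MulAut S).range)) := by
  classical
  let iRU : RU (S ⋊[φ] M) := toRU ℛ
  let iG : RS (S ⋊[φ] M) (S ⋊[φ] M) := selfSort _
  let iS : RS (S ⋊[φ] M) S :=
    injSort (SemidirectProduct.inl : S → S ⋊[φ] M) SemidirectProduct.inl_injective hS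
  let iM : RS (S ⋊[φ] M) M :=
    injSort (SemidirectProduct.inr : M → S ⋊[φ] M) SemidirectProduct.inr_injective hM
  have dG : DG (S ⋊[φ] M) := dg_selfSort hmul
  have dS : DG S := dg_injSort hmul SemidirectProduct.inl SemidirectProduct.inl_injective hS
  have dM : DG M := dg_injSort hmul SemidirectProduct.inr SemidirectProduct.inr_injective hM
  have hl : DefMap (SemidirectProduct.inl : S →* S ⋊[φ] M) :=
    defMap_injSort _ SemidirectProduct.inl_injective hS
  have hr : DefMap (SemidirectProduct.inr : M →* S ⋊[φ] M) :=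
    defMap_injSort _ SemidirectProduct.inr_injective hM
  -- the translation of the notions
  have hDf : ∀ A : Set S, Df A ↔ DIn L (SemidirectProduct.inl : S → S ⋊[φ] M) A := fun A =>
    Df_injSort _ SemidirectProduct.inl_injective hS A
  have hDfM : ∀ A : Set M, Df A ↔ DIn L (SemidirectProduct.inr : M → S ⋊[φ] M) A := fun A =>
    Df_injSort _ SemidirectProduct.inr_injective hM A
  have hrk : ∀ A : Set S, rk A = ℛ.rkIn (SemidirectProduct.inl : S → S ⋊[φ] M) A := fun A =>
    rk_injSort _ SemidirectProduct.inl_injective hS A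
  have hrkM : ∀ A : Set M, rk A = ℛ.rkIn (SemidirectProduct.inr : M → S ⋊[φ] M) A := fun A =>
    rk_injSort _ SemidirectProduct.inr_injective hM A
  have hConn : ∀ H : Subgroup S,
      Conn H ↔ ConnIn L (SemidirectProduct.inl : S → S ⋊[φ] M) H := by
    intro H
    unfold Conn ConnIn
    simp only [hDf]
  have hConnM : ∀ H : Subgroup M,
      Conn H ↔ ConnIn L (SemidirectProduct.inr : M → S ⋊[φ] M) H := by
    intro H
    unfold Conn ConnIn
    simp only [hDfM]
  have hBorel : ∀ B : Subgroup S,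
      Borel B ↔ BorelIn L (SemidirectProduct.inl : S → S ⋊[φ] M) B := by
    intro B
    unfold Borel BorelIn
    simp only [hConn]
  have hBad : Bad S :=
    { dS with
      simple := hbad.simple
      inf := hbad.inf
      nil := fun H h1 h2 => hbad.nil H ((hDf _).1 h1) h2 }
  have hMc' : Conn (⊤ : Subgroup M) := (hConnM _).2 hMc
  have hΓ : Conn (⊤ : Subgroup (S ⋊[φ] M)) := conn_semi hl hr conn_top hMc'
  obtain ⟨𝒜, h𝒜⟩ := exists_act hl hr
  obtain ⟨-, hC⟩ := rk_C_semi hl hr 𝒜 h𝒜
  have hG := rk_semi hl hr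
  have hset : {m : M | ∃ s : S, ∀ x, φ m x = s * x * s⁻¹} =
      {m : M | ∃ s : S, φ m = MulAut.conj s} := by
    ext m
    constructor
    · rintro ⟨s, hs⟩
      exact ⟨s, MulEquiv.ext hs⟩
    · rintro ⟨s, hs⟩
      exact ⟨s, fun x => by rw [hs, MulAut.conj_apply]⟩
  rw [hset] at hC
  -- the bounds
  have bC : ∀ B : Subgroup S, Borel B → rk (Set.univ : Set M) + 2 * rk (B : Set S) + 1 ≤
      rk (Set.univ : Set S) + rk {m : M | ∃ s : S, φ m = MulAut.conj s} := by
    intro B hB
    have := outer_bound 𝒜 hΓ hB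
    omega
  have bD : ∀ B : Subgroup S, Borel B → rk (B : Set S) = 1 → rk (Set.univ : Set M) + 4 ≤
      rk (Set.univ : Set S) + rk {m : M | ∃ s : S, φ m = MulAut.conj s} := by
    intro B hB h1
    have := outer_bound_one 𝒜 hΓ fun B' hB' => by rw [rk_borel_eq hB' hB, h1]
    omega
  refine ⟨?_, ?_, ?_⟩
  · intro α hα hd
    have hα' : DefMap α := (defMap_inj_inj _ SemidirectProduct.inl_injective hS _
      SemidirectProduct.inl_injective hS α).2 hd
    obtain ⟨B, hB, hf⟩ := aut_exists hα'
    refine ⟨B, ⟨(hBorel B).1 hB, hf⟩, ?_⟩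
    rintro B' ⟨hB', hf'⟩
    exact aut_unique hα' hα ((hBorel B').2 hB') hB hf' hf
  · intro B hB
    have hB' := (hBorel B).2 hB
    refine ⟨?_, ?_, ?_⟩
    · rw [← hrk]
      exact hB'.rk_pos
    · have := bC B hB'
      unfold OuterRankLe
      rw [← hrk, ← hrk, ← hrkM, ← hrkM]
      omega
    · intro h1
      rw [← hrk] at h1
      have := bD B hB' h1
      unfold OuterRankLe
      rw [← hrk, ← hrkM, ← hrkM]
      omega
  · intro hinj hirr
    have hφ : DefMap (fun p : M × S => φ p.1 p.2) := semi_φ hl hr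
    have hφm : ∀ m, DefMap (φ m) := fun m =>
      hφ.comp (f := fun x : S => ((m, x) : M × S)) (by fun_prop)
    have hirr' : ∀ H : Subgroup S, Conn H → (∀ m x, φ m x ∈ H ↔ x ∈ H) → H = ⊥ ∨ H = ⊤ :=
      fun H h1 h2 => hirr H ((hConn H).1 h1) h2
    refine ⟨fun N hN hs => no_solvable φ hφm hinj hirr' N hN hs, ?_, ?_⟩
    · intro hcase
      rcases inner_cases φ hφ hMc' hinj hirr' with h | h
      · exact h
      · exfalso
        have h3 := three_le_rk φ hφ hMc' hinj hirr'
        rw [h, rk_of_finite (Set.finite_singleton 1)] at bC bD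
        rcases hcase with h5 | ⟨B, hB, h5 | ⟨h1, h6⟩⟩
        · rw [← hrk] at h5
          obtain ⟨B, hB⟩ := exists_borel (S := S)
          have h1 := hB.rk_pos
          have h2 := bC B hB
          omega
        · rw [← hrk, ← hrk] at h5
          have h2 := bC B ((hBorel B).2 hB)
          omega
        · rw [← hrk] at h1 h6
          have h2 := bD B ((hBorel B).2 hB) h1
          omega
    intro hcase
    have hbound : rk (Set.univ : Set M) ≤ rk {m : M | ∃ s : S, φ m = MulAut.conj s} := by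
      rcases hcase with h4 | ⟨B, hB, h⟩
      · rw [← hrk] at h4
        obtain ⟨B, hB⟩ := exists_borel (S := S)
        have h1 := hB.rk_pos
        have h2 := bC B hB
        rcases Nat.lt_or_ge 1 (rk (B : Set S)) with h3 | h3
        · omega
        · have := bD B hB (by omega)
          omega
      · rw [← hrk, ← hrk] at h
        have := bC B ((hBorel B).2 hB)
        omega
    have hin := inner_of_bound 𝒜 hΓ (by omega)
    refine range_eq φ hφ hMc' hinj hirr' fun m => ?_
    obtain ⟨s, hs⟩ := hin (SemidirectProduct.inr m)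
    refine ⟨s, fun x => ?_⟩
    rw [← hs x, h𝒜]
    simp

end Pool.Agent.BadG
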