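import Pool.Agent.BadG.RkFib

set_option autoImplicit false
set_option linter.unusedSectionVars false

/-! BG08. Definable groups: translations, definable subgroups, homomorphisms. All the definability
proofs are of the form `Df.ex (Df.and (Df.mem hA (by fun_prop)) (Df.eq (by fun_prop) (by fun_prop)))`. -/

namespace Pool.Agent.BadG

open Function

variable {X : Type} [RU X] {E F : Type} [RS X E] [RS X F] [Group E] [DG E] [Group F] [DG F]

theorem rk_mul_left (g : E) {A : Set E} (hA : Df A) : rk ((fun x => g * x) '' A) = rk A := by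
  have hf : DefMap (fun x : E => g * x) := by fun_prop
  exact rk_image_inj hA hf (fun x _ y _ h => mul_left_cancel h)

theorem rk_mul_right (g : E) {A : Set E} (hA : Df A) : rk ((fun x => x * g) '' A) = rk A := by
  have hf : DefMap (fun x : E => x * g) := by fun_prop
  exact rk_image_inj hA hf (fun x _ y _ h => mul_right_cancel h)

theorem rk_inv {A : Set E} (hA : Df A) : rk ((fun x => x⁻¹) '' A) = rk A := by
  have hf : DefMap (fun x : E => x⁻¹) := by fun_prop
  exact rk_image_inj hA hf (fun x _ y _ h => inv_injective h)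

theorem Df.bot : Df ((⊥ : Subgroup E) : Set E) := by
  rw [Subgroup.coe_bot]
  exact Df.singleton 1

theorem Df.top : Df ((⊤ : Subgroup E) : Set E) := by
  rw [Subgroup.coe_top]
  exact Df.univ

theorem Df.inf {H K : Subgroup E} (hH : Df (H : Set E)) (hK : Df (K : Set E)) :
    Df ((H ⊓ K : Subgroup E) : Set E) := by
  rw [Subgroup.coe_inf]
  exact Df.inter hH hK

theorem Df.centralizer {A : Set E} (hA : Df A) : Df (Subgroup.centralizer A : Set E) := by
  have h1 : (Subgroup.centralizer A : Set E) = {g | ∀ h ∈ A, h * g = g * h} := by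
    ext g
    exact Subgroup.mem_centralizer_iff
  rw [h1]
  exact Df.allin (P := fun g h => h * g = g * h) hA (Df.eq (by fun_prop) (by fun_prop))

theorem Df.normalizer {H : Subgroup E} (hH : Df (H : Set E)) :
    Df (Subgroup.normalizer (H : Set E) : Set E) := by
  have h1 : (Subgroup.normalizer (H : Set E) : Set E) =
      {g | ∀ h, h ∈ (H : Set E) ↔ g * h * g⁻¹ ∈ (H : Set E)} := by
    ext g
    exact Subgroup.mem_normalizer_iff
  rw [h1]
  exact Df.all (P := fun g h => (h ∈ (H : Set E) ↔ g * h * g⁻¹ ∈ (H : Set E)))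
    (Df.iff (Df.mem hH (by fun_prop)) (Df.mem hH (by fun_prop)))

theorem Df.map_hom {H : Subgroup E} (hH : Df (H : Set E)) {f : E →* F} (hf : DefMap f) :
    Df ((H.map f : Subgroup F) : Set F) := by
  rw [Subgroup.coe_map]
  exact Df.im hf hH

theorem Df.comap_hom {H : Subgroup F} (hH : Df (H : Set F)) {f : E →* F} (hf : DefMap f) :
    Df ((H.comap f : Subgroup E) : Set E) := by
  rw [Subgroup.coe_comap]
  exact Df.pre hf hH

theorem DefMap.aut_inv {α : MulAut E} (hα : DefMap α) : DefMap (α⁻¹ : MulAut E) :=
  DefMap.symm hα (fun x => MulAut.inv_apply_self E α x) (fun y => MulAut.apply_inv_self E α y)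

theorem DefMap.aut_mul {α β : MulAut E} (hα : DefMap α) (hβ : DefMap β) :
    DefMap (α * β : MulAut E) := by
  have h1 : ((α * β : MulAut E) : E → E) = fun x => α (β x) := by
    funext x
    exact MulAut.mul_apply E α β x
  rw [h1]
  exact DefMap.comp hα hβ

theorem DefMap.aut_conj (g : E) : DefMap (MulAut.conj g : MulAut E) := by
  have h1 : ((MulAut.conj g : MulAut E) : E → E) = fun x => g * x * g⁻¹ := by
    funext x
    exact MulAut.conj_apply g x
  rw [h1]
  fun_prop

end Pool.Agent.BadG
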