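import Pool.Agent.BadG.Grp

set_option autoImplicit false

/-! BG09. Index and rank, the descending chain condition. -/

namespace Pool.Agent.BadG

open Function

variable {X : Type} [RU X] {E F : Type} [RS X E] [RS X F] [Group E] [DG E] [Group F] [DG F]

private theorem df_coset (g : E) {A : Set E} (hA : Df A) : Df ((fun x => g * x) '' A) :=
  Df.im (f := fun x => g * x) (by fun_prop) hA

/-- `K` is a finite union of cosets of `H`, which have the rank of `H` (`rk_mul_left`,
`rk_biUnion_le`). -/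
theorem rk_eq_of_relIndex {H K : Subgroup E} (hH : Df (H : Set E)) (hK : Df (K : Set E))
    (hle : H ≤ K) (h : H.relIndex K ≠ 0) : rk (H : Set E) = rk (K : Set E) := by
  refine le_antisymm (rk_mono hH hK hle) ?_
  have hfin : Finite (↥K ⧸ H.subgroupOf K) := by
    have : (H.subgroupOf K).FiniteIndex := ⟨h⟩
    infer_instance
  have := Fintype.ofFinite (↥K ⧸ H.subgroupOf K)
  have hu : (K : Set E) = ⋃ q ∈ (Finset.univ : Finset (↥K ⧸ H.subgroupOf K)),
      (fun x => ((Quotient.out q : ↥K) : E) * x) '' (H : Set E) := by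
    ext x
    simp only [Finset.mem_univ, Set.iUnion_true, Set.mem_iUnion, Set.mem_image, SetLike.mem_coe]
    constructor
    · intro hx
      refine ⟨((⟨x, hx⟩ : ↥K) : ↥K ⧸ H.subgroupOf K), _, ?_,
        mul_inv_cancel_left ((Quotient.out ((⟨x, hx⟩ : ↥K) : ↥K ⧸ H.subgroupOf K) : ↥K) : E) x⟩
      have h1 : (((Quotient.out ((⟨x, hx⟩ : ↥K) : ↥K ⧸ H.subgroupOf K) : ↥K)) :
          ↥K ⧸ H.subgroupOf K) = ((⟨x, hx⟩ : ↥K) : ↥K ⧸ H.subgroupOf K) :=
        Quotient.out_eq' _
      rw [QuotientGroup.eq, Subgroup.mem_subgroupOf] at h1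
      exact h1
    · rintro ⟨q, y, hy, rfl⟩
      exact mul_mem (Quotient.out q : ↥K).2 (hle hy)
  rw [hu]
  refine rk_biUnion_le _ (fun q _ => df_coset _ hH) _ fun q _ => ?_
  rw [rk_mul_left _ hH]

/-- Infinitely many disjoint cosets of `H` in `K`: `rk_succ_iff` with `n = rk H`. -/
theorem rk_lt_of_relIndex {H K : Subgroup E} (hH : Df (H : Set E)) (hK : Df (K : Set E))
    (hle : H ≤ K) (h : H.relIndex K = 0) : rk (H : Set E) < rk (K : Set E) := by
  have hinf : Infinite (↥K ⧸ H.subgroupOf K) := Subgroup.index_eq_zero_iff_infinite.1 h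
  let e := Infinite.natEmbedding (↥K ⧸ H.subgroupOf K)
  refine (rk_succ_iff hK ⟨1, K.one_mem⟩ _).2
    ⟨fun i => (fun x => ((Quotient.out (e i) : ↥K) : E) * x) '' (H : Set E), ?_, fun i =>
      ⟨df_coset _ hH, ⟨_, 1, H.one_mem, rfl⟩, ?_, (rk_mul_left _ hH).ge⟩⟩
  · intro i j hij
    refine Set.disjoint_left.2 ?_
    rintro x ⟨y, hy, rfl⟩ ⟨z, hz, hyz⟩
    apply hij
    apply e.injective
    have hyz' : ((Quotient.out (e j) : ↥K) : E) * z = ((Quotient.out (e i) : ↥K) : E) * y := hyz
    have h1 : ((Quotient.out (e i) : ↥K) : ↥K ⧸ H.subgroupOf K) =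
        ((Quotient.out (e j) : ↥K) : ↥K ⧸ H.subgroupOf K) := by
      rw [QuotientGroup.eq, Subgroup.mem_subgroupOf]
      have h2 : (((Quotient.out (e i) : ↥K)⁻¹ * (Quotient.out (e j) : ↥K) : ↥K) : E) =
          y * z⁻¹ := by
        rw [Subgroup.coe_mul, Subgroup.coe_inv, eq_mul_inv_iff_mul_eq, mul_assoc, hyz',
          inv_mul_cancel_left]
      rw [h2]
      exact H.mul_mem hy (H.inv_mem hz)
    rw [QuotientGroup.out_eq', QuotientGroup.out_eq'] at h1
    exact h1
  · rintro x ⟨y, hy, rfl⟩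
    exact K.mul_mem (Quotient.out (e i) : ↥K).2 (hle hy)

theorem relIndex_ne_zero_of_rk {H K : Subgroup E} (hH : Df (H : Set E)) (hK : Df (K : Set E))
    (hle : H ≤ K) (h : rk (K : Set E) ≤ rk (H : Set E)) : H.relIndex K ≠ 0 := fun h0 =>
  absurd (rk_lt_of_relIndex hH hK hle h0) (not_lt.2 h)

/-- **The descending chain condition** for definable subgroups. Let `r` be the minimal rank of a
subgroup with the property `P` and suppose there is no minimal one. Then there are
`H 0 > H 1 > H 2 > ...` (strictly) with `P` and of rank `r` (all ranks are `≤ r`, hence `= r`). The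
sets `H i \ H (i + 1)` are pairwise disjoint, definable and contain a coset of `H (i + 1)`, so they
have rank `r`: `rk_succ_iff` gives `r + 1 ≤ rk (H 0) = r`. -/
theorem exists_minimal_subgroup (P : Subgroup E → Prop) (hP : ∀ H, P H → Df (H : Set E))
    (h : ∃ H, P H) : ∃ H, P H ∧ ∀ K, P K → K ≤ H → K = H := by
  classical
  by_contra hcon
  push Not at hcon
  -- a subgroup of minimal rank
  have hS : ∃ n, ∃ H, P H ∧ rk (H : Set E) = n := by
    obtain ⟨H, hH⟩ := h
    exact ⟨_, H, hH, rfl⟩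
  obtain ⟨H0, hH0, hr0⟩ := Nat.find_spec hS
  have hmin : ∀ H, P H → Nat.find hS ≤ rk (H : Set E) := fun H hH =>
    Nat.find_min' hS ⟨H, hH, rfl⟩
  choose! g hg1 hg2 hg3 using hcon
  let q : ℕ → Subgroup E := fun i => g^[i] H0
  have hq : ∀ i, q (i + 1) = g (q i) := fun i => iterate_succ_apply' g i H0
  have hPq : ∀ i, P (q i) := by
    intro i
    induction i with
    | zero => exact hH0
    | succ i ih =>
        rw [hq]
        exact hg1 _ ih
  have hlt : ∀ i, q (i + 1) < q i := by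
    intro i
    rw [hq]
    exact lt_of_le_of_ne (hg2 _ (hPq i)) (hg3 _ (hPq i))
  have hanti : Antitone q := antitone_nat_of_succ_le fun i => (hlt i).le
  have hrk : ∀ i, rk (q i : Set E) = Nat.find hS := by
    intro i
    refine le_antisymm ?_ (hmin _ (hPq i))
    rw [← hr0]
    exact rk_mono (hP _ (hPq i)) (hP _ hH0) (hanti (Nat.zero_le i))
  have hdf : ∀ i, Df ((q i : Set E) \ (q (i + 1) : Set E)) := fun i =>
    Df.diff (hP _ (hPq i)) (hP _ (hPq (i + 1)))
  have key : Nat.find hS + 1 ≤ rk (q 0 : Set E) := by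
    refine (rk_succ_iff (hP _ (hPq 0)) ⟨1, (q 0).one_mem⟩ _).2
      ⟨fun i => (q i : Set E) \ (q (i + 1) : Set E), ?_, fun i => ?_⟩
    · have hd : ∀ i j, i < j → Disjoint ((q i : Set E) \ (q (i + 1) : Set E))
          ((q j : Set E) \ (q (j + 1) : Set E)) := by
        intro i j hij
        refine Set.disjoint_left.2 fun x hx hx' => hx.2 ?_
        exact hanti (Nat.succ_le_of_lt hij) hx'.1
      intro i j hij
      rcases lt_or_gt_of_ne hij with h1 | h1
      · exact hd i j h1
      · exact (hd j i h1).symm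
    · obtain ⟨a, ha, ha'⟩ := SetLike.exists_of_lt (hlt i)
      refine ⟨hdf i, ⟨a, ha, ha'⟩, fun x hx => hanti (Nat.zero_le i) hx.1, ?_⟩
      rw [← hrk (i + 1), ← rk_mul_left a (hP _ (hPq (i + 1)))]
      refine rk_mono (df_coset a (hP _ (hPq (i + 1)))) (hdf i) ?_
      rintro x ⟨y, hy, rfl⟩
      refine ⟨(q i).mul_mem ha ((hlt i).le hy), fun h1 => ha' ?_⟩
      have h2 := (q (i + 1)).mul_mem h1 ((q (i + 1)).inv_mem hy)
      rwa [mul_inv_cancel_right] at h2
  rw [hrk 0] at key
  exact Nat.not_succ_le_self _ key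

end Pool.Agent.BadG
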