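import Pool.Agent.BadG.RkFib

set_option autoImplicit false

/-! BG06. Irreducible sets. -/

namespace Pool.Agent.BadG

open Function

variable {X : Type} [RU X] {E F H : Type} [RS X E] [RS X F] [RS X H]

/-- If `rk (B₁ ∩ B₂) < rk A` then `B₁ \ B₂` is nonempty of rank `rk A` (`rk_diff_eq`) and disjoint
from `B₂`. -/
theorem Irr.inter_rk {A : Set E} (h : Irr A) {B₁ B₂ : Set E} (h1 : Df B₁) (h2 : Df B₂)
    (s1 : B₁ ⊆ A) (s2 : B₂ ⊆ A) (n1 : B₁.Nonempty) (n2 : B₂.Nonempty) (r1 : rk B₁ = rk A)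
    (r2 : rk B₂ = rk A) : (B₁ ∩ B₂).Nonempty ∧ rk (B₁ ∩ B₂) = rk A := by
  refine ⟨h.2.2 B₁ B₂ h1 h2 s1 s2 n1 n2 r1 r2, ?_⟩
  by_contra hne
  have h3 : Df (B₁ ∩ B₂) := h1.inter h2
  have h4 : rk (B₁ ∩ B₂) ≤ rk A := rk_mono h3 h.1 (Set.inter_subset_left.trans s1)
  have h5 : rk (B₁ ∩ B₂) < rk A := lt_of_le_of_ne h4 hne
  have h6 : rk (B₁ \ (B₁ ∩ B₂)) = rk B₁ := rk_diff_eq h1 h3 (by rw [r1]; exact h5)
  have h7 : 0 < rk (B₁ \ (B₁ ∩ B₂)) := by rw [h6, r1]; exact lt_of_le_of_lt (Nat.zero_le _) h5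
  obtain ⟨x, ⟨hx1, hx2⟩, hx3⟩ := h.2.2 (B₁ \ (B₁ ∩ B₂)) B₂ (h1.diff h3) h2
    (Set.sdiff_subset.trans s1) s2 (nonempty_of_rk_pos h7) n2 (h6.trans r1) r2
  exact hx2 ⟨hx1, hx3⟩

/-- The complement of a full subset of an infinite irreducible set has smaller rank. -/
theorem Irr.diff_lt {A : Set E} (h : Irr A) (hpos : 0 < rk A) {B : Set E} (hB : Df B)
    (s : B ⊆ A) (r : rk B = rk A) : rk (A \ B) < rk A := by
  have h1 : rk (A \ B) ≤ rk A := rk_mono (h.1.diff hB) h.1 Set.sdiff_subset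
  refine lt_of_le_of_ne h1 fun h2 => ?_
  obtain ⟨x, hx1, hx2⟩ := h.2.2 (A \ B) B (h.1.diff hB) hB Set.sdiff_subset s
    (nonempty_of_rk_pos (by rw [h2]; exact hpos)) (nonempty_of_rk_pos (by rw [r]; exact hpos)) h2 r
  exact hx1.2 hx2

theorem Irr.subset {A : Set E} (h : Irr A) {B : Set E} (hB : Df B) (s : B ⊆ A)
    (hne : B.Nonempty) (r : rk B = rk A) : Irr B := by
  refine ⟨hB, hne, fun B₁ B₂ h1 h2 s1 s2 n1 n2 r1 r2 => ?_⟩
  exact h.2.2 B₁ B₂ h1 h2 (s1.trans s) (s2.trans s) n1 n2 (r1.trans r) (r2.trans r)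

/-- Full subsets of `B` have full intersection with `A`. -/
theorem Irr.superset {A : Set E} (h : Irr A) {B : Set E} (hB : Df B) (s : A ⊆ B)
    (r : rk (B \ A) < rk A) : Irr B ∧ rk B = rk A := by
  have hr : rk B = rk A := by
    have h1 : rk (A ∪ B \ A) = max (rk A) (rk (B \ A)) := rk_union h.1 (hB.diff h.1)
    rw [Set.union_sdiff_cancel s, max_eq_left r.le] at h1
    exact h1
  have hpos : 0 < rk A := lt_of_le_of_lt (Nat.zero_le _) r
  have key : ∀ C : Set E, Df C → C ⊆ B → rk C = rk B → rk (C ∩ A) = rk A := by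
    intro C hC sC rC
    have h1 : rk (C ∩ A ∪ C \ A) = max (rk (C ∩ A)) (rk (C \ A)) :=
      rk_union (hC.inter h.1) (hC.diff h.1)
    rw [Set.inter_union_sdiff, rC, hr] at h1
    have h2 : rk (C \ A) ≤ rk (B \ A) :=
      rk_mono (hC.diff h.1) (hB.diff h.1) (Set.sdiff_subset_sdiff_left sC)
    rcases max_cases (rk (C ∩ A)) (rk (C \ A)) with ⟨h3, -⟩ | ⟨h3, -⟩
    · rw [h3] at h1
      exact h1.symm
    · rw [h3] at h1
      omega
  refine ⟨⟨hB, h.2.1.mono s, fun B₁ B₂ h1 h2 s1 s2 n1 n2 r1 r2 => ?_⟩, hr⟩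
  have k1 := key B₁ h1 s1 r1
  have k2 := key B₂ h2 s2 r2
  obtain ⟨x, hx1, hx2⟩ := h.2.2 (B₁ ∩ A) (B₂ ∩ A) (h1.inter h.1) (h2.inter h.1)
    Set.inter_subset_right Set.inter_subset_right (nonempty_of_rk_pos (by rw [k1]; exact hpos))
    (nonempty_of_rk_pos (by rw [k2]; exact hpos)) k1 k2
  exact ⟨x, hx1.1, hx2.1⟩

theorem Irr.singleton (a : E) : Irr ({a} : Set E) := by
  refine ⟨Df.singleton a, Set.singleton_nonempty a, fun B₁ B₂ _ _ s1 s2 n1 n2 _ _ => ?_⟩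
  obtain ⟨x, hx⟩ := n1
  obtain ⟨y, hy⟩ := n2
  have h1 : x = a := s1 hx
  have h2 : y = a := s2 hy
  subst h1
  subst h2
  exact ⟨_, hx, hy⟩

/-- The preimages of two disjoint full subsets of `f '' A` are disjoint full subsets of `A`
(`rk_map_eq` for them: their fibres are fibres of `A`). -/
theorem Irr.map {A : Set E} (h : Irr A) {f : E → F} (hf : DefMap f) (m : ℕ)
    (hm : ∀ a ∈ A, rk {x | x ∈ A ∧ f x = f a} = m) : Irr (f '' A) := by
  have hA := rk_map_eq h.1 hf h.2.1 m hm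
  have key : ∀ B : Set F, Df B → B ⊆ f '' A → B.Nonempty → rk B = rk (f '' A) →
      Df (A ∩ f ⁻¹' B) ∧ (A ∩ f ⁻¹' B).Nonempty ∧ rk (A ∩ f ⁻¹' B) = rk A := by
    intro B hB sB nB rB
    have h1 : Df (A ∩ f ⁻¹' B) := h.1.inter (Df.pre hf hB)
    have h2 : f '' (A ∩ f ⁻¹' B) = B := by
      rw [Set.image_inter_preimage]
      exact Set.inter_eq_right.2 sB
    have h3 : (A ∩ f ⁻¹' B).Nonempty := by
      rw [← h2] at nB
      exact nB.of_image
    refine ⟨h1, h3, ?_⟩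
    rw [rk_map_eq h1 hf h3 m ?_, h2, rB, hA]
    intro a ha
    have h4 : {x | x ∈ A ∩ f ⁻¹' B ∧ f x = f a} = {x | x ∈ A ∧ f x = f a} := by
      ext x
      constructor
      · rintro ⟨⟨h5, -⟩, h6⟩
        exact ⟨h5, h6⟩
      · rintro ⟨h5, h6⟩
        refine ⟨⟨h5, ?_⟩, h6⟩
        rw [Set.mem_preimage, h6]
        exact ha.2
    rw [h4]
    exact hm a ha.1
  refine ⟨Df.im hf h.1, h.2.1.image f, fun B₁ B₂ h1 h2 s1 s2 n1 n2 r1 r2 => ?_⟩
  obtain ⟨a1, a2, a3⟩ := key B₁ h1 s1 n1 r1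
  obtain ⟨b1, b2, b3⟩ := key B₂ h2 s2 n2 r2
  obtain ⟨x, hx1, hx2⟩ := h.2.2 _ _ a1 b1 Set.inter_subset_left Set.inter_subset_left a2 b2 a3 b3
  exact ⟨f x, hx1.2, hx2.2⟩

/-- Injective maps (`Irr.map` with `m = 0`). -/
theorem Irr.map_inj {A : Set E} (h : Irr A) {f : E → F} (hf : DefMap f) (hi : Set.InjOn f A) :
    Irr (f '' A) := by
  refine h.map hf 0 fun a ha => ?_
  refine rk_of_finite ((Set.finite_singleton a).subset ?_)
  rintro x ⟨hx, hxa⟩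
  exact hi hx ha hxa

/-- Irreducible base and irreducible fibres of constant rank `m`. Let `r = rk (f '' A)`, so
`rk A = r + m`, and let `B₁`, `B₂ ⊆ A` be full. Let `T_i = {b ∈ f '' A | B_i ∩ f⁻¹ b ≠ ∅ has rank m}`
(definable). `T_i` is nonempty of rank `r`: otherwise `B_i` is the union of its part over `T_i`, which is
empty or has rank `≤ rk T_i + m < r + m`, and the rest, which is empty or has rank `≤ r + (m - 1)`
(empty if `m = 0`; `rk_map_le`), so `rk B_i < r + m` (if `r + m = 0`, `B_i ≠ ∅` gives `T_i ≠ ∅`).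
So `T₁ ∩ T₂` has a point `b` and the two full subsets of the irreducible fibre meet. -/
theorem Irr.of_map {A : Set E} (hA : Df A) (hne : A.Nonempty) {f : E → F} (hf : DefMap f)
    (hI : Irr (f '' A)) (m : ℕ)
    (h : ∀ a ∈ A, Irr {x | x ∈ A ∧ f x = f a} ∧ rk {x | x ∈ A ∧ f x = f a} = m) : Irr A := by
  have hrA := rk_map_eq hA hf hne m fun a ha => (h a ha).2
  have hIm : Df (f '' A) := Df.im hf hA
  -- the fibres of a subset
  have hfibD : ∀ B : Set E, Df B → ∀ b : F, Df {x | x ∈ B ∧ f x = b} := fun B hB b =>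
    Df.and (P := fun x => x ∈ B) hB (Df.eq hf (DefMap.const b))
  have hfib : ∀ B : Set E, Df B → B ⊆ A → ∀ a ∈ A, rk {x | x ∈ B ∧ f x = f a} ≤ m := by
    intro B hB sB a ha
    rw [← (h a ha).2]
    exact rk_mono (hfibD B hB _) (hfibD A hA _) fun x hx => ⟨sB hx.1, hx.2⟩
  have key : ∀ B : Set E, Df B → B ⊆ A → B.Nonempty → rk B = rk A → ∃ T : Set F, Df T ∧
      T ⊆ f '' A ∧ T.Nonempty ∧ rk T = rk (f '' A) ∧
      ∀ b ∈ T, {x | x ∈ B ∧ f x = b}.Nonempty ∧ rk {x | x ∈ B ∧ f x = b} = m := by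
    intro B hB sB nB rB
    set T : Set F := {b | (∃ x, x ∈ B ∧ f x = b) ∧ rk {x | x ∈ B ∧ f x = b} = m} with hTdef
    have hP : Df {p : F × E | p.2 ∈ B ∧ f p.2 = p.1} :=
      Df.and (P := fun p : F × E => p.2 ∈ B) (Df.mem hB DefMap.snd)
        (Df.eq (DefMap.comp hf DefMap.snd) DefMap.fst)
    have hT : Df T := Df.and (P := fun b => ∃ x, x ∈ B ∧ f x = b)
      (Df.ex (P := fun (b : F) (x : E) => x ∈ B ∧ f x = b) hP)
      (Df.rk_eq (P := fun (b : F) (x : E) => x ∈ B ∧ f x = b) hP m)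
    have sT : T ⊆ f '' A := by
      rintro b ⟨⟨x, hx, rfl⟩, -⟩
      exact ⟨x, sB hx, rfl⟩
    have rT : rk T ≤ rk (f '' A) := rk_mono hT hIm sT
    set B' : Set E := B ∩ f ⁻¹' T with hB'def
    have hB' : Df B' := hB.inter (Df.pre hf hT)
    have hB'' : Df (B \ B') := hB.diff hB'
    have e1 : rk B' ≤ rk T + m := by
      refine (rk_map_le hB' hf m fun a ha => hfib B' hB' (Set.inter_subset_left.trans sB) a
        (sB ha.1)).trans ?_
      refine Nat.add_le_add_right (rk_mono (Df.im hf hB') hT ?_) m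
      rintro b ⟨x, hx, rfl⟩
      exact hx.2
    have e2 : ∀ x ∈ B \ B', rk {y | y ∈ B ∧ f y = f x} < m := by
      intro x hx
      refine lt_of_le_of_ne (hfib B hB sB x (sB hx.1)) fun h1 => hx.2 ⟨hx.1, ?_⟩
      exact ⟨⟨x, hx.1, rfl⟩, h1⟩
    have e3 : B = B' ∪ B \ B' := (Set.union_sdiff_cancel Set.inter_subset_left).symm
    have e4 : rk B = max (rk B') (rk (B \ B')) := by
      conv_lhs => rw [e3]
      exact rk_union hB' hB''
    have e5 : B'.Nonempty ∧ rk (f '' A) ≤ rk T := by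
      rcases Nat.eq_zero_or_pos m with hm | hm
      · have h1 : B \ B' = ∅ := by
          rw [Set.eq_empty_iff_forall_notMem]
          intro x hx
          have := e2 x hx
          omega
        have h2 : B' = B := by
          rw [h1, Set.union_empty] at e3
          exact e3.symm
        refine ⟨by rw [h2]; exact nB, ?_⟩
        rw [h2, rB, hrA] at e1
        omega
      · have h1 : rk (B \ B') ≤ rk (f '' A) + (m - 1) := by
          refine (rk_map_le hB'' hf (m - 1) fun a ha => ?_).trans ?_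
          · have h2 := e2 a ha
            have h3 : rk {x | x ∈ B \ B' ∧ f x = f a} ≤ rk {y | y ∈ B ∧ f y = f a} :=
              rk_mono (hfibD _ hB'' _) (hfibD _ hB _) fun x hx => ⟨hx.1.1, hx.2⟩
            omega
          · refine Nat.add_le_add_right (rk_mono (Df.im hf hB'') hIm ?_) (m - 1)
            exact Set.image_mono (Set.sdiff_subset.trans sB)
        have h2 : rk B' = rk (f '' A) + m := by
          rw [rB, hrA] at e4
          rcases max_cases (rk B') (rk (B \ B')) with ⟨h3, -⟩ | ⟨h3, -⟩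
          · rw [h3] at e4
            exact e4.symm
          · rw [h3] at e4
            omega
        refine ⟨nonempty_of_rk_pos (by omega), by omega⟩
    refine ⟨T, hT, sT, ?_, le_antisymm rT e5.2, ?_⟩
    · obtain ⟨x, hx⟩ := e5.1
      exact ⟨f x, hx.2⟩
    · rintro b ⟨⟨x, hx1, hx2⟩, h2⟩
      exact ⟨⟨x, hx1, hx2⟩, h2⟩
  refine ⟨hA, hne, fun B₁ B₂ h1 h2 s1 s2 n1 n2 r1 r2 => ?_⟩
  obtain ⟨T₁, a1, a2, a3, a4, a5⟩ := key B₁ h1 s1 n1 r1
  obtain ⟨T₂, b1, b2, b3, b4, b5⟩ := key B₂ h2 s2 n2 r2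
  obtain ⟨b, hb1, hb2⟩ := hI.2.2 T₁ T₂ a1 b1 a2 b2 a3 b3 a4 b4
  obtain ⟨a, ha, rfl⟩ := a2 hb1
  obtain ⟨c1, c2⟩ := a5 _ hb1
  obtain ⟨d1, d2⟩ := b5 _ hb2
  obtain ⟨hF, hFr⟩ := h a ha
  obtain ⟨x, hx1, hx2⟩ := hF.2.2 {x | x ∈ B₁ ∧ f x = f a} {x | x ∈ B₂ ∧ f x = f a}
    (hfibD _ h1 _) (hfibD _ h2 _) (fun x hx => ⟨s1 hx.1, hx.2⟩) (fun x hx => ⟨s2 hx.1, hx.2⟩)
    c1 d1 (c2.trans hFr.symm) (d2.trans hFr.symm)
  exact ⟨x, hx1.1, hx2.1⟩

/-- `Irr.of_map` for `Prod.fst`. -/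
theorem Irr.prod {A : Set E} {B : Set F} (hA : Irr A) (hB : Irr B) : Irr (A ×ˢ B) := by
  have h1 : Df (A ×ˢ B) := Df.prod hA.1 hB.1
  have h2 : (Prod.fst : E × F → E) '' (A ×ˢ B) = A := Set.fst_image_prod A hB.2.1
  refine Irr.of_map h1 (hA.2.1.prod hB.2.1) DefMap.fst (by rw [h2]; exact hA) (rk B) ?_
  rintro ⟨a, b⟩ ⟨ha, -⟩
  have hg : DefMap (fun y : F => (a, y)) := DefMap.prodMk (DefMap.const a) DefMap.id
  have hinj : Set.InjOn (fun y : F => (a, y)) B := fun x _ y _ hxy => congrArg Prod.snd hxy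
  have h3 : {x : E × F | x ∈ A ×ˢ B ∧ x.1 = (a, b).1} = (fun y : F => (a, y)) '' B := by
    ext ⟨x, y⟩
    constructor
    · rintro ⟨⟨-, h4⟩, h5⟩
      refine ⟨y, h4, ?_⟩
      simp only at h5
      rw [h5]
    · rintro ⟨y', h4, h5⟩
      rw [← h5]
      exact ⟨⟨ha, h4⟩, rfl⟩
  rw [h3]
  exact ⟨hB.map_inj hg hinj, rk_image_inj hB.1 hg hinj⟩

/-- Two irreducible sets which are almost equal to a third one are almost equal. -/
theorem Irr.trans {A B C : Set E} {r : ℕ} (hB : Irr B) (hA : Df A) (hC : Df C) (rB : rk B = r)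
    (rA : rk A = r) (h1 : (A ∩ B).Nonempty ∧ rk (A ∩ B) = r)
    (h2 : (B ∩ C).Nonempty ∧ rk (B ∩ C) = r) : (A ∩ C).Nonempty ∧ rk (A ∩ C) = r := by
  have h3 := hB.inter_rk (hA.inter hB.1) (hB.1.inter hC) Set.inter_subset_right
    Set.inter_subset_left h1.1 h2.1 (h1.2.trans rB.symm) (h2.2.trans rB.symm)
  have hs : (A ∩ B) ∩ (B ∩ C) ⊆ A ∩ C := fun x hx => ⟨hx.1.1, hx.2.2⟩
  refine ⟨h3.1.mono hs, le_antisymm ?_ ?_⟩
  · rw [← rA]
    exact rk_mono (hA.inter hC) hA Set.inter_subset_left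
  · rw [← rB, ← h3.2]
    exact rk_mono ((hA.inter hB.1).inter (hB.1.inter hC)) (hA.inter hC) hs

end Pool.Agent.BadG
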