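import Mathlib

set_option autoImplicit false

/-! # Bad groups (MP_20b549_lc): the definitions of the final theorem, over Mathlib's definable sets. -/

namespace Pool.Agent.BadG

open Function

universe u v

/-- Subsets of the powers of the structure `X` which are definable with parameters. -/
def DFn (L : FirstOrder.Language.{u, v}) {X : Type} [L.Structure X] {α : Type} (A : Set (α → X)) : Prop :=
  (Set.univ : Set X).Definable L A

/-- **A rank function** in the sense of Borovik and Poizat on the `L`-structure `X`: a natural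
number for every nonempty definable subset of a finite power of `X`, such that
(A) `rk A ≥ n + 1` iff `A` contains infinitely many disjoint nonempty definable subsets of rank `≥ n`;
(B) for a definable map `f` from `A` and every `n`, the set of the points whose fibre has rank `n` is
definable; (C) if all fibres of the definable map `f` from `A` onto `f(A)` have rank `n` then
`rk A = rk f(A) + n`. (The axiom D, elimination of infinite quantifiers, is not assumed.) A group of finite
Morley rank has such a rank, its Morley rank. -/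
structure RankFn (L : FirstOrder.Language.{u, v}) (X : Type) [L.Structure X] where
  rk : ∀ {α : Type}, Set (α → X) → ℕ
  rk_succ : ∀ {α : Type} [Finite α] {A : Set (α → X)}, DFn L A → A.Nonempty → ∀ n : ℕ,
    n + 1 ≤ rk A ↔ ∃ B : ℕ → Set (α → X), Pairwise (onFun Disjoint B) ∧
      ∀ i, DFn L (B i) ∧ (B i).Nonempty ∧ B i ⊆ A ∧ n ≤ rk (B i)
  D_rk : ∀ {α β : Type} [Finite α] [Finite β] {A : Set (α → X)} {f : (α → X) → (β → X)},
    DFn L A → DFn L {v : α ⊕ β → X | v ∘ Sum.inl ∈ A ∧ f (v ∘ Sum.inl) = v ∘ Sum.inr} → ∀ n : ℕ,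
    DFn L {b : β → X | (A ∩ f ⁻¹' {b}).Nonempty ∧ rk (A ∩ f ⁻¹' {b}) = n}
  rk_add : ∀ {α β : Type} [Finite α] [Finite β] {A : Set (α → X)} {f : (α → X) → (β → X)},
    DFn L A → DFn L {v : α ⊕ β → X | v ∘ Sum.inl ∈ A ∧ f (v ∘ Sum.inl) = v ∘ Sum.inr} →
    A.Nonempty → ∀ n : ℕ, (∀ b ∈ f '' A, rk (A ∩ f ⁻¹' {b}) = n) → rk A = rk (f '' A) + n

/-- The rank of a subset of a group `E` embedded in `X` by `i`, where `rk ∅ = 0`. -/
noncomputable def RankFn.rkIn {L : FirstOrder.Language.{u, v}} {X : Type} [L.Structure X]
    (ℛ : RankFn L X) {E : Type} (i : E → X) (A : Set E) : ℕ :=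
  open Classical in if A.Nonempty then ℛ.rk {v : Fin 1 → X | v 0 ∈ i '' A} else 0

section

variable (L : FirstOrder.Language.{u, v}) {X : Type} [L.Structure X]

/-- A subset of a group `E` embedded in `X` by `i` is definable. -/
def DIn {E : Type} (i : E → X) (A : Set E) : Prop := DFn L {v : Fin 1 → X | v 0 ∈ i '' A}

/-- A definable subgroup of `E` which has no proper definable subgroup of finite index. -/
def ConnIn {E : Type} [Group E] (i : E → X) (H : Subgroup E) : Prop :=
  DIn L i (H : Set E) ∧ ∀ K : Subgroup E, K ≤ H → DIn L i (K : Set E) → K.relIndex H ≠ 0 → K = H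

/-- A Borel subgroup: a maximal proper connected definable subgroup. -/
def BorelIn {E : Type} [Group E] (i : E → X) (B : Subgroup E) : Prop :=
  ConnIn L i B ∧ B ≠ ⊤ ∧ ∀ K : Subgroup E, ConnIn L i K → K ≠ ⊤ → B ≤ K → K = B

/-- **A bad group** `S`, definable in `X` by `i`: it is infinite and simple, and all its proper
definable subgroups are nilpotent. -/
structure BadIn (S : Type) [Group S] (i : S → X) : Prop where
  simple : IsSimpleGroup S
  inf : Infinite S
  nil : ∀ H : Subgroup S, DIn L i (H : Set S) → H ≠ ⊤ → Group.IsNilpotent H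

end

/-- The outer rank `rk M - rk {m ∈ M | φ m is inner}` of the action `φ` is at most `k`. -/
def OuterRankLe {L : FirstOrder.Language.{u, v}} {S M : Type} [Group S] [Group M] {φ : M →* MulAut S}
    [L.Structure (S ⋊[φ] M)] (ℛ : RankFn L (S ⋊[φ] M)) (k : ℤ) : Prop :=
  (ℛ.rkIn (SemidirectProduct.inr : M → S ⋊[φ] M) Set.univ : ℤ) ≤
    ℛ.rkIn (SemidirectProduct.inr : M → S ⋊[φ] M) {m | ∃ s : S, φ m = MulAut.conj s} + k

end Pool.Agent.BadG
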