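import Pool.Agent.BadG.Nil
import Pool.Agent.BadG.ConnIrr

set_option autoImplicit false

/-! BG15. A Lang type theorem for connected nilpotent groups. -/

namespace Pool.Agent.BadG

open Function

variable {X : Type} [RU X] {E : Type} [RS X E] [Group E] [DG E]

/-- The twisted stabilizer as a subgroup. -/
private def tws (K : Subgroup E) (ψ : MulAut E) (c : E) : Subgroup E where
  carrier := {u | u ∈ K ∧ c * ψ u * c⁻¹ = u}
  mul_mem' := by
    rintro a b ⟨ha, ha'⟩ ⟨hb, hb'⟩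
    refine ⟨K.mul_mem ha hb, ?_⟩
    have h : c * ψ (a * b) * c⁻¹ = (c * ψ a * c⁻¹) * (c * ψ b * c⁻¹) := by
      rw [map_mul]; group
    rw [h, ha', hb']
  one_mem' := ⟨K.one_mem, by rw [map_one]; group⟩
  inv_mem' := by
    rintro a ⟨ha, ha'⟩
    refine ⟨K.inv_mem ha, ?_⟩
    have h : c * ψ a⁻¹ * c⁻¹ = (c * ψ a * c⁻¹)⁻¹ := by
      rw [map_inv]; group
    rw [h, ha']

private theorem mem_tws {K : Subgroup E} {ψ : MulAut E} {c u : E} :
    u ∈ tws K ψ c ↔ u ∈ K ∧ c * ψ u * c⁻¹ = u := Iff.rfl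

private theorem tws_Df {K : Subgroup E} (hK : Df (K : Set E)) {ψ : MulAut E} (hψ : DefMap ψ)
    (c : E) : Df (tws K ψ c : Set E) := by
  have h : Df {u : E | u ∈ (K : Set E) ∧ c * ψ u * c⁻¹ = u} :=
    Df.and (Df.mem hK (by fun_prop)) (Df.eq (by fun_prop) (by fun_prop))
  exact h

/-- **Finite twisted stabilizers.** Let `ψ` be a definable automorphism of `E` with `ψ(B) = B` and
without fixed points `≠ 1` in the nilpotent definable group `B`, and `c ∈ B`. Then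
`{u ∈ B | c * ψ u * c⁻¹ = u}` is finite.

Proof. Let `F i = {u ∈ uc B i | c ψ(u) c⁻¹ = u}`, definable subgroups; suppose `F` is infinite for
large `i`, and let `i = j + 1` be minimal with `F i` infinite; `E₀ = F (j + 1)`,
`E₀ ⊓ uc B j = F j` finite, `Z = uc B j`. For `x ∈ E₀`: `ψ x = c⁻¹ x c`, so
`x⁻¹ ψ x = x⁻¹ c⁻¹ x c ∈ Z` (`mem_uc_succ` for `x⁻¹`). `Z` is normal in `B` and `ψ`-invariant
(`uc_invariant`). So for `w = e z`, `e ∈ E₀`, `z ∈ Z`: `w⁻¹ ψ w = z⁻¹ (e⁻¹ ψ e) ψ z ∈ Z`. The map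
`w ↦ w⁻¹ ψ w` is injective on `B` (`w⁻¹ ψ w = v⁻¹ ψ v` gives `ψ (v w⁻¹) = v w⁻¹`). So
`rk {e z} ≤ rk Z` (`rk_image_inj`, `rk_mono`); but `rk {e z} + rk (E₀ ⊓ Z) = rk E₀ + rk Z`
(`rk_mul_sub`) with `rk (E₀ ⊓ Z) = 0` (finite) and `rk E₀ > 0`. Contradiction. -/
theorem twisted_stab_finite {B : Subgroup E} (hB : Df (B : Set E)) (hnil : Group.IsNilpotent B)
    {ψ : MulAut E} (hψ : DefMap ψ) (hinv : ∀ x, ψ x ∈ B ↔ x ∈ B)
    (hfix : ∀ x ∈ B, ψ x = x → x = 1) {c : E} (hc : c ∈ B) :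
    {u | u ∈ B ∧ c * ψ u * c⁻¹ = u}.Finite := by
  have key : ∀ i : ℕ, (tws (uc B i) ψ c : Set E).Finite := by
    intro i
    induction i with
    | zero =>
      refine Set.Finite.subset (Set.finite_singleton (1 : E)) ?_
      intro u hu
      have h := (mem_tws.1 hu).1
      rw [uc_zero] at h
      exact Subgroup.mem_bot.1 h
    | succ j ih =>
      by_contra hinf
      have hE := tws_Df (uc_Df hB (j + 1)) hψ c
      have hZ := uc_Df hB j
      have hle1 := uc_le B (j + 1)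
      have hle0 := uc_le B j
      set E₀ : Subgroup E := tws (uc B (j + 1)) ψ c with hE₀
      set Z : Subgroup E := uc B j with hZdef
      have hA : Df {y : E | ∃ a ∈ (E₀ : Set E), ∃ b ∈ (Z : Set E), y = a * b} :=
        Df.exin hE (Df.exin hZ (Df.eq (by fun_prop) (by fun_prop)))
      have h1 : rk {y : E | ∃ a ∈ E₀, ∃ b ∈ Z, y = a * b} + rk ((E₀ ⊓ Z : Subgroup E) : Set E) =
          rk (E₀ : Set E) + rk (Z : Set E) := rk_mul_sub hE hZ
      have h2 : rk ((E₀ ⊓ Z : Subgroup E) : Set E) = 0 := by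
        refine rk_of_finite (Set.Finite.subset ih ?_)
        intro u hu
        obtain ⟨hu1, hu2⟩ := Subgroup.mem_inf.1 hu
        exact ⟨hu2, (mem_tws.1 hu1).2⟩
      have h3 : 0 < rk (E₀ : Set E) := (rk_pos_iff hE).2 hinf
      have h4 : rk {y : E | ∃ a ∈ E₀, ∃ b ∈ Z, y = a * b} ≤ rk (Z : Set E) := by
        have hf : DefMap (fun w : E => w⁻¹ * ψ w) := by fun_prop
        have hinj : Set.InjOn (fun w : E => w⁻¹ * ψ w)
            {y : E | ∃ a ∈ (E₀ : Set E), ∃ b ∈ (Z : Set E), y = a * b} := by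
          rintro w ⟨a, ha, b, hb, rfl⟩ v ⟨a', ha', b', hb', rfl⟩ h
          have hwB : a * b ∈ B := B.mul_mem (hle1 (mem_tws.1 ha).1) (hle0 hb)
          have hvB : a' * b' ∈ B := B.mul_mem (hle1 (mem_tws.1 ha').1) (hle0 hb')
          set w := a * b
          set v := a' * b'
          have h' : w⁻¹ * ψ w = v⁻¹ * ψ v := h
          have e1 : ψ (v * w⁻¹) = v * w⁻¹ := by
            rw [map_mul, map_inv]
            have e2 : ψ w = w * v⁻¹ * ψ v := by
              calc ψ w = w * (w⁻¹ * ψ w) := by group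
                _ = w * (v⁻¹ * ψ v) := by rw [h']
                _ = w * v⁻¹ * ψ v := by group
            rw [e2]; group
          have e3 := hfix _ (B.mul_mem hvB (B.inv_mem hwB)) e1
          have e4 : v = w := by
            calc v = v * w⁻¹ * w := by group
              _ = w := by rw [e3, one_mul]
          exact e4.symm
        have e5 := rk_image_inj hA hf hinj
        have e6 : rk ((fun w : E => w⁻¹ * ψ w) ''
            {y : E | ∃ a ∈ (E₀ : Set E), ∃ b ∈ (Z : Set E), y = a * b}) ≤ rk (Z : Set E) := by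
          refine rk_mono (Df.im hf hA) hZ ?_
          rintro _ ⟨w, ⟨a, ha, b, hb, rfl⟩, rfl⟩
          have ha1 : a ∈ uc B (j + 1) := (mem_tws.1 ha).1
          have ha2 : c * ψ a * c⁻¹ = a := (mem_tws.1 ha).2
          have ha3 : ψ a = c⁻¹ * a * c := by
            calc ψ a = c⁻¹ * (c * ψ a * c⁻¹) * c := by group
              _ = c⁻¹ * a * c := by rw [ha2]
          have hcom : a⁻¹ * c⁻¹ * a * c ∈ Z := by
            have := (mem_uc_succ.1 ((uc B (j + 1)).inv_mem ha1)).2 c⁻¹ (B.inv_mem hc)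
            rwa [inv_inv, inv_inv] at this
          have hψb : ψ b ∈ Z := (uc_invariant hinv j b).2 hb
          have hgoal : (a * b)⁻¹ * ψ (a * b) = b⁻¹ * (a⁻¹ * c⁻¹ * a * c) * ψ b := by
            rw [map_mul, ha3]; group
          show (a * b)⁻¹ * ψ (a * b) ∈ Z
          rw [hgoal]
          exact Z.mul_mem (Z.mul_mem (Z.inv_mem hb) hcom) hψb
        exact le_of_eq_of_le e5.symm e6
      omega
  obtain ⟨n, hn⟩ := uc_eq_of_nil hnil
  refine Set.Finite.subset (key n) ?_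
  rintro u ⟨hu, hu'⟩
  refine ⟨?_, hu'⟩
  rw [hn]
  exact hu

/-- **Lang.** If moreover `B` is connected then `u ↦ u⁻¹ ψ(u)` maps `B` onto `B`. Indeed all
twisted orbits `{u⁻¹ c ψ(u) | u ∈ B}`, `c ∈ B`, have rank `rk B`: the fibres of `u ↦ u⁻¹ c ψ(u)` are
right cosets of the finite group of `twisted_stab_finite` (`u⁻¹ c ψ(u) = v⁻¹ c ψ(v)` iff
`t = v u⁻¹` has `c ψ(t) c⁻¹ = t`; `rk_orbit'`). `B` is irreducible (`Conn.irr`), so the orbits of
`1` and of `b` meet and are equal. -/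
theorem lang {B : Subgroup E} (hB : Conn B) (hnil : Group.IsNilpotent B)
    {ψ : MulAut E} (hψ : DefMap ψ) (hinv : ∀ x, ψ x ∈ B ↔ x ∈ B)
    (hfix : ∀ x ∈ B, ψ x = x → x = 1) {b : E} (hb : b ∈ B) : ∃ u ∈ B, b = u⁻¹ * ψ u := by
  have hD : Df (B : Set E) := hB.1
  have hf : ∀ c : E, DefMap (fun u : E => u⁻¹ * c * ψ u) := by
    intro c
    fun_prop
  have horb : ∀ c ∈ B, Df ((fun u : E => u⁻¹ * c * ψ u) '' (B : Set E)) ∧
      (fun u : E => u⁻¹ * c * ψ u) '' (B : Set E) ⊆ (B : Set E) ∧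
      ((fun u : E => u⁻¹ * c * ψ u) '' (B : Set E)).Nonempty ∧
      rk ((fun u : E => u⁻¹ * c * ψ u) '' (B : Set E)) = rk (B : Set E) := by
    intro c hc
    refine ⟨Df.im (hf c) hD, ?_, ⟨_, 1, B.one_mem, rfl⟩, ?_⟩
    · rintro _ ⟨u, hu, rfl⟩
      exact B.mul_mem (B.mul_mem (B.inv_mem hu) hc) ((hinv u).2 hu)
    · have hK := tws_Df hD hψ c
      have hfin : (tws B ψ c : Set E).Finite := twisted_stab_finite hD hnil hψ hinv hfix hc
      have h1 := rk_orbit' (f := fun u : E => u⁻¹ * c * ψ u) hD hK (fun u hu => hu.1) (hf c) (by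
        intro g hg g' hg'
        constructor
        · intro h
          refine ⟨B.mul_mem hg' (B.inv_mem hg), ?_⟩
          have h' : g⁻¹ * c * ψ g = g'⁻¹ * c * ψ g' := h
          rw [map_mul, map_inv]
          have e : ψ g' = c⁻¹ * g' * (g⁻¹ * c * ψ g) := by
            rw [h']; group
          rw [e]; group
        · intro h
          have h2 : c * ψ (g' * g⁻¹) * c⁻¹ = g' * g⁻¹ := h.2
          rw [map_mul, map_inv] at h2
          show g⁻¹ * c * ψ g = g'⁻¹ * c * ψ g'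
          have e : ψ g' = c⁻¹ * (c * (ψ g' * (ψ g)⁻¹) * c⁻¹) * c * ψ g := by group
          rw [e, h2]; group)
      rw [rk_of_finite hfin, add_zero] at h1
      exact h1.symm
  obtain ⟨hI1, hI2, hI3⟩ := hB.irr
  obtain ⟨a1, a2, a3, a4⟩ := horb 1 B.one_mem
  obtain ⟨b1, b2, b3, b4⟩ := horb b hb
  obtain ⟨x, ⟨u, hu, hu'⟩, ⟨v, hv, hv'⟩⟩ := hI3 _ _ a1 b1 a2 b2 a3 b3 a4 b4
  have hu1 : u⁻¹ * 1 * ψ u = x := hu'
  have hv1 : v⁻¹ * b * ψ v = x := hv'
  refine ⟨u * v⁻¹, B.mul_mem hu (B.inv_mem hv), ?_⟩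
  rw [map_mul, map_inv]
  calc b = v * (v⁻¹ * b * ψ v) * (ψ v)⁻¹ := by group
    _ = v * (u⁻¹ * 1 * ψ u) * (ψ v)⁻¹ := by rw [hv1, hu1]
    _ = (u * v⁻¹)⁻¹ * (ψ u * (ψ v)⁻¹) := by group

end Pool.Agent.BadG
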