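import Pool.Agent.BadG.Cover

set_option autoImplicit false

/-! BG29. The set of the `x` such that `x` and `d x` are conjugate. -/

namespace Pool.Agent.BadG

open Function

variable {X : Type} [RU X] {S : Type} [RS X S] [Group S]

/-- The elements `x` such that `d x` is a conjugate of `x`. -/
def Xd (d : S) : Set S := {x | ∃ s : S, s⁻¹ * x * s = d * x}

variable [Bad S]

theorem Df_Xd (d : S) : Df (Xd d) :=
  Df.ex (Df.eq (by fun_prop) (by fun_prop))

/-- `x = 1` would give `d = 1`. -/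
theorem ne_one_of_mem_Xd {d x : S} (hd : d ≠ 1) (hx : x ∈ Xd d) : x ≠ 1 := by
  rintro rfl
  obtain ⟨s, hs⟩ := hx
  rw [mul_one, inv_mul_cancel, mul_one] at hs
  exact hd hs.symm

include X in
/-- Take `x`, `g` which do not commute and `d = g⁻¹ x g x⁻¹`. -/
theorem exists_Xd_nonempty : ∃ d : S, d ≠ 1 ∧ (Xd d).Nonempty := by
  have hinf : Infinite S := Bad.inf (X := X)
  obtain ⟨x, hx⟩ := exists_ne (1 : S)
  have h1 : ∃ g, x * g ≠ g * x := by
    by_contra h
    push Not at h
    exact hx (eq_one_of_central (X := X) h)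
  obtain ⟨g, hg⟩ := h1
  refine ⟨g⁻¹ * x * g * x⁻¹, fun h => hg ?_, x, g, ?_⟩
  · have h2 : g⁻¹ * x * g = x := mul_inv_eq_one.1 h
    calc x * g = g * (g⁻¹ * x * g) := by group
      _ = g * x := by rw [h2]
  · group

/-- For `x ≠ 1`: `C(x) = bo x` if the Borel subgroups have rank one (`abelian_of_rk_one`,
`Borel.mem_of_comm`). -/
theorem cz_eq_bo (hb : ∀ B : Subgroup S, Borel B → rk (B : Set S) = 1) {x : S} (hx : x ≠ 1) :
    Subgroup.centralizer ({x} : Set S) = bo x := by
  ext y
  rw [mem_cz]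
  constructor
  · intro h
    exact Borel.mem_of_comm (bo_borel x) hx (mem_bo x) h
  · intro h
    exact abelian_of_rk_one (bo_borel x).1 (Borel.nil (bo_borel x)) (hb _ (bo_borel x)) x
      (mem_bo x) y h

/-- **`Xd d` is not generic.** Let `T = {d | rk (Xd d) = rk S}`. `T` is a normal subgroup of `S`:
`1 ∈ T` (`Xd 1 = S`); `Xd (s d s⁻¹) = s (Xd d) s⁻¹`; `d (Xd d) ⊆ Xd d⁻¹` (if `y = d x ~ x = d⁻¹ y`); for `d, e ∈ T` the set
`Xd e ∩ e⁻¹ (Xd d)` has rank `rk S` (`conn_top`, `Irr.inter_rk`) and is contained in `Xd (d e)`: `x ~ e x ~ d (e x)`. By `normal_cases`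
`T = 1` or `T = S`. If `T = S` let `P = {(d, x) | x ∈ Xd d}`: `rk P ≥ rk S + rk S` (`add_le_rk`). For fixed `x ≠ 1` the fibre
`{d | d x ∈ x ^ S}` is a translate of the class of `x` and has rank `rk S - 1` (`rk_class`, `cz_eq_bo`); for `x = 1` it is `{1}`. So
`rk P ≤ rk S + (rk S - 1)` (`rk_le_add'`). Contradiction (`rk_top_pos`). -/
theorem rk_Xd_lt (hb : ∀ B : Subgroup S, Borel B → rk (B : Set S) = 1) {d : S} (hd : d ≠ 1) :
    rk (Xd d) < rk (Set.univ : Set S) := by
  have hU : Df (Set.univ : Set S) := by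
    have h := Df.top (E := S)
    rwa [Subgroup.coe_top] at h
  have hr := rk_top_pos (S := S)
  have hle : ∀ A : Set S, Df A → rk A ≤ rk (Set.univ : Set S) := fun A hA =>
    rk_mono hA hU (Set.subset_univ A)
  have hne : ∀ A : Set S, Df A → rk A = rk (Set.univ : Set S) → A.Nonempty := fun A hA h =>
    ((rk_pos_iff hA).1 (by omega)).nonempty
  have hirr : Irr (Set.univ : Set S) := by
    have h := Conn.irr (conn_top (S := S))
    rwa [Subgroup.coe_top] at h
  by_contra hcon
  have hd1 : rk (Xd d) = rk (Set.univ : Set S) := le_antisymm (hle _ (Df_Xd d)) (not_lt.1 hcon)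
  let T : Subgroup S :=
    { carrier := {e | rk (Xd e) = rk (Set.univ : Set S)}
      one_mem' := by
        have h : Xd (1 : S) = Set.univ := by
          ext x
          simp only [Set.mem_univ, iff_true]
          exact ⟨1, by group⟩
        change rk (Xd (1 : S)) = _
        rw [h]
      mul_mem' := by
        intro a b ha hb'
        change rk (Xd (a * b)) = _
        have h1 : Df ((fun x => b⁻¹ * x) '' Xd a) := Df.im (by fun_prop) (Df_Xd a)
        have h2 : rk ((fun x => b⁻¹ * x) '' Xd a) = rk (Set.univ : Set S) :=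
          (rk_mul_left b⁻¹ (Df_Xd a)).trans ha
        have h3 := hirr.inter_rk (Df_Xd b) h1 (Set.subset_univ _) (Set.subset_univ _)
          (hne _ (Df_Xd b) hb') (hne _ h1 h2) hb' h2
        refine le_antisymm (hle _ (Df_Xd _)) ?_
        rw [← h3.2]
        refine rk_mono (Df.and (Df_Xd b) h1) (Df_Xd _) ?_
        rintro x ⟨⟨s, hs⟩, y, ⟨t, ht⟩, rfl⟩
        refine ⟨s * t, ?_⟩
        have h4 : b * (b⁻¹ * y) = y := by group
        change s⁻¹ * (b⁻¹ * y) * s = b * (b⁻¹ * y) at hs
        rw [h4] at hs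
        calc (s * t)⁻¹ * (b⁻¹ * y) * (s * t) = t⁻¹ * (s⁻¹ * (b⁻¹ * y) * s) * t := by group
          _ = a * y := by rw [hs, ht]
          _ = a * b * (b⁻¹ * y) := by group
      inv_mem' := by
        intro a ha
        change rk (Xd a⁻¹) = _
        have h1 : Df ((fun x => a * x) '' Xd a) := Df.im (by fun_prop) (Df_Xd a)
        have h2 : rk ((fun x => a * x) '' Xd a) = rk (Set.univ : Set S) :=
          (rk_mul_left a (Df_Xd a)).trans ha
        refine le_antisymm (hle _ (Df_Xd _)) ?_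
        rw [← h2]
        refine rk_mono h1 (Df_Xd _) ?_
        rintro _ ⟨x, ⟨s, hs⟩, rfl⟩
        refine ⟨s⁻¹, ?_⟩
        change s⁻¹⁻¹ * (a * x) * s⁻¹ = a⁻¹ * (a * x)
        rw [← hs]
        have h5 : a⁻¹ * (s⁻¹ * x * s) = x := by
          rw [hs]
          group
        rw [h5]
        group }
  have hTn : ∀ g : S, ∀ x ∈ T, g * x * g⁻¹ ∈ T := by
    intro g a ha
    change rk (Xd (g * a * g⁻¹)) = _
    have hmap : DefMap (fun x : S => g * x * g⁻¹) := by fun_prop
    have h1 : Df ((fun x => g * x * g⁻¹) '' Xd a) := Df.im hmap (Df_Xd a)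
    have h2 : rk ((fun x => g * x * g⁻¹) '' Xd a) = rk (Set.univ : Set S) := by
      rw [rk_image_inj (Df_Xd a) hmap]
      · exact ha
      · intro x _ y _ hxy
        exact mul_left_cancel (mul_right_cancel hxy)
    refine le_antisymm (hle _ (Df_Xd _)) ?_
    rw [← h2]
    refine rk_mono h1 (Df_Xd _) ?_
    rintro _ ⟨x, ⟨s, hs⟩, rfl⟩
    refine ⟨g * s * g⁻¹, ?_⟩
    calc (g * s * g⁻¹)⁻¹ * (g * x * g⁻¹) * (g * s * g⁻¹) = g * (s⁻¹ * x * s) * g⁻¹ := by group
      _ = g * a * g⁻¹ * (g * x * g⁻¹) := by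
        rw [hs]
        group
  have hT : ∀ e : S, rk (Xd e) = rk (Set.univ : Set S) := by
    rcases normal_cases (X := X) hTn with h | h
    · have h1 : d ∈ T := hd1
      rw [h, Subgroup.mem_bot] at h1
      exact absurd h1 hd
    · intro e
      have h1 : e ∈ T := by
        rw [h]
        exact Subgroup.mem_top e
      exact h1
  have hP : Df {p : S × S | ∃ s : S, s⁻¹ * p.2 * s = p.1 * p.2} :=
    Df.ex (Df.eq (by fun_prop) (by fun_prop))
  have hlow := add_le_rk hP hU ⟨1, Set.mem_univ 1⟩ (rk (Set.univ : Set S)) fun e _ => by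
    have h : fib {p : S × S | ∃ s : S, s⁻¹ * p.2 * s = p.1 * p.2} e = Xd e := rfl
    rw [h]
    exact ⟨hne _ (Df_Xd e) (hT e), (hT e).ge⟩
  have hup := rk_le_add' hP hU (fun _ _ => Set.mem_univ _) (rk (Set.univ : Set S) - 1)
    fun x _ => by
      by_cases hx : x = 1
      · have h : {e : S | (e, x) ∈ {p : S × S | ∃ s : S, s⁻¹ * p.2 * s = p.1 * p.2}} ⊆ {1} := by
          rintro e ⟨s, hs⟩
          change s⁻¹ * x * s = e * x at hs
          rw [hx, mul_one, inv_mul_cancel, mul_one] at hs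
          exact hs.symm
        rw [rk_of_finite ((Set.finite_singleton (1 : S)).subset h)]
        exact Nat.zero_le _
      · have hcl : Df {y : S | ∃ g, y = g⁻¹ * x * g} := Df.ex (Df.eq (by fun_prop) (by fun_prop))
        have h : {e : S | (e, x) ∈ {p : S × S | ∃ s : S, s⁻¹ * p.2 * s = p.1 * p.2}} =
            (fun y => y * x⁻¹) '' {y : S | ∃ g, y = g⁻¹ * x * g} := by
          ext e
          constructor
          · rintro ⟨s, hs⟩
            change s⁻¹ * x * s = e * x at hs
            refine ⟨s⁻¹ * x * s, ⟨s, rfl⟩, ?_⟩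
            change s⁻¹ * x * s * x⁻¹ = e
            rw [hs]
            group
          · rintro ⟨_, ⟨g, rfl⟩, rfl⟩
            refine ⟨g, ?_⟩
            change g⁻¹ * x * g = g⁻¹ * x * g * x⁻¹ * x
            group
        rw [h, rk_mul_right x⁻¹ hcl]
        have h1 := rk_class x
        rw [cz_eq_bo hb hx, hb _ (bo_borel x)] at h1
        omega
  omega

end Pool.Agent.BadG
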