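import Pool.Agent.BadG.CentB
import Pool.Agent.BadG.XSet

set_option autoImplicit false

/-! BG30. The lines `x C(g)`. -/

namespace Pool.Agent.BadG

open Function

variable {X : Type} [RU X] {Γ S : Type} [RS X Γ] [RS X S] [Group Γ] [Group S]
  (𝒜 : Act Γ S)

/-- The union of the lines `x C_S(g)` for `g ∈ Γ` with `act g⁻¹ x = d x`. -/
def Ln (d x : S) : Set S := {y | ∃ (g : Γ) (v : S), 𝒜.act g⁻¹ x = d * x ∧ 𝒜.act g v = v ∧ y = x * v}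

/-- `x (x v)⁻¹ x = x v⁻¹`. -/
theorem Ln_refl {d x y : S} (h : y ∈ Ln 𝒜 d x) : x * y⁻¹ * x ∈ Ln 𝒜 d x := by
  obtain ⟨g, v, h1, h2, rfl⟩ := h
  refine ⟨g, v⁻¹, h1, ?_, ?_⟩
  · rw [map_inv, h2]
  · group

variable [Bad S] [DG Γ]

theorem Df_Ln (d x : S) : Df (Ln 𝒜 d x) := by
  refine Df.ex (Df.ex (Df.and (Df.eq (DefMap.act 𝒜 ?_ ?_) ?_)
    (Df.and (Df.eq (DefMap.act 𝒜 ?_ ?_) ?_) (Df.eq ?_ ?_))))
  all_goals fun_prop

/-- The relation `y ∈ Ln d x` is definable in both variables. -/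
theorem Df_Ln_rel (d : S) : Df {p : S × S | p.2 ∈ Ln 𝒜 d p.1} := by
  refine Df.ex (Df.ex (Df.and (Df.eq (DefMap.act 𝒜 ?_ ?_) ?_)
    (Df.and (Df.eq (DefMap.act 𝒜 ?_ ?_) ?_) (Df.eq ?_ ?_))))
  all_goals fun_prop


omit [Bad S] [DG Γ] in
private theorem act_inv_self (g : Γ) (x : S) : 𝒜.act g (𝒜.act g⁻¹ x) = x := by
  rw [← MulAut.mul_apply, ← map_mul, mul_inv_cancel, map_one, MulAut.one_apply]

omit [Bad S] [DG Γ] in
private theorem act_self_inv (g : Γ) (x : S) : 𝒜.act g⁻¹ (𝒜.act g x) = x := by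
  rw [← MulAut.mul_apply, ← map_mul, inv_mul_cancel, map_one, MulAut.one_apply]

/-- `act g⁻¹ (x v) = d x v`, and this is an `S`-conjugate of `x v` by `act_conj`. -/
theorem Ln_sub (hΓ : Conn (⊤ : Subgroup Γ))
    (hb : ∀ B : Subgroup S, Borel B → rk (B : Set S) = 1) (d x : S) : Ln 𝒜 d x ⊆ Xd d := by
  rintro y ⟨g, v, h1, h2, rfl⟩
  obtain ⟨s, hs⟩ := act_conj 𝒜 hΓ hb g⁻¹ (x * v)
  refine ⟨s, ?_⟩
  rw [← hs, map_mul, h1]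
  have h3 : 𝒜.act g⁻¹ v = v := by
    conv_lhs => rw [← h2]
    exact act_self_inv 𝒜 g v
  rw [h3, mul_assoc]

/-- For `g ∉ C` the group of the fixed points of `act g` is the Borel subgroup normalized by `g`
(`aut_exists`, `R_fix`, `fixes_of_mem`, `aut_unique`). -/
theorem fix_eq (hΓ : Conn (⊤ : Subgroup Γ))
    (hb : ∀ B : Subgroup S, Borel B → rk (B : Set S) = 1) {g : Γ} (hg : g ∉ 𝒜.C) :
    ∃ B : Subgroup S, Borel B ∧ g ∈ 𝒜.R B ∧ ∀ v, 𝒜.act g v = v ↔ v ∈ B := by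
  obtain ⟨B, hB, hgB⟩ := exists_R 𝒜 g
  refine ⟨B, hB, hgB, fun v => ⟨fun h => ?_, fun h => R_fix 𝒜 hΓ hB (hb B hB) hgB h⟩⟩
  by_cases hv : v = 1
  · rw [hv]
    exact B.one_mem
  have h1 : Fixes (𝒜.act g) (bo v) :=
    fixes_of_mem (bo_borel v) (act_defMap 𝒜 g) hv (mem_bo v) (by rw [h]; exact mem_bo v)
  have hne : 𝒜.act g ≠ 1 := fun h2 => hg h2
  have h2 := aut_unique (act_defMap 𝒜 g) hne (bo_borel v) hB h1 hgB
  rw [← h2]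
  exact mem_bo v

/-- The set of the `g` with `act g⁻¹ x = d x`. -/
private def Gs (d x : S) : Set Γ := {g | 𝒜.act g⁻¹ x = d * x}

private theorem Gs_eq (hΓ : Conn (⊤ : Subgroup Γ))
    (hb : ∀ B : Subgroup S, Borel B → rk (B : Set S) = 1) {d x : S} (hx : x ≠ 1) {g₀ : Γ}
    (h0 : g₀ ∈ Gs 𝒜 d x) : Gs 𝒜 d x = (fun r => r * g₀) '' (𝒜.R (bo x) : Set Γ) := by
  ext g
  constructor
  · intro hg
    refine ⟨g * g₀⁻¹, ?_, by group⟩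
    have h0' : 𝒜.act g₀⁻¹ x = d * x := h0
    have hg' : 𝒜.act g⁻¹ x = d * x := hg
    refine (act_eq_iff 𝒜 hΓ hb hx).mp ?_
    rw [map_mul, MulAut.mul_apply, h0', ← hg']
    exact act_inv_self 𝒜 g x
  · rintro ⟨r, hr, rfl⟩
    have h0' : 𝒜.act g₀⁻¹ x = d * x := h0
    have hr' : 𝒜.act r⁻¹ x = x := (act_eq_iff 𝒜 hΓ hb hx).mpr (inv_mem hr)
    change 𝒜.act (r * g₀)⁻¹ x = d * x
    rw [mul_inv_rev, map_mul, MulAut.mul_apply, hr', h0']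

private theorem Gs_not_C {d x : S} (hd : d ≠ 1) {g : Γ} (hg : g ∈ Gs 𝒜 d x) : g ∉ 𝒜.C := by
  intro hC
  have h1 : 𝒜.act g⁻¹ x = x := (mem_C 𝒜).mp (inv_mem hC) x
  have h2 : 𝒜.act g⁻¹ x = d * x := hg
  rw [h1] at h2
  exact hd (mul_eq_right.mp h2.symm)

/-- The pairs `(g, v)`. -/
private def Ws (d x : S) : Set (Γ × S) :=
  {p | 𝒜.act p.1⁻¹ x = d * x ∧ 𝒜.act p.1 p.2 = p.2 ∧ ¬ p.2 = 1}

private theorem Df_Ws (d x : S) : Df (Ws 𝒜 d x) := by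
  refine Df.and (Df.eq (DefMap.act 𝒜 ?_ ?_) ?_)
    (Df.and (Df.eq (DefMap.act 𝒜 ?_ ?_) ?_) (Df.not (Df.eq ?_ ?_)))
  all_goals fun_prop

private theorem borel_diff {B : Subgroup S} (hB : Borel B) (hb : rk (B : Set S) = 1) :
    Irr ((B : Set S) \ {1}) ∧ rk ((B : Set S) \ {1}) = 1 := by
  have hD : Df (B : Set S) := hB.1.1
  have hinf : (B : Set S).Infinite := by
    rw [← rk_pos_iff hD, hb]
    exact Nat.one_pos
  have hr : rk ((B : Set S) \ {1}) = rk (B : Set S) := rk_diff_singleton hD hinf 1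
  have hne : ((B : Set S) \ {1}).Nonempty := (hinf.sdiff (Set.finite_singleton 1)).nonempty
  have hD' : Df ((B : Set S) \ {1}) := by
    have h := Df.and (P := fun v : S => v ∈ (B : Set S)) (Q := fun v : S => ¬ v = 1)
      (Df.mem hD (by fun_prop)) (Df.not (Df.eq (by fun_prop) (by fun_prop)))
    exact h
  exact ⟨hB.1.irr.subset hD' Set.sdiff_subset hne hr, hr.trans hb⟩

omit [Bad S] [DG Γ] in
private theorem Ws_fib {d x : S} {B : Subgroup S} {g : Γ} (hg : g ∈ Gs 𝒜 d x)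
    (h : ∀ v, 𝒜.act g v = v ↔ v ∈ B) :
    {q | q ∈ Ws 𝒜 d x ∧ q.1 = g} = (fun v => (g, v)) '' ((B : Set S) \ {1}) := by
  ext ⟨k, v⟩
  constructor
  · rintro ⟨⟨h1, h2, h3⟩, h4⟩
    have h4' : k = g := h4
    subst h4'
    exact ⟨v, ⟨(h v).mp h2, h3⟩, rfl⟩
  · rintro ⟨w, ⟨h1, h2⟩, h3⟩
    have h3' : (g, w) = (k, v) := h3
    obtain ⟨rfl, rfl⟩ := Prod.mk.inj h3'
    exact ⟨⟨hg, (h w).mpr h1, h2⟩, rfl⟩

private theorem Ws_irr (hΓ : Conn (⊤ : Subgroup Γ))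
    (hb : ∀ B : Subgroup S, Borel B → rk (B : Set S) = 1) {d x : S} (hd : d ≠ 1)
    (hx : x ∈ Xd d) : Irr (Ws 𝒜 d x) ∧ rk (Ws 𝒜 d x) = rk (𝒜.R (bo x) : Set Γ) + 1 := by
  have hx1 : x ≠ 1 := ne_one_of_mem_Xd hd hx
  obtain ⟨s, hs⟩ := hx
  have h0 : 𝒜.ι s ∈ Gs 𝒜 d x := by
    change 𝒜.act (𝒜.ι s)⁻¹ x = d * x
    rw [← map_inv, 𝒜.act_ι, inv_inv, hs]
  have hG := Gs_eq 𝒜 hΓ hb hx1 h0
  have hRI : Irr (𝒜.R (bo x) : Set Γ) := (R_conn 𝒜 hΓ (bo_borel x)).irr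
  have hGI : Irr (Gs 𝒜 d x) := by
    rw [hG]
    exact hRI.map_inj (by fun_prop) (fun a _ b _ h => mul_right_cancel h)
  have hGr : rk (Gs 𝒜 d x) = rk (𝒜.R (bo x) : Set Γ) := by
    rw [hG]
    exact rk_mul_right _ hRI.1
  have hfib : ∀ g ∈ Gs 𝒜 d x, Irr {q | q ∈ Ws 𝒜 d x ∧ q.1 = g} ∧
      rk {q | q ∈ Ws 𝒜 d x ∧ q.1 = g} = 1 := by
    intro g hg
    obtain ⟨B, hB, -, hfix⟩ := fix_eq 𝒜 hΓ hb (Gs_not_C 𝒜 hd hg)
    obtain ⟨hi, hr⟩ := borel_diff hB (hb B hB)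
    rw [Ws_fib 𝒜 hg hfix]
    have hinj : Set.InjOn (fun v : S => (g, v)) ((B : Set S) \ {1}) :=
      fun a _ b _ h => (Prod.mk.inj h).2
    refine ⟨hi.map_inj (by fun_prop) hinj, ?_⟩
    rw [rk_image_inj hi.1 (by fun_prop) hinj, hr]
  have hfst : Prod.fst '' Ws 𝒜 d x = Gs 𝒜 d x := by
    ext g
    constructor
    · rintro ⟨p, ⟨h1, -, -⟩, rfl⟩
      exact h1
    · intro hg
      obtain ⟨q, hq, hq'⟩ := (hfib g hg).1.2.1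
      exact ⟨q, hq, hq'⟩
  have hWne : (Ws 𝒜 d x).Nonempty := by
    obtain ⟨q, hq, -⟩ := (hfib _ h0).1.2.1
    exact ⟨q, hq⟩
  refine ⟨Irr.of_map (Df_Ws 𝒜 d x) hWne (f := Prod.fst) (by fun_prop) ?_ 1 ?_, ?_⟩
  · rw [hfst]
    exact hGI
  · intro a ha
    exact hfib a.1 ha.1
  · rw [rk_map_eq (Df_Ws 𝒜 d x) (f := Prod.fst) (by fun_prop) hWne 1
      (fun a ha => (hfib a.1 ha.1).2), hfst, hGr]

private theorem Ws_fib2 (hΓ : Conn (⊤ : Subgroup Γ))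
    (hb : ∀ B : Subgroup S, Borel B → rk (B : Set S) = 1) {d x : S} (hd : d ≠ 1)
    (hx : x ≠ 1) {a : Γ × S} (ha : a ∈ Ws 𝒜 d x) :
    {q | q ∈ Ws 𝒜 d x ∧ x * q.2 = x * a.2} = (fun k => (k * a.1, a.2)) '' (𝒜.C : Set Γ) := by
  obtain ⟨g₁, v⟩ := a
  obtain ⟨h1, h2, h3⟩ := ha
  simp only at h1 h2 h3
  ext ⟨g, w⟩
  constructor
  · rintro ⟨⟨e1, e2, e3⟩, e4⟩
    simp only at e1 e2 e3 e4
    have e5 : w = v := mul_left_cancel e4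
    subst e5
    refine ⟨g * g₁⁻¹, ?_, ?_⟩
    · have hne : bo x ≠ bo w := by
        intro hbo
        have f1 : g₁ ∈ 𝒜.R (bo w) := (act_eq_iff 𝒜 hΓ hb h3).mp h2
        rw [← hbo] at f1
        have f2 : 𝒜.act g₁⁻¹ x = x := (act_eq_iff 𝒜 hΓ hb hx).mpr (inv_mem f1)
        rw [f2] at h1
        exact hd (mul_eq_right.mp h1.symm)
      have k1 : g * g₁⁻¹ ∈ 𝒜.R (bo x) := by
        refine (act_eq_iff 𝒜 hΓ hb hx).mp ?_
        rw [map_mul, MulAut.mul_apply, h1, ← e1]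
        exact act_inv_self 𝒜 g x
      have k2 : g * g₁⁻¹ ∈ 𝒜.R (bo w) := by
        refine (act_eq_iff 𝒜 hΓ hb h3).mp ?_
        have f3 : 𝒜.act g₁⁻¹ w = w := by
          conv_lhs => rw [← h2]
          exact act_self_inv 𝒜 g₁ w
        rw [map_mul, MulAut.mul_apply, f3, e2]
      exact mem_C_of_mem 𝒜 (bo_borel x) (bo_borel w) hne k1 k2
    · simp
  · rintro ⟨k, hk, hk'⟩
    have hk'' : (k * g₁, v) = (g, w) := hk'
    obtain ⟨rfl, rfl⟩ := Prod.mk.inj hk''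
    have hk1 : ∀ y, 𝒜.act k y = y := (mem_C 𝒜).mp hk
    have hk2 : ∀ y, 𝒜.act k⁻¹ y = y := (mem_C 𝒜).mp (inv_mem hk)
    refine ⟨⟨?_, ?_, h3⟩, rfl⟩
    · change 𝒜.act (k * g₁)⁻¹ x = d * x
      rw [mul_inv_rev, map_mul, MulAut.mul_apply, hk2, h1]
    · change 𝒜.act (k * g₁) v = v
      rw [map_mul, MulAut.mul_apply, hk1, h2]

/-- `ρ ≥ c + 1`: `rk Γ + 1 = rk S + ρ` (`rk_frattini`) and `rk Γ ≥ rk S + c`
(`rk_S_add_C`, `rk_mono`). -/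
private theorem rk_R_ge_aux (hb : ∀ B : Subgroup S, Borel B → rk (B : Set S) = 1)
    {B : Subgroup S} (hB : Borel B) : rk (𝒜.C : Set Γ) + 1 ≤ rk (𝒜.R B : Set Γ) := by
  have h1 := rk_frattini 𝒜 hB
  rw [hb B hB] at h1
  have h2 := rk_S_add_C 𝒜
  have h3 : rk {g : Γ | ∃ s : S, ∃ c ∈ 𝒜.C, g = 𝒜.ι s * c} ≤ rk (Set.univ : Set Γ) := by
    refine rk_mono ?_ (Df.const True) (fun _ _ => trivial)
    refine Df.ex (Df.exin (A := (𝒜.C : Set Γ)) (Df_C 𝒜) (Df.eq ?_ ?_))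
    · fun_prop
    · exact DefMap.mul (DefMap.comp 𝒜.d_ι (by fun_prop)) (by fun_prop)
  omega

/-- **The lines through `x` form an irreducible set** of rank `ρ + 1 - c` (`ρ = rk (R B)`, `c = rk C`). Let `x ∈ Xd d`, `d ≠ 1`, so `x ≠ 1`
(`ne_one_of_mem_Xd`). `G = {g | act g⁻¹ x = d x}` is nonempty (it contains `ι s` for `s⁻¹ x s = d x`) and a coset `g₀ ↦ r g₀`
(`r` fixes `x`: `act (r g₀)⁻¹ x = act g₀⁻¹ (act r⁻¹ x) = d x`), so `G = R(bo x) g₀` by `act_eq_iff`: it is irreducible of rank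
`rk (R (bo x))` (`R_conn`, `Conn.irr`, `Irr.map_inj`) and disjoint from `C`. Let
`W = {(g, v) | g ∈ G, act g v = v, v ≠ 1}`. For `g ∈ G` the fibre is `B_g \ {1}` with the Borel subgroup `B_g` of `fix_eq`: irreducible of rank
one (`Irr.subset`). So `W` is irreducible of rank `ρ + 1` (`Irr.of_map` for `Prod.fst`, `rk_map_eq`). The map `W → S`, `(g, v) ↦ x v` has
fibres over `x v`: `{g ∈ G | act g v = v}`, if `g₁` is in it: all `g` with `g g₁⁻¹ ∈ R (bo x) ⊓ R (bo v)`. `bo v ≠ bo x`: otherwise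
`g₁ ∈ R (bo v) = R (bo x)` fixes `x` and `d x = x`. So the fibre is the coset `C g₁` (`mem_C_of_mem`, `C_le_R`), of rank `c`. By `Irr.map`
and `rk_map_eq` the image `Ln d x \ {x}` is irreducible of rank `ρ + 1 - c`, and this is `≥ 1`
(`ρ ≥ 1 + c`, see `rk_Ln_ge`), so `Ln d x = (Ln d x \ {x}) ∪ {x}` is irreducible of the same rank (`Irr.superset`; `x ∈ Ln d x` with
`v = 1`). All `rk (R B)` are equal by `rk_frattini` and `rk_borel_eq`. -/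
theorem Ln_irr (hΓ : Conn (⊤ : Subgroup Γ))
    (hb : ∀ B : Subgroup S, Borel B → rk (B : Set S) = 1) {d x : S} (hd : d ≠ 1)
    (hx : x ∈ Xd d) {B : Subgroup S} (hB : Borel B) :
    Irr (Ln 𝒜 d x) ∧ rk (Ln 𝒜 d x) + rk (𝒜.C : Set Γ) = rk (𝒜.R B : Set Γ) + 1 := by
  have hx1 : x ≠ 1 := ne_one_of_mem_Xd hd hx
  obtain ⟨hWI, hWr⟩ := Ws_irr 𝒜 hΓ hb hd hx
  have hfib : ∀ a ∈ Ws 𝒜 d x,
      rk {q | q ∈ Ws 𝒜 d x ∧ x * q.2 = x * a.2} = rk (𝒜.C : Set Γ) := by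
    intro a ha
    rw [Ws_fib2 𝒜 hΓ hb hd hx1 ha]
    refine rk_image_inj (Df_C 𝒜) (by fun_prop) ?_
    intro k _ l _ h
    exact mul_right_cancel (Prod.mk.inj h).1
  have hfD : DefMap (fun q : Γ × S => x * q.2) := by fun_prop
  have hI : Irr ((fun q : Γ × S => x * q.2) '' Ws 𝒜 d x) := hWI.map hfD _ hfib
  have hr := rk_map_eq hWI.1 hfD hWI.2.1 _ hfib
  have hRe : rk (𝒜.R B : Set Γ) = rk (𝒜.R (bo x) : Set Γ) := by
    have e1 := rk_frattini 𝒜 hB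
    have e2 := rk_frattini 𝒜 (bo_borel x)
    rw [hb B hB] at e1
    rw [hb _ (bo_borel x)] at e2
    omega
  have hge := rk_R_ge_aux 𝒜 hb (bo_borel x)
  have hsub : (fun q : Γ × S => x * q.2) '' Ws 𝒜 d x ⊆ Ln 𝒜 d x := by
    rintro _ ⟨⟨g, v⟩, ⟨h1, h2, -⟩, rfl⟩
    exact ⟨g, v, h1, h2, rfl⟩
  have hdiff : Ln 𝒜 d x \ ((fun q : Γ × S => x * q.2) '' Ws 𝒜 d x) ⊆ {x} := by
    rintro y ⟨⟨g, v, h1, h2, rfl⟩, hn⟩
    by_cases hv : v = 1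
    · rw [hv, mul_one]
      rfl
    · exact absurd ⟨(g, v), ⟨h1, h2, hv⟩, rfl⟩ hn
  have hd0 : rk (Ln 𝒜 d x \ ((fun q : Γ × S => x * q.2) '' Ws 𝒜 d x)) = 0 :=
    rk_of_finite ((Set.finite_singleton x).subset hdiff)
  obtain ⟨hL1, hL2⟩ := hI.superset (Df_Ln 𝒜 d x) hsub (by omega)
  exact ⟨hL1, by omega⟩

/-- `ρ ≥ c + 1`: `rk Γ + 1 = rk S + ρ` (`rk_frattini`) and `rk Γ ≥ rk S + c` (`rk_S_add_C`, `rk_mono`). -/
theorem rk_R_ge (hb : ∀ B : Subgroup S, Borel B → rk (B : Set S) = 1) {B : Subgroup S}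
    (hB : Borel B) : rk (𝒜.C : Set Γ) + 1 ≤ rk (𝒜.R B : Set Γ) :=
  rk_R_ge_aux 𝒜 hb hB

theorem rk_Ln_ge (hΓ : Conn (⊤ : Subgroup Γ))
    (hb : ∀ B : Subgroup S, Borel B → rk (B : Set S) = 1) {d x : S} (hd : d ≠ 1)
    (hx : x ∈ Xd d) : 2 ≤ rk (Ln 𝒜 d x) := by
  have h1 := (Ln_irr 𝒜 hΓ hb hd hx (bo_borel x)).2
  have h2 := rk_R_ge 𝒜 hb (bo_borel x)
  omega

end Pool.Agent.BadG
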