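import Pool.Agent.BadG.Cc
import Pool.Agent.BadG.Orbit

set_option autoImplicit false

/-! BG13. Nilpotent definable groups: the upper central series, infinite normal subgroups meet the
centre in an infinite group. -/

namespace Pool.Agent.BadG

open Function

variable {X : Type} [RU X] {E : Type} [RS X E] [Group E] [DG E]

theorem uc_zero (H : Subgroup E) : uc H 0 = ⊥ := by
  rw [uc, Subgroup.upperCentralSeries_zero, Subgroup.map_bot]

theorem mem_uc_succ {H : Subgroup E} {i : ℕ} {x : E} :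
    x ∈ uc H (i + 1) ↔ x ∈ H ∧ ∀ y ∈ H, x * y * x⁻¹ * y⁻¹ ∈ uc H i := by
  constructor
  · rintro ⟨a, ha, rfl⟩
    refine ⟨a.2, fun y hy => ?_⟩
    exact ⟨a * ⟨y, hy⟩ * a⁻¹ * ⟨y, hy⟩⁻¹,
      Subgroup.mem_upperCentralSeries_succ_iff.1 ha ⟨y, hy⟩, rfl⟩
  · rintro ⟨hx, h⟩
    refine ⟨⟨x, hx⟩, Subgroup.mem_upperCentralSeries_succ_iff.2 fun y => ?_, rfl⟩
    obtain ⟨z, hz, hzx⟩ := h y.1 y.2
    have h1 : z = ⟨x, hx⟩ * y * ⟨x, hx⟩⁻¹ * y⁻¹ := Subtype.ext hzx
    rw [h1] at hz
    exact hz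

theorem uc_le (H : Subgroup E) (i : ℕ) : uc H i ≤ H :=
  Subgroup.map_subtype_le _

theorem uc_mono (H : Subgroup E) {i j : ℕ} (h : i ≤ j) : uc H i ≤ uc H j :=
  Subgroup.map_mono (Subgroup.upperCentralSeries_mono H h)

theorem uc_eq_of_nil {H : Subgroup E} (h : Group.IsNilpotent H) : ∃ c, uc H c = H := by
  obtain ⟨c, hc⟩ := Group.IsNilpotent.nilpotent (G := H)
  refine ⟨c, ?_⟩
  rw [uc, hc, ← MonoidHom.range_eq_map, Subgroup.range_subtype]

/-- By induction with `mem_uc_succ`. -/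
theorem uc_Df {H : Subgroup E} (hH : Df (H : Set E)) (i : ℕ) : Df (uc H i : Set E) := by
  induction i with
  | zero =>
    rw [uc_zero]
    exact Df.bot
  | succ i ih =>
    have h1 : (uc H (i + 1) : Set E) =
        {x | x ∈ (H : Set E) ∧ ∀ y ∈ (H : Set E), x * y * x⁻¹ * y⁻¹ ∈ (uc H i : Set E)} := by
      ext x
      exact mem_uc_succ
    rw [h1]
    exact Df.and (Df.mem hH (by fun_prop)) (Df.allin hH (Df.mem ih (by fun_prop)))

/-- `uc H i` is invariant under the automorphisms of `E` which leave `H` invariant (induction). -/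
theorem uc_invariant {H : Subgroup E} {α : MulAut E} (h : ∀ x, α x ∈ H ↔ x ∈ H) (i : ℕ) (x : E) :
    α x ∈ uc H i ↔ x ∈ uc H i := by
  induction i generalizing x with
  | zero =>
    rw [uc_zero, Subgroup.mem_bot, Subgroup.mem_bot]
    exact map_eq_one_iff α α.injective
  | succ i ih =>
    rw [mem_uc_succ, mem_uc_succ, h x]
    refine and_congr_right fun _ => ?_
    constructor
    · intro h1 y hy
      have h2 := h1 (α y) ((h y).2 hy)
      rw [← ih]
      simpa only [map_mul, map_inv] using h2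
    · intro h1 y hy
      obtain ⟨z, rfl⟩ := α.surjective y
      have h2 := (ih _).2 (h1 z ((h z).1 hy))
      simpa only [map_mul, map_inv] using h2

/-- A map from `H` with values in a finite set whose fibres are contained in left cosets of `K`. -/
private theorem relIndex_ne_zero_of_map {β : Type} {H K : Subgroup E} (f : E → β) {D : Set β}
    (hD : D.Finite) (h1 : ∀ g ∈ H, f g ∈ D)
    (h2 : ∀ g ∈ H, ∀ g' ∈ H, f g = f g' → g⁻¹ * g' ∈ K) : K.relIndex H ≠ 0 := by
  have := hD.to_subtype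
  let F : H ⧸ K.subgroupOf H → D := fun q => ⟨f (q.out : E), h1 _ q.out.2⟩
  have hF : Injective F := by
    intro q q' h
    have h3 : f (q.out : E) = f (q'.out : E) := congrArg Subtype.val h
    have h4 := h2 _ q.out.2 _ q'.out.2 h3
    have h5 : (QuotientGroup.mk q.out : H ⧸ K.subgroupOf H) = QuotientGroup.mk q'.out :=
      QuotientGroup.eq.2 h4
    rwa [QuotientGroup.out_eq', QuotientGroup.out_eq'] at h5
  have := Finite.of_injective F hF
  exact Subgroup.index_ne_zero_of_finite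

/-- A subgroup of finite index of an infinite group is infinite. -/
private theorem infinite_of_relIndex {A K : Subgroup E} (hA : (A : Set E).Infinite)
    (h : K.relIndex A ≠ 0) : {z | z ∈ A ∧ z ∈ K}.Infinite := by
  intro hfin
  apply hA
  have h1 : Finite (K.subgroupOf A) := by
    have := hfin.to_subtype
    refine Finite.of_injective (fun z : K.subgroupOf A =>
      (⟨(z : A), (z : A).2, z.2⟩ : {z | z ∈ A ∧ z ∈ K})) fun z z' hz => ?_
    have h2 := congrArg (fun y : {z | z ∈ A ∧ z ∈ K} => (y : E)) hz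
    exact Subtype.ext (Subtype.ext h2)
  have h2 : Finite (A ⧸ K.subgroupOf A) := by
    have : (K.subgroupOf A).FiniteIndex := ⟨h⟩
    exact Subgroup.finite_quotient_of_finiteIndex
  have h3 : Finite A := Finite.of_subgroup_quotient (K.subgroupOf A)
  exact Set.toFinite _

/-- **Infinite normal subgroups meet the centre in an infinite group.** Let `i` be minimal such that
`A ⊓ uc H i` is infinite (`uc_eq_of_nil`), `i = j + 1` (`uc_zero`), and `D = A ⊓ uc H j`, which is
finite, `A' = A ⊓ uc H (j + 1)`. For `a ∈ A'`, `h ∈ H`: `a h a⁻¹ h⁻¹ ∈ D` (in `A` as `A` is normal,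
in `uc H j` by `mem_uc_succ`).
(1) For `a ∈ A'` the map `h ↦ a h a⁻¹ h⁻¹` from `H` takes values in the finite set `D` and its
fibres are left cosets of the centralizer of `a` in `H`, so this has finite index (or: `rk_orbit`
gives equal ranks, `relIndex_ne_zero_of_rk`) and contains `cc H` (`cc_le_of`). So `cc H`
centralizes `A'`.
(2) For `h ∈ H` the map `a ↦ a h a⁻¹ h⁻¹` from `A'` to the finite set `D` has left cosets of
`C_{A'}(h)` as fibres: `C_{A'}(h)` has finite index in `A'`.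
(3) `H` is the union of finitely many cosets `h_k (cc H)` (`cc_mem`). An element of `A'` which
commutes with all `h_k` commutes with `H` by (1). These elements form a finite intersection of
subgroups of finite index of the infinite group `A'` (`Subgroup.relIndex_iInf_ne_zero`), so they
are infinitely many. -/
theorem inf_centre {H A : Subgroup E} (hH : Df (H : Set E)) (hA : Df (A : Set E))
    (hnil : Group.IsNilpotent H) (hle : A ≤ H) (hn : ∀ h ∈ H, ∀ a ∈ A, h * a * h⁻¹ ∈ A)
    (hinf : (A : Set E).Infinite) : {z | z ∈ A ∧ ∀ h ∈ H, z * h = h * z}.Infinite := by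
  classical
  have hex : ∃ i, ((A ⊓ uc H i : Subgroup E) : Set E).Infinite := by
    obtain ⟨c, hc⟩ := uc_eq_of_nil hnil
    exact ⟨c, by rwa [hc, inf_eq_left.2 hle]⟩
  obtain ⟨j, hj⟩ : ∃ j, Nat.find hex = j + 1 := by
    refine Nat.exists_eq_succ_of_ne_zero fun h0 => ?_
    have h1 := Nat.find_spec hex
    rw [h0, uc_zero, inf_bot_eq] at h1
    exact h1 (Set.finite_singleton _)
  have hA' : ((A ⊓ uc H (j + 1) : Subgroup E) : Set E).Infinite := by
    have h1 := Nat.find_spec hex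
    rwa [hj] at h1
  have hD : ((A ⊓ uc H j : Subgroup E) : Set E).Finite := by
    have h1 := Nat.find_min hex (m := j) (by omega)
    exact Set.not_infinite.1 h1
  have hcom : ∀ a ∈ A ⊓ uc H (j + 1), ∀ h ∈ H, a * h * a⁻¹ * h⁻¹ ∈ A ⊓ uc H j := by
    intro a ha h hh
    refine ⟨?_, (mem_uc_succ.1 ha.2).2 h hh⟩
    have h1 := A.mul_mem ha.1 (hn h hh _ (A.inv_mem ha.1))
    have h2 : a * (h * a⁻¹ * h⁻¹) = a * h * a⁻¹ * h⁻¹ := by group
    rwa [h2] at h1
  have h1 : ∀ a ∈ A ⊓ uc H (j + 1), ∀ h ∈ cc H, a * h = h * a := by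
    intro a ha h hh
    have h2 : (Subgroup.centralizer {a} ⊓ H).relIndex H ≠ 0 := by
      refine relIndex_ne_zero_of_map (fun h => a * h * a⁻¹ * h⁻¹) hD
        (fun h hh => hcom a ha h hh) fun g hg g' hg' he => ?_
      refine ⟨?_, H.mul_mem (H.inv_mem hg) hg'⟩
      refine Subgroup.mem_centralizer_singleton_iff.2 ?_
      have h3 : g * a⁻¹ * g⁻¹ = g' * a⁻¹ * g'⁻¹ := by
        have h4 : a * (g * a⁻¹ * g⁻¹) = a * (g' * a⁻¹ * g'⁻¹) := by
          simpa only [mul_assoc] using he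
        exact mul_left_cancel h4
      have h5 : g⁻¹ * g' * a⁻¹ = a⁻¹ * (g⁻¹ * g') := by
        calc g⁻¹ * g' * a⁻¹ = g⁻¹ * (g' * a⁻¹ * g'⁻¹) * g' := by group
          _ = g⁻¹ * (g * a⁻¹ * g⁻¹) * g' := by rw [h3]
          _ = a⁻¹ * (g⁻¹ * g') := by group
      calc g⁻¹ * g' * a = a * (a⁻¹ * (g⁻¹ * g')) * a := by group
        _ = a * (g⁻¹ * g' * a⁻¹) * a := by rw [h5]
        _ = a * (g⁻¹ * g') := by group
    have h3 : cc H ≤ Subgroup.centralizer {a} ⊓ H :=
      cc_le_of inf_le_right (Df.inf (Df.centralizer (Df.singleton a)) hH) h2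
    exact (Subgroup.mem_centralizer_singleton_iff.1 (h3 hh).1).symm
  have h2 : ∀ h ∈ H, (Subgroup.centralizer {h}).relIndex (A ⊓ uc H (j + 1)) ≠ 0 := by
    intro h hh
    refine relIndex_ne_zero_of_map (fun a => a * h * a⁻¹ * h⁻¹) hD
      (fun a ha => hcom a ha h hh) fun g hg g' hg' he => ?_
    rw [Subgroup.mem_centralizer_singleton_iff]
    have h3 : g * h * g⁻¹ = g' * h * g'⁻¹ := mul_right_cancel he
    calc g⁻¹ * g' * h = g⁻¹ * (g' * h * g'⁻¹) * g' := by group
      _ = g⁻¹ * (g * h * g⁻¹) * g' := by rw [h3]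
      _ = h * (g⁻¹ * g') := by group
  have h3 : Finite (H ⧸ (cc H).subgroupOf H) := by
    have : ((cc H).subgroupOf H).FiniteIndex := ⟨(cc_mem hH).2.2⟩
    exact Subgroup.finite_quotient_of_finiteIndex
  have h4 : (⨅ q : H ⧸ (cc H).subgroupOf H, Subgroup.centralizer {(q.out : E)}).relIndex
      (A ⊓ uc H (j + 1)) ≠ 0 := Subgroup.relIndex_iInf_ne_zero fun q => h2 _ q.out.2
  refine (infinite_of_relIndex hA' h4).mono ?_
  rintro z ⟨hz, hzq⟩
  refine ⟨hz.1, fun h hh => ?_⟩
  rw [Subgroup.mem_iInf] at hzq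
  have h5 := hzq (QuotientGroup.mk ⟨h, hh⟩)
  rw [Subgroup.mem_centralizer_singleton_iff] at h5
  set q : H ⧸ (cc H).subgroupOf H := QuotientGroup.mk ⟨h, hh⟩ with hq
  have h6 : (q.out : E)⁻¹ * h ∈ cc H := by
    have h7 : (QuotientGroup.mk q.out : H ⧸ (cc H).subgroupOf H) =
        QuotientGroup.mk (⟨h, hh⟩ : H) := by
      rw [QuotientGroup.out_eq']
    have h8 := QuotientGroup.eq.1 h7
    exact h8
  have h7 := h1 z hz _ h6
  calc z * h = z * (q.out : E) * ((q.out : E)⁻¹ * h) := by group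
    _ = (q.out : E) * z * ((q.out : E)⁻¹ * h) := by rw [h5]
    _ = (q.out : E) * (z * ((q.out : E)⁻¹ * h)) := by group
    _ = (q.out : E) * ((q.out : E)⁻¹ * h * z) := by rw [h7]
    _ = h * z := by group

/-- A nontrivial nilpotent subgroup has an element `≠ 1` which commutes with all its elements. -/
theorem exists_central {H : Subgroup E} (hnil : Group.IsNilpotent H) (h : H ≠ ⊥) :
    ∃ z ∈ H, z ≠ 1 ∧ ∀ x ∈ H, z * x = x * z := by
  classical
  have hex : ∃ i, uc H i ≠ ⊥ := by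
    obtain ⟨c, hc⟩ := uc_eq_of_nil hnil
    exact ⟨c, by rwa [hc]⟩
  obtain ⟨j, hj⟩ : ∃ j, Nat.find hex = j + 1 := by
    refine Nat.exists_eq_succ_of_ne_zero fun h0 => ?_
    have h1 := Nat.find_spec hex
    rw [h0] at h1
    exact h1 (uc_zero H)
  have h1 : uc H (j + 1) ≠ ⊥ := by
    have h1 := Nat.find_spec hex
    rwa [hj] at h1
  have h2 : uc H j = ⊥ := by
    have h1 := Nat.find_min hex (m := j) (by omega)
    exact not_not.1 h1
  obtain ⟨z, hz, hz1⟩ := (uc H (j + 1)).ne_bot_iff_exists_ne_one.1 h1 |>.elim fun z hz =>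
    (⟨z.1, z.2, fun h => hz (Subtype.ext h)⟩ : ∃ z, z ∈ uc H (j + 1) ∧ z ≠ 1)
  refine ⟨z, (mem_uc_succ.1 hz).1, hz1, fun x hx => ?_⟩
  have h3 := (mem_uc_succ.1 hz).2 x hx
  rw [h2, Subgroup.mem_bot] at h3
  calc z * x = z * x * z⁻¹ * x⁻¹ * (x * z) := by group
    _ = x * z := by rw [h3, one_mul]

end Pool.Agent.BadG
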