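import Pool.Agent.BadG.LDefs
import Pool.Agent.BadG.Calc

set_option autoImplicit false

/-! BG36. Mathlib's definable sets with a rank function form a ranked universe; the sorts of
embedded groups. -/

namespace Pool.Agent.BadG

open Function

universe u v

section Univ

variable {L : FirstOrder.Language.{u, v}} {X : Type} [L.Structure X]

theorem DFn.inter {α : Type} {s t : Set (α → X)} (hs : DFn L s) (ht : DFn L t) : DFn L (s ∩ t) :=
  Set.Definable.inter hs ht

/-- `Set.Definable.preimage_comp`. -/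
theorem DFn.pre {α β : Type} (f : α → β) {s : Set (α → X)} (hs : DFn L s) :
    DFn L ((fun g : β → X => g ∘ f) ⁻¹' s) :=
  Set.Definable.preimage_comp f hs

/-- `Set.Definable.image_comp`. -/
theorem DFn.im {α β : Type} [Finite α] [Finite β] (f : α → β) {s : Set (β → X)} (hs : DFn L s) :
    DFn L ((fun g : β → X => g ∘ f) '' s) :=
  Set.Definable.image_comp hs f

theorem DFn.eq : DFn L {v : Fin 2 → X | v 0 = v 1} :=
  Set.Definable.diagonal L Set.univ

theorem DFn.const (a : X) : DFn L {v : Fin 1 → X | v 0 = a} :=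
  Set.Definable.singleton_of_mem L (Set.mem_univ a)

/-- The ranked universe. -/
@[instance_reducible]
def toRU (ℛ : RankFn L X) : RU X where
  D := fun A => DFn L A
  D_inter := DFn.inter
  D_compl := fun h => Set.Definable.compl h
  D_pre := DFn.pre
  D_im := DFn.im
  D_eq := DFn.eq
  D_const := DFn.const
  rk := ℛ.rk
  rk_succ := ℛ.rk_succ
  D_rk := ℛ.D_rk
  rk_add := ℛ.rk_add

end Univ

section Sorts

variable {X : Type} [RU X]

theorem D_univ {α : Type} : RU.D (Set.univ : Set (α → X)) := by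
  obtain ⟨s, hs⟩ : ∃ s : Set (α → X), RU.D s := by
    rcases isEmpty_or_nonempty α with h | ⟨⟨a⟩⟩
    · exact ⟨_, RU.D_im (fun x : α => isEmptyElim x) (RU.D_eq (X := X))⟩
    · exact ⟨_, RU.D_pre (fun _ : Fin 2 => a) (RU.D_eq (X := X))⟩
  have h := RU.D_compl (RU.D_inter hs (RU.D_compl hs))
  rwa [Set.inter_compl_self, Set.compl_empty] at h

/-- The structure itself as a sort. -/
@[instance_reducible]
def selfSort (X : Type) [RU X] : RS X X where
  ix := Fin 1
  fin := inferInstance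
  code x := fun _ => x
  inj := fun _ _ h => congrFun h 0
  rng := by
    have h : Set.range (fun x : X => fun _ : Fin 1 => x) = Set.univ := by
      ext v
      simp only [Set.mem_range, Set.mem_univ, iff_true]
      refine ⟨v 0, ?_⟩
      funext k
      rw [Subsingleton.elim k 0]
    rw [h]
    exact D_univ

omit [RU X] in
private theorem code_image {E : Type} (i : E → X) (A : Set E) :
    (fun e : E => fun _ : Fin 1 => i e) '' A = {v : Fin 1 → X | v 0 ∈ i '' A} := by
  ext v
  constructor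
  · rintro ⟨e, he, rfl⟩
    exact ⟨e, he, rfl⟩
  · rintro ⟨e, he, h⟩
    refine ⟨e, he, ?_⟩
    funext k
    rw [Subsingleton.elim k 0]
    exact h

/-- A type embedded in the structure as a sort. -/
@[instance_reducible]
def injSort {E : Type} (i : E → X) (hi : Injective i)
    (h : RU.D {v : Fin 1 → X | v 0 ∈ i '' (Set.univ : Set E)}) : RS X E where
  ix := Fin 1
  fin := inferInstance
  code e := fun _ => i e
  inj := fun _ _ h => hi (congrFun h 0)
  rng := by
    have h1 : Set.range (fun e : E => fun _ : Fin 1 => i e) =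
        {v : Fin 1 → X | v 0 ∈ i '' (Set.univ : Set E)} := by
      rw [← Set.image_univ]
      exact code_image i Set.univ
    rw [h1]
    exact h

/-- Definable subsets of the sort of `E`: `code '' A = {v | v 0 ∈ i '' A}`. -/
theorem Df_injSort {E : Type} (i : E → X) (hi : Injective i)
    (h : RU.D {v : Fin 1 → X | v 0 ∈ i '' (Set.univ : Set E)}) (A : Set E) :
    @Df X _ E (injSort i hi h) A ↔ RU.D {v : Fin 1 → X | v 0 ∈ i '' A} := by
  rw [← code_image i A]
  exact Iff.rfl

open Classical in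
theorem rk_injSort {E : Type} (i : E → X) (hi : Injective i)
    (h : RU.D {v : Fin 1 → X | v 0 ∈ i '' (Set.univ : Set E)}) (A : Set E) :
    @rk X _ E (injSort i hi h) A =
      if A.Nonempty then RU.rk {v : Fin 1 → X | v 0 ∈ i '' A} else 0 := by
  rw [← code_image i A]
  rfl

variable [Group X]

/-- The graph of the multiplication is a set of `RU.D_pre` type. -/
theorem dg_selfSort (hmul : RU.D {v : Fin 3 → X | v 0 * v 1 = v 2}) :
    @DG X _ X (selfSort X) _ := by
  let _ := selfSort X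
  refine ⟨?_⟩
  have h1 : RS.code '' {p : (X × X) × X | (fun q : X × X => q.1 * q.2) p.1 = p.2} =
      (fun v : (Fin 1 ⊕ Fin 1) ⊕ Fin 1 → X =>
        v ∘ ![Sum.inl (Sum.inl 0), Sum.inl (Sum.inr 0), Sum.inr 0]) ⁻¹'
        {v : Fin 3 → X | v 0 * v 1 = v 2} := by
    ext v
    constructor
    · rintro ⟨p, hp, rfl⟩
      exact hp
    · intro hv
      refine ⟨((v (Sum.inl (Sum.inl (0 : Fin 1))), v (Sum.inl (Sum.inr (0 : Fin 1)))),
        v (Sum.inr (0 : Fin 1))), hv, ?_⟩
      funext k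
      rcases k with (k | k) | k
      · exact congrArg (fun t => v (Sum.inl (Sum.inl t))) (Subsingleton.elim (α := Fin 1) 0 k)
      · exact congrArg (fun t => v (Sum.inl (Sum.inr t))) (Subsingleton.elim (α := Fin 1) 0 k)
      · exact congrArg (fun t => v (Sum.inr t)) (Subsingleton.elim (α := Fin 1) 0 k)
  unfold DefMap Df
  rw [h1]
  exact RU.D_pre _ hmul

theorem dg_injSort (hmul : RU.D {v : Fin 3 → X | v 0 * v 1 = v 2}) {E : Type} [Group E]
    (i : E →* X) (hi : Injective i)
    (h : RU.D {v : Fin 1 → X | v 0 ∈ i '' (Set.univ : Set E)}) :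
    @DG X _ E (injSort i hi h) _ := by
  let _ := injSort i hi h
  refine ⟨?_⟩
  have h1 : RS.code '' {p : (E × E) × E | (fun q : E × E => q.1 * q.2) p.1 = p.2} =
      ((fun v : (Fin 1 ⊕ Fin 1) ⊕ Fin 1 → X =>
        v ∘ ![Sum.inl (Sum.inl 0), Sum.inl (Sum.inr 0), Sum.inr 0]) ⁻¹'
        {v : Fin 3 → X | v 0 * v 1 = v 2}) ∩
      (((fun v : (Fin 1 ⊕ Fin 1) ⊕ Fin 1 → X => v ∘ fun _ : Fin 1 => Sum.inl (Sum.inl 0)) ⁻¹'
        {v : Fin 1 → X | v 0 ∈ i '' (Set.univ : Set E)}) ∩
      (((fun v : (Fin 1 ⊕ Fin 1) ⊕ Fin 1 → X => v ∘ fun _ : Fin 1 => Sum.inl (Sum.inr 0)) ⁻¹'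
        {v : Fin 1 → X | v 0 ∈ i '' (Set.univ : Set E)}) ∩
      ((fun v : (Fin 1 ⊕ Fin 1) ⊕ Fin 1 → X => v ∘ fun _ : Fin 1 => Sum.inr 0) ⁻¹'
        {v : Fin 1 → X | v 0 ∈ i '' (Set.univ : Set E)}))) := by
    ext v
    constructor
    · rintro ⟨p, hp, rfl⟩
      refine ⟨?_, ⟨p.1.1, trivial, rfl⟩, ⟨p.1.2, trivial, rfl⟩, ⟨p.2, trivial, rfl⟩⟩
      change i p.1.1 * i p.1.2 = i p.2
      rw [← map_mul]
      exact congrArg i hp
    · rintro ⟨h0, ⟨a, -, ha⟩, ⟨b, -, hb⟩, ⟨c, -, hc⟩⟩
      refine ⟨((a, b), c), ?_, ?_⟩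
      · change a * b = c
        apply hi
        rw [map_mul, ha, hb, hc]
        exact h0
      funext k
      rcases k with (k | k) | k
      · cases Subsingleton.elim (α := Fin 1) 0 k
        exact ha
      · cases Subsingleton.elim (α := Fin 1) 0 k
        exact hb
      · cases Subsingleton.elim (α := Fin 1) 0 k
        exact hc
  unfold DefMap Df
  rw [h1]
  exact RU.D_inter (RU.D_pre _ hmul) (RU.D_inter (RU.D_pre _ h) (RU.D_inter (RU.D_pre _ h)
    (RU.D_pre _ h)))

omit [Group X] in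
theorem defMap_injSort {E : Type} (i : E → X) (hi : Injective i)
    (h : RU.D {v : Fin 1 → X | v 0 ∈ i '' (Set.univ : Set E)}) :
    @DefMap X _ E X (injSort i hi h) (selfSort X) i := by
  let _ := injSort i hi h
  let _ := selfSort X
  have h1 : RS.code '' {p : E × X | i p.1 = p.2} =
      ((fun v : Fin 1 ⊕ Fin 1 → X => v ∘ ![Sum.inl 0, Sum.inr 0]) ⁻¹'
        {v : Fin 2 → X | v 0 = v 1}) ∩
      ((fun v : Fin 1 ⊕ Fin 1 → X => v ∘ fun _ : Fin 1 => Sum.inl 0) ⁻¹'
        {v : Fin 1 → X | v 0 ∈ i '' (Set.univ : Set E)}) := by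
    ext v
    constructor
    · rintro ⟨p, hp, rfl⟩
      exact ⟨hp, ⟨p.1, trivial, rfl⟩⟩
    · rintro ⟨h0, ⟨a, -, ha⟩⟩
      refine ⟨(a, v (Sum.inr (0 : Fin 1))), ?_, ?_⟩
      · exact ha.trans h0
      funext k
      rcases k with k | k
      · cases Subsingleton.elim (α := Fin 1) 0 k
        exact ha
      · cases Subsingleton.elim (α := Fin 1) 0 k
        rfl
  unfold DefMap Df
  rw [h1]
  exact RU.D_inter (RU.D_pre _ RU.D_eq) (RU.D_pre _ h)

omit [Group X] in
/-- Definable maps between embedded types, in terms of the graph. -/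
theorem defMap_inj_inj {E F : Type} (i : E → X) (hi : Injective i)
    (h : RU.D {v : Fin 1 → X | v 0 ∈ i '' (Set.univ : Set E)}) (j : F → X) (hj : Injective j)
    (h' : RU.D {v : Fin 1 → X | v 0 ∈ j '' (Set.univ : Set F)}) (f : E → F) :
    @DefMap X _ E F (injSort i hi h) (injSort j hj h') f ↔
      RU.D {v : Fin 2 → X | ∃ e, v 0 = i e ∧ v 1 = j (f e)} := by
  let _ := injSort i hi h
  let _ := injSort j hj h'
  have h1 : RS.code '' {p : E × F | f p.1 = p.2} =
      (fun v : Fin 1 ⊕ Fin 1 → X => v ∘ ![Sum.inl 0, Sum.inr 0]) ⁻¹'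
        {v : Fin 2 → X | ∃ e, v 0 = i e ∧ v 1 = j (f e)} := by
    ext v
    constructor
    · rintro ⟨p, hp, rfl⟩
      exact ⟨p.1, rfl, congrArg j (Eq.symm hp)⟩
    · rintro ⟨e, h0, h1⟩
      refine ⟨(e, f e), rfl, ?_⟩
      funext k
      rcases k with k | k
      · cases Subsingleton.elim (α := Fin 1) 0 k
        exact h0.symm
      · cases Subsingleton.elim (α := Fin 1) 0 k
        exact h1.symm
  have h2 : {v : Fin 2 → X | ∃ e, v 0 = i e ∧ v 1 = j (f e)} =
      (fun v : Fin 2 → X => v ∘ Sum.elim (fun _ : Fin 1 => (0 : Fin 2)) (fun _ : Fin 1 => 1)) ⁻¹'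
        (RS.code '' {p : E × F | f p.1 = p.2}) := by
    rw [h1]
    rfl
  unfold DefMap Df
  constructor
  · intro hd
    rw [h2]
    exact RU.D_pre _ hd
  · intro hd
    rw [h1]
    exact RU.D_pre _ hd

end Sorts

end Pool.Agent.BadG
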