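import Pool.Agent.BadG.ActBasic

set_option autoImplicit false

/-! BG27. The stabilizers of the Borel subgroups are connected. -/

namespace Pool.Agent.BadG

open Function

variable {X : Type} [RU X] {Γ S : Type} [RS X Γ] [RS X S] [Group Γ] [Group S] [Bad S] [DG Γ]
  (𝒜 : Act Γ S)

omit [Bad S] [DG Γ] in
private theorem range_normal : (𝒜.ι.range).Normal := by
  refine ⟨?_⟩
  rintro _ ⟨s, rfl⟩ g
  exact ⟨𝒜.act g s, (𝒜.conj_ι g s).symm⟩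

omit [Bad S] [DG Γ] in
private theorem sup_coe (C : Subgroup Γ) : ((𝒜.ι.range ⊔ C : Subgroup Γ) : Set Γ) =
    {g | ∃ s : S, ∃ c ∈ (C : Set Γ), g = 𝒜.ι s * c} := by
  have := range_normal 𝒜
  rw [Subgroup.normal_mul]
  ext g
  simp only [Set.mem_mul, Set.mem_ofPred_eq, SetLike.mem_coe, MonoidHom.mem_range]
  constructor
  · rintro ⟨_, ⟨s, rfl⟩, c, hc, rfl⟩
    exact ⟨s, c, hc, rfl⟩
  · rintro ⟨s, c, hc, rfl⟩
    exact ⟨_, ⟨s, rfl⟩, c, hc, rfl⟩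

omit [Bad S] in
private theorem sup_df {C : Subgroup Γ} (hC : Df (C : Set Γ)) :
    Df ((𝒜.ι.range ⊔ C : Subgroup Γ) : Set Γ) := by
  rw [sup_coe]
  have h := 𝒜.d_ι
  have h1 : Df {p : Γ × S | ∃ c ∈ (C : Set Γ), p.1 = 𝒜.ι p.2 * c} :=
    Df.exin (P := fun (p : Γ × S) c => p.1 = 𝒜.ι p.2 * c) hC
      (Df.eq (by fun_prop) (by fun_prop))
  exact Df.ex (P := fun g s => ∃ c ∈ (C : Set Γ), g = 𝒜.ι s * c) h1

/-- `Γ = ι(S) (R B)` (`frattini`), `cc (R B)` has finite index in `R B`, so the definable subgroup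
`ι(S) (cc (R B))` (`ι(S)` is normal, `conj_ι`) has finite index in `Γ` and is equal to `Γ`. Let `r ∈ R B`, `r = ι(s) r₀`, `r₀ ∈ cc (R B)`.
`ι(s) ∈ R B`, so `s ∈ B` (`ι_mem_R`); `ι(B)` is connected (`Conn.map`) and contained in `R B`, hence in
`cc (R B)` (`Conn.le_cc`). So `r ∈ cc (R B)` and `R B = cc (R B)` is connected (`cc_conn`).
(With ranks: `rk (ι(S) cc(R B)) = rk Γ` by `rk_mul_sub`, `rk_cc`, since
`ι(S) ⊓ cc (R B) ≥ ι(B)`, and `Conn.eq_of_rk`.) -/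
theorem R_conn (hΓ : Conn (⊤ : Subgroup Γ)) {B : Subgroup S} (hB : Borel B) : Conn (𝒜.R B) := by
  have hR : Df (𝒜.R B : Set Γ) := Df_R 𝒜 hB.1.1
  have hN := range_normal 𝒜
  obtain ⟨K, hK⟩ : ∃ K : Subgroup Γ, K = 𝒜.ι.range ⊔ cc (𝒜.R B) := ⟨_, rfl⟩
  have hKd : Df (K : Set Γ) := by
    rw [hK]
    exact sup_df 𝒜 (Df.cc hR)
  have hNK : 𝒜.ι.range ≤ K := by
    rw [hK]
    exact le_sup_left
  -- finite index
  have h1 : K.relIndex (𝒜.R B) ≠ 0 := by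
    have h2 : cc (𝒜.R B) ≤ K := by
      rw [hK]
      exact le_sup_right
    exact ne_zero_of_dvd_ne_zero (cc_mem hR).2.2 (Subgroup.relIndex_dvd_of_le_left _ h2)
  have hfin : Finite (↥(𝒜.R B) ⧸ K.subgroupOf (𝒜.R B)) := by
    have : (K.subgroupOf (𝒜.R B)).FiniteIndex := ⟨h1⟩
    infer_instance
  have hfin' : Finite (Γ ⧸ K) := by
    refine Finite.of_surjective (fun q : ↥(𝒜.R B) ⧸ K.subgroupOf (𝒜.R B) =>
      (((Quotient.out q : ↥(𝒜.R B)) : Γ) : Γ ⧸ K)) ?_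
    intro x
    obtain ⟨g, rfl⟩ := QuotientGroup.mk_surjective x
    obtain ⟨s, r, hr, rfl⟩ := frattini 𝒜 hB g
    refine ⟨((⟨r, hr⟩ : ↥(𝒜.R B)) : ↥(𝒜.R B) ⧸ K.subgroupOf (𝒜.R B)), ?_⟩
    have h2 : (((Quotient.out ((⟨r, hr⟩ : ↥(𝒜.R B)) : ↥(𝒜.R B) ⧸ K.subgroupOf (𝒜.R B)) :
        ↥(𝒜.R B))) : ↥(𝒜.R B) ⧸ K.subgroupOf (𝒜.R B)) =
        ((⟨r, hr⟩ : ↥(𝒜.R B)) : ↥(𝒜.R B) ⧸ K.subgroupOf (𝒜.R B)) := Quotient.out_eq' _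
    rw [QuotientGroup.eq, Subgroup.mem_subgroupOf] at h2
    have h3 : r⁻¹ * 𝒜.ι s * r ∈ K := by
      have h4 := hN.conj_mem (𝒜.ι s) ⟨s, rfl⟩ r⁻¹
      rw [inv_inv] at h4
      exact hNK h4
    change ((((Quotient.out ((⟨r, hr⟩ : ↥(𝒜.R B)) : ↥(𝒜.R B) ⧸ K.subgroupOf (𝒜.R B)) :
        ↥(𝒜.R B))) : Γ) : Γ ⧸ K) = ((𝒜.ι s * r : Γ) : Γ ⧸ K)
    rw [QuotientGroup.eq]
    have h5 := K.mul_mem h2 h3
    rw [Subgroup.coe_mul, Subgroup.coe_inv] at h5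
    have h6 : ((Quotient.out ((⟨r, hr⟩ : ↥(𝒜.R B)) : ↥(𝒜.R B) ⧸ K.subgroupOf (𝒜.R B)) :
        ↥(𝒜.R B)) : Γ)⁻¹ * r * (r⁻¹ * 𝒜.ι s * r) =
        ((Quotient.out ((⟨r, hr⟩ : ↥(𝒜.R B)) : ↥(𝒜.R B) ⧸ K.subgroupOf (𝒜.R B)) :
        ↥(𝒜.R B)) : Γ)⁻¹ * (𝒜.ι s * r) := by group
    rw [← h6]
    exact h5
  have hKtop : K = ⊤ := hΓ.2 K le_top hKd (by
    rw [Subgroup.relIndex_top_right]
    exact Subgroup.index_ne_zero_of_finite)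
  have hle : 𝒜.R B ≤ cc (𝒜.R B) := by
    intro r hr
    have h2 : r ∈ ((𝒜.ι.range ⊔ cc (𝒜.R B) : Subgroup Γ) : Set Γ) := by
      rw [← hK, hKtop]
      exact Subgroup.mem_top r
    rw [sup_coe] at h2
    obtain ⟨s, c, hc, rfl⟩ := h2
    have hs : 𝒜.ι s ∈ 𝒜.R B := by
      have h3 := (𝒜.R B).mul_mem hr ((𝒜.R B).inv_mem (cc_le hR hc))
      rwa [mul_inv_cancel_right] at h3
    have hsB : s ∈ B := (ι_mem_R 𝒜 hB).1 hs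
    have h4 : B.map 𝒜.ι ≤ cc (𝒜.R B) := by
      refine Conn.le_cc (Conn.map hB.1 𝒜.d_ι) hR ?_
      rintro _ ⟨x, hx, rfl⟩
      exact (ι_mem_R 𝒜 hB).2 hx
    exact (cc (𝒜.R B)).mul_mem (h4 ⟨s, hsB, rfl⟩) hc
  have h5 : cc (𝒜.R B) = 𝒜.R B := le_antisymm (cc_le hR) hle
  rw [← h5]
  exact cc_conn hR

end Pool.Agent.BadG
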