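import Pool.Agent.BadG.Calc

set_option autoImplicit false

/-! BG03. The axioms A, B, C of the rank for sorts. -/

namespace Pool.Agent.BadG

open Function

variable {X : Type} [RU X] {E F H : Type} [RS X E] [RS X F] [RS X H]

private theorem rk_of_ne {A : Set E} (h : A.Nonempty) : rk A = RU.rk (RS.code '' A) := by
  unfold rk
  rw [if_pos h]

/-- the map on the codes -/
private noncomputable def ext (f : E → F) (v0 : RS.ix F → X) : (RS.ix E → X) → (RS.ix F → X) :=
  Function.extend RS.code (fun e => RS.code (f e)) fun _ => v0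

private theorem ext_code (f : E → F) (v0 : RS.ix F → X) (e : E) :
    ext f v0 (RS.code e) = RS.code (f e) :=
  Function.Injective.extend_apply RS.inj _ _ _

private theorem ext_graph {A : Set E} (hA : Df A) {f : E → F} (hf : DefMap f)
    (v0 : RS.ix F → X) : RU.D {v : RS.ix E ⊕ RS.ix F → X | v ∘ Sum.inl ∈ RS.code '' A ∧
      ext f v0 (v ∘ Sum.inl) = v ∘ Sum.inr} := by
  have h1 : {v : RS.ix E ⊕ RS.ix F → X | v ∘ Sum.inl ∈ RS.code '' A ∧
      ext f v0 (v ∘ Sum.inl) = v ∘ Sum.inr} =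
      RS.code '' {p : E × F | p.1 ∈ A ∧ f p.1 = p.2} := by
    ext v
    constructor
    · rintro ⟨⟨e, he, h2⟩, h3⟩
      rw [← h2, ext_code] at h3
      refine ⟨(e, f e), ⟨he, rfl⟩, ?_⟩
      funext i
      rcases i with i | i
      · exact congrFun h2 i
      · exact congrFun h3 i
    · rintro ⟨p, ⟨h2, h3⟩, rfl⟩
      refine ⟨⟨p.1, h2, rfl⟩, ?_⟩
      change ext f v0 (RS.code p.1) = RS.code p.2
      rw [ext_code, h3]
  rw [h1]
  exact Df.and (Df.mem hA DefMap.fst) hf

private theorem ext_image (f : E → F) (v0 : RS.ix F → X) (A : Set E) :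
    ext f v0 '' (RS.code '' A) = RS.code '' (f '' A) := by
  rw [Set.image_image, Set.image_image]
  exact Set.image_congr fun e _ => ext_code f v0 e

private theorem ext_fibre (f : E → F) (v0 : RS.ix F → X) (A : Set E) (b : F) :
    RS.code '' A ∩ ext f v0 ⁻¹' {RS.code b} = RS.code '' (A ∩ f ⁻¹' {b}) := by
  ext v
  constructor
  · rintro ⟨⟨e, he, rfl⟩, h⟩
    have h1 : ext f v0 (RS.code e) = RS.code b := h
    rw [ext_code] at h1
    exact ⟨e, ⟨he, RS.inj h1⟩, rfl⟩
  · rintro ⟨e, ⟨he, h⟩, rfl⟩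
    have h1 : f e = b := h
    refine ⟨⟨e, he, rfl⟩, ?_⟩
    change ext f v0 (RS.code e) = RS.code b
    rw [ext_code, h1]

theorem rk_empty : rk (∅ : Set E) = 0 := by
  unfold rk
  rw [if_neg Set.not_nonempty_empty]

theorem nonempty_of_rk_pos {A : Set E} (h : 0 < rk A) : A.Nonempty := by
  by_contra hne
  unfold rk at h
  rw [if_neg hne] at h
  exact lt_irrefl _ h

/-- Axiom A for sorts. `RU.rk_succ` for `code '' A`: the definable subsets of `code '' A` are the
`code '' B` with `B ⊆ A` (`B = code ⁻¹' B'`, `code '' (code ⁻¹' B') = B'` since `B' ⊆ range code`).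
-/
theorem rk_succ_iff {A : Set E} (hA : Df A) (hne : A.Nonempty) (n : ℕ) :
    n + 1 ≤ rk A ↔ ∃ B : ℕ → Set E, Pairwise (onFun Disjoint B) ∧
      ∀ i, Df (B i) ∧ (B i).Nonempty ∧ B i ⊆ A ∧ n ≤ rk (B i) := by
  have hfin : Finite (RS.ix E) := RS.fin
  rw [rk_of_ne hne, RU.rk_succ hA (hne.image _) n]
  constructor
  · rintro ⟨B', hd, hB⟩
    have him : ∀ i, RS.code '' (RS.code ⁻¹' (B' i) : Set E) = B' i := fun i =>
      Set.image_preimage_eq_of_subset ((hB i).2.2.1.trans (Set.image_subset_range _ _))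
    have hne' : ∀ i, (RS.code ⁻¹' (B' i) : Set E).Nonempty := fun i => by
      rw [← Set.image_nonempty, him i]
      exact (hB i).2.1
    refine ⟨fun i => RS.code ⁻¹' (B' i), fun i j hij => (hd hij).preimage _, fun i =>
      ⟨?_, hne' i, ?_, ?_⟩⟩
    · unfold Df
      rw [him i]
      exact (hB i).1
    · intro e he
      obtain ⟨e', he', hee⟩ := (hB i).2.2.1 he
      rwa [← RS.inj hee]
    · rw [rk_of_ne (hne' i), him i]
      exact (hB i).2.2.2
  · rintro ⟨B, hd, hB⟩
    refine ⟨fun i => RS.code '' (B i), fun i j hij => ?_, fun i =>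
      ⟨(hB i).1, (hB i).2.1.image _, Set.image_mono (hB i).2.2.1, ?_⟩⟩
    · exact (Set.disjoint_image_iff RS.inj).2 (hd hij)
    · rw [← rk_of_ne (hB i).2.1]
      exact (hB i).2.2.2

/-- Axiom C for sorts. Apply `RU.rk_add` to `code '' A` and the map
`f' v = if h : ∃ e, code e = v then code (f (choose h)) else code (f a)` (`a ∈ A`; or
`Function.extend`), so `f' (code e) = code (f e)`. Its graph over `code '' A` is
`code '' {p : E × F | p.1 ∈ A ∧ f p.1 = p.2}`, which is definable; the fibre of `f'` over `code b`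
in
`code '' A` is `code '' (A ∩ f ⁻¹' {b})`; `f' '' (code '' A) = code '' (f '' A)`. -/
theorem rk_add {A : Set E} (hA : Df A) {f : E → F} (hf : DefMap f) (hne : A.Nonempty) (n : ℕ)
    (h : ∀ b ∈ f '' A, rk (A ∩ f ⁻¹' {b}) = n) : rk A = rk (f '' A) + n := by
  have hfin : Finite (RS.ix E) := RS.fin
  have hfin' : Finite (RS.ix F) := RS.fin
  obtain ⟨a, ha⟩ := id hne
  rw [rk_of_ne hne, rk_of_ne (hne.image f), ← ext_image f (RS.code (f a)) A]
  refine RU.rk_add hA (ext_graph hA hf _) (hne.image _) n ?_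
  rw [ext_image]
  rintro _ ⟨b, hb, rfl⟩
  have h1 : (A ∩ f ⁻¹' {b}).Nonempty := by
    obtain ⟨e, he, rfl⟩ := hb
    exact ⟨e, he, rfl⟩
  rw [ext_fibre, ← rk_of_ne h1]
  exact h b hb

/-- Axiom B for sorts, with the same `f'` (if `A` is empty the set is empty). -/
theorem Df_rk_fibre {A : Set E} (hA : Df A) {f : E → F} (hf : DefMap f) (n : ℕ) :
    Df {b : F | (A ∩ f ⁻¹' {b}).Nonempty ∧ rk (A ∩ f ⁻¹' {b}) = n} := by
  have hfin : Finite (RS.ix E) := RS.fin
  have hfin' : Finite (RS.ix F) := RS.fin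
  rcases A.eq_empty_or_nonempty with rfl | ⟨a, ha⟩
  · have h1 : {b : F | ((∅ : Set E) ∩ f ⁻¹' {b}).Nonempty ∧ rk ((∅ : Set E) ∩ f ⁻¹' {b}) = n} =
        ∅ := by
      ext b
      simp
    rw [h1]
    exact Df.empty
  · have h2 := RU.D_rk hA (ext_graph hA hf (RS.code (f a))) n
    have h3 : {b : RS.ix F → X | (RS.code '' A ∩ ext f (RS.code (f a)) ⁻¹' {b}).Nonempty ∧
        RU.rk (RS.code '' A ∩ ext f (RS.code (f a)) ⁻¹' {b}) = n} =
        RS.code '' {b : F | (A ∩ f ⁻¹' {b}).Nonempty ∧ rk (A ∩ f ⁻¹' {b}) = n} := by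
      ext b'
      constructor
      · rintro ⟨h4, h5⟩
        obtain ⟨_, ⟨e, he, rfl⟩, h6⟩ := id h4
        have h7 : ext f (RS.code (f a)) (RS.code e) = b' := h6
        rw [ext_code] at h7
        subst h7
        rw [ext_fibre] at h4 h5
        have h8 : (A ∩ f ⁻¹' {f e}).Nonempty := ⟨e, he, rfl⟩
        exact ⟨f e, ⟨h8, by rw [rk_of_ne h8]; exact h5⟩, rfl⟩
      · rintro ⟨b, ⟨h4, h5⟩, rfl⟩
        refine ⟨?_, ?_⟩
        · rw [ext_fibre]
          exact h4.image _
        · rw [ext_fibre, ← rk_of_ne h4]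
          exact h5
    unfold Df
    rw [← h3]
    exact h2

end Pool.Agent.BadG
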