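import Pool.Agent.BadG.RkAx

set_option autoImplicit false

/-! BG04. The rank: monotone, unions, finite sets, injective maps. -/

namespace Pool.Agent.BadG

open Function

variable {X : Type} [RU X] {E F H : Type} [RS X E] [RS X F] [RS X H]

/-- If `rk A = n + 1` take the disjoint sets of `rk_succ_iff` for `A`; they are subsets of `B`. -/
theorem rk_mono {A B : Set E} (hA : Df A) (hB : Df B) (h : A ⊆ B) : rk A ≤ rk B := by
  rcases Nat.eq_zero_or_pos (rk A) with h0 | h0
  · rw [h0]
    exact Nat.zero_le _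
  · obtain ⟨n, hn⟩ := Nat.exists_eq_add_of_lt h0
    rw [zero_add] at hn
    have hne := nonempty_of_rk_pos h0
    obtain ⟨C, hC1, hC2⟩ := (rk_succ_iff hA hne n).1 hn.ge
    rw [hn]
    exact (rk_succ_iff hB (hne.mono h) n).2
      ⟨C, hC1, fun i => ⟨(hC2 i).1, (hC2 i).2.1, (hC2 i).2.2.1.trans h, (hC2 i).2.2.2⟩⟩

private theorem rkb_sub {A : Set E} (hA : Df A) {C : ℕ → Set E}
    (hC : Pairwise (onFun Disjoint C)) (n : ℕ) (hD : ∀ i, Df (C i)) {S : Set ℕ}
    (hS : S.Infinite) (h : ∀ i ∈ S, (C i ∩ A).Nonempty ∧ n ≤ rk (C i ∩ A)) :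
    A.Nonempty ∧ n + 1 ≤ rk A := by
  have hne : A.Nonempty := by
    obtain ⟨i, hi⟩ := hS.nonempty
    exact (h i hi).1.mono Set.inter_subset_right
  refine ⟨hne, (rk_succ_iff hA hne n).2 ⟨fun j => C (hS.natEmbedding S j) ∩ A, ?_, fun j => ?_⟩⟩
  · intro a b hab
    refine (hC fun h => hab ((hS.natEmbedding S).injective (Subtype.ext h))).mono
      Set.inter_subset_left Set.inter_subset_left
  · exact ⟨(hD _).inter hA, (h _ (hS.natEmbedding S j).2).1, Set.inter_subset_right,
      (h _ (hS.natEmbedding S j).2).2⟩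

private theorem rkb_union (n : ℕ) : ∀ A B : Set E, Df A → Df B → (A ∪ B).Nonempty →
    n ≤ rk (A ∪ B) → (A.Nonempty ∧ n ≤ rk A) ∨ (B.Nonempty ∧ n ≤ rk B) := by
  induction n with
  | zero =>
    intro A B _ _ hne _
    rcases Set.union_nonempty.1 hne with h | h
    · exact Or.inl ⟨h, Nat.zero_le _⟩
    · exact Or.inr ⟨h, Nat.zero_le _⟩
  | succ n ih =>
    intro A B hA hB hne hn
    obtain ⟨C, hC1, hC2⟩ := (rk_succ_iff (hA.union hB) hne n).1 hn
    have key : ∀ i, ((C i ∩ A).Nonempty ∧ n ≤ rk (C i ∩ A)) ∨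
        ((C i ∩ B).Nonempty ∧ n ≤ rk (C i ∩ B)) := by
      intro i
      have h1 : C i = (C i ∩ A) ∪ (C i ∩ B) := by
        rw [← Set.inter_union_distrib_left, Set.inter_eq_left.2 (hC2 i).2.2.1]
      refine ih _ _ ((hC2 i).1.inter hA) ((hC2 i).1.inter hB) ?_ ?_
      · rw [← h1]
        exact (hC2 i).2.1
      · rw [← h1]
        exact (hC2 i).2.2.2
    by_cases hS : {i | (C i ∩ A).Nonempty ∧ n ≤ rk (C i ∩ A)}.Infinite
    · exact Or.inl (rkb_sub hA hC1 n (fun i => (hC2 i).1) hS fun i hi => hi)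
    · have hS' : {i | (C i ∩ A).Nonempty ∧ n ≤ rk (C i ∩ A)}ᶜ.Infinite :=
        (Set.not_infinite.1 hS).infinite_compl
      refine Or.inr (rkb_sub hB hC1 n (fun i => (hC2 i).1) hS' fun i hi => ?_)
      exact (key i).resolve_left hi

/-- `≥` is `rk_mono`. For `≤` prove by induction on `n`, for all definable `A`, `B`: if `A ∪ B` is
nonempty and `n ≤ rk (A ∪ B)`, then (`A` is nonempty and `n ≤ rk A`) or (`B` is nonempty and
`n ≤ rk B`). Step: for the disjoint sets `C i` of `rk_succ_iff` apply the induction hypothesis to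
`C i = (C i ∩ A) ∪ (C i ∩ B)`; one of the two alternatives holds for infinitely many `i`
(reindex: `Set.Infinite.natEmbedding` or `Nat.nth`), apply `rk_succ_iff` to `A` or `B`. -/
theorem rk_union {A B : Set E} (hA : Df A) (hB : Df B) : rk (A ∪ B) = max (rk A) (rk B) := by
  refine le_antisymm ?_ (max_le (rk_mono hA (hA.union hB) Set.subset_union_left)
    (rk_mono hB (hA.union hB) Set.subset_union_right))
  rcases (A ∪ B).eq_empty_or_nonempty with h | h
  · rw [h, rk_empty]
    exact Nat.zero_le _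
  · rcases rkb_union _ A B hA hB h le_rfl with h1 | h1
    · exact h1.2.trans (le_max_left _ _)
    · exact h1.2.trans (le_max_right _ _)

/-- Induction from `rk_union`. -/
theorem rk_biUnion_le {I : Type} (s : Finset I) {A : I → Set E} (h : ∀ i ∈ s, Df (A i)) (n : ℕ)
    (hn : ∀ i ∈ s, rk (A i) ≤ n) : rk (⋃ i ∈ s, A i) ≤ n := by
  classical
  induction s using Finset.induction_on with
  | empty =>
    have h1 : (⋃ i ∈ (∅ : Finset I), A i) = ∅ := by simp
    rw [h1, rk_empty]
    exact Nat.zero_le _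
  | insert a s ha ih =>
    have h1 : ∀ i ∈ s, Df (A i) := fun i hi => h i (Finset.mem_insert_of_mem hi)
    rw [Finset.set_biUnion_insert, rk_union (h a (Finset.mem_insert_self a s))
      (Df.biUnion s h1)]
    exact max_le (hn a (Finset.mem_insert_self a s))
      (ih h1 fun i hi => hn i (Finset.mem_insert_of_mem hi))

/-- `A` finite: no infinite disjoint family of nonempty subsets. -/
theorem rk_of_finite {A : Set E} (hA : A.Finite) : rk A = 0 := by
  by_contra h0
  have h1 : 0 < rk A := Nat.pos_of_ne_zero h0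
  obtain ⟨B, hB1, hB2⟩ := (rk_succ_iff (Df.finite hA) (nonempty_of_rk_pos h1) 0).1 h1
  choose x hx using fun i => (hB2 i).2.1
  refine Set.infinite_of_injective_forall_mem (f := x) (fun i j hij => ?_)
    (fun i => (hB2 i).2.2.1 (hx i)) hA
  by_contra hne
  exact Set.disjoint_left.1 (hB1 hne) (hx i) (hij ▸ hx j)

/-- `A` infinite: the singletons of an infinite sequence of distinct elements. -/
theorem rk_pos_iff {A : Set E} (hA : Df A) : 0 < rk A ↔ A.Infinite := by
  constructor
  · intro h hfin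
    rw [rk_of_finite hfin] at h
    exact lt_irrefl _ h
  · intro h
    refine (rk_succ_iff hA h.nonempty 0).2
      ⟨fun i => {((h.natEmbedding A i : A) : E)}, ?_, fun i => ?_⟩
    · intro a b hab
      refine Set.disjoint_singleton.2 fun h1 => hab ?_
      exact (h.natEmbedding A).injective (Subtype.ext h1)
    · exact ⟨Df.singleton _, Set.singleton_nonempty _,
        Set.singleton_subset_iff.2 (h.natEmbedding A i).2, Nat.zero_le _⟩

/-- The fibres are singletons: `rk_add` with `n = 0`. -/
theorem rk_image_inj {A : Set E} (hA : Df A) {f : E → F} (hf : DefMap f) (hi : Set.InjOn f A) :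
    rk (f '' A) = rk A := by
  rcases A.eq_empty_or_nonempty with h | h
  · rw [h, Set.image_empty, rk_empty, rk_empty]
  · refine ((rk_add hA hf h 0 fun b _ => rk_of_finite ?_).trans (add_zero _)).symm
    refine Set.Subsingleton.finite fun x hx y hy => hi hx.1 hy.1 ?_
    exact (Set.mem_singleton_iff.1 hx.2).trans (Set.mem_singleton_iff.1 hy.2).symm

/-- `rk A ≤ rk (A \ B)` or `rk A ≤ rk B`: `A ⊆ (A \ B) ∪ B`. -/
theorem rk_diff_or {A B : Set E} (hA : Df A) (hB : Df B) : rk A ≤ rk (A \ B) ∨ rk A ≤ rk B := by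
  have h1 : A ⊆ (A \ B) ∪ B := by
    rw [Set.sdiff_union_self]
    exact Set.subset_union_left
  have h2 := rk_mono hA ((hA.diff hB).union hB) h1
  rw [rk_union (hA.diff hB) hB] at h2
  exact le_max_iff.1 h2

/-- Removing a set of smaller rank does not change the rank. -/
theorem rk_diff_eq {A B : Set E} (hA : Df A) (hB : Df B) (h : rk B < rk A) :
    rk (A \ B) = rk A := by
  refine le_antisymm (rk_mono (hA.diff hB) hA Set.sdiff_subset) ?_
  rcases rk_diff_or hA hB with h1 | h1
  · exact h1
  · exact absurd h1 (not_le.2 h)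

/-- Removing a point of an infinite set does not change the rank. -/
theorem rk_diff_singleton {A : Set E} (hA : Df A) (hi : A.Infinite) (a : E) :
    rk (A \ {a}) = rk A := by
  refine rk_diff_eq hA (Df.singleton a) ?_
  rw [rk_of_finite (Set.finite_singleton a)]
  exact (rk_pos_iff hA).2 hi

end Pool.Agent.BadG
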