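import Pool.Agent.BadG.RkBasic

set_option autoImplicit false

/-! BG05. Ranks of fibres and of total spaces. -/

namespace Pool.Agent.BadG

open Function

variable {X : Type} [RU X] {E F H : Type} [RS X E] [RS X F] [RS X H]

private theorem rf_fib_eq (P : Set (E × F)) (e : E) :
    P ∩ Prod.fst ⁻¹' {e} = (fun y => (e, y)) '' fib P e := by
  ext p
  constructor
  · rintro ⟨hp, hpe⟩
    obtain ⟨a, b⟩ := p
    have h : a = e := hpe
    subst h
    exact ⟨b, hp, rfl⟩
  · rintro ⟨y, hy, rfl⟩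
    exact ⟨hy, rfl⟩

private theorem rf_df_fib {P : Set (E × F)} (hP : Df P) (e : E) : Df (fib P e) :=
  Df.mem (f := fun y : F => (e, y)) hP (by fun_prop)

private theorem rf_rk_fib {P : Set (E × F)} (hP : Df P) (e : E) :
    rk (P ∩ Prod.fst ⁻¹' {e}) = rk (fib P e) := by
  rw [rf_fib_eq]
  refine rk_image_inj (rf_df_fib hP e) (by fun_prop) ?_
  intro a _ b _ h
  exact (Prod.mk.inj h).2

private theorem rf_ne_fib (P : Set (E × F)) (e : E) :
    (P ∩ Prod.fst ⁻¹' {e}).Nonempty ↔ ∃ y, (e, y) ∈ P := by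
  rw [rf_fib_eq]
  constructor
  · rintro ⟨_, y, hy, rfl⟩
    exact ⟨y, hy⟩
  · rintro ⟨y, hy⟩
    exact ⟨_, y, hy, rfl⟩

/-- The fibre of `fst` over `e` in `P` is `{e} × fib P e`; `snd` is injective on it
(`rk_image_inj`). So this is `Df_rk_fibre` for `f = Prod.fst`, plus the `e` with `fib P e = ∅`
(the complement of `Prod.fst '' P`) if `m = 0`. -/
theorem Df.rk_fib {P : Set (E × F)} (hP : Df P) (m : ℕ) : Df {e | rk (fib P e) = m} := by
  have h1 : {e | rk (fib P e) = m} = {e | ((P ∩ Prod.fst ⁻¹' {e}).Nonempty ∧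
      rk (P ∩ Prod.fst ⁻¹' {e}) = m) ∨ ((¬ ∃ y, (e, y) ∈ P) ∧ m = 0)} := by
    ext e
    simp only [Set.mem_ofPred_eq]
    rw [rf_ne_fib, rf_rk_fib hP]
    constructor
    · intro h
      by_cases hne : ∃ y, (e, y) ∈ P
      · exact Or.inl ⟨hne, h⟩
      · refine Or.inr ⟨hne, ?_⟩
        by_contra hm
        have h2 : 0 < rk (fib P e) := by
          rw [h]
          exact Nat.pos_of_ne_zero hm
        obtain ⟨y, hy⟩ := nonempty_of_rk_pos h2
        exact hne ⟨y, hy⟩
    · rintro (h | h)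
      · exact h.2
      · have h2 : fib P e = ∅ := by
          ext y
          exact ⟨fun hy => (h.1 ⟨y, hy⟩).elim, fun hy => hy.elim⟩
        rw [h2, rk_empty, h.2]
  rw [h1]
  refine Df.or (Df_rk_fibre hP DefMap.fst m) (Df.and (Df.not (Df.ex ?_)) (Df.const _))
  exact Df.mem (f := fun p : E × F => (p.1, p.2)) hP (by fun_prop)

/-- The complement of the union of the sets `{e | rk (fib P e) = i}`, `i < m`. -/
theorem Df.le_rk_fib {P : Set (E × F)} (hP : Df P) (m : ℕ) : Df {e | m ≤ rk (fib P e)} := by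
  induction m with
  | zero =>
    have h : {e | 0 ≤ rk (fib P e)} = {_e : E | True} := by
      ext e
      simp
    rw [h]
    exact Df.const _
  | succ m ih =>
    have h : {e | m + 1 ≤ rk (fib P e)} = {e | m ≤ rk (fib P e) ∧ ¬ rk (fib P e) = m} := by
      ext e
      simp only [Set.mem_ofPred_eq]
      omega
    rw [h]
    exact Df.and ih (Df.not (Df.rk_fib hP m))

/-- The same for families given by a formula. -/
theorem Df.rk_eq {P : E → F → Prop} (hP : Df {p : E × F | P p.1 p.2}) (m : ℕ) :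
    Df {x | rk {y | P x y} = m} := by
  exact Df.rk_fib hP m

theorem Df.le_rk {P : E → F → Prop} (hP : Df {p : E × F | P p.1 p.2}) (m : ℕ) :
    Df {x | m ≤ rk {y | P x y}} := by
  exact Df.le_rk_fib hP m

/-- Fibres of constant rank, indexed by the points of `A`: this is `rk_add`. -/
theorem rk_map_eq {A : Set E} (hA : Df A) {f : E → F} (hf : DefMap f) (hne : A.Nonempty) (m : ℕ)
    (h : ∀ a ∈ A, rk {x | x ∈ A ∧ f x = f a} = m) : rk A = rk (f '' A) + m := by
  refine rk_add hA hf hne m ?_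
  rintro _ ⟨a, ha, rfl⟩
  exact h a ha

/-- The points whose fibre has rank `i`. -/
private def lev (A : Set E) (f : E → F) (i : ℕ) : Set E :=
  {a | a ∈ A ∧ rk {x | x ∈ A ∧ f x = f a} = i}

private theorem rf_df_lev {A : Set E} (hA : Df A) {f : E → F} (hf : DefMap f) (i : ℕ) :
    Df (lev A f i) := by
  refine Df.and hA (Df.rk_eq (P := fun a x : E => x ∈ A ∧ f x = f a) ?_ i)
  exact Df.and (Df.mem hA DefMap.snd)
    (Df.eq (f := fun p : E × E => f p.2) (g := fun p : E × E => f p.1) (by fun_prop) (by fun_prop))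

private theorem rf_rk_lev {A : Set E} (hA : Df A) {f : E → F} (hf : DefMap f) (i : ℕ)
    (hne : (lev A f i).Nonempty) : rk (lev A f i) = rk (f '' lev A f i) + i := by
  refine rk_map_eq (rf_df_lev hA hf i) hf hne i fun a ha => ?_
  have h : {x | x ∈ lev A f i ∧ f x = f a} = {x | x ∈ A ∧ f x = f a} := by
    ext x
    constructor
    · rintro ⟨hx, hxa⟩
      exact ⟨hx.1, hxa⟩
    · rintro ⟨hx, hxa⟩
      refine ⟨⟨hx, ?_⟩, hxa⟩
      rw [hxa]
      exact ha.2
  rw [h]
  exact ha.2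

/-- Fibres of rank `≤ m`. `A` is the union of the finitely many definable sets
`A_i = {a ∈ A | rk {x | x ∈ A ∧ f x = f a} = i}`, `i ≤ m` (`Df.rk_eq`). The fibres of `f` on `A_i` are
the fibres on `A`, so `rk A_i = rk (f '' A_i) + i ≤ rk (f '' A) + m` or `A_i = ∅`;
`rk_biUnion_le`. -/
theorem rk_map_le {A : Set E} (hA : Df A) {f : E → F} (hf : DefMap f) (m : ℕ)
    (h : ∀ a ∈ A, rk {x | x ∈ A ∧ f x = f a} ≤ m) : rk A ≤ rk (f '' A) + m := by
  have hAi := rf_df_lev hA hf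
  have hcov : A = ⋃ i ∈ Finset.range (m + 1), lev A f i := by
    ext a
    simp only [Set.mem_iUnion, Finset.mem_range]
    constructor
    · intro ha
      exact ⟨_, Nat.lt_succ_of_le (h a ha), ha, rfl⟩
    · rintro ⟨i, _, ha, _⟩
      exact ha
  rw [hcov]
  refine rk_biUnion_le _ (fun i _ => hAi i) _ (fun i hi => ?_)
  rw [← hcov]
  rcases (lev A f i).eq_empty_or_nonempty with h0 | h0
  · rw [h0, rk_empty]
    exact Nat.zero_le _
  · rw [rf_rk_lev hA hf i h0]
    have h1 : rk (f '' lev A f i) ≤ rk (f '' A) :=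
      rk_mono (Df.im hf (hAi i)) (Df.im hf hA) (Set.image_mono fun a ha => ha.1)
    have h2 := Finset.mem_range.1 hi
    omega

/-- Fibres of rank `≥ m`. With the sets `A_i` as in `rk_map_le` (now `m ≤ i ≤ rk A`; the fibres are
subsets of `A`), `f '' A` is the union of the `f '' A_i`, so some nonempty `A_i` has
`rk (f '' A_i) ≥ rk (f '' A)`, and `rk A ≥ rk A_i = rk (f '' A_i) + i`. -/
theorem rk_map_ge {A : Set E} (hA : Df A) {f : E → F} (hf : DefMap f) (hne : A.Nonempty) (m : ℕ)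
    (h : ∀ a ∈ A, m ≤ rk {x | x ∈ A ∧ f x = f a}) : rk (f '' A) + m ≤ rk A := by
  have hAi := rf_df_lev hA hf
  have hfib : ∀ a : E, Df {x | x ∈ A ∧ f x = f a} := fun a =>
    Df.and hA (Df.eq hf (DefMap.const _))
  have hle : ∀ a : E, rk {x | x ∈ A ∧ f x = f a} ≤ rk A := fun a =>
    rk_mono (hfib a) hA fun x hx => hx.1
  rcases Nat.eq_zero_or_pos (rk (f '' A)) with h0 | h0
  · obtain ⟨a, ha⟩ := hne
    have h1 := h a ha
    have h2 := hle a
    omega
  · have hcov : f '' A = ⋃ i ∈ Finset.range (rk A + 1), f '' lev A f i := by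
      ext b
      simp only [Set.mem_iUnion, Finset.mem_range]
      constructor
      · rintro ⟨a, ha, rfl⟩
        exact ⟨_, Nat.lt_succ_of_le (hle a), a, ⟨ha, rfl⟩, rfl⟩
      · rintro ⟨i, _, a, ha, rfl⟩
        exact ⟨a, ha.1, rfl⟩
    obtain ⟨i, hi⟩ : ∃ i, rk (f '' A) ≤ rk (f '' lev A f i) := by
      by_contra hcon
      have hcon' : ∀ i, rk (f '' lev A f i) < rk (f '' A) := by
        intro i
        by_contra h3
        exact hcon ⟨i, not_lt.1 h3⟩
      have h4 : rk (f '' A) ≤ rk (f '' A) - 1 := by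
        conv_lhs => rw [hcov]
        refine rk_biUnion_le _ (fun i _ => Df.im hf (hAi i)) _ (fun i _ => ?_)
        have := hcon' i
        omega
      omega
    have hne' : (lev A f i).Nonempty := by
      have h5 : 0 < rk (f '' lev A f i) := lt_of_lt_of_le h0 hi
      exact (nonempty_of_rk_pos h5).of_image
    have h6 := rf_rk_lev hA hf i hne'
    have h7 : rk (lev A f i) ≤ rk A := rk_mono (hAi i) hA fun a ha => ha.1
    obtain ⟨a, ha⟩ := hne'
    have h8 := h a ha.1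
    rw [ha.2] at h8
    omega

/-- `rk_map_ge` with `m = 0`. -/
theorem rk_image_le {A : Set E} (hA : Df A) {f : E → F} (hf : DefMap f) : rk (f '' A) ≤ rk A := by
  rcases A.eq_empty_or_nonempty with h0 | h0
  · rw [h0, Set.image_empty, rk_empty, rk_empty]
  · exact rk_map_ge hA hf h0 0 fun a _ => Nat.zero_le _

/-- The total space, fibres of rank `≤ m`: `rk_map_le` for `Prod.fst`; the fibre over `e` is
`{e} × fib P e` (`rk_image_inj` for `snd`); `fst '' P ⊆ A`. -/
theorem rk_le_add {P : Set (E × F)} (hP : Df P) {A : Set E} (hA : Df A) (h1 : ∀ p ∈ P, p.1 ∈ A)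
    (m : ℕ) (h2 : ∀ e ∈ A, rk (fib P e) ≤ m) : rk P ≤ rk A + m := by
  have h3 : rk P ≤ rk (Prod.fst '' P) + m := by
    refine rk_map_le hP DefMap.fst m fun p hp => ?_
    have h4 : {x : E × F | x ∈ P ∧ x.1 = p.1} = P ∩ Prod.fst ⁻¹' {p.1} := rfl
    rw [h4, rf_rk_fib hP]
    exact h2 _ (h1 p hp)
  refine h3.trans (Nat.add_le_add_right ?_ m)
  refine rk_mono (Df.im DefMap.fst hP) hA ?_
  rintro _ ⟨p, hp, rfl⟩
  exact h1 p hp

/-- The total space, fibres of rank `≥ m`. -/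
theorem add_le_rk {P : Set (E × F)} (hP : Df P) {A : Set E} (hA : Df A) (hne : A.Nonempty)
    (m : ℕ) (h2 : ∀ e ∈ A, (fib P e).Nonempty ∧ m ≤ rk (fib P e)) : rk A + m ≤ rk P := by
  have hQ : Df {p : E × F | p ∈ P ∧ p.1 ∈ A} := Df.and hP (Df.mem hA DefMap.fst)
  have hfst : Prod.fst '' {p : E × F | p ∈ P ∧ p.1 ∈ A} = A := by
    ext e
    constructor
    · rintro ⟨p, hp, rfl⟩
      exact hp.2
    · intro he
      obtain ⟨y, hy⟩ := (h2 e he).1
      exact ⟨(e, y), ⟨hy, he⟩, rfl⟩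
  have hQne : {p : E × F | p ∈ P ∧ p.1 ∈ A}.Nonempty := by
    obtain ⟨e, he⟩ := hne
    obtain ⟨y, hy⟩ := (h2 e he).1
    exact ⟨(e, y), hy, he⟩
  have h3 := rk_map_ge hQ DefMap.fst hQne m (fun p hp => by
    have h4 : {x : E × F | x ∈ {p : E × F | p ∈ P ∧ p.1 ∈ A} ∧ x.1 = p.1} =
        P ∩ Prod.fst ⁻¹' {p.1} := by
      ext x
      constructor
      · rintro ⟨hx, hxp⟩
        exact ⟨hx.1, hxp⟩
      · rintro ⟨hx, hxp⟩
        have hxp' : x.1 = p.1 := hxp
        exact ⟨⟨hx, by rw [hxp']; exact hp.2⟩, hxp⟩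
    rw [h4, rf_rk_fib hP]
    exact (h2 _ hp.2).2)
  rw [hfst] at h3
  exact h3.trans (rk_mono hQ hP fun p hp => hp.1)

private theorem rf_df_swap {P : Set (E × F)} (hP : Df P) :
    Df {q : F × E | (q.2, q.1) ∈ P} :=
  Df.mem (f := fun q : F × E => (q.2, q.1)) hP (by fun_prop)

private theorem rf_rk_swap {P : Set (E × F)} (hP : Df P) :
    rk {q : F × E | (q.2, q.1) ∈ P} = rk P := by
  have h : {q : F × E | (q.2, q.1) ∈ P} = (fun p : E × F => (p.2, p.1)) '' P := by
    ext q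
    constructor
    · intro hq
      exact ⟨(q.2, q.1), hq, rfl⟩
    · rintro ⟨p, hp, rfl⟩
      exact hp
  rw [h]
  refine rk_image_inj hP (by fun_prop) ?_
  rintro ⟨a, b⟩ _ ⟨c, d⟩ _ h
  have h1 := (Prod.mk.inj h).1
  have h2 := (Prod.mk.inj h).2
  simp only at h1 h2
  rw [h1, h2]

/-- The same with the roles of the coordinates exchanged (`Prod.swap`). -/
theorem rk_le_add' {P : Set (E × F)} (hP : Df P) {B : Set F} (hB : Df B) (h1 : ∀ p ∈ P, p.2 ∈ B)
    (m : ℕ) (h2 : ∀ f ∈ B, rk {e | (e, f) ∈ P} ≤ m) : rk P ≤ rk B + m := by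
  have h3 := rk_le_add (rf_df_swap hP) hB (fun p hp => h1 (p.2, p.1) hp) m
    (fun f hf => h2 f hf)
  rwa [rf_rk_swap hP] at h3

theorem add_le_rk' {P : Set (E × F)} (hP : Df P) {B : Set F} (hB : Df B) (hne : B.Nonempty)
    (m : ℕ) (h2 : ∀ f ∈ B, {e | (e, f) ∈ P}.Nonempty ∧ m ≤ rk {e | (e, f) ∈ P}) :
    rk B + m ≤ rk P := by
  have h3 := add_le_rk (rf_df_swap hP) hB hne m (fun f hf => h2 f hf)
  rwa [rf_rk_swap hP] at h3

theorem rk_prod {A : Set E} {B : Set F} (hA : Df A) (hB : Df B) (hne : A.Nonempty)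
    (hne' : B.Nonempty) : rk (A ×ˢ B) = rk A + rk B := by
  have hP : Df (A ×ˢ B) := Df.and (Df.mem hA DefMap.fst) (Df.mem hB DefMap.snd)
  have hfib : ∀ e ∈ A, fib (A ×ˢ B) e = B := by
    intro e he
    ext y
    exact ⟨fun h => h.2, fun h => ⟨he, h⟩⟩
  apply le_antisymm
  · refine rk_le_add hP hA (fun p hp => hp.1) _ (fun e he => ?_)
    rw [hfib e he]
  · refine add_le_rk hP hA hne _ (fun e he => ?_)
    rw [hfib e he]
    exact ⟨hne', le_rfl⟩

end Pool.Agent.BadG
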