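import Pool.Agent.BadG.Borels

set_option autoImplicit false

/-! BG18. Borel subgroups are self-normalizing. -/

namespace Pool.Agent.BadG

open Function

variable {X : Type} [RU X] {S : Type} [RS X S] [Group S] [Bad S]

private theorem sn_ne_top {B : Subgroup S} (hB : Borel B) :
    Subgroup.normalizer (B : Set S) ≠ ⊤ := by
  intro h
  have h1 : ∀ g : S, ∀ x ∈ B, g * x * g⁻¹ ∈ B := by
    intro g x hx
    have hg : g ∈ Subgroup.normalizer (B : Set S) := by
      rw [h]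
      exact Subgroup.mem_top g
    exact (Subgroup.mem_normalizer_iff.1 hg x).1 hx
  rcases normal_cases h1 with h2 | h2
  · exact hB.ne_bot h2
  · exact hB.2.1 h2

/-- `N(B)` is proper (`normal_cases`) and definable, `cc N(B)` is connected proper and contains `B`
(`Conn.le_cc`), so it is equal to `B`; its rank is `rk N(B)`. -/
theorem rk_normalizer {B : Subgroup S} (hB : Borel B) :
    cc (Subgroup.normalizer (B : Set S)) = B ∧
      rk (Subgroup.normalizer (B : Set S) : Set S) = rk (B : Set S) := by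
  have hN : Df (Subgroup.normalizer (B : Set S) : Set S) := Df.normalizer hB.1.1
  have h1 : cc (Subgroup.normalizer (B : Set S)) = B := by
    refine hB.2.2 _ (cc_conn hN) (fun h => sn_ne_top hB ?_) ?_
    · exact top_le_iff.1 (h ▸ cc_le hN)
    · exact Conn.le_cc hB.1 hN Subgroup.le_normalizer
  refine ⟨h1, ?_⟩
  have h2 := rk_cc hN
  rw [h1] at h2
  exact h2.symm

private theorem sn_inf {B : Subgroup S} (hB : Borel B) : (B : Set S).Infinite :=
  (rk_pos_iff hB.1.1).1 hB.rk_pos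

private theorem sn_eq {B B₃ : Subgroup S} (hB : Borel B) (hB₃ : Borel B₃) {y : S}
    (h : ∀ x, y * x * y⁻¹ ∈ B ↔ x ∈ B)
    (hc : cc (Subgroup.centralizer ({y} : Set S)) ≤ B₃) : B = B₃ := by
  have hN : Df (Subgroup.normalizer (B : Set S) : Set S) := Df.normalizer hB.1.1
  have hC : Df (Subgroup.centralizer ({y} : Set S) : Set S) := Df.centralizer (Df.singleton y)
  have hy : y ∈ Subgroup.normalizer (B : Set S) := by
    rw [Subgroup.mem_normalizer_iff]
    exact fun x => (h x).symm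
  have hnil : Group.IsNilpotent (Subgroup.normalizer (B : Set S)) :=
    Bad.nil _ hN (sn_ne_top hB)
  have hle : B ≤ Subgroup.normalizer (B : Set S) := Subgroup.le_normalizer
  have hinfN : (Subgroup.normalizer (B : Set S) : Set S).Infinite :=
    (sn_inf hB).mono hle
  have hz := inf_centre hN hN hnil le_rfl
    (fun a ha b hb => mul_mem (mul_mem ha hb) (inv_mem ha)) hinfN
  let Z : Subgroup S := Subgroup.normalizer (B : Set S) ⊓
    Subgroup.centralizer (Subgroup.normalizer (B : Set S) : Set S)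
  have hZ : Df (Z : Set S) := Df.inf hN (Df.centralizer hN)
  have hZinf : (Z : Set S).Infinite := by
    refine hz.mono ?_
    rintro z ⟨h1, h2⟩
    refine ⟨h1, ?_⟩
    change z ∈ Subgroup.centralizer _
    rw [Subgroup.mem_centralizer_iff]
    exact fun a ha => (h2 a ha).symm
  have hZC : Z ≤ Subgroup.centralizer ({y} : Set S) := by
    rintro z ⟨-, h2⟩
    change z ∈ Subgroup.centralizer _ at h2
    rw [Subgroup.mem_centralizer_iff] at h2
    rw [mem_cz]
    exact h2 y hy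
  have h1 : cc Z ≤ B₃ := (Conn.le_cc (cc_conn hZ) hC ((cc_le hZ).trans hZC)).trans hc
  have h2 : cc Z ≤ B := by
    have h3 := Conn.le_cc (cc_conn hZ) hN ((cc_le hZ).trans inf_le_left)
    rwa [(rk_normalizer hB).1] at h3
  have h3 : (cc Z : Set S).Infinite := by
    rw [← rk_pos_iff (Df.cc hZ), rk_cc hZ, rk_pos_iff hZ]
    exact hZinf
  exact Borel.eq_of_infinite hB hB₃ (h3.mono fun z hz => ⟨h2 hz, h1 hz⟩)

/-- **Key.** Let `y ≠ 1` normalize `B` and also normalize the Borel subgroup `B'`. Then `B = B'`.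
Indeed `N = N(B)` is nilpotent (proper definable) and infinite, so `Z = {z ∈ N | z commutes with N}` is infinite
(`inf_centre` with `A = H = N`), `Z ≤ C(y)`. `cc C(y)` is contained in a Borel subgroup `B₃`. `Z` as a subgroup is
definable, `cc Z` is infinite, `cc Z ≤ cc C(y) ≤ B₃` and `cc Z ≤ cc N(B) = B`: `B = B₃`
(`Borel.eq_of_infinite`). In the same way `B' = B₃`. -/
theorem eq_of_normalizes {B B' : Subgroup S} (hB : Borel B) (hB' : Borel B') {y : S} (hy : y ≠ 1)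
    (h : ∀ x, y * x * y⁻¹ ∈ B ↔ x ∈ B) (h' : ∀ x, y * x * y⁻¹ ∈ B' ↔ x ∈ B') : B = B' := by
  obtain ⟨B₃, h3, hc⟩ := exists_borel_cc
    (H := Subgroup.centralizer ({y} : Set S)) (Df.centralizer (Df.singleton y)) (cz_ne_top hy)
  exact (sn_eq hB h3 h hc).trans (sn_eq hB' h3 h' hc).symm

private theorem sn_mem {B : Subgroup S} {s y : S} :
    y ∈ B.map (MulAut.conj s⁻¹).toMonoidHom ↔ s * y * s⁻¹ ∈ B := by
  constructor
  · rintro ⟨x, hx, rfl⟩
    have h1 : s * (MulAut.conj s⁻¹).toMonoidHom x * s⁻¹ = x := by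
      change s * (s⁻¹ * x * s⁻¹⁻¹) * s⁻¹ = x
      group
    rw [h1]
    exact hx
  · intro h
    refine ⟨s * y * s⁻¹, h, ?_⟩
    change s⁻¹ * (s * y * s⁻¹) * s⁻¹⁻¹ = y
    group

/-- If `s y s⁻¹` is in the coset `g B` and `g` normalizes `B`, then `y` normalizes `s⁻¹ B s`. -/
private theorem sn_norm {B : Subgroup S} {g s x y : S} (h : ∀ x, g * x * g⁻¹ ∈ B ↔ x ∈ B)
    (hx : x ∈ B) (he : s * y * s⁻¹ = g * x) (z : S) :
    y * z * y⁻¹ ∈ B.map (MulAut.conj s⁻¹).toMonoidHom ↔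
      z ∈ B.map (MulAut.conj s⁻¹).toMonoidHom := by
  rw [sn_mem, sn_mem]
  have h1 : s * (y * z * y⁻¹) * s⁻¹ = g * (x * (s * z * s⁻¹) * x⁻¹) * g⁻¹ := by
    have h2 : s * (y * z * y⁻¹) * s⁻¹ = (s * y * s⁻¹) * (s * z * s⁻¹) * (s * y * s⁻¹)⁻¹ := by
      group
    rw [h2, he]
    group
  rw [h1, h]
  constructor
  · intro h3
    have h4 := mul_mem (mul_mem (inv_mem hx) h3) hx
    have h5 : x⁻¹ * (x * (s * z * s⁻¹) * x⁻¹) * x = s * z * s⁻¹ := by group
    rwa [h5] at h4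
  · intro h3
    exact mul_mem (mul_mem hx h3) (inv_mem hx)

/-- **Conjugates of a coset.** Let `g` normalize `B` and let `A = {g x | x ∈ B}`. Then the union
`{y | ∃ s, s y s⁻¹ ∈ A}` of the conjugates of `A` has rank `rk S`. Proof: consider
`P = {(s, y) | s y s⁻¹ ∈ A, y ≠ 1} ⊆ S × S`. For fixed `s` the fibre is `s⁻¹ (A \ {1}) s` of rank `rk B`:
`rk P ≥ rk S + rk B` (`add_le_rk`). For fixed `y` with `s₀ y s₀⁻¹ ∈ A` and another such `s`: `y` normalizes
`s₀⁻¹ B s₀` and `s⁻¹ B s`, which are Borel subgroups, so they are equal by `eq_of_normalizes`, and `s s₀⁻¹ ∈ N(B)`.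
So the fibre has rank `≤ rk N(B) = rk B` and `rk P ≤ rk (union) + rk B` (`rk_le_add'`). -/
theorem rk_union_coset {B : Subgroup S} (hB : Borel B) {g : S} (h : ∀ x, g * x * g⁻¹ ∈ B ↔ x ∈ B) :
    rk (Set.univ : Set S) ≤ rk {y : S | ∃ s : S, ∃ x ∈ B, s * y * s⁻¹ = g * x} := by
  have hBd : Df (B : Set S) := hB.1.1
  have hU : Df {y : S | ∃ s : S, ∃ x ∈ B, s * y * s⁻¹ = g * x} :=
    Df.ex (Df.exin hBd (Df.eq (by fun_prop) (by fun_prop)))
  have hP : Df {p : S × S | (∃ x ∈ B, p.1 * p.2 * p.1⁻¹ = g * x) ∧ ¬ p.2 = 1} :=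
    Df.and (Df.exin hBd (Df.eq (by fun_prop) (by fun_prop)))
      (Df.not (Df.eq (by fun_prop) (by fun_prop)))
  have h1 : rk (Set.univ : Set S) + rk (B : Set S) ≤
      rk {p : S × S | (∃ x ∈ B, p.1 * p.2 * p.1⁻¹ = g * x) ∧ ¬ p.2 = 1} := by
    refine add_le_rk hP Df.univ Set.univ_nonempty _ fun s _ => ?_
    have hI : Df ((fun x => s⁻¹ * (g * x) * s) '' (B : Set S)) := Df.im (by fun_prop) hBd
    have hinj : Function.Injective (fun x : S => s⁻¹ * (g * x) * s) := by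
      intro a b hab
      change s⁻¹ * (g * a) * s = s⁻¹ * (g * b) * s at hab
      simpa using hab
    have hrI : rk ((fun x => s⁻¹ * (g * x) * s) '' (B : Set S)) = rk (B : Set S) :=
      rk_image_inj hBd (by fun_prop) hinj.injOn
    have hinfI : ((fun x => s⁻¹ * (g * x) * s) '' (B : Set S)).Infinite :=
      (sn_inf hB).image hinj.injOn
    have hf : fib {p : S × S | (∃ x ∈ B, p.1 * p.2 * p.1⁻¹ = g * x) ∧ ¬ p.2 = 1} s =
        ((fun x => s⁻¹ * (g * x) * s) '' (B : Set S)) \ {1} := by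
      ext y
      constructor
      · rintro ⟨⟨x, hx, he⟩, hy⟩
        refine ⟨⟨x, hx, ?_⟩, hy⟩
        change s⁻¹ * (g * x) * s = y
        change s * y * s⁻¹ = g * x at he
        rw [← he]
        group
      · rintro ⟨⟨x, hx, rfl⟩, hy⟩
        refine ⟨⟨x, hx, ?_⟩, hy⟩
        change s * (s⁻¹ * (g * x) * s) * s⁻¹ = g * x
        group
    have hr : rk (fib {p : S × S | (∃ x ∈ B, p.1 * p.2 * p.1⁻¹ = g * x) ∧ ¬ p.2 = 1} s) =
        rk (B : Set S) := by
      rw [hf, rk_diff_singleton hI hinfI, hrI]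
    refine ⟨nonempty_of_rk_pos ?_, hr.ge⟩
    rw [hr]
    exact hB.rk_pos
  have h2 : rk {p : S × S | (∃ x ∈ B, p.1 * p.2 * p.1⁻¹ = g * x) ∧ ¬ p.2 = 1} ≤
      rk {y : S | ∃ s : S, ∃ x ∈ B, s * y * s⁻¹ = g * x} + rk (B : Set S) := by
    refine rk_le_add' hP hU (fun p hp => ⟨p.1, hp.1⟩) _ fun y hy => ?_
    by_cases hy1 : y = 1
    · have he : {e : S | (e, y) ∈ {p : S × S | (∃ x ∈ B, p.1 * p.2 * p.1⁻¹ = g * x) ∧
          ¬ p.2 = 1}} = ∅ := by
        ext e
        exact ⟨fun he => (he.2 hy1).elim, fun he => he.elim⟩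
      rw [he, rk_empty]
      exact Nat.zero_le _
    · obtain ⟨s₀, x₀, hx₀, he₀⟩ := hy
      have hN : Df (Subgroup.normalizer (B : Set S) : Set S) := Df.normalizer hBd
      have hsub : {e : S | (e, y) ∈ {p : S × S | (∃ x ∈ B, p.1 * p.2 * p.1⁻¹ = g * x) ∧
          ¬ p.2 = 1}} ⊆ (fun t => t * s₀) '' (Subgroup.normalizer (B : Set S) : Set S) := by
        rintro s ⟨⟨x, hx, he⟩, -⟩
        change s * y * s⁻¹ = g * x at he
        have hE := eq_of_normalizes (hB.conj s₀⁻¹) (hB.conj s⁻¹) hy1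
          (sn_norm h hx₀ he₀) (sn_norm h hx he)
        refine ⟨s * s₀⁻¹, ?_, ?_⟩
        · change s * s₀⁻¹ ∈ Subgroup.normalizer (B : Set S)
          rw [Subgroup.mem_normalizer_iff]
          intro b
          have h3 : s₀⁻¹ * b * s₀ ∈ B.map (MulAut.conj s₀⁻¹).toMonoidHom ↔
              s₀⁻¹ * b * s₀ ∈ B.map (MulAut.conj s⁻¹).toMonoidHom := by rw [hE]
          rw [sn_mem, sn_mem] at h3
          have h4 : s₀ * (s₀⁻¹ * b * s₀) * s₀⁻¹ = b := by group
          have h5 : s * (s₀⁻¹ * b * s₀) * s⁻¹ = s * s₀⁻¹ * b * (s * s₀⁻¹)⁻¹ := by group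
          rw [h4, h5] at h3
          exact h3
        · change s * s₀⁻¹ * s₀ = s
          group
      have hD : Df {e : S | (e, y) ∈ {p : S × S | (∃ x ∈ B, p.1 * p.2 * p.1⁻¹ = g * x) ∧
          ¬ p.2 = 1}} := Df.mem hP (by fun_prop)
      refine (rk_mono hD (Df.im (by fun_prop) hN) hsub).trans ?_
      rw [rk_mul_right s₀ hN, (rk_normalizer hB).2]
  omega

/-- **`N(B) = B`.** Suppose `g ∉ B` normalizes `B`. By `rk_union_coset` for `g` and for `1` and by `Conn.meet`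
there is `y ≠ 1` with `s y s⁻¹ = g x`, `x ∈ B`, and `t y t⁻¹ ∈ B`. `y` normalizes the Borel subgroups `s⁻¹ B s` and
`t⁻¹ B t`: they are equal by `eq_of_normalizes`, so `y ∈ t⁻¹ B t = s⁻¹ B s` and `g x = s y s⁻¹ ∈ B`, `g ∈ B`.
Contradiction. -/
theorem Borel.self_norm {B : Subgroup S} (hB : Borel B) {g : S}
    (h : ∀ x, g * x * g⁻¹ ∈ B ↔ x ∈ B) : g ∈ B := by
  have hBd : Df (B : Set S) := hB.1.1
  have h1 : ∀ x, (1 : S) * x * 1⁻¹ ∈ B ↔ x ∈ B := by
    intro x
    rw [one_mul, inv_one, mul_one]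
  have hUg : Df {y : S | ∃ s : S, ∃ x ∈ B, s * y * s⁻¹ = g * x} :=
    Df.ex (Df.exin hBd (Df.eq (by fun_prop) (by fun_prop)))
  have hU1 : Df {y : S | ∃ s : S, ∃ x ∈ B, s * y * s⁻¹ = 1 * x} :=
    Df.ex (Df.exin hBd (Df.eq (by fun_prop) (by fun_prop)))
  have hpos : 0 < rk ((⊤ : Subgroup S) : Set S) := by
    rw [Subgroup.coe_top]
    exact rk_top_pos
  obtain ⟨y, ⟨s, x, hx, he⟩, ⟨t, x', hx', he'⟩, hy⟩ := Conn.meet (H := (⊤ : Subgroup S))
    conn_top hpos hUg hU1 (fun _ _ => Subgroup.mem_top _) (fun _ _ => Subgroup.mem_top _)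
    (by rw [Subgroup.coe_top]; exact rk_union_coset hB h)
    (by rw [Subgroup.coe_top]; exact rk_union_coset hB h1)
  have hE := eq_of_normalizes (hB.conj s⁻¹) (hB.conj t⁻¹) hy
    (sn_norm h hx he) (sn_norm h1 hx' he')
  have h2 : y ∈ B.map (MulAut.conj t⁻¹).toMonoidHom := by
    rw [sn_mem, he', one_mul]
    exact hx'
  rw [← hE, sn_mem, he] at h2
  have h3 := mul_mem h2 (inv_mem hx)
  rwa [mul_inv_cancel_right] at h3

end Pool.Agent.BadG
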