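import Pool.Agent.BadG.Cover

set_option autoImplicit false

/-! BG20. Twisted conjugation. `φ` is a definable automorphism of `S`, `y ∈ S`; the automorphism
`MulAut.conj y * φ` is `x ↦ y φ(x) y⁻¹`. The element `s⁻¹ y φ(s)` is the twisted conjugate of `y`
by `s`. -/

namespace Pool.Agent.BadG

open Function

variable {X : Type} [RU X] {S : Type} [RS X S] [Group S]

/-- The elements `y` such that `x ↦ y φ(x) y⁻¹` normalizes `B`. -/
def Tw (φ : MulAut S) (B : Subgroup S) : Set S := {y | Fixes (MulAut.conj y * φ) B}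

/-- The union of the sets `Tw φ B` over all Borel subgroups. -/
def YY (φ : MulAut S) : Set S := {y | ∃ B : Subgroup S, Borel B ∧ y ∈ Tw φ B}

/-- `x ↦ y' φ(x) y'⁻¹` for `y' = s⁻¹ y φ(s)` is the conjugate by `s` of the one for `y`. -/
theorem twist_apply (φ : MulAut S) (y s x : S) :
    (MulAut.conj (s⁻¹ * y * φ s) * φ) x = s⁻¹ * (MulAut.conj y * φ) (s * x * s⁻¹) * s := by
  simp only [MulAut.mul_apply, MulAut.conj_apply]
  rw [map_mul φ, map_mul φ, map_inv φ]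
  group

private theorem tw_mem_map {B : Subgroup S} {s x : S} :
    x ∈ B.map (MulAut.conj s).toMonoidHom ↔ s⁻¹ * x * s ∈ B := by
  constructor
  · rintro ⟨b, hb, rfl⟩
    have h : s⁻¹ * (MulAut.conj s).toMonoidHom b * s = b := by
      change s⁻¹ * (s * b * s⁻¹) * s = b
      group
    rw [h]
    exact hb
  · intro h
    refine ⟨s⁻¹ * x * s, h, ?_⟩
    change s * (s⁻¹ * x * s) * s⁻¹ = x
    group

theorem mem_Tw_conj {φ : MulAut S} {B : Subgroup S} {y s : S} :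
    y ∈ Tw φ (B.map (MulAut.conj s).toMonoidHom) ↔ s⁻¹ * y * φ s ∈ Tw φ B := by
  constructor
  · intro h x
    have h1 := h (s * x * s⁻¹)
    rw [tw_mem_map, tw_mem_map] at h1
    rw [twist_apply, h1]
    have h2 : s⁻¹ * (s * x * s⁻¹) * s = x := by group
    rw [h2]
  · intro h x
    have h1 := h (s⁻¹ * x * s)
    rw [twist_apply] at h1
    have h2 : s * (s⁻¹ * x * s) * s⁻¹ = x := by group
    rw [h2] at h1
    rw [tw_mem_map, tw_mem_map]
    exact h1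

/-- Twisted conjugates have conjugate fixed points. -/
theorem twist_fix {φ : MulAut S} {y s x : S} :
    (MulAut.conj (s⁻¹ * y * φ s) * φ) x = x ↔
      (MulAut.conj y * φ) (s * x * s⁻¹) = s * x * s⁻¹ := by
  rw [twist_apply]
  constructor
  · intro h
    calc (MulAut.conj y * φ) (s * x * s⁻¹)
        = s * (s⁻¹ * (MulAut.conj y * φ) (s * x * s⁻¹) * s) * s⁻¹ := by group
      _ = s * x * s⁻¹ := by rw [h]
  · intro h
    rw [h]
    group

variable [Bad S]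

/-- `{y | ∀ x, y φ(x) y⁻¹ ∈ B ↔ x ∈ B}`. -/
theorem Df_Tw {φ : MulAut S} (hφ : DefMap φ) {B : Subgroup S} (hB : Df (B : Set S)) :
    Df (Tw φ B) := by
  have h : Tw φ B = {y | ∀ x, y * φ x * y⁻¹ ∈ (B : Set S) ↔ x ∈ (B : Set S)} := rfl
  rw [h]
  exact Df.all (Df.iff (Df.mem hB (by fun_prop)) (Df.mem hB (by fun_prop)))

private theorem tw_comp {φ : MulAut S} {y z x : S} :
    (MulAut.conj z * φ) x = z * y⁻¹ * (MulAut.conj y * φ) x * (z * y⁻¹)⁻¹ := by
  change z * φ x * z⁻¹ = z * y⁻¹ * (y * φ x * y⁻¹) * (z * y⁻¹)⁻¹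
  group

private theorem tw_iff {φ : MulAut S} {B : Subgroup S} (hB : Borel B) {y : S} (hy : y ∈ Tw φ B)
    (z : S) : z ∈ Tw φ B ↔ z * y⁻¹ ∈ B := by
  constructor
  · intro hz
    refine hB.self_norm fun x => ?_
    have h1 := hz ((MulAut.conj y * φ)⁻¹ x)
    have h2 := hy ((MulAut.conj y * φ)⁻¹ x)
    rw [tw_comp (y := y)] at h1
    rw [MulAut.apply_inv_self] at h1 h2
    exact h1.trans h2.symm
  · intro hg x
    rw [tw_comp (y := y), ← hy x]
    constructor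
    · intro h
      have h1 := B.mul_mem (B.mul_mem (B.inv_mem hg) h) hg
      have h2 : (z * y⁻¹)⁻¹ * (z * y⁻¹ * (MulAut.conj y * φ) x * (z * y⁻¹)⁻¹) * (z * y⁻¹) =
          (MulAut.conj y * φ) x := by group
      rwa [h2] at h1
    · intro h
      exact B.mul_mem (B.mul_mem hg h) (B.inv_mem hg)

/-- `φ(B)` is a Borel subgroup, so `φ(B) = y⁻¹ B y` for some `y` (`Borel.conjugate`), and
`Tw φ B` is the coset `B y` by `Borel.self_norm`. -/
theorem exists_Tw {φ : MulAut S} (hφ : DefMap φ) {B : Subgroup S} (hB : Borel B) :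
    ∃ y, y ∈ Tw φ B ∧ ∀ z, z ∈ Tw φ B ↔ z * y⁻¹ ∈ B := by
  obtain ⟨g, hg⟩ := Borel.conjugate (hB.map_aut hφ) hB
  have h1 : g ∈ Tw φ B := by
    intro x
    have h2 : ∀ z, z ∈ B ↔ z ∈ (B.map φ.toMonoidHom).map (MulAut.conj g).toMonoidHom := by
      intro z
      rw [← hg]
    constructor
    · intro h
      obtain ⟨u, ⟨b, hb, rfl⟩, hu⟩ := (h2 _).1 h
      have h3 : (MulAut.conj g * φ) b = (MulAut.conj g * φ) x := hu
      rw [← (MulAut.conj g * φ).injective h3]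
      exact hb
    · intro h
      exact (h2 _).2 ⟨φ x, ⟨x, h, rfl⟩, rfl⟩
  exact ⟨g, h1, tw_iff hB h1⟩

/-- `Tw φ B` is a coset `B y` of `B` for each of its elements `y`. -/
theorem mem_Tw_iff {φ : MulAut S} {B : Subgroup S} (hB : Borel B) {y : S} (hy : y ∈ Tw φ B)
    (z : S) : z ∈ Tw φ B ↔ z * y⁻¹ ∈ B :=
  tw_iff hB hy z

theorem rk_Tw {φ : MulAut S} (hφ : DefMap φ) {B : Subgroup S} (hB : Borel B) :
    (Tw φ B).Nonempty ∧ rk (Tw φ B) = rk (B : Set S) := by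
  obtain ⟨y, hy, h⟩ := exists_Tw hφ hB
  refine ⟨⟨y, hy⟩, ?_⟩
  have h1 : Tw φ B = (fun x => x * y) '' (B : Set S) := by
    ext z
    rw [h z]
    constructor
    · intro hz
      exact ⟨z * y⁻¹, hz, inv_mul_cancel_right z y⟩
    · rintro ⟨b, hb, rfl⟩
      change b * y * y⁻¹ ∈ B
      rw [mul_inv_cancel_right]
      exact hb
  rw [h1]
  exact rk_mul_right y hB.1.1

/-- `fixes_of_mem`. -/
theorem mem_Tw_of_fixed {φ : MulAut S} (hφ : DefMap φ) {B : Subgroup S} (hB : Borel B) {f z : S}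
    (hf : f ≠ 1) (hm : f ∈ B) (h : (MulAut.conj z * φ) f = f) : z ∈ Tw φ B :=
  fixes_of_mem hB (DefMap.aut_mul (DefMap.aut_conj z) hφ) hf hm (by rw [h]; exact hm)

/-- For a fixed Borel subgroup `B`: `YY φ = {y | ∃ s, s⁻¹ y φ(s) ∈ Tw φ B}` (`Borel.conjugate`,
`mem_Tw_conj`). -/
theorem mem_YY {φ : MulAut S} {B : Subgroup S} (hB : Borel B) {y : S} :
    y ∈ YY φ ↔ ∃ s, s⁻¹ * y * φ s ∈ Tw φ B := by
  constructor
  · rintro ⟨B', hB', h⟩
    obtain ⟨s, rfl⟩ := Borel.conjugate hB hB'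
    exact ⟨s, mem_Tw_conj.1 h⟩
  · rintro ⟨s, h⟩
    exact ⟨_, hB.conj s, mem_Tw_conj.2 h⟩

theorem Df_YY {φ : MulAut S} (hφ : DefMap φ) : Df (YY φ) := by
  obtain ⟨B, hB⟩ := exists_borel (S := S)
  have h : YY φ = {y | ∃ s, s⁻¹ * y * φ s ∈ Tw φ B} := by
    ext y
    exact mem_YY hB
  rw [h]
  exact Df.ex (Df.mem (Df_Tw hφ hB.1.1) (by fun_prop))

/-- `YY φ` is closed under twisted conjugation. -/
theorem YY_twist {φ : MulAut S} {y s : S} (h : y ∈ YY φ) : s⁻¹ * y * φ s ∈ YY φ := by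
  obtain ⟨B, hB, hy⟩ := h
  refine ⟨_, hB.conj s⁻¹, mem_Tw_conj.2 ?_⟩
  have h1 : s⁻¹⁻¹ * (s⁻¹ * y * φ s) * φ s⁻¹ = y := by
    rw [map_inv]
    group
  rw [h1]
  exact hy

end Pool.Agent.BadG
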