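import Pool.Agent.BadG.Twist
import Pool.Agent.BadG.Lang

set_option autoImplicit false

/-! BG21. Case one: some `x ↦ z φ(x) z⁻¹` which normalizes `B` has no fixed point `≠ 1` in `B`. -/

namespace Pool.Agent.BadG

open Function

variable {X : Type} [RU X] {S : Type} [RS X S] [Group S] [Bad S]

private theorem def_psi {φ : MulAut S} (hφ : DefMap φ) (z : S) :
    DefMap (MulAut.conj z * φ : MulAut S) := by
  have h : DefMap (fun x => z * φ x * z⁻¹) := by fun_prop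
  exact h

private theorem psi_apply (φ : MulAut S) (z x : S) :
    (MulAut.conj z * φ) x = z * φ x * z⁻¹ := rfl

/-- Every element of `Tw φ B` is a twisted conjugate of `z` by an element of `B`. -/
private theorem lang_tw {φ : MulAut S} (hφ : DefMap φ) {B : Subgroup S} (hB : Borel B) {z : S}
    (hz : z ∈ Tw φ B) (hfix : ∀ x ∈ B, (MulAut.conj z * φ) x = x → x = 1) {y : S}
    (hy : y ∈ Tw φ B) : ∃ u ∈ B, y = u⁻¹ * z * φ u := by
  have hb : y * z⁻¹ ∈ B := (mem_Tw_iff hB hz y).1 hy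
  obtain ⟨u, hu, h⟩ := lang hB.1 hB.nil (def_psi hφ z) hz hfix hb
  refine ⟨u, hu, ?_⟩
  rw [psi_apply] at h
  calc y = y * z⁻¹ * z := by group
    _ = u⁻¹ * (z * φ u * z⁻¹) * z := by rw [h]
    _ = u⁻¹ * z * φ u := by group

/-- `Tw φ B = B z` (`mem_Tw_iff`) and every element `b z` is the twisted conjugate `u⁻¹ z φ(u)` of `z` by some
`u ∈ B`: `lang` for `ψ = MulAut.conj z * φ` gives `b = u⁻¹ ψ(u) = u⁻¹ z φ(u) z⁻¹`. Since
`YY φ = {y | ∃ s, s⁻¹ y φ(s) ∈ Tw φ B}` (`mem_YY`), all elements of `YY φ` are twisted conjugates of `z`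
(`y = s (u⁻¹ z φ(u)) φ(s)⁻¹ = (u s⁻¹)⁻¹ z φ(u s⁻¹)`). -/
theorem case_one_conj {φ : MulAut S} (hφ : DefMap φ) {B : Subgroup S} (hB : Borel B) {z : S}
    (hz : z ∈ Tw φ B) (hfix : ∀ x ∈ B, (MulAut.conj z * φ) x = x → x = 1) {y : S}
    (hy : y ∈ YY φ) : ∃ s, y = s⁻¹ * z * φ s := by
  obtain ⟨s, hs⟩ := (mem_YY hB).1 hy
  obtain ⟨u, -, h⟩ := lang_tw hφ hB hz hfix hs
  refine ⟨u * s⁻¹, ?_⟩
  rw [map_mul, map_inv]
  calc y = s * (s⁻¹ * y * φ s) * (φ s)⁻¹ := by group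
    _ = s * (u⁻¹ * z * φ u) * (φ s)⁻¹ := by rw [h]
    _ = (u * s⁻¹)⁻¹ * z * (φ u * (φ s)⁻¹) := by group

/-- First for `y = z`: let `f ≠ 1` be a fixed point of `ψ = MulAut.conj z * φ`. `B' = bo f` is a Borel subgroup
with `z ∈ Tw φ B'` (`mem_Tw_of_fixed`). `B' = s B s⁻¹` for some `s` (`Borel.conjugate`), `y' = s⁻¹ z φ(s) ∈ Tw φ B`
(`mem_Tw_conj`). By Lang as in `case_one_conj`, `y' = u⁻¹ z φ(u)` with `u ∈ B`, so `z = (u s⁻¹)⁻¹ z φ(u s⁻¹)`. By `twist_fix`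
(with `u s⁻¹`) `f' = (u s⁻¹) f (u s⁻¹)⁻¹` is a fixed point of `ψ`; `s⁻¹ f s ∈ B` and `u ∈ B`, so `f' ∈ B`, `f' ≠ 1`: against
`hfix`. For general `y` use `case_one_conj` and `twist_fix`. -/
theorem case_one_fix {φ : MulAut S} (hφ : DefMap φ) {B : Subgroup S} (hB : Borel B) {z : S}
    (hz : z ∈ Tw φ B) (hfix : ∀ x ∈ B, (MulAut.conj z * φ) x = x → x = 1) {y : S}
    (hy : y ∈ YY φ) {x : S} (hx : (MulAut.conj y * φ) x = x) : x = 1 := by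
  have h0 : ∀ f, (MulAut.conj z * φ) f = f → f = 1 := by
    intro f hf
    by_contra hne
    have hz' : z ∈ Tw φ (bo f) := mem_Tw_of_fixed hφ (bo_borel f) hne (mem_bo f) hf
    obtain ⟨s, hs⟩ := hB.conjugate (bo_borel f)
    rw [hs, mem_Tw_conj] at hz'
    obtain ⟨u, hu, h⟩ := lang_tw hφ hB hz hfix hz'
    have hzz : z = (u * s⁻¹)⁻¹ * z * φ (u * s⁻¹) := by
      rw [map_mul, map_inv]
      calc z = s * (s⁻¹ * z * φ s) * (φ s)⁻¹ := by group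
        _ = s * (u⁻¹ * z * φ u) * (φ s)⁻¹ := by rw [h]
        _ = (u * s⁻¹)⁻¹ * z * (φ u * (φ s)⁻¹) := by group
    have h1 : (MulAut.conj ((u * s⁻¹)⁻¹ * z * φ (u * s⁻¹)) * φ) f = f := by
      rw [← hzz]
      exact hf
    have h2 := twist_fix.1 h1
    have hfm : f ∈ B.map (MulAut.conj s).toMonoidHom := by
      rw [← hs]
      exact mem_bo f
    obtain ⟨b, hb, hbf⟩ := Subgroup.mem_map.1 hfm
    have hbf' : s * b * s⁻¹ = f := hbf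
    have h3 : u * s⁻¹ * f * (u * s⁻¹)⁻¹ = u * b * u⁻¹ := by
      rw [← hbf']
      group
    have h4 : u * s⁻¹ * f * (u * s⁻¹)⁻¹ ∈ B := by
      rw [h3]
      exact B.mul_mem (B.mul_mem hu hb) (B.inv_mem hu)
    have h5 := hfix _ h4 h2
    exact hne (conj_eq_one_iff.1 h5)
  obtain ⟨s, rfl⟩ := case_one_conj hφ hB hz hfix hy
  exact conj_eq_one_iff.1 (h0 _ (twist_fix.1 hx))

/-- `YY φ` contains the injective image of `S` under `s ↦ s⁻¹ z φ(s)` (`YY_twist`; injective by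
`case_one_fix`: `s⁻¹ z φ(s) = t⁻¹ z φ(t)` iff `t s⁻¹` is fixed by `MulAut.conj z * φ`). -/
theorem case_one_rk {φ : MulAut S} (hφ : DefMap φ) {B : Subgroup S} (hB : Borel B) {z : S}
    (hz : z ∈ Tw φ B) (hfix : ∀ x ∈ B, (MulAut.conj z * φ) x = x → x = 1) :
    rk (Set.univ : Set S) ≤ rk (YY φ) := by
  have hzY : z ∈ YY φ := ⟨B, hB, hz⟩
  have hU : Df (Set.univ : Set S) := Df.univ
  have hd : DefMap (fun s => s⁻¹ * z * φ s) := by fun_prop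
  have hinj : Set.InjOn (fun s => s⁻¹ * z * φ s) (Set.univ : Set S) := by
    intro s _ t _ hst
    change s⁻¹ * z * φ s = t⁻¹ * z * φ t at hst
    have h1 : (MulAut.conj z * φ) (t * s⁻¹) = t * s⁻¹ := by
      rw [psi_apply, map_mul, map_inv]
      calc z * (φ t * (φ s)⁻¹) * z⁻¹ = t * (t⁻¹ * z * φ t) * (φ s)⁻¹ * z⁻¹ := by group
        _ = t * (s⁻¹ * z * φ s) * (φ s)⁻¹ * z⁻¹ := by rw [hst]
        _ = t * s⁻¹ := by group
    have h2 := case_one_fix hφ hB hz hfix hzY h1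
    exact (mul_inv_eq_one.1 h2).symm
  rw [← rk_image_inj hU hd hinj]
  refine rk_mono (Df.im hd hU) (Df_YY hφ) ?_
  rintro _ ⟨s, -, rfl⟩
  exact YY_twist hzY

/-- If an automorphism `φ` without fixed points `≠ 1` normalizes the Borel subgroups `B₁` and `B₂`, then
`B₁ = B₂`. Let `B₂ = s⁻¹ B₁ s` (`Borel.conjugate`). `1 ∈ Tw φ B₁`, so `s⁻¹ φ(s) ∈ Tw φ B₂` (`mem_Tw_conj`), and
`1 ∈ Tw φ B₂`, so `s⁻¹ φ(s) ∈ B₂` (`mem_Tw_iff`). By `lang` for `φ` and `B₂`, `s⁻¹ φ(s) = u⁻¹ φ(u)` with `u ∈ B₂`: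
`φ(u s⁻¹) = u s⁻¹`, `u s⁻¹ = 1`, `s = u ∈ B₂`, so `B₁ = s B₂ s⁻¹ = B₂`. -/
theorem unique_of_no_fix {φ : MulAut S} (hφ : DefMap φ) (hfix : ∀ x, φ x = x → x = 1)
    {B₁ B₂ : Subgroup S} (h1 : Borel B₁) (h2 : Borel B₂) (f1 : Fixes φ B₁) (f2 : Fixes φ B₂) :
    B₁ = B₂ := by
  obtain ⟨g, hg⟩ := h2.conjugate h1
  have hone : ∀ {B : Subgroup S}, Fixes φ B → (1 : S) ∈ Tw φ B := by
    intro B hB x
    rw [psi_apply, one_mul, inv_one, mul_one]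
    exact hB x
  have e1 : g⁻¹ * 1 * φ g ∈ Tw φ B₂ := by
    rw [← mem_Tw_conj, ← hg]
    exact hone f1
  have hb : g⁻¹ * φ g ∈ B₂ := by
    have h := (mem_Tw_iff h2 (hone f2) _).1 e1
    rwa [mul_one, inv_one, mul_one] at h
  obtain ⟨u, hu, h⟩ := lang h2.1 h2.nil hφ f2 (fun x _ => hfix x) hb
  have h3 : φ (u * g⁻¹) = u * g⁻¹ := by
    rw [map_mul, map_inv]
    calc φ u * (φ g)⁻¹ = u * (u⁻¹ * φ u) * (φ g)⁻¹ := by group
      _ = u * (g⁻¹ * φ g) * (φ g)⁻¹ := by rw [h]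
      _ = u * g⁻¹ := by group
  have h4 : u = g := mul_inv_eq_one.1 (hfix _ h3)
  rw [h4] at hu
  rw [hg]
  ext x
  rw [Subgroup.mem_map]
  constructor
  · rintro ⟨b, hb', rfl⟩
    exact B₂.mul_mem (B₂.mul_mem hu hb') (B₂.inv_mem hu)
  · intro hx
    refine ⟨g⁻¹ * x * g, B₂.mul_mem (B₂.mul_mem (B₂.inv_mem hu) hx) hu, ?_⟩
    change g * (g⁻¹ * x * g) * g⁻¹ = x
    group

end Pool.Agent.BadG
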