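import Pool.Agent.BadG.OfLang
import Pool.Agent.BadG.AutThm

set_option autoImplicit false

/-! BG39. Theorem (A) over Mathlib's definable sets, for a bad group definable in any ranked structure. -/

namespace Pool.Agent.BadG

open Function

universe u v

private theorem dg_of_graph {X : Type} [RU X] {E : Type} [Group E] (i : E → X) (hi : Injective i)
    (h : RU.D {v : Fin 1 → X | v 0 ∈ i '' (Set.univ : Set E)})
    (hmul : RU.D {v : Fin 3 → X | ∃ s t : E, v 0 = i s ∧ v 1 = i t ∧ v 2 = i (s * t)}) :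
    @DG X _ E (injSort i hi h) _ := by
  let _ := injSort i hi h
  refine ⟨?_⟩
  have h1 : RS.code '' {p : (E × E) × E | (fun q : E × E => q.1 * q.2) p.1 = p.2} =
      ((fun v : (Fin 1 ⊕ Fin 1) ⊕ Fin 1 → X =>
        v ∘ ![Sum.inl (Sum.inl 0), Sum.inl (Sum.inr 0), Sum.inr 0]) ⁻¹'
        {v : Fin 3 → X | ∃ s t : E, v 0 = i s ∧ v 1 = i t ∧ v 2 = i (s * t)}) := by
    ext v
    constructor
    · rintro ⟨p, hp, rfl⟩
      exact ⟨p.1.1, p.1.2, rfl, rfl, congrArg i hp.symm⟩
    · rintro ⟨s, t, h0, h1, h2⟩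
      refine ⟨((s, t), s * t), rfl, ?_⟩
      funext k
      rcases k with (k | k) | k
      · cases Subsingleton.elim (α := Fin 1) 0 k
        exact h0.symm
      · cases Subsingleton.elim (α := Fin 1) 0 k
        exact h1.symm
      · cases Subsingleton.elim (α := Fin 1) 0 k
        exact h2.symm
  unfold DefMap Df
  rw [h1]
  exact RU.D_pre _ hmul

/-- **Theorem (A).** A definable automorphism `α ≠ 1` of a bad group normalizes exactly one Borel
subgroup. -/
theorem unique_borel (L : FirstOrder.Language.{u, v}) (X : Type) [L.Structure X] (ℛ : RankFn L X)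
    (S : Type) [Group S] (i : S → X) (hi : Injective i) (hS : DIn L i Set.univ)
    (hmul : DFn L {v : Fin 3 → X | ∃ s t : S, v 0 = i s ∧ v 1 = i t ∧ v 2 = i (s * t)})
    (hbad : BadIn L S i) (α : MulAut S) (hα : α ≠ 1)
    (hd : DFn L {v : Fin 2 → X | ∃ s : S, v 0 = i s ∧ v 1 = i (α s)}) :
    ∃! B : Subgroup S, BorelIn L i B ∧ ∀ x, α x ∈ B ↔ x ∈ B := by
  let iRU : RU X := toRU ℛ
  let iS : RS X S := injSort i hi hS
  have dS : DG S := dg_of_graph i hi hS hmul
  have hDf : ∀ A : Set S, Df A ↔ DIn L i A := fun A => Df_injSort _ hi hS A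
  have hConn : ∀ H : Subgroup S, Conn H ↔ ConnIn L i H := by
    intro H
    unfold Conn ConnIn
    simp only [hDf]
  have hBorel : ∀ B : Subgroup S, Borel B ↔ BorelIn L i B := by
    intro B
    unfold Borel BorelIn
    simp only [hConn]
  have hBad : Bad S :=
    { dS with
      simple := hbad.simple
      inf := hbad.inf
      nil := fun H h1 h2 => hbad.nil H ((hDf _).1 h1) h2 }
  have hα' : DefMap α := (defMap_inj_inj _ hi hS _ hi hS α).2 hd
  obtain ⟨B, hB, hf⟩ := aut_exists hα'
  refine ⟨B, ⟨(hBorel B).1 hB, hf⟩, ?_⟩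
  rintro B' ⟨hB', hf'⟩
  exact aut_unique hα' hα ((hBorel B').2 hB') hB hf' hf

end Pool.Agent.BadG
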